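import Pool.Agent.Lib.MP_d61fbb_ag.SE.A3

/-! Counting the zeros of the Anderson function. -/

set_option autoImplicit false

noncomputable section

namespace Pool.Agent.Lib.MP_d61fbb_ag.SE

open Polynomial Function Finset

theorem a4_fix {F : Type} [Field F] (p : ℕ) [Fact p.Prime] [CharP F p] {c : F} (h : c ^ p = c) :
    ∃ a : Fin p, ((a : ℕ) : F) = c := by
  have h1 := (Subfield.mem_bot_iff_pow_eq_self F p).2 h
  obtain ⟨n, rfl⟩ := (mem_bot_iff_intCast p F).1 h1
  have hp : (0 : ℤ) < p := by exact_mod_cast (Fact.out : p.Prime).pos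
  have h2 := Int.emod_nonneg n hp.ne'
  have h3 := Int.emod_lt_of_pos n hp
  refine ⟨⟨(n % p).toNat, by omega⟩, ?_⟩
  rw [← Int.cast_natCast, Int.toNat_of_nonneg h2]
  exact (CharP.intCast_eq_intCast_mod F p).symm

theorem a4_base {F : Type} [Field F] (p : ℕ) [Fact p.Prime] [CharP F p] {H : F[X]}
    (hH : H.Monic) (h : H.map (frobenius F p) = H) :
    ∃ a : Fin H.natDegree → Fin p, ∀ u, H.eval u = gv a u := by
  have h1 : ∀ i : Fin H.natDegree, ∃ a : Fin p, ((a : ℕ) : F) = H.coeff i := fun i =>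
    a4_fix p (by rw [← frobenius_def, ← coeff_map, h])
  choose a ha using h1
  refine ⟨a, fun u => ?_⟩
  rw [eval_eq_sum_range, sum_range_succ, hH.coeff_natDegree, one_mul, add_comm, gv,
    Finset.sum_range]
  simp only [ha]

theorem a4_peel {F : Type} [Field F] (p : ℕ) [Fact p.Prime] [CharP F p] (D : ℕ) {x : F} :
    ∀ {H : F[X]} {t : F}, H.Monic → H.natDegree = D →
      H.map (frobenius F p) * (X - C t) = H * (X - C x) →
      ∃ i j, i + j = D ∧ ∃ a : Fin j → Fin p, x = t ^ p ^ i ∧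
        ∀ u, H.eval u = gv a u * ∏ s ∈ range i, (u - t ^ p ^ s) := by
  induction D using Nat.strong_induction_on with
  | _ D ih =>
    intro H t hH hD h
    by_cases e : x = t
    · subst e
      obtain ⟨a, ha⟩ := a4_base p hH (mul_right_cancel₀ (X_sub_C_ne_zero x) h)
      exact ⟨0, _, (zero_add _).trans hD, a, by simp, by simpa using ha⟩
    · have h1 : H.IsRoot t := by
        have h2 := congrArg (Polynomial.eval t) h
        simp only [eval_mul, eval_sub, eval_X, eval_C, sub_self, mul_zero] at h2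
        exact (mul_eq_zero.1 h2.symm).resolve_right (sub_ne_zero.2 (Ne.symm e))
      obtain ⟨G, rfl⟩ := dvd_iff_isRoot.2 h1
      have hG : G.Monic := (monic_X_sub_C t).of_mul_monic_left hH
      rw [(monic_X_sub_C t).natDegree_mul hG, natDegree_X_sub_C] at hD
      obtain ⟨i, j, h2, a, h3, h4⟩ := ih G.natDegree (by omega) (t := t ^ p) hG rfl (by
        refine mul_left_cancel₀ (X_sub_C_ne_zero t) ?_
        rw [Polynomial.map_mul, Polynomial.map_sub, map_X, map_C, frobenius_def] at h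
        linear_combination h)
      refine ⟨i + 1, j, by omega, a, by rw [h3, pow_succ', pow_mul], fun u => ?_⟩
      rw [eval_mul, h4, prod_range_succ']
      simp only [pow_succ', pow_mul, eval_sub, eval_X, eval_C, pow_zero, pow_one]
      ring

theorem peel {F : Type} [Field F] (p : ℕ) [Fact p.Prime] [CharP F p] {D : ℕ} {H : F[X]}
    (hH : H.Monic) (hD : H.natDegree = D) {t x : F}
    (h : H.map (frobenius F p) * (X - C t) = H * (X - C x)) :
    ∃ i ≤ D, ∃ a : Fin (D - i) → Fin p, x = t ^ p ^ i ∧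
      ∀ u, H.eval u = gv a u * ∏ s ∈ range i, (u - t ^ p ^ s) := by
  obtain ⟨i, j, h1, h2⟩ := a4_peel p D hH hD h
  obtain rfl : j = D - i := by omega
  exact ⟨i, by omega, h2⟩

/-- The monic polynomial with given lower coefficients. -/
def a4_gp (k : Type) [Field k] {p j : ℕ} (a : Fin j → Fin p) : k[X] :=
  X ^ j + ∑ i, C ((a i : ℕ) : k) * X ^ (i : ℕ)

section

variable {k : Type} [Field k] {p l d j : ℕ}

theorem a4_eval (a : Fin j → Fin p) (u : k) : (a4_gp k a).eval u = gv a u := by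
  simp [a4_gp, gv, eval_finsetSum]

theorem a4_monic (a : Fin j → Fin p) : (a4_gp k a).Monic :=
  monic_X_pow_add (degree_sum_fin_lt _)

theorem a4_deg (a : Fin j → Fin p) : (a4_gp k a).natDegree = j := by
  refine natDegree_eq_of_degree_eq_some ?_
  rw [a4_gp, degree_add_eq_left_of_degree_lt, degree_X_pow]
  rw [degree_X_pow]
  exact degree_sum_fin_lt _

theorem a4_inj [CharP k p] {a b : Fin j → Fin p} (h : a4_gp k a = a4_gp k b) : a = b := by
  have h1 : ∀ (c : Fin j → k) (n : Fin j), (∑ i, C (c i) * X ^ (i : ℕ)).coeff n = c n := by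
    intro c n
    simp [coeff_X_pow, Fin.val_inj]
  funext n
  have h2 := congrArg (coeff · n) (add_left_cancel h)
  simp only [h1] at h2
  exact Fin.ext (CharP.natCast_injOn_Iio k p (a n).2 (b n).2 h2)

variable [Fact p.Prime] [CharP k p]

theorem a4_frob (a : Fin j → Fin p) (u : k) : gv a u ^ p = gv a (u ^ p) := by
  rw [← frobenius_def, ← frobenius_def]
  simp only [gv, map_add, map_pow, map_sum, map_mul, map_natCast]

variable (T : Dat k p l d)

theorem a4_t (i : ℕ) : ∏ j, (T.t ^ p ^ i - T.r j) = (T.s ^ p ^ i) ^ l := by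
  induction i with
  | zero => rw [pow_zero, pow_one, pow_one, T.eq]
  | succ i ih =>
    rw [pow_succ, pow_mul, pow_mul, pow_right_comm (T.s ^ p ^ i), ← ih, ← prod_pow,
      ← Equiv.prod_comp T.π fun j => (T.t ^ p ^ i) ^ p - T.r j]
    simp only [sub_pow_char, T.fr]

theorem a4_s (i : ℕ) :
    (∏ j, ∏ s ∈ range i, (T.r j - T.t ^ p ^ s)) ^ ((p - 1) / l) * T.s = T.s ^ p ^ i := by
  obtain ⟨h1, -, h3⟩ := T.even_m
  generalize (p - 1) / l = m at h1 h3
  induction i with
  | zero => simp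
  | succ i ih =>
    have h4 : (∏ j, (T.r j - T.t ^ p ^ i)) ^ m = ((T.s ^ p ^ i) ^ l) ^ m := by
      rw [← a4_t, ← prod_pow, ← prod_pow]
      exact prod_congr rfl fun j _ => by rw [← neg_sub, h1.neg_pow]
    have h5 : ∀ z : k, z ^ p = (z ^ l) ^ m * z := fun z => by
      rw [← pow_mul, ← pow_succ, mul_comm, h3]
    simp only [prod_range_succ, prod_mul_distrib, mul_pow]
    rw [mul_right_comm, ih, h4, pow_succ p i, pow_mul, h5 (T.s ^ p ^ i), mul_comm]

/-- The solution which belongs to a monic polynomial over the prime field. -/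
def a4_E (i : ℕ) (a : Fin j → Fin p) (n : Fin (d + 1)) : k :=
  gv a (T.r n) * ∏ s ∈ range i, (T.r n - T.t ^ p ^ s)

theorem a4_E1 (i : ℕ) (a : Fin j → Fin p) (n : Fin (d + 1)) :
    a4_E T i a n ^ p * (T.r (T.π n) - T.t) = (T.r (T.π n) - T.t ^ p ^ i) * a4_E T i a (T.π n) := by
  have h1 := prod_range_succ' (fun s => T.r (T.π n) - T.t ^ p ^ s) i
  rw [prod_range_succ, pow_zero, pow_one] at h1
  rw [a4_E, a4_E, mul_pow, a4_frob, ← prod_pow]
  simp only [sub_pow_char, T.fr, ← pow_mul, ← pow_succ]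
  linear_combination -gv a (T.r (T.π n)) * h1

theorem a4_E2 (i : ℕ) (a : Fin j → Fin p) :
    (∏ n, a4_E T i a n) ^ ((p - 1) / l) * T.s =
      (∏ n, gv a (T.r n)) ^ ((p - 1) / l) * T.s ^ p ^ i := by
  simp only [a4_E]
  rw [prod_mul_distrib, mul_pow, mul_assoc, a4_s]

theorem a4_E3 {i : ℕ} (hi : i ≤ d) (a : Fin (d - i) → Fin p) : T.top (a4_E T i a) = 1 := by
  have h1 : (∏ s ∈ range i, (X - C (T.t ^ p ^ s))).Monic :=
    monic_prod_of_monic _ _ fun _ _ => monic_X_sub_C _
  have h2 : (a4_gp k a * ∏ s ∈ range i, (X - C (T.t ^ p ^ s))).natDegree = d := by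
    rw [(a4_monic a).natDegree_mul h1, a4_deg, natDegree_finsetProd_X_sub_C_eq_card, card_range]
    omega
  have h3 := T.itp_unique (F := k) h2.le
  have h4 := ((a4_monic (k := k) a).mul h1).coeff_natDegree
  have h5 : a4_E T i a = fun n => (a4_gp k a * ∏ s ∈ range i, (X - C (T.t ^ p ^ s))).eval
      (algebraMap k k (T.r n)) := by
    funext n
    simp [a4_E, a4_eval, eval_prod]
  rw [h2] at h4
  rw [← (T.itp_deg _).2, h5, h3, h4]

theorem a4_E4 {i : ℕ} (hj : j ≤ d) {a b : Fin j → Fin p} (h : a4_E T i a = a4_E T i b) : a = b := by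
  refine a4_inj (k := k) ?_
  rw [← T.itp_unique (F := k) ((a4_deg a).trans_le hj),
    ← T.itp_unique (F := k) ((a4_deg b).trans_le hj)]
  congr 1
  funext n
  rw [a4_eval, a4_eval]
  exact mul_right_cancel₀ (prod_ne_zero_iff.2 fun s _ => sub_ne_zero.2 (T.t_ne s n).symm)
    (congrFun h n)

end

theorem Dat.card_top {k : Type} [Field k] {p l d : ℕ} (T : Dat k p l d) [Fact p.Prime]
    [CharP k p] {x y : k} (hy : y ≠ 0) :
    {e ∈ T.Sol x y | T.top e = 1}.ncard = T.num x y := by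
  classical
  rw [Dat.num, sum_sigma', ← card_filter, ← Set.ncard_coe_finset]
  refine (Set.ncard_congr (fun z _ => a4_E T z.1 z.2) ?_ ?_ ?_).symm
  · rintro ⟨i, a⟩ h
    simp only [coe_filter, mem_sigma, mem_range, mem_univ, and_true, Set.mem_ofPred_eq] at h
    obtain ⟨h1, rfl, rfl⟩ := h
    exact ⟨⟨a4_E1 T i a, a4_E2 T i a⟩, a4_E3 T (by omega) a⟩
  · rintro ⟨i, a⟩ ⟨i', b⟩ h h' e
    simp only [coe_filter, mem_sigma, mem_range, mem_univ, and_true, Set.mem_ofPred_eq] at h h'
    obtain rfl : i = i' := T.gen i (by omega) i' (by omega) (h.2.1.symm.trans h'.2.1)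
    obtain rfl : a = b := a4_E4 T (Nat.sub_le _ _) e
    rfl
  · rintro e ⟨he, h1⟩
    obtain ⟨h2, h3⟩ := T.itp_deg e
    have h4 := T.itp_id he
    rw [h1] at h3
    rw [h1, one_pow, sub_self, C_0, zero_mul, sub_eq_zero] at h4
    obtain ⟨i, hi, a, h5, h6⟩ := peel p (monic_of_natDegree_le_of_coeff_eq_one d h2 h3)
      (natDegree_eq_of_le_of_coeff_ne_zero h2 (h3 ▸ one_ne_zero)) h4
    have h7 : a4_E T i a = e := funext fun n => (h6 (T.r n)).symm.trans (T.itp_eval e n)
    refine ⟨⟨i, a⟩, ?_, h7⟩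
    simp only [coe_filter, mem_sigma, mem_range, mem_univ, and_true, Set.mem_ofPred_eq]
    refine ⟨by omega, h5, ?_⟩
    rw [← a4_E2, h7]
    exact he.2.symm

end Pool.Agent.Lib.MP_d61fbb_ag.SE
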