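import Pool.Agent.Lib.MP_d61fbb_ag.SE.A4

/-! The valuation of the Anderson function. -/

set_option autoImplicit false

noncomputable section

namespace Pool.Agent.Lib.MP_d61fbb_ag.SE

open Polynomial Function Finset

section cg

variable {k : Type} [Field k] {F : Type} [Field F] [Algebra k F] {Γ : Type}
  [LinearOrderedCommGroupWithZero Γ] {v : Valuation F Γ}

/-- Congruence to a constant. -/
def a5_Cg (v : Valuation F Γ) (a : F) (c : k) : Prop := v (a - algebraMap k F c) < 1

theorem a5_refl (c : k) : a5_Cg v (algebraMap k F c) c := by simp [a5_Cg]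

theorem a5_add {a b : F} {c e : k} (h : a5_Cg v a c) (h' : a5_Cg v b e) :
    a5_Cg v (a + b) (c + e) := by
  rw [a5_Cg, map_add, add_sub_add_comm]
  exact v.map_add_lt h h'

theorem a5_sub {a b : F} {c e : k} (h : a5_Cg v a c) (h' : a5_Cg v b e) :
    a5_Cg v (a - b) (c - e) := by
  rw [a5_Cg, map_sub (algebraMap k F), sub_sub_sub_comm]
  exact v.map_sub_lt h h'

theorem a5_sum {ι : Type} (s : Finset ι) {a : ι → F} {c : ι → k} (h : ∀ i, a5_Cg v (a i) (c i)) :
    a5_Cg v (∑ i ∈ s, a i) (∑ i ∈ s, c i) := by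
  classical
  induction s using Finset.induction_on with
  | empty => simp [a5_Cg]
  | insert i s hi ih => rw [sum_insert hi, sum_insert hi]; exact a5_add (h i) ih

theorem a5_root [IsAlgClosed k] {a : F} {P : k[X]} (hP : P.Monic) (h : v (aeval a P) < 1) :
    ∃ c : k, a5_Cg v a c := by
  by_contra hc
  simp only [a5_Cg, not_exists, not_lt] at hc
  rw [(IsAlgClosed.splits P).eq_prod_roots_of_monic hP, map_multiset_prod, map_multiset_prod] at h
  refine h.not_ge (Multiset.one_le_prod_of_one_le fun g hg => ?_)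
  simp only [Multiset.map_map, Multiset.mem_map, comp_apply, map_sub, aeval_X, aeval_C] at hg
  obtain ⟨c, -, rfl⟩ := hg
  exact hc c

variable (hv : ∀ c : k, c ≠ 0 → v (algebraMap k F c) = 1)

include hv

theorem a5_const (c : k) : v (algebraMap k F c) ≤ 1 := by
  by_cases h : c = 0
  · simp [h]
  · exact (hv c h).le

theorem a5_le {a : F} {c : k} (h : a5_Cg v a c) : v a ≤ 1 := by
  rw [← sub_add_cancel a (algebraMap k F c)]
  exact v.map_add_le (le_of_lt h) (a5_const hv c)

theorem a5_val {a : F} {c : k} (h : a5_Cg v a c) (hc : c ≠ 0) : v a = 1 := by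
  rw [← hv c hc]
  exact v.map_eq_of_sub_lt ((hv c hc).symm ▸ h)

theorem a5_unique {a : F} {c e : k} (h : a5_Cg v a c) (h' : a5_Cg v a e) : c = e := by
  by_contra hn
  have h2 := a5_val hv (a5_sub h h') (sub_ne_zero.2 hn)
  rw [sub_self, map_zero] at h2
  exact zero_ne_one h2

theorem a5_mul {a b : F} {c e : k} (h : a5_Cg v a c) (h' : a5_Cg v b e) :
    a5_Cg v (a * b) (c * e) := by
  have e1 : a * b - algebraMap k F (c * e) =
      a * (b - algebraMap k F e) + (a - algebraMap k F c) * algebraMap k F e := by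
    rw [map_mul]; ring
  rw [a5_Cg, e1]
  refine v.map_add_lt ?_ ?_ <;> rw [map_mul]
  · exact (mul_le_of_le_one_left' (a5_le hv h)).trans_lt h'
  · exact (mul_le_of_le_one_right' (a5_const hv e)).trans_lt h

theorem a5_pow {a : F} {c : k} (h : a5_Cg v a c) (n : ℕ) : a5_Cg v (a ^ n) (c ^ n) := by
  induction n with
  | zero => simp [a5_Cg]
  | succ n ih => rw [pow_succ, pow_succ]; exact a5_mul hv ih h

theorem a5_prod {ι : Type} (s : Finset ι) {a : ι → F} {c : ι → k} (h : ∀ i, a5_Cg v (a i) (c i)) :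
    a5_Cg v (∏ i ∈ s, a i) (∏ i ∈ s, c i) := by
  classical
  induction s using Finset.induction_on with
  | empty => simp [a5_Cg]
  | insert i s hi ih => rw [prod_insert hi, prod_insert hi]; exact a5_mul hv (h i) ih

theorem a5_aeval {a : F} {c : k} (h : a5_Cg v a c) (G : k[X]) :
    a5_Cg v (aeval a G) (G.eval c) := by
  induction G using Polynomial.induction_on' with
  | add P Q hP hQ => rw [map_add, eval_add]; exact a5_add hP hQ
  | monomial n b => rw [aeval_monomial, eval_monomial]; exact a5_mul hv (a5_refl b) (a5_pow hv h n)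

theorem a5_top {p l d : ℕ} (T : Dat k p l d) {e : Fin (d + 1) → F} {c : Fin (d + 1) → k}
    (h : ∀ i, a5_Cg v (e i) (c i)) : a5_Cg v (T.top e) (T.top c) :=
  a5_sum _ fun i => a5_mul hv (h i) (a5_refl _)

end cg

namespace Dat

variable {k : Type} [Field k] [IsAlgClosed k] {p l d : ℕ} (T : Dat k p l d) [Fact p.Prime]
  [CharP k p] {F : Type} [Field F] [Algebra k F] {Γ : Type} [LinearOrderedCommGroupWithZero Γ]
  (v : Valuation F Γ) (hv : ∀ c : k, c ≠ 0 → v (algebraMap k F c) = 1) {x y : F} {x1 y1 : k}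
  (hx : v (x - algebraMap k F x1) < 1) (hy : v (y - algebraMap k F y1) < 1) (h0 : y1 ≠ 0)
  (h1 : ∀ i, x1 ≠ T.r i)

include hv hx hy h0 h1

theorem exists_res {e : Fin (d + 1) → F} (he : e ∈ T.Sol x y) :
    ∃ e1 ∈ T.Sol x1 y1, (∀ i, v (e i - algebraMap k F (e1 i)) < 1) ∧
      (v (T.top e - 1) < 1 ↔ T.top e1 = 1) := by
  have hy0 : y ≠ 0 := fun h => by
    have h2 := a5_val hv hy h0
    rw [h, map_zero] at h2
    exact zero_ne_one h2
  have key : ∀ i, ∃ c : k, a5_Cg v (e i) c := by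
    intro i
    obtain ⟨N, G, hN, hG, h⟩ := T.exists_iter i
    have ht : G.eval T.t ≠ 0 := hG _ fun j => by simpa using T.t_ne 0 j
    obtain ⟨m, hm⟩ : ∃ m, p ^ N = m + 1 + 1 :=
      ⟨p ^ N - 2, by have := Nat.one_lt_pow hN.ne' (Fact.out : p.Prime).one_lt; omega⟩
    have h2 := h F x y e he
    rw [hm, pow_succ, mul_right_comm] at h2
    have h3 : e i ^ (m + 1) = aeval x G * algebraMap k F (G.eval T.t)⁻¹ := by
      rw [← mul_right_cancel₀ (T.sol_ne hy0 he i) h2, mul_assoc, ← map_mul, mul_inv_cancel₀ ht,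
        map_one, mul_one]
    refine a5_root (monic_X_pow_sub_C (G.eval x1 * (G.eval T.t)⁻¹) m.succ_ne_zero) ?_
    rw [map_sub, map_pow, aeval_X, aeval_C, h3]
    exact a5_mul hv (a5_aeval hv hx G) (a5_refl _)
  choose c hc using key
  have ht := a5_top hv T hc
  refine ⟨c, ⟨fun i => ?_, ?_⟩, hc, fun h => ?_, fun h => ?_⟩
  · exact a5_unique hv (a5_mul hv (a5_pow hv (hc i) p) (a5_refl _))
      (he.1 i ▸ a5_mul hv (a5_sub (a5_refl _) hx) (hc _))
  · exact a5_unique hv (a5_mul hv (a5_pow hv (a5_prod hv _ hc) _) (a5_refl _)) (he.2 ▸ hy)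
  · exact a5_unique hv ht (by rwa [a5_Cg, map_one])
  · rwa [a5_Cg, h, map_one] at ht

theorem card_res (hne : (T.Sol x y).Nonempty) :
    {e ∈ T.Sol x y | v (T.top e - 1) < 1}.ncard = T.num x1 y1 := by
  have hy0 : y ≠ 0 := fun h => by
    have h2 := a5_val hv hy h0
    rw [h, map_zero] at h2
    exact zero_ne_one h2
  choose res r1 r2 r3 using fun e (he : e ∈ T.Sol x y) => T.exists_res v hv hx hy h0 h1 he
  rw [← T.card_top h0]
  refine Set.ncard_congr (fun e he => res e he.1) (fun e he => ⟨r1 e he.1, (r3 e he.1).1 he.2⟩)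
    (fun e e' he he' h => ?_) fun b hb => ?_
  · obtain ⟨c, -, -, hc⟩ := T.sol_ratio hy0 he.1 he'.1
    funext i
    have h2 := a5_mul hv (a5_refl (c i)) (r2 e' he'.1 i)
    rw [← hc i] at h2
    have h3 := a5_unique hv h2 (r2 e he.1 i)
    rw [show res e he.1 = res e' he'.1 from h] at h3
    rw [hc i, (mul_eq_right₀ (T.sol_ne h0 (r1 e' he'.1) i)).1 h3, map_one, one_mul]
  · obtain ⟨e, he⟩ := hne
    obtain ⟨c, c1, c2, hc⟩ := T.sol_ratio h0 hb.1 (r1 e he)
    have h2 := T.sol_mul he c1 c2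
    have h3 : res _ h2 = b := funext fun i =>
      (a5_unique hv (r2 _ h2 i) (a5_mul hv (a5_refl (c i)) (r2 e he i))).trans (hc i).symm
    exact ⟨_, ⟨h2, (r3 _ h2).2 (h3.symm ▸ hb.2)⟩, h3⟩

theorem val_prod (hne : (T.Sol x y).Nonempty) :
    v (∏ e ∈ (T.sol_finite x y).toFinset, (T.top e - 1)) =
      v (x - algebraMap k F x1) ^ T.num x1 y1 := by
  classical
  have e1 : {e ∈ T.Sol x y | v (T.top e - 1) < 1} =
      ↑({e ∈ (T.sol_finite x y).toFinset | v (T.top e - 1) < 1} : Finset _) := by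
    ext e
    simp
  rw [← T.card_res v hv hx hy h0 h1 hne, e1, Set.ncard_coe_finset, ← prod_const, prod_filter,
    map_prod]
  refine prod_congr rfl fun e he => ?_
  rw [Set.Finite.mem_toFinset] at he
  obtain ⟨c, -, c2, c3⟩ := T.exists_res v hv hx hy h0 h1 he
  split_ifs with h
  · exact T.val_top v hv he (fun i => a5_le hv (c2 i)) hx h
  · have h2 := a5_sub (a5_top hv T c2) (a5_refl (1 : k))
    rw [map_one] at h2
    exact a5_val hv h2 (sub_ne_zero.2 fun h3 => h (c3.2 h3))

end Dat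

end Pool.Agent.Lib.MP_d61fbb_ag.SE
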