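import Pool.Agent.Lib.MP_d61fbb_ag.SE.C2
import Pool.Agent.Lib.MP_d61fbb_ag.SE.CD2

/-! Divisors of functions and divisor classes. -/

set_option autoImplicit false

noncomputable section

namespace Pool.Agent.Lib.MP_d61fbb_ag.SE

open Polynomial Function IsDedekindDomain

variable {k : Type} [Field k] {l : ℕ} {f : k[X]} [Sm l f]

theorem io_inj : Injective (io l f) := by
  exact IsFractionRing.injective _ _

theorem pl_inj : Injective (pl l f) := by
  exact io_inj.comp (po_inj (Sm.prime f).ne_zero)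

theorem yl_ne : yl l f ≠ 0 := by
  intro h
  have e := yl_pow (l := l) (f := f)
  rw [h, zero_pow (Sm.prime f).ne_zero] at e
  exact (Sm.monic l).ne_zero (pl_inj (e.symm.trans (map_zero _).symm))

theorem c3_x (a : k) : po l f (X - C a) ≠ 0 :=
  (map_ne_zero_iff _ (po_inj (Sm.prime f).ne_zero)).2 (X_sub_C_ne_zero a)

variable [IsAlgClosed k]

/-- The prime attached to a point. -/
def mx : Pt l f ≃ HeightOneSpectrum (Crv k l f) :=
  Equiv.ofBijective (fun P => ⟨RingHom.ker P.ev, P.ker_prime, P.ker_ne⟩)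
    ⟨fun _ _ h => Pt.ker_inj (congrArg HeightOneSpectrum.asIdeal h), fun v =>
      (exists_pt v.asIdeal v.isPrime v.ne_bot).imp fun _ h => HeightOneSpectrum.ext h⟩

theorem mem_mx {P : Pt l f} {b : Crv k l f} : b ∈ (mx P).asIdeal ↔ P.ev b = 0 := Iff.rfl

/-- The divisor of a function. -/
def dv (b : Fn l f) : Dv l f :=
  Finsupp.ofSupportFinite (fun P => cnt (mx P) b) ((cnt_finite b).preimage mx.injective.injOn)

theorem dv_apply (b : Fn l f) (P : Pt l f) : dv b P = cnt (mx P) b := rfl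

/-- The class of a divisor. -/
def cl : Dv l f →+ Jac k l f :=
  Finsupp.liftAddHom fun P => zmultiplesHom _ ((exists_pcl (Crv k l f)).choose (mx P))

theorem c3_mem (a : Au l f) (Q : Pt l f) (b : Crv k l f) :
    a.B b ∈ (mx (a.P Q)).asIdeal ↔ b ∈ (mx Q).asIdeal := by
  rw [mem_mx, mem_mx, a.ev_B, map_eq_zero]

theorem c3_single (P : Pt l f) (n : ℤ) :
    cl (Finsupp.single P n) = n • (exists_pcl (Crv k l f)).choose (mx P) := by
  rw [cl, Finsupp.liftAddHom_apply_single]
  rfl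

theorem c3_cl (D : Dv l f) : cl D =
    (D.equivMapDomain mx).sum fun v n => n • (exists_pcl (Crv k l f)).choose v := by
  rw [Finsupp.sum_equivMapDomain]
  rfl

theorem dv_zero : dv (0 : Fn l f) = 0 := by
  exact Finsupp.ext fun P => cnt_zero

theorem dv_one : dv (1 : Fn l f) = 0 := by
  refine Finsupp.ext fun P => ?_
  have := cnt_mul (v := mx P) (one_ne_zero (α := Fn l f)) one_ne_zero
  rw [mul_one] at this
  exact left_eq_add.1 this

theorem dv_mul {a b : Fn l f} (ha : a ≠ 0) (hb : b ≠ 0) : dv (a * b) = dv a + dv b := by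
  exact Finsupp.ext fun P => cnt_mul ha hb

theorem dv_inv (a : Fn l f) : dv a⁻¹ = -dv a := by
  rcases eq_or_ne a 0 with rfl | h
  · rw [inv_zero, dv_zero, neg_zero]
  · rw [eq_neg_iff_add_eq_zero, ← dv_mul (inv_ne_zero h) h, inv_mul_cancel₀ h, dv_one]

theorem dv_div {a b : Fn l f} (ha : a ≠ 0) (hb : b ≠ 0) : dv (a / b) = dv a - dv b := by
  rw [div_eq_mul_inv, dv_mul ha (inv_ne_zero hb), dv_inv, sub_eq_add_neg]

theorem dv_pow (a : Fn l f) (n : ℕ) : dv (a ^ n) = n • dv a := by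
  rcases eq_or_ne a 0 with rfl | h
  · cases n
    · rw [pow_zero, dv_one, zero_smul]
    · rw [zero_pow (Nat.succ_ne_zero _), dv_zero, smul_zero]
  induction n with
  | zero => rw [pow_zero, dv_one, zero_smul]
  | succ n ih => rw [pow_succ, dv_mul (pow_ne_zero _ h) h, ih, succ_nsmul]

theorem dv_zpow (a : Fn l f) (n : ℤ) : dv (a ^ n) = n • dv a := by
  obtain ⟨m, rfl | rfl⟩ := Int.eq_nat_or_neg n
  · rw [zpow_natCast, dv_pow, natCast_zsmul]
  · rw [zpow_neg, zpow_natCast, dv_inv, dv_pow, neg_smul, natCast_zsmul]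

theorem dv_prod {ι : Type} (s : Finset ι) (a : ι → Fn l f) (h : ∀ i ∈ s, a i ≠ 0) :
    dv (∏ i ∈ s, a i) = ∑ i ∈ s, dv (a i) := by
  induction s using Finset.cons_induction with
  | empty => exact dv_one
  | cons i s hi ih =>
    have h' : ∀ j ∈ s, a j ≠ 0 := fun j hj => h j (Finset.mem_cons_of_mem hj)
    rw [Finset.prod_cons, Finset.sum_cons,
      dv_mul (h i (Finset.mem_cons_self _ _)) (Finset.prod_ne_zero_iff.2 h'), ih h']

theorem dv_const (c : k) : dv (pl l f (C c)) = 0 := by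
  rcases eq_or_ne c 0 with rfl | h
  · rw [map_zero, map_zero, dv_zero]
  · refine Finsupp.ext fun P => (cnt_eq_zero_iff fun e => h ?_).2 (by simpa [mem_mx] using h)
    simpa using congrArg P.ev e

theorem dv_nonneg (b : Crv k l f) : 0 ≤ dv (io l f b) := by
  exact fun P => cnt_nonneg b

theorem dv_eq_zero_iff {b : Crv k l f} (hb : b ≠ 0) (P : Pt l f) :
    dv (io l f b) P = 0 ↔ P.ev b ≠ 0 := by
  exact cnt_eq_zero_iff hb

theorem dv_x (P : Pt l f) (h : P.y ≠ 0) : dv (pl l f (X - C P.x)) P = 1 := by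
  obtain ⟨u, h1, h2⟩ := par_x P.eq
  refine cnt_par (u := u) (c3_x P.x) (by simp [mem_mx]) (fun e => ?_) h2
  exact mul_ne_zero (Sm.ne f) (pow_ne_zero _ h) (h1.symm.trans e)

theorem dv_x_ne (P : Pt l f) {a : k} (h : P.x ≠ a) : dv (pl l f (X - C a)) P = 0 := by
  exact (dv_eq_zero_iff (c3_x a) P).2 (by simpa [sub_eq_zero] using h)

theorem dv_par_y (P : Pt l f) (h : f.derivative.eval P.x ≠ 0) :
    dv (yl l f - pl l f (C P.y)) P = 1 := by
  obtain ⟨u, h1, h2, h3⟩ := par_y P.eq
  have hu : P.ev u ≠ 0 := fun e => h (h1.symm.trans e)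
  rw [yl, pl_def, ← map_sub]
  refine cnt_par (u := u) (fun e => ?_) (by simp [mem_mx]) hu h3
  rw [sub_eq_zero.1 e, sub_self] at h2
  exact mul_ne_zero (c3_x P.x) (fun e => hu (by rw [e, map_zero])) h2

open Classical in
theorem dv_y (P : Pt l f) : dv (yl l f) P = if P.y = 0 then 1 else 0 := by
  split_ifs with h
  · simpa [h] using dv_par_y P (P.deriv_ne h)
  · exact (dv_eq_zero_iff (fun e => yl_ne (l := l) (f := f) (by rw [yl, e, map_zero])) P).2
      (by simpa using h)

theorem dv_x_ram (P : Pt l f) (h : P.y = 0) : dv (pl l f (X - C P.x)) P = l := by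
  obtain ⟨u, h1, h2, -⟩ := par_y P.eq
  have hu : P.ev u ≠ 0 := fun e => P.deriv_ne h (h1.symm.trans e)
  have u0 : u ≠ 0 := fun e => hu (by rw [e, map_zero])
  rw [h, map_zero, map_zero, zero_pow (Sm.prime f).ne_zero, sub_zero] at h2
  have e := DFunLike.congr_fun (congrArg (fun b => dv (io l f b)) h2) P
  rw [map_mul, map_pow, dv_pow, dv_mul ((map_ne_zero_iff _ io_inj).2 (c3_x _))
    ((map_ne_zero_iff _ io_inj).2 u0), Finsupp.add_apply, (dv_eq_zero_iff u0 P).2 hu, add_zero,
    Finsupp.smul_apply, ← yl, dv_y, if_pos h] at e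
  rw [pl_def, e, nsmul_eq_mul, mul_one]

theorem dv_frac {b : Fn l f} (hb : b ≠ 0) {P : Pt l f} (h : dv b P = 0) :
    ∃ u u', P.ev u ≠ 0 ∧ P.ev u' ≠ 0 ∧ b * io l f u' = io l f u := by
  exact cnt_frac hb h

theorem dv_int {b : Fn l f} (h : 0 ≤ dv b) : ∃ a, io l f a = b := by
  exact cnt_int fun v => by simpa [dv_apply] using h (mx.symm v)

theorem dv_au (a : Au l f) (b : Fn l f) : dv (a.L b) = a.D (dv b) := by
  have key : ∀ s : Crv k l f, dv (a.L (io l f s)) = a.D (dv (io l f s)) := fun s =>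
    Finsupp.ext fun Q => by
      obtain ⟨Q, rfl⟩ := a.P.surjective Q
      rw [a.D_apply, a.L_io]
      exact cnt_map a.B (c3_mem a Q) s
  obtain ⟨s, t, ht, rfl⟩ := IsFractionRing.div_surjective (A := Crv k l f) b
  have t0 : io l f t ≠ 0 := (map_ne_zero_iff _ io_inj).2 (nonZeroDivisors.ne_zero ht)
  rcases eq_or_ne (io l f s) 0 with e | e
  · rw [e, zero_div, map_zero, dv_zero, map_zero]
  · rw [map_div₀, dv_div (a.L.map_ne_zero_iff.2 e) (a.L.map_ne_zero_iff.2 t0), dv_div e t0,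
      map_sub, key, key]

theorem cl_surj : Surjective (cl : Dv l f → Jac k l f) := by
  intro x
  obtain ⟨D, rfl⟩ := (exists_pcl (Crv k l f)).choose_spec.1 x
  exact ⟨D.equivMapDomain mx.symm, by rw [c3_cl, ← Finsupp.equivMapDomain_trans]; simp⟩

theorem cl_eq_zero {D : Dv l f} : cl D = 0 ↔ ∃ b, b ≠ 0 ∧ D = dv b := by
  rw [c3_cl, (exists_pcl (Crv k l f)).choose_spec.2.1]
  refine exists_congr fun b => and_congr_right fun _ => ⟨fun h => Finsupp.ext fun P => ?_, ?_⟩
  · simpa [dv_apply] using h (mx P)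
  · rintro rfl v
    simp [dv_apply]

theorem cl_dv (b : Fn l f) : cl (dv b) = 0 := by
  rcases eq_or_ne b 0 with rfl | h
  · rw [dv_zero, map_zero]
  · exact cl_eq_zero.2 ⟨b, h, rfl⟩

theorem cl_au (a : Au l f) (D : Dv l f) : cl (a.D D) = a.J (cl D) := by
  induction D using Finsupp.induction_linear with
  | zero => simp
  | add D E h1 h2 => simp only [map_add, h1, h2]
  | single P n =>
    rw [a.D_single, c3_single, c3_single, map_zsmul]
    exact congrArg _ ((exists_pcl (Crv k l f)).choose_spec.2.2 a.B _ _ (c3_mem a P)).symm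

theorem cl_au_pow (a : Au l f) (n : ℕ) (D : Dv l f) : cl ((a.D ^ n) D) = (a.J ^ n) (cl D) := by
  induction n with
  | zero => rfl
  | succ n ih =>
    rw [pow_succ', pow_succ']
    exact (cl_au a _).trans (congrArg _ ih)

theorem cl_aeval (a : Au l f) (g : ℤ[X]) (D : Dv l f) :
    cl (aeval a.D g D) = aeval a.J g (cl D) := by
  induction g using Polynomial.induction_on' with
  | add p q h1 h2 =>
    rw [map_add, map_add]
    exact (map_add cl _ _).trans (congrArg₂ _ h1 h2)
  | monomial n c =>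
    rw [aeval_monomial, aeval_monomial, ← Algebra.smul_def, ← Algebra.smul_def]
    exact (map_zsmul cl c _).trans (congrArg _ (cl_au_pow a n D))

end Pool.Agent.Lib.MP_d61fbb_ag.SE
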