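import Pool.Agent.Lib.MP_d61fbb_ag.SE.C3

/-! The rotation of the curve and norms. -/

set_option autoImplicit false

noncomputable section

namespace Pool.Agent.Lib.MP_d61fbb_ag.SE

open Polynomial Function

variable {k : Type} [Field k] {l : ℕ} {f : k[X]} [Sm l f] {z : k} (hz : IsPrimitiveRoot z l)

theorem c4_prod {M : Type} [CommMonoid M] (g : ℕ → M) (n : ℕ) (h : g n = g 0) :
    ∏ j ∈ Finset.range n, g (j + 1) = ∏ j ∈ Finset.range n, g j := by
  rcases n with _ | n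
  · rfl
  · rw [Finset.prod_range_succ, Finset.prod_range_succ' g, h]

theorem c4_sum {M : Type} [AddCommMonoid M] (g : ℕ → M) (n : ℕ) (h : g n = g 0) :
    ∑ j ∈ Finset.range n, g (j + 1) = ∑ j ∈ Finset.range n, g j :=
  c4_prod (M := Multiplicative M) g n h

theorem c4_iter {A : Type} [CommRing A] (σ : A ≃+* A) (j : ℕ) (b : A) :
    σ^[j] b = ((σ : A →+* A) ^ j) b := by
  rw [RingHom.coe_pow]
  rfl

theorem c4_mul {M : Type} [AddMonoid M] (a b : AddMonoid.End M) (x : M) : (a * b) x = a (b x) :=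
  rfl

theorem rt_L_pl (g : k[X]) : (rt f hz).L (pl l f g) = pl l f g := by
  rw [Au.L_pl, rt_map]

theorem c4_po (g : k[X]) : (rt f hz).B (po l f g) = po l f g := by
  rw [Au.B_po, rt_map]

theorem c4_cy (j : ℕ) : (rt f hz).B^[j] (cy l f) = po l f (C (z ^ j)) * cy l f := by
  induction j with
  | zero => simp
  | succ j ih =>
    rw [iterate_succ_apply', ih, map_mul, c4_po, Au.B_cy, rt_w, pow_succ, C_mul, map_mul, mul_assoc]

theorem c4_B (b : Crv k l f) : (rt f hz).B^[l] b = b := by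
  rw [c4_iter]
  refine DFunLike.congr_fun (bq_ext (ψ := RingHom.id _) (fun a => ?_) ?_ ?_) b
  · rw [← c4_iter, iterate_fixed (c4_po hz _), RingHom.id_apply]
  · rw [← c4_iter, iterate_fixed (c4_po hz _), RingHom.id_apply]
  · rw [← c4_iter, c4_cy, hz.pow_eq_one, C_1, map_one, one_mul, RingHom.id_apply]

theorem c4_io (j : ℕ) (b : Crv k l f) :
    (rt f hz).L^[j] (io l f b) = io l f ((rt f hz).B^[j] b) := by
  induction j with
  | zero => rfl
  | succ j ih => rw [iterate_succ_apply', ih, Au.L_io, iterate_succ_apply']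

theorem rt_L_iter (b : Fn l f) : (rt f hz).L^[l] b = b := by
  obtain ⟨s, t, -, rfl⟩ := IsFractionRing.div_surjective (A := Crv k l f) b
  rw [c4_iter, map_div₀, ← c4_iter, ← c4_iter, c4_io, c4_io, c4_B, c4_B]

theorem rt_P_pow (j : ℕ) (P : Pt l f) :
    (((rt f hz).P ^ j) P).x = P.x ∧ (((rt f hz).P ^ j) P).y = z⁻¹ ^ j * P.y := by
  induction j with
  | zero => simp
  | succ j ih =>
    rw [pow_succ', Equiv.Perm.mul_apply, Au.P_x, Au.P_y, rt_σ, rt_σ, rt_w, ih.1, ih.2, pow_succ',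
      mul_assoc]
    exact ⟨rfl, rfl⟩

theorem rt_P_order : (rt f hz).P ^ l = 1 := by
  ext P
  · exact (rt_P_pow hz l P).1
  · rw [(rt_P_pow hz l P).2, hz.inv.pow_eq_one, one_mul, Equiv.Perm.one_apply]

theorem rt_P_fix (P : Pt l f) : (rt f hz).P P = P ↔ P.y = 0 := by
  have h1 : z⁻¹ ≠ 1 := hz.inv.ne_one (Sm.prime f).one_lt
  rw [Pt.ext_iff, Au.P_x, Au.P_y, rt_σ, rt_σ, rt_w]
  refine ⟨fun h => ?_, fun h => ⟨rfl, by rw [h, mul_zero]⟩⟩
  by_contra e
  exact h1 ((mul_eq_right₀ e).1 h.2)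

theorem rt_D_pow (j : ℕ) (P : Pt l f) (n : ℤ) :
    ((rt f hz).D ^ j) (Finsupp.single P n) = Finsupp.single (((rt f hz).P ^ j) P) n := by
  induction j with
  | zero => rfl
  | succ j ih =>
    rw [pow_succ', pow_succ', c4_mul, ih, Au.D_single, Equiv.Perm.mul_apply]

theorem nrm_mul (a b : Fn l f) : nrm hz (a * b) = nrm hz a * nrm hz b := by
  simp only [nrm, c4_iter, map_mul, Finset.prod_mul_distrib]

theorem nrm_ne {b : Fn l f} (hb : b ≠ 0) : nrm hz b ≠ 0 :=
  Finset.prod_ne_zero_iff.2 fun j _ => by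
    rw [c4_iter]
    exact (_root_.map_ne_zero _).2 hb

theorem nrm_pl (g : k[X]) : nrm hz (pl l f g) = pl l f g ^ l := by
  simp only [nrm, iterate_fixed (rt_L_pl hz g), Finset.prod_const, Finset.card_range]

theorem nrm_io (b : Crv k l f) :
    nrm hz (io l f b) = io l f (∏ j ∈ Finset.range l, (rt f hz).B^[j] b) := by
  simp only [nrm, c4_io, map_prod]

theorem c4_fix {b : Crv k l f} (h : (rt f hz).B b = b) : ∃ g : k[X], b = po l f g :=
  fix_root (Sm.prime f).ne_zero (hz.map_of_injective (f := (C : k →+* k[X])) C_injective)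
    ((rt f hz).B : Crv k l f →+* Crv k l f) (c4_po hz) (rt f hz).B_cy h

theorem nrm_poly (b : Crv k l f) :
    ∃ g : k[X], ∏ j ∈ Finset.range l, (rt f hz).B^[j] b = po l f g := by
  refine c4_fix hz ?_
  rw [map_prod, ← c4_prod (fun j => (rt f hz).B^[j] b) l (c4_B hz b)]
  exact Finset.prod_congr rfl fun j _ => (iterate_succ_apply' _ _ _).symm

/-- Invariant functions are rational functions of `x`. -/
theorem fix_rat {b : Fn l f} (h : (rt f hz).L b = b) :
    ∃ g g' : k[X], g' ≠ 0 ∧ b * pl l f g' = pl l f g := by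
  obtain ⟨s, t, ht, e⟩ := IsFractionRing.div_surjective (A := Crv k l f) b
  have t0 : io l f t ≠ 0 := fun e =>
    nonZeroDivisors.ne_zero ht (io_inj (e.trans (map_zero _).symm))
  obtain ⟨g', hg⟩ := nrm_poly hz t
  obtain ⟨t', ht'⟩ : t ∣ po l f g' := hg ▸ Finset.dvd_prod_of_mem (fun j => (rt f hz).B^[j] t)
    (Finset.mem_range.2 (Sm.prime f).pos)
  have e1 : b * pl l f g' = io l f (s * t') := by
    rw [← e, pl_def, ht', map_mul, map_mul, ← mul_assoc, div_mul_cancel₀ _ t0]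
  obtain ⟨g, e2⟩ := c4_fix hz (b := s * t')
    (io_inj (by rw [← Au.L_io, ← e1, map_mul, h, rt_L_pl]))
  refine ⟨g, g', fun e0 => nrm_ne hz t0 ?_, by rw [e1, e2, pl_def]⟩
  rw [nrm_io, hg, e0, map_zero, map_zero]

theorem c4_nmD (D : Dv l f) : nmD hz D = ∑ j ∈ Finset.range l, ((rt f hz).D ^ j) D :=
  AddMonoidHom.finsetSum_apply _ _ _

theorem nmD_rt (D : Dv l f) : nmD hz ((rt f hz).D D) = nmD hz D := by
  have e : (rt f hz).D ^ l = 1 := Finsupp.addHom_ext fun P n =>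
    (rt_D_pow hz l P n).trans (by rw [rt_P_order]; rfl)
  rw [c4_nmD, c4_nmD, ← c4_sum (fun j => ((rt f hz).D ^ j) D) l (by rw [e, pow_zero])]
  exact Finset.sum_congr rfl fun j _ => by rw [pow_succ, c4_mul]

theorem eq_zero_of_nmD {D : Dv l f} (h0 : 0 ≤ D) (h : nmD hz D = 0) : D = 0 := by
  have e : ∀ j, 0 ≤ ((rt f hz).D ^ j) D := fun j => by
    induction j with
    | zero => exact h0
    | succ j ih =>
      intro Q
      obtain ⟨Q, rfl⟩ := (rt f hz).P.surjective Q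
      rw [pow_succ', c4_mul, Au.D_apply]
      exact ih Q
  rw [c4_nmD, Finset.sum_eq_zero_iff_of_nonneg fun j _ => e j] at h
  exact h 0 (Finset.mem_range.2 (Sm.prime f).pos)

variable [IsAlgClosed k]

theorem dv_nrm {b : Fn l f} (hb : b ≠ 0) : dv (nrm hz b) = nmD hz (dv b) := by
  rw [nrm, c4_nmD, dv_prod _ _ fun j _ => by
    rw [c4_iter]
    exact (_root_.map_ne_zero _).2 hb]
  refine Finset.sum_congr rfl fun j hj => ?_
  clear hj
  induction j with
  | zero => rfl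
  | succ j ih => rw [iterate_succ_apply', dv_au, ih, pow_succ', c4_mul]

theorem nmD_single (P : Pt l f) :
    nmD hz (Finsupp.single P 1) = dv (pl l f (X - C P.x)) := by
  classical
  have hp : l.Prime := Sm.prime f
  have : NeZero l := ⟨hp.ne_zero⟩
  ext Q
  simp only [c4_nmD, rt_D_pow, Finsupp.finsetSum_apply, Finsupp.single_apply, Pt.ext_iff,
    (rt_P_pow hz _ P).1, (rt_P_pow hz _ P).2]
  by_cases hx : P.x = Q.x
  · have e : Q.y ^ l = P.y ^ l := by rw [Q.eq, P.eq, hx]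
    by_cases hy : P.y = 0
    · have hq : Q.y = 0 := by rwa [hy, zero_pow hp.ne_zero, pow_eq_zero_iff hp.ne_zero] at e
      rw [hx, dv_x_ram Q hq]
      simp [hy, hq]
    · have hq : Q.y ≠ 0 := fun h => pow_ne_zero l hy (by rw [← e, h, zero_pow hp.ne_zero])
      obtain ⟨i, hi, e1⟩ := hz.inv.eq_pow_of_pow_eq_one (ξ := Q.y / P.y)
        (by rw [div_pow, e, div_self (pow_ne_zero l hy)])
      rw [hx, dv_x Q hq, Finset.sum_eq_single_of_mem i (Finset.mem_range.2 hi) fun j hj hji =>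
        if_neg fun h => hji (hz.inv.pow_inj (Finset.mem_range.1 hj) hi
          (by rw [e1, eq_div_iff hy, h.2])), if_pos ⟨rfl, by rw [e1, div_mul_cancel₀ _ hy]⟩]
  · rw [dv_x_ne Q (Ne.symm hx)]
    simp [hx]

theorem cl_nmD (D : Dv l f) : cl (nmD hz D) = 0 := by
  induction D using Finsupp.induction_linear with
  | zero => simp
  | add a b ha hb => rw [map_add, map_add, ha, hb, add_zero]
  | single P n =>
    rw [← mul_one n, ← smul_eq_mul, ← Finsupp.smul_single, map_zsmul, map_zsmul, nmD_single, cl_dv,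
      smul_zero]

theorem dvd_dv_pl {P : Pt l f} (h : P.y = 0) (g : k[X]) : (l : ℤ) ∣ dv (pl l f g) P := by
  rcases eq_or_ne g 0 with rfl | hg
  · simp [dv_zero]
  obtain ⟨q, e, hq⟩ := exists_eq_pow_rootMultiplicity_mul_and_not_dvd g hg P.x
  have q0 : q ≠ 0 := fun e => hq (e ▸ dvd_zero _)
  have h0 : ∀ {p : k[X]}, p ≠ 0 → pl l f p ≠ 0 := fun hp e =>
    hp (pl_inj (e.trans (map_zero _).symm))
  have e1 : dv (pl l f q) P = 0 :=
    (dv_eq_zero_iff (b := po l f q) (fun e => h0 q0 (by rw [pl_def, e, map_zero])) P).2 (by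
      rwa [Pt.ev_po, Ne, ← IsRoot.def, ← dvd_iff_isRoot])
  rw [e, map_mul, map_pow, dv_mul (pow_ne_zero _ (h0 (X_sub_C_ne_zero _))) (h0 q0), dv_pow,
    Finsupp.add_apply, e1, add_zero, Finsupp.smul_apply, dv_x_ram P h, nsmul_eq_mul]
  exact dvd_mul_left _ _

end Pool.Agent.Lib.MP_d61fbb_ag.SE
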