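import Pool.Agent.Lib.MP_d61fbb_ag.SE.A6
import Pool.Agent.Lib.MP_d61fbb_ag.SE.C4
import Pool.Agent.Lib.MP_d61fbb_ag.SE.C5

/-! The Frobenius relation in characteristic `p`. -/

set_option autoImplicit false

noncomputable section

namespace Pool.Agent.Lib.MP_d61fbb_ag.SE

open Polynomial Function Finset

variable {k : Type} [Field k] [IsAlgClosed k] {l d : ℕ} {f : k[X]} [Sm l f]
  {r : Fin (d + 1) → k} {z : k}

theorem finite_bad (p : ℕ) [Fact p.Prime] [CharP k p] (d : ℕ) : {P : Pt l f |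
    ¬ (P.y ≠ 0 ∧ ∀ i ≤ d, ∀ j ≤ d, P.x ^ p ^ i = P.x ^ p ^ j → i = j)}.Finite := by
  have hs : Sm l f := inferInstance
  have hp : 2 ≤ p := (Fact.out : p.Prime).two_le
  have hg : f * ∏ ij ∈ (range (d + 1)).offDiag, (X ^ p ^ ij.1 - X ^ p ^ ij.2 : k[X]) ≠ 0 := by
    refine mul_ne_zero hs.monic.ne_zero (prod_ne_zero_iff.2 fun ij hij e => ?_)
    have e2 := congrArg natDegree (sub_eq_zero.1 e)
    rw [natDegree_X_pow, natDegree_X_pow] at e2
    exact (mem_offDiag.1 hij).2.2 (Nat.pow_right_injective hp e2)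
  refine (finite_fibre (l := l) (f := f) (finite_setOfPred_isRoot hg)).subset fun P hP => ?_
  simp only [Set.mem_ofPred_eq, IsRoot.def, eval_mul, eval_prod, eval_sub, eval_pow, eval_X,
    mul_eq_zero, prod_eq_zero_iff] at hP ⊢
  by_cases hy : P.y = 0
  · left
    rw [← P.eq, hy, zero_pow hs.prime.ne_zero]
  · right
    by_contra hc
    refine hP ⟨hy, fun i hi j hj e => ?_⟩
    by_contra hne
    exact hc ⟨(i, j), mem_offDiag.2 ⟨mem_range.2 (Nat.lt_succ_of_le hi),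
      mem_range.2 (Nat.lt_succ_of_le hj), hne⟩, sub_eq_zero.2 e⟩

theorem a7_sum {A ι : Type} [AddCommGroup A] (s : Finset ι) (g : ι → AddMonoid.End A) (x : A) :
    (∑ i ∈ s, g i) x = ∑ i ∈ s, g i x :=
  AddMonoidHom.finsetSum_apply g s x

theorem a7_mul {A : Type} [AddCommGroup A] (g h : AddMonoid.End A) (x : A) :
    (g * h) x = g (h x) := rfl

theorem a7_sub {A : Type} [AddCommGroup A] (g : AddMonoid.End A) (x : A) :
    (1 - g) x = x - g x := rfl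

omit [IsAlgClosed k] in
theorem a7_frob {p : ℕ} (φ : k ≃+* k) (h1 : ∀ x, φ x = x ^ p) (hφ : f.map φ.toRingHom = f)
    (P : Pt l f) (i : ℕ) : ∃ R : Pt l f,
      ((ga l φ hφ).D ^ i) (Finsupp.single P 1) = Finsupp.single R 1 ∧ R.x = P.x ^ p ^ i ∧
        R.y = P.y ^ p ^ i := by
  induction i with
  | zero => exact ⟨P, rfl, by simp, by simp⟩
  | succ i ih =>
    obtain ⟨R, e1, e2, e3⟩ := ih
    refine ⟨(ga l φ hφ).P R, ?_, ?_, ?_⟩
    · rw [pow_succ', a7_mul, e1, Au.D_single]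
    · rw [Au.P_x, ga_σ, h1, e2, ← pow_mul, ← pow_succ]
    · rw [Au.P_y, ga_σ, ga_w, inv_one, one_mul, h1, e3, ← pow_mul, ← pow_succ]

omit [IsAlgClosed k] in
open Classical in
theorem a7_one (hz : IsPrimitiveRoot z l) (c : k) (R Q : Pt l f) (hQ : Q.y ≠ 0) :
    (∑ t ∈ range l, if c = z⁻¹ ^ t then Finsupp.single (((rt f hz).P ^ t) R) (1 : ℤ) Q else 0) =
      if Q.x = R.x ∧ Q.y = c * R.y then 1 else 0 := by
  have hs : Sm l f := inferInstance
  have key : ∀ t, c = z⁻¹ ^ t → (((rt f hz).P ^ t) R = Q ↔ Q.x = R.x ∧ Q.y = c * R.y) := by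
    intro t ht
    obtain ⟨a, b⟩ := rt_P_pow hz t R
    rw [Pt.ext_iff, a, b, ht, eq_comm, eq_comm (b := Q.y)]
  split_ifs with h
  · have : NeZero l := ⟨hs.prime.ne_zero⟩
    have hc : c ^ l = 1 := by
      have e : Q.y ^ l = R.y ^ l := by rw [Q.eq, R.eq, h.1]
      have e0 : R.y ^ l ≠ 0 := e ▸ pow_ne_zero l hQ
      rw [h.2, mul_pow] at e
      exact mul_right_cancel₀ e0 (e.trans (one_mul _).symm)
    obtain ⟨t, ht, e⟩ := hz.inv.eq_pow_of_pow_eq_one hc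
    rw [sum_eq_single_of_mem t (mem_range.2 ht) fun u hu hne => if_neg fun e' =>
      hne (hz.inv.pow_inj (mem_range.1 hu) ht (e'.symm.trans e.symm)), if_pos e.symm,
      (key t e.symm).2 h, Finsupp.single_eq_same]
  · refine sum_eq_zero fun t _ => ?_
    split_ifs with ht
    · exact Finsupp.single_eq_of_ne' fun e => h ((key t ht).1 e)
    · rfl

omit [IsAlgClosed k] in
theorem a7_fix (hz : IsPrimitiveRoot z l) {E : Dv l f} (h : ∀ Q : Pt l f, Q.y ≠ 0 → E Q = 0) :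
    (rt f hz).D E = E := by
  ext Q
  obtain ⟨Q, rfl⟩ := (rt f hz).P.surjective Q
  rw [Au.D_apply]
  by_cases hQ : Q.y = 0
  · rw [(rt_P_fix hz Q).2 hQ]
  · rw [h Q hQ, h]
    rw [Au.P_y]
    exact mul_ne_zero (inv_ne_zero (rt f hz).w_ne) hQ

theorem Dat.apply_eq {p : ℕ} (T : Dat k p l d) [Fact p.Prime] [CharP k p]
    (hz : IsPrimitiveRoot z l) (φ : k ≃+* k) (h1 : ∀ x, φ x = x ^ p)
    (hφ : f.map φ.toRingHom = f) (P Q : Pt l f) (hx : P.x = T.t) (hy : P.y = T.s)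
    (hQ : Q.y ≠ 0) :
    (∑ i ∈ range (d + 1), aeval (rt f hz).D (cpoly p l T.r z⁻¹ (d - i)) * (ga l φ hφ).D ^ i)
      (Finsupp.single P 1) Q = T.num Q.x Q.y := by
  classical
  rw [a7_sum, Finsupp.finsetSum_apply, Dat.num]
  push_cast
  refine sum_congr rfl fun i _ => ?_
  obtain ⟨R, e1, e2, e3⟩ := a7_frob φ h1 hφ P i
  rw [a7_mul, e1, cpoly, map_sum, a7_sum, Finsupp.finsetSum_apply]
  refine sum_congr rfl fun a _ => ?_
  rw [← hx, ← hy, ← e2, ← e3, ← a7_one hz _ R Q hQ, map_sum, a7_sum, Finsupp.finsetSum_apply]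
  refine sum_congr rfl fun t _ => ?_
  split_ifs
  · rw [map_pow, aeval_X, rt_D_pow]
  · rw [map_zero]
    rfl

theorem rel_charp (p : ℕ) [Fact p.Prime] [CharP k p] (h : Hyp l d f r) (hp : l ∣ p - 1)
    (π : Equiv.Perm (Fin (d + 1))) (hπ : ∀ i, r i ^ p = r (π i)) (hz : IsPrimitiveRoot z l)
    (φ : k ≃+* k) (h1 : ∀ x, φ x = x ^ p) (hφ : f.map φ.toRingHom = f) (x : Jac k l f) :
    ((1 - zt f hz) * ∑ i ∈ range (d + 1),
      aeval (zt f hz) (cpoly p l r z⁻¹ (d - i)) * sg l φ hφ ^ i) x = 0 := by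
  obtain ⟨D, rfl, hD⟩ := move (finite_bad (l := l) (f := f) p d) x
  rw [← D.sum_single, Finsupp.sum, map_sum, map_sum]
  refine sum_eq_zero fun P hP => ?_
  have hP' := not_not.1 (hD P hP)
  let T : Dat k p l d := ⟨r, π, P.x, P.y, h.inj, hπ, h.prime, h.odd, h.nd, hp, by
    rw [P.eq, congrArg (Polynomial.eval P.x) h.fac, eval_prod]
    simp, hP'.1, hP'.2⟩
  obtain ⟨Ψ, -, hΨ⟩ := T.exists_psi (f := f) h.fac
  have e1 : cl ((∑ i ∈ range (d + 1), aeval (rt f hz).D (cpoly p l r z⁻¹ (d - i)) *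
      (ga l φ hφ).D ^ i) (Finsupp.single P 1)) = (∑ i ∈ range (d + 1),
        aeval (zt f hz) (cpoly p l r z⁻¹ (d - i)) * sg l φ hφ ^ i) (cl (Finsupp.single P 1)) := by
    rw [a7_sum, a7_sum, map_sum]
    refine sum_congr rfl fun i _ => ?_
    rw [a7_mul, a7_mul, cl_aeval, cl_au_pow, zt_eq, sg_eq]
  have e2 := a7_fix hz (E := (∑ i ∈ range (d + 1), aeval (rt f hz).D (cpoly p l r z⁻¹ (d - i)) *
      (ga l φ hφ).D ^ i) (Finsupp.single P 1) - dv Ψ) fun Q hQ => by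
    rw [Finsupp.sub_apply, hΨ Q hQ, sub_eq_zero]
    exact T.apply_eq hz φ h1 hφ P Q rfl rfl hQ
  have e3 := congrArg cl e2
  rw [cl_au, map_sub, cl_dv, sub_zero, e1, ← zt_eq] at e3
  rw [← Finsupp.smul_single_one, map_zsmul, map_zsmul, a7_mul,
    a7_sub, e3, sub_self, smul_zero]

end Pool.Agent.Lib.MP_d61fbb_ag.SE
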