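import Pool.Agent.Lib.MP_d61fbb_ag.SE.CStmt
import Pool.Agent.Lib.MP_d61fbb_ag.Main

/-! Definitions for the algebraic part. -/

set_option autoImplicit false

noncomputable section

namespace Pool.Agent.Lib.MP_d61fbb_ag.SE

open Matrix IsLocalRing Equiv Polynomial

/-- Square matrices of size `d`. -/
abbrev Mat (d : ℕ) (κ : Type) : Type := Matrix (Fin d) (Fin d) κ

section perm

variable (R : Type) [CommRing R] {d : ℕ}

/-- The coordinates of the class of the basis vector `x` modulo the all-ones vector. -/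
def qv (x : Fin (d + 1)) : Fin d → R := fun i =>
  (if x = i.castSucc then 1 else 0) - (if x = Fin.last d then 1 else 0)

theorem qv_castSucc (j : Fin d) : qv R j.castSucc = Pi.single j 1 := by
  ext i
  simp [qv, Pi.single_apply, (Fin.castSucc_lt_last j).ne, eq_comm]

theorem qv_last (i : Fin d) : qv R (Fin.last d) i = -1 := by
  simp [qv, (Fin.castSucc_lt_last i).ne']

theorem sum_qv : ∑ x : Fin (d + 1), qv R x = 0 := by
  ext i
  simp [qv, Finset.sum_apply]

theorem hm_aux (π : Perm (Fin (d + 1))) (x : Fin (d + 1)) :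
    (Matrix.of fun i j : Fin d => qv R (π j.castSucc) i) *ᵥ qv R x = qv R (π x) := by
  induction x using Fin.lastCases with
  | cast j => rw [qv_castSucc, mulVec_single_one]; rfl
  | last =>
    ext i
    have h := congrFun ((Equiv.sum_comp π (qv R)).trans (sum_qv R)) i
    rw [Fin.sum_univ_castSucc, Pi.add_apply, Finset.sum_apply, Pi.zero_apply] at h
    simp only [mulVec, dotProduct, qv_last, of_apply, mul_neg, mul_one, Finset.sum_neg_distrib]
    linear_combination -h

/-- The matrix of a permutation on the quotient of the permutation module by the all-ones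
vector. -/
def Hm : Perm (Fin (d + 1)) →* Mat d R where
  toFun π := Matrix.of fun i j => qv R (π j.castSucc) i
  map_one' := by
    ext i j
    simp [qv_castSucc, Pi.single_apply, one_apply]
  map_mul' π σ := by
    ext i j
    exact (congrFun (hm_aux R π (σ j.castSucc)) i).symm

theorem Hm_apply (π : Perm (Fin (d + 1))) (i j : Fin d) : Hm R π i j = qv R (π j.castSucc) i := rfl

theorem Hm_qv (π : Perm (Fin (d + 1))) (x : Fin (d + 1)) : Hm R π *ᵥ qv R x = qv R (π x) :=
  hm_aux R π x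

theorem Hm_map {S : Type} [CommRing S] (φ : R →+* S) (π : Perm (Fin (d + 1))) :
    (Hm R π).map φ = Hm S π := by
  ext i j
  simp [Hm_apply, qv, apply_ite φ]

/-- No fixed point, and one orbit or two orbits of coprime lengths. -/
def Good (π : Perm (Fin (d + 1))) : Prop :=
  (∀ i, π i ≠ i) ∧ ∃ i j : Fin (d + 1),
    (∀ x, x ∈ MulAction.orbit (Subgroup.zpowers π) i ∨ x ∈ MulAction.orbit (Subgroup.zpowers π) j) ∧
    (j ∈ MulAction.orbit (Subgroup.zpowers π) i ∨
      (Nat.card (MulAction.orbit (Subgroup.zpowers π) i)).Coprime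
        (Nat.card (MulAction.orbit (Subgroup.zpowers π) j)))

/-- A big permutation group. -/
def Big (G : Subgroup (Perm (Fin (d + 1)))) : Prop :=
  (7 ≤ d ∧ alternatingGroup (Fin (d + 1)) ≤ G) ∨ (4 ≤ d ∧ G = ⊤)

theorem Big.le {G : Subgroup (Perm (Fin (d + 1)))} (h : Big G) : 4 ≤ d := by
  rcases h with h | h <;> omega

theorem Big.alt {G : Subgroup (Perm (Fin (d + 1)))} (h : Big G) :
    alternatingGroup (Fin (d + 1)) ≤ G := by
  rcases h with h | h
  · exact h.2
  · exact h.2 ▸ le_top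

end perm

section forms

variable (κ : Type) [Field κ] (d : ℕ)

/-- The Gram matrix of the invariant form. -/
def Gm : Mat d κ := fun i j => (if i = j then (d : κ) + 1 else 0) - 1

/-- Skew matrices for the invariant form. -/
def so : Submodule κ (Mat d κ) where
  carrier := {X | Xᵀ * Gm κ d + Gm κ d * X = 0}
  zero_mem' := by simp
  add_mem' := fun {a b} ha hb => by
    simp only [Set.mem_ofPred_eq, transpose_add, add_mul, mul_add] at ha hb ⊢
    rw [add_add_add_comm, ha, hb, add_zero]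
  smul_mem' := fun c a ha => by
    simp only [Set.mem_ofPred_eq, transpose_smul, smul_mul, Matrix.mul_smul] at ha ⊢
    rw [← smul_add, ha, smul_zero]

/-- Self-adjoint matrices for the invariant form. -/
def sym : Submodule κ (Mat d κ) where
  carrier := {X | Xᵀ * Gm κ d = Gm κ d * X}
  zero_mem' := by simp
  add_mem' := fun {a b} ha hb => by
    simp only [Set.mem_ofPred_eq, transpose_add, add_mul, mul_add] at ha hb ⊢
    rw [ha, hb]
  smul_mem' := fun c a ha => by
    simp only [Set.mem_ofPred_eq, transpose_smul, smul_mul, Matrix.mul_smul] at ha ⊢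
    rw [ha]

/-- Matrices of trace zero. -/
def sl : Submodule κ (Mat d κ) := LinearMap.ker (Matrix.traceLinearMap (Fin d) κ κ)

variable {κ d}

theorem mem_so {X : Mat d κ} : X ∈ so κ d ↔ Xᵀ * Gm κ d + Gm κ d * X = 0 := Iff.rfl

theorem mem_sym {X : Mat d κ} : X ∈ sym κ d ↔ Xᵀ * Gm κ d = Gm κ d * X := Iff.rfl

theorem mem_sl {X : Mat d κ} : X ∈ sl κ d ↔ X.trace = 0 := Iff.rfl

/-- The span of the commutators. -/
def der {A : Type} [Ring A] [Algebra κ A] (W : Submodule κ A) : Submodule κ A :=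
  Submodule.span κ {Z | ∃ X ∈ W, ∃ Y ∈ W, Z = X * Y - Y * X}

/-- Closed under commutators. -/
def Br {A : Type} [Ring A] [Algebra κ A] (W : Submodule κ A) : Prop :=
  ∀ X ∈ W, ∀ Y ∈ W, X * Y - Y * X ∈ W

theorem br_mem_der {A : Type} [Ring A] [Algebra κ A] {W : Submodule κ A} {X Y : A} (hX : X ∈ W)
    (hY : Y ∈ W) : X * Y - Y * X ∈ der W :=
  Submodule.subset_span ⟨X, hX, Y, hY, rfl⟩

theorem Br.der_le {A : Type} [Ring A] [Algebra κ A] {W : Submodule κ A} (h : Br W) : der W ≤ W :=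
  Submodule.span_le.2 fun _ ⟨X, hX, Y, hY, e⟩ => e ▸ h X hX Y hY

theorem Br.der {A : Type} [Ring A] [Algebra κ A] {W : Submodule κ A} (h : Br W) : Br (der W) :=
  fun _ hX _ hY => br_mem_der (h.der_le hX) (h.der_le hY)

/-- `θ` restricts to an automorphism of the Lie algebra of traceless matrices. -/
structure LieIso (θ : Mat d κ →ₗ[κ] Mat d κ) : Prop where
  mem : ∀ X ∈ sl κ d, θ X ∈ sl κ d
  inj : ∀ X ∈ sl κ d, θ X = 0 → X = 0
  br : ∀ X ∈ sl κ d, ∀ Y ∈ sl κ d, θ (X * Y - Y * X) = θ X * θ Y - θ Y * θ X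

variable {Γ : Type} [Group Γ]

/-- Stable under conjugation. -/
def Ad {A : Type} [Ring A] [Algebra κ A] (R : Γ →* A) (W : Submodule κ A) : Prop :=
  ∀ γ, ∀ X ∈ W, R γ * X * R γ⁻¹ ∈ W

/-- Projectively isomorphic. -/
def Inner (R R' : Γ →* Mat d κ) : Prop :=
  ∃ S : Mat d κ, S.det ≠ 0 ∧ ∀ γ, ∃ μ : κ, R' γ * S = μ • (S * R γ)

/-- Projectively dual. -/
def Dual (R R' : Γ →* Mat d κ) : Prop :=
  ∃ β : Mat d κ, β.det ≠ 0 ∧ ∀ γ, ∃ μ : κ, (R' γ)ᵀ * β * R γ = μ • β

/-- The polynomial form of the functional equation. -/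
def FF {A : Type} (a b : A) (g : Matrix (Fin d × A) (Fin d × A) κ) : κ :=
  (g.blockDiag b).trace ^ d * (g.blockDiag a).det ^ (d - 1) -
    (g.blockDiag b).det * (g.blockDiag a).adjugate.trace ^ d

end forms

section red

variable {Ω : Type} [Field Ω] (O : ValuationSubring Ω) {m n q : Type}

/-- `M` has entries in `O` and reduces to `N`. -/
def Lift (M : Matrix m n Ω) (N : Matrix m n (ResidueField O)) : Prop :=
  ∃ X : Matrix m n O, X.map O.subtype = M ∧ X.map (residue O) = N

variable {O}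

theorem Lift.add {M M' : Matrix m n Ω} {N N' : Matrix m n (ResidueField O)} (h : Lift O M N)
    (h' : Lift O M' N') : Lift O (M + M') (N + N') := by
  obtain ⟨X, rfl, rfl⟩ := h
  obtain ⟨Y, rfl, rfl⟩ := h'
  exact ⟨X + Y, by ext; simp, by ext; simp⟩

theorem Lift.sub {M M' : Matrix m n Ω} {N N' : Matrix m n (ResidueField O)} (h : Lift O M N)
    (h' : Lift O M' N') : Lift O (M - M') (N - N') := by
  obtain ⟨X, rfl, rfl⟩ := h
  obtain ⟨Y, rfl, rfl⟩ := h'
  exact ⟨X - Y, by ext; simp, by ext; simp⟩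

theorem Lift.smul {M : Matrix m n Ω} {N : Matrix m n (ResidueField O)} (h : Lift O M N) (c : O) :
    Lift O ((c : Ω) • M) (residue O c • N) := by
  obtain ⟨X, rfl, rfl⟩ := h
  exact ⟨c • X, by ext; simp, by ext; simp⟩

theorem Lift.zero : Lift O (0 : Matrix m n Ω) 0 := ⟨0, by ext; simp, by ext; simp⟩

theorem Lift.one [DecidableEq m] : Lift O (1 : Matrix m m Ω) 1 :=
  ⟨1, Matrix.map_one _ (map_zero _) (map_one _), Matrix.map_one _ (map_zero _) (map_one _)⟩

theorem Lift.mul [Fintype n] {M : Matrix m n Ω} {M' : Matrix n q Ω}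
    {N : Matrix m n (ResidueField O)} {N' : Matrix n q (ResidueField O)} (h : Lift O M N)
    (h' : Lift O M' N') : Lift O (M * M') (N * N') := by
  obtain ⟨X, rfl, rfl⟩ := h
  obtain ⟨Y, rfl, rfl⟩ := h'
  exact ⟨X * Y, Matrix.map_mul, Matrix.map_mul⟩

theorem Lift.unique {M : Matrix m n Ω} {N N' : Matrix m n (ResidueField O)} (h : Lift O M N)
    (h' : Lift O M N') : N = N' := by
  obtain ⟨X, rfl, rfl⟩ := h
  obtain ⟨Y, e, rfl⟩ := h'
  have : Y = X := Matrix.ext fun i j => Subtype.ext (congrFun (congrFun e i) j)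
  rw [this]

theorem Lift.trace [Fintype m] {M : Matrix m m Ω} {N : Matrix m m (ResidueField O)}
    (h : Lift O M N) : ∃ t : O, (t : Ω) = M.trace ∧ residue O t = N.trace := by
  obtain ⟨X, rfl, rfl⟩ := h
  exact ⟨X.trace, AddMonoidHom.map_trace O.subtype X, AddMonoidHom.map_trace (residue O) X⟩

theorem Lift.trace_zero [Fintype m] {M : Matrix m m Ω} {N : Matrix m m (ResidueField O)}
    (h : Lift O M N) (h0 : M.trace = 0) : N.trace = 0 := by
  obtain ⟨t, h1, h2⟩ := h.trace
  have : t = 0 := Subtype.ext (h1.trans h0)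
  rw [← h2, this, map_zero]

theorem exists_lift (N : Matrix m n (ResidueField O)) : ∃ M, Lift O M N := by
  choose s hs using residue_surjective (R := O)
  exact ⟨_, N.map s, rfl, by ext; simp [hs]⟩

variable (O)

/-- The reduction of a space of matrices. -/
def red (V : Submodule Ω (Matrix m n Ω)) :
    Submodule (ResidueField O) (Matrix m n (ResidueField O)) where
  carrier := {N | ∃ M ∈ V, Lift O M N}
  zero_mem' := ⟨0, V.zero_mem, Lift.zero⟩
  add_mem' := fun ⟨M, hM, h⟩ ⟨M', hM', h'⟩ => ⟨M + M', V.add_mem hM hM', h.add h'⟩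
  smul_mem' := fun c _ ⟨M, hM, h⟩ => by
    obtain ⟨c, rfl⟩ := residue_surjective c
    exact ⟨_, V.smul_mem _ hM, h.smul c⟩

variable {O}

theorem mem_red {V : Submodule Ω (Matrix m n Ω)} {N : Matrix m n (ResidueField O)} :
    N ∈ red O V ↔ ∃ M ∈ V, Lift O M N := Iff.rfl

theorem red_mono {U V : Submodule Ω (Matrix m n Ω)} (h : U ≤ V) : red O U ≤ red O V :=
  fun _ ⟨M, hM, k⟩ => ⟨M, h hM, k⟩

variable {Γ : Type} [Group Γ] {d : ℕ}

variable (O) in
/-- An integral representation whose reduction is the permutation representation of a big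
group. -/
structure Rp (R : Γ →* Mat d Ω) (pm : Γ →* Perm (Fin (d + 1))) : Prop where
  two : (2 : ResidueField O) ≠ 0
  dim : (d : ResidueField O) + 1 ≠ 0
  big : Big pm.range
  lift : ∀ γ, Lift O (R γ) (Hm _ (pm γ))

variable (O) in
/-- The decomposition of the matrix algebra in the orthogonal case. -/
structure Split (R : Γ →* Mat d Ω) (V U : Submodule Ω (Mat d Ω)) : Prop where
  compl : IsCompl V U
  redV : red O V = so _ d
  redU : red O U = sym _ d
  le : V ≤ sl Ω d
  vv : Br V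
  vu : ∀ X ∈ V, ∀ Y ∈ U, X * Y - Y * X ∈ U
  adV : Ad R V
  adU : Ad R U
  perp : ∀ X, X ∈ V ↔ ∀ Y ∈ U, (X * Y).trace = 0

variable (O) in
/-- The data from which the monodromy group is computed. -/
structure Core (l : ℕ) [Fact l.Prime] (R : (ZMod l)ˣ → Γ →* Mat d Ω)
    (pm : Γ →* Perm (Fin (d + 1))) (nu : Γ →* Ω) : Prop where
  odd : l ≠ 2
  rp : ∀ a, Rp O (R a) pm
  fe : ∀ s, Good (pm s) → ∀ a, (R (-a) s).trace = nu s * (R a s⁻¹).trace ∧
    (R a s).det * (R (-a) s).det = nu s ^ d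
  fr : ∃ φ, Good (pm φ) ∧
    (∀ a b, a ≠ b → (R b φ).trace ^ d * (R a φ).det ≠ (R a φ).trace ^ d * (R b φ).det) ∧
    (∀ (a : (ZMod l)ˣ) (N : ℕ) (y : Ω), 0 < N → ∃ α, (R a φ).charpoly.IsRoot α ∧ α ^ N ≠ y) ∧
    (∀ (m : (ZMod l)ˣ → ℤ) (m0 : ℤ), (∏ a, (R a φ).det ^ m a) * nu φ ^ m0 = 1 →
      ∀ a, m a = m (-a)) ∧
    ∀ N : ℕ, 0 < N → nu φ ^ N ≠ 1

/-- The block diagonal matrices of the elements of a subgroup. -/
def SS {A : Type} [DecidableEq A] (R : A → Γ →* Mat d Ω) (H : Subgroup Γ) :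
    Set (Matrix (Fin d × A) (Fin d × A) Ω) :=
  {g | ∃ γ ∈ H, g = blockDiagonal fun a => R a γ}

/-- The Lie algebra of the Zariski closure, as a space of families of blocks. -/
def gg {A : Type} [Fintype A] [DecidableEq A] (R : A → Γ →* Mat d Ω) (H : Subgroup Γ) :
    Submodule Ω (A → Mat d Ω) where
  carrier := {X | blockDiagonal X ∈ tang (SS R H)}
  zero_mem' := by
    change blockDiagonal (0 : A → Mat d Ω) ∈ tang (SS R H)
    rw [blockDiagonal_zero]
    exact Submodule.zero_mem _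
  add_mem' := fun {a b} ha hb => by
    change blockDiagonal (a + b) ∈ tang (SS R H)
    rw [blockDiagonal_add]
    exact Submodule.add_mem _ ha hb
  smul_mem' := fun c a ha => by
    change blockDiagonal (c • a) ∈ tang (SS R H)
    rw [blockDiagonal_smul]
    exact Submodule.smul_mem _ c ha

theorem mem_gg {A : Type} [Fintype A] [DecidableEq A] {R : A → Γ →* Mat d Ω} {H : Subgroup Γ}
    {X : A → Mat d Ω} : X ∈ gg R H ↔ Tangent (SS R H) (blockDiagonal X) := Iff.rfl

end red

end Pool.Agent.Lib.MP_d61fbb_ag.SE
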