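import Pool.Agent.Lib.MP_d61fbb_ag.SE.CStmt

/-! The coordinate ring over a base ring, points, automorphisms. -/

set_option autoImplicit false

noncomputable section

namespace Pool.Agent.Lib.MP_d61fbb_ag.SE

open Polynomial Function

/-- The ring `A[x,y]/(y^l - f(x))`. -/
abbrev Bq {A : Type} [CommRing A] (l : ℕ) (f : A[X]) : Type :=
  AdjoinRoot (X ^ l - C f : A[X][X])

section ring

variable {A A' : Type} [CommRing A] [CommRing A'] {l : ℕ} {f : A[X]} {f' : A'[X]}

/-- Polynomials in `x` as elements of the coordinate ring. -/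
abbrev po (l : ℕ) (f : A[X]) : A[X] →+* Bq l f := AdjoinRoot.of _

/-- The coordinate `y`. -/
abbrev cy (l : ℕ) (f : A[X]) : Bq l f := AdjoinRoot.root _

theorem cy_pow : cy l f ^ l = po l f f := by
  have h := AdjoinRoot.eval₂_root (X ^ l - C f : A[X][X])
  rwa [eval₂_sub, eval₂_X_pow, eval₂_C, sub_eq_zero] at h

/-- The map given by `φ` on constants, fixing `x` and sending `y` to `w y`. -/
def bmap (φ : A →+* A') (w : A') (h : f.map φ = f') (hw : w ^ l = 1) : Bq l f →+* Bq l f' :=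
  AdjoinRoot.lift ((po l f').comp (mapRingHom φ)) (po l f' (C w) * cy l f') (by
    rw [eval₂_sub, eval₂_X_pow, eval₂_C, mul_pow, ← map_pow, ← C_pow, hw, C_1, map_one, one_mul,
      RingHom.comp_apply, coe_mapRingHom, h, cy_pow, sub_self])

@[simp] theorem bmap_po (φ : A →+* A') (w : A') (h : f.map φ = f') (hw : w ^ l = 1) (g : A[X]) :
    bmap φ w h hw (po l f g) = po l f' (g.map φ) := AdjoinRoot.lift_of _

@[simp] theorem bmap_cy (φ : A →+* A') (w : A') (h : f.map φ = f') (hw : w ^ l = 1) :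
    bmap φ w h hw (cy l f) = po l f' (C w) * cy l f' := AdjoinRoot.lift_root _

/-- Evaluation at a point. -/
def bev (x y : A) (h : y ^ l = f.eval x) : Bq l f →+* A :=
  AdjoinRoot.lift (evalRingHom x) y (by
    rw [eval₂_sub, eval₂_X_pow, eval₂_C, coe_evalRingHom, h, sub_self])

@[simp] theorem bev_po (x y : A) (h : y ^ l = f.eval x) (g : A[X]) :
    bev x y h (po l f g) = g.eval x := AdjoinRoot.lift_of _

@[simp] theorem bev_cy (x y : A) (h : y ^ l = f.eval x) : bev x y h (cy l f) = y :=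
  AdjoinRoot.lift_root _

theorem bq_ext {S : Type} [Semiring S] {φ ψ : Bq l f →+* S}
    (h1 : ∀ a, φ (po l f (C a)) = ψ (po l f (C a))) (h2 : φ (po l f X) = ψ (po l f X))
    (h3 : φ (cy l f) = ψ (cy l f)) : φ = ψ :=
  AdjoinRoot.ringHom_ext (Polynomial.ringHom_ext h1 h2) h3

theorem bev_bmap (φ : A →+* A') (w : A') (h : f.map φ = f') (hw : w ^ l = 1) {x y : A}
    (hy : y ^ l = f.eval x) {x' y' : A'} (hy' : y' ^ l = f'.eval x') (h1 : x' = φ x)
    (h2 : w * y' = φ y) (b : Bq l f) : bev x' y' hy' (bmap φ w h hw b) = φ (bev x y hy b) :=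
  DFunLike.congr_fun (bq_ext (φ := (bev x' y' hy').comp (bmap φ w h hw))
    (ψ := φ.comp (bev x y hy)) (by simp) (by simp [h1]) (by simp [h2])) b

end ring

variable {k : Type} [Field k]

/-- The hypotheses on the curve which do not mention the roots. -/
class Sm (l : ℕ) (f : k[X]) : Prop where
  prime : l.Prime
  odd : l ≠ 2
  ne : (l : k) ≠ 0
  nd : ¬ l ∣ f.natDegree
  monic : f.Monic
  sep : f.Separable

theorem Hyp.natDegree {l d : ℕ} {f : k[X]} {r : Fin (d + 1) → k} (h : Hyp l d f r) :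
    f.natDegree = d + 1 := by
  rw [h.fac, natDegree_prod_of_monic _ _ fun i _ => monic_X_sub_C _]
  simp

theorem Hyp.sm {l d : ℕ} {f : k[X]} {r : Fin (d + 1) → k} (h : Hyp l d f r) : Sm l f where
  prime := h.prime
  odd := h.odd
  ne := h.ne
  nd := h.natDegree ▸ h.nd
  monic := h.fac ▸ monic_prod_of_monic _ _ fun _ _ => monic_X_sub_C _
  sep := h.fac ▸ separable_prod_X_sub_C_iff.2 h.inj

theorem Hyp.eval_eq_zero {l d : ℕ} {f : k[X]} {r : Fin (d + 1) → k} (h : Hyp l d f r) (x : k) :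
    f.eval x = 0 ↔ ∃ i, x = r i := by
  simp [h.fac, eval_prod, Finset.prod_eq_zero_iff, sub_eq_zero]

/-- Points of the affine curve. -/
@[ext] structure Pt (l : ℕ) (f : k[X]) where
  x : k
  y : k
  eq : y ^ l = f.eval x

/-- Divisors on the affine curve. -/
abbrev Dv (l : ℕ) (f : k[X]) : Type := Pt l f →₀ ℤ

/-- The function field. -/
abbrev Fn (l : ℕ) (f : k[X]) : Type := FractionRing (Crv k l f)

variable {l : ℕ} {f : k[X]}

/-- Evaluation at a point of the curve. -/
def Pt.ev (P : Pt l f) : Crv k l f →+* k := bev P.x P.y P.eq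

@[simp] theorem Pt.ev_po (P : Pt l f) (g : k[X]) : P.ev (po l f g) = g.eval P.x := bev_po ..

@[simp] theorem Pt.ev_cy (P : Pt l f) : P.ev (cy l f) = P.y := bev_cy ..

/-- The ramification point over a root. -/
def Hyp.pt {d : ℕ} {r : Fin (d + 1) → k} (h : Hyp l d f r) (i : Fin (d + 1)) : Pt l f :=
  ⟨r i, 0, by rw [zero_pow h.prime.ne_zero, (h.eval_eq_zero _).2 ⟨i, rfl⟩]⟩

/-- The inclusion of the coordinate ring in the function field. -/
abbrev io (l : ℕ) (f : k[X]) : Crv k l f →+* Fn l f := algebraMap _ _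

/-- Polynomials in `x` as functions. -/
def pl (l : ℕ) (f : k[X]) : k[X] →+* Fn l f := (io l f).comp (po l f)

/-- The function `y`. -/
def yl (l : ℕ) (f : k[X]) : Fn l f := io l f (cy l f)

theorem pl_def (g : k[X]) : pl l f g = io l f (po l f g) := rfl

theorem yl_pow : yl l f ^ l = pl l f f := by rw [yl, ← map_pow, cy_pow, pl_def]

theorem pl_C (c : k) : pl l f (C c) = algebraMap k (Fn l f) c := rfl

/-- Data of a semilinear automorphism of the curve. -/
structure Au (l : ℕ) (f : k[X]) where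
  σ : k ≃+* k
  w : k
  hσ : f.map (σ : k →+* k) = f
  hw : w ^ l = 1

namespace Au

variable [h : Sm l f] (a : Au l f)

include h in
theorem w_ne : a.w ≠ 0 := fun e => by
  have := a.hw
  rw [e, zero_pow h.prime.ne_zero] at this
  exact zero_ne_one this

/-- The inverse automorphism. -/
def inv : Au l f where
  σ := a.σ.symm
  w := a.σ.symm a.w⁻¹
  hσ := by
    have e := congrArg (Polynomial.map (a.σ.symm : k →+* k)) a.hσ
    rw [← e, Polynomial.map_map]
    simp
  hw := by rw [← map_pow, inv_pow, a.hw, inv_one, map_one]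

/-- The action on the coordinate ring. -/
def B : Crv k l f ≃+* Crv k l f :=
  RingEquiv.ofRingHom (bmap (a.σ : k →+* k) a.w a.hσ a.hw)
    (bmap (a.inv.σ : k →+* k) a.inv.w a.inv.hσ a.inv.hw)
    (bq_ext (by simp [inv]) (by simp) (by
      rw [RingHom.comp_apply, bmap_cy, map_mul, bmap_po, bmap_cy, ← mul_assoc, ← map_mul, map_C,
        ← map_mul]
      simp [inv, a.w_ne]))
    (bq_ext (by simp [inv]) (by simp) (by
      rw [RingHom.comp_apply, bmap_cy, map_mul, bmap_po, bmap_cy, ← mul_assoc, ← map_mul, map_C,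
        ← map_mul]
      simp [inv, a.w_ne]))

@[simp] theorem B_po (g : k[X]) : a.B (po l f g) = po l f (g.map (a.σ : k →+* k)) :=
  bmap_po _ _ a.hσ a.hw g

@[simp] theorem B_cy : a.B (cy l f) = po l f (C a.w) * cy l f := bmap_cy _ _ a.hσ a.hw

/-- The action on the function field. -/
def L : Fn l f ≃+* Fn l f := IsFractionRing.ringEquivOfRingEquiv a.B

@[simp] theorem L_io (b : Crv k l f) : a.L (io l f b) = io l f (a.B b) :=
  IsFractionRing.ringEquivOfRingEquiv_algebraMap ..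

@[simp] theorem L_pl (g : k[X]) : a.L (pl l f g) = pl l f (g.map (a.σ : k →+* k)) := by
  rw [pl_def, L_io, B_po, pl_def]

@[simp] theorem L_yl : a.L (yl l f) = pl l f (C a.w) * yl l f := by
  rw [yl, L_io, B_cy, map_mul, pl_def]

omit h in
theorem eval_σ (x : k) : f.eval (a.σ x) = a.σ (f.eval x) := by
  have e := eval_map_apply (p := f) (a.σ : k →+* k) x
  rwa [a.hσ] at e

/-- The action on points. -/
def P : Equiv.Perm (Pt l f) where
  toFun Q := ⟨a.σ Q.x, a.w⁻¹ * a.σ Q.y, by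
    rw [mul_pow, inv_pow, a.hw, inv_one, one_mul, ← map_pow, Q.eq, a.eval_σ]⟩
  invFun Q := ⟨a.σ.symm Q.x, a.σ.symm (a.w * Q.y), by
    rw [← map_pow, mul_pow, a.hw, one_mul, Q.eq]
    exact (a.inv.eval_σ _).symm⟩
  left_inv Q := by ext <;> simp [a.w_ne]
  right_inv Q := by ext <;> simp [a.w_ne]

@[simp] theorem P_x (Q : Pt l f) : (a.P Q).x = a.σ Q.x := rfl

@[simp] theorem P_y (Q : Pt l f) : (a.P Q).y = a.w⁻¹ * a.σ Q.y := rfl

theorem ev_B (Q : Pt l f) (b : Crv k l f) : (a.P Q).ev (a.B b) = a.σ (Q.ev b) :=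
  bev_bmap (a.σ : k →+* k) a.w a.hσ a.hw Q.eq _ rfl (by simp [a.w_ne]) b

/-- The action on divisors. -/
def D : AddMonoid.End (Dv l f) := Finsupp.mapDomain.addMonoidHom a.P

@[simp] theorem D_single (Q : Pt l f) (n : ℤ) :
    a.D (Finsupp.single Q n) = Finsupp.single (a.P Q) n := Finsupp.mapDomain_single

theorem D_apply (E : Dv l f) (Q : Pt l f) : a.D E (a.P Q) = E Q :=
  Finsupp.mapDomain_apply a.P.injective E Q

/-- The action on the class group. -/
def J : AddMonoid.End (Jac k l f) := pic (a.B : Crv k l f →+* Crv k l f)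

end Au

/-- The automorphism `y ↦ z y`. -/
def rt (f : k[X]) {z : k} (hz : IsPrimitiveRoot z l) : Au l f :=
  ⟨RingEquiv.refl k, z, Polynomial.map_id, hz.pow_eq_one⟩

/-- The automorphism given by a field automorphism. -/
def ga (l : ℕ) {f : k[X]} (σ : k ≃+* k) (hσ : f.map σ.toRingHom = f) : Au l f :=
  ⟨σ, 1, hσ, one_pow l⟩

theorem zt_eq [Sm l f] {z : k} (hz : IsPrimitiveRoot z l) : zt f hz = (rt f hz).J := rfl

theorem sg_eq [Sm l f] (σ : k ≃+* k) (hσ : f.map σ.toRingHom = f) :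
    sg l σ hσ = (ga l σ hσ).J := rfl

@[simp] theorem rt_σ {z : k} (hz : IsPrimitiveRoot z l) (x : k) : (rt f hz).σ x = x := rfl

@[simp] theorem rt_w {z : k} (hz : IsPrimitiveRoot z l) : (rt f hz).w = z := rfl

@[simp] theorem rt_map {z : k} (hz : IsPrimitiveRoot z l) (g : k[X]) :
    g.map ((rt f hz).σ : k →+* k) = g := Polynomial.map_id

@[simp] theorem ga_σ (σ : k ≃+* k) (hσ : f.map σ.toRingHom = f) : (ga l σ hσ).σ = σ := rfl

@[simp] theorem ga_w (σ : k ≃+* k) (hσ : f.map σ.toRingHom = f) : (ga l σ hσ).w = 1 := rfl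

/-- The norm of a function. -/
def nrm [Sm l f] {z : k} (hz : IsPrimitiveRoot z l) (b : Fn l f) : Fn l f :=
  ∏ j ∈ Finset.range l, (rt f hz).L^[j] b

/-- The norm of a divisor. -/
def nmD [Sm l f] {z : k} (hz : IsPrimitiveRoot z l) : AddMonoid.End (Dv l f) :=
  ∑ j ∈ Finset.range l, (rt f hz).D ^ j

end Pool.Agent.Lib.MP_d61fbb_ag.SE
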