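import Pool.Agent.Lib.MP_d61fbb_ag.SE.C0

/-! The coordinate ring over a base ring: normal forms and local parameters. -/

set_option autoImplicit false

noncomputable section

namespace Pool.Agent.Lib.MP_d61fbb_ag.SE

open Polynomial Function

variable {A A' : Type} [CommRing A] [CommRing A'] {l : ℕ} {f : A[X]} {f' : A'[X]}

theorem c1_rep [Nontrivial A] (hl : l ≠ 0) {a : A} (b : AdjoinRoot (X ^ l - C a : A[X])) :
    ∃ G : A[X], G.degree < l ∧ AdjoinRoot.mk _ G = b := by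
  obtain ⟨G, rfl⟩ := AdjoinRoot.mk_surjective b
  have hm := monic_X_pow_sub_C a hl
  exact ⟨G %ₘ _, (degree_modByMonic_lt G hm).trans_eq (degree_X_pow_sub_C hl.bot_lt a),
    AdjoinRoot.mk_eq_mk.2 (dvd_modByMonic_sub G _)⟩

theorem c1_zero (hl : l ≠ 0) {a : A} {G : A[X]} (hG : G.degree < l)
    (h : AdjoinRoot.mk (X ^ l - C a : A[X]) G = 0) : G = 0 := by
  nontriviality A
  by_contra k
  exact (monic_X_pow_sub_C a hl).not_dvd_of_degree_lt k
    (hG.trans_eq (degree_X_pow_sub_C hl.bot_lt a).symm) (AdjoinRoot.mk_eq_zero.1 h)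

theorem exists_rep [Nontrivial A] (hl : l ≠ 0) (b : Bq l f) :
    ∃ G : A[X][X], G.degree < l ∧ AdjoinRoot.mk _ G = b := c1_rep hl b

theorem eq_zero_of_mk (hl : l ≠ 0) {G : A[X][X]} (hG : G.degree < l)
    (h : (AdjoinRoot.mk _ G : Bq l f) = 0) : G = 0 := c1_zero hl hG h

theorem po_inj (hl : l ≠ 0) : Injective (po l f) :=
  (injective_iff_map_eq_zero _).2 fun _ h => C_eq_zero.1
    (c1_zero hl (degree_C_le.trans_lt (Nat.cast_pos.2 hl.bot_lt)) h)

theorem bmap_mk (φ : A →+* A') (h : f.map φ = f') (G : A[X][X]) :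
    bmap φ 1 h (one_pow l) (AdjoinRoot.mk _ G) = AdjoinRoot.mk _ (G.map (mapRingHom φ)) :=
  DFunLike.congr_fun (Polynomial.ringHom_ext (f := (bmap φ 1 h (one_pow l)).comp (AdjoinRoot.mk _))
    (g := (AdjoinRoot.mk _).comp (mapRingHom (mapRingHom φ))) (by simp) (by simp)) G

theorem bmap_inj (hl : l ≠ 0) {φ : A →+* A'} (hφ : Injective φ) (h : f.map φ = f') :
    Injective (bmap φ 1 h (one_pow l)) := by
  refine (injective_iff_map_eq_zero _).2 fun b hb => ?_
  obtain ⟨G, rfl⟩ := AdjoinRoot.mk_surjective b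
  rw [bmap_mk, AdjoinRoot.mk_eq_zero] at hb
  refine AdjoinRoot.mk_eq_zero.2 ((map_dvd_map (mapRingHom φ) (Polynomial.map_injective φ hφ)
    (monic_X_pow_sub_C f hl)).1 ?_)
  simpa [h] using hb

theorem ker_bev {x y : A} (h : y ^ l = f.eval x) {b : Bq l f} (hb : bev x y h b = 0) :
    ∃ s t, b = po l f (X - C x) * s + (cy l f - po l f (C y)) * t := by
  let I : Ideal (Bq l f) := Ideal.span {po l f (X - C x), cy l f - po l f (C y)}
  have e := DFunLike.congr_fun (bq_ext (φ := Ideal.Quotient.mk I)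
    (ψ := ((Ideal.Quotient.mk I).comp ((po l f).comp C)).comp (bev x y h)) (by simp) (by
      simp only [RingHom.comp_apply, bev_po, eval_X, Ideal.Quotient.eq, ← map_sub]
      exact Ideal.subset_span (.inl rfl)) (by
      simp only [RingHom.comp_apply, bev_cy, Ideal.Quotient.eq]
      exact Ideal.subset_span (.inr rfl))) b
  rw [RingHom.comp_apply, hb, map_zero, Ideal.Quotient.eq_zero_iff_mem] at e
  obtain ⟨s, t, e⟩ := Ideal.mem_span_pair.1 e
  exact ⟨s, t, by rw [← e, mul_comm s, mul_comm t]⟩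

theorem c1_par {x y : A} (h : y ^ l = f.eval x) : ∃ q : A[X], q.eval x = f.derivative.eval x ∧
    po l f (X - C x) * po l f q = cy l f ^ l - po l f (C y) ^ l := by
  obtain ⟨q, e⟩ := X_sub_C_dvd_sub_C_eval (a := x) (p := f)
  refine ⟨q, ?_, by rw [← map_mul, ← e, cy_pow, ← map_pow, ← map_pow, h, map_sub]⟩
  simpa using (congrArg (fun g => g.derivative.eval x) e).symm

theorem par_x {x y : A} (h : y ^ l = f.eval x) : ∃ u, bev x y h u = l * y ^ (l - 1) ∧
    ∀ b, bev x y h b = 0 → po l f (X - C x) ∣ u * b := by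
  obtain ⟨q, -, e⟩ := c1_par h
  refine ⟨∑ i ∈ Finset.range l, cy l f ^ i * po l f (C y) ^ (l - 1 - i), ?_, fun b hb => ?_⟩
  · simp only [map_sum, map_mul, map_pow, bev_cy, bev_po, eval_C, geom_sum₂_self]
  · obtain ⟨s, t, rfl⟩ := ker_bev h hb
    rw [mul_add, ← mul_assoc _ (cy l f - _), geom_sum₂_mul, ← e]
    exact dvd_add ((dvd_mul_right _ _).mul_left _) ((dvd_mul_right _ _).mul_right _)

theorem par_y {x y : A} (h : y ^ l = f.eval x) : ∃ u, bev x y h u = f.derivative.eval x ∧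
    po l f (X - C x) * u = cy l f ^ l - po l f (C y) ^ l ∧
    ∀ b, bev x y h b = 0 → cy l f - po l f (C y) ∣ u * b := by
  obtain ⟨q, k, e⟩ := c1_par h
  refine ⟨po l f q, (bev_po ..).trans k, e, fun b hb => ?_⟩
  obtain ⟨s, t, rfl⟩ := ker_bev h hb
  rw [mul_add, ← mul_assoc, mul_comm (po l f q), e]
  exact dvd_add ((sub_dvd_pow_sub_pow _ _ _).mul_right _) ((dvd_mul_right _ _).mul_left _)

/-- Invariants of a Kummer automorphism. -/
theorem fix_root {E : Type} [CommRing E] [IsDomain E] {a ζ : E} (hl : l ≠ 0)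
    (hζ : IsPrimitiveRoot ζ l)
    (σ : AdjoinRoot (X ^ l - C a : E[X]) →+* AdjoinRoot (X ^ l - C a : E[X]))
    (h1 : ∀ c, σ (AdjoinRoot.of _ c) = AdjoinRoot.of _ c)
    (h2 : σ (AdjoinRoot.root _) = AdjoinRoot.of _ ζ * AdjoinRoot.root _)
    {b : AdjoinRoot (X ^ l - C a : E[X])} (hb : σ b = b) : ∃ c, b = AdjoinRoot.of _ c := by
  obtain ⟨G, hG, rfl⟩ := c1_rep hl b
  have e := DFunLike.congr_fun (Polynomial.ringHom_ext (f := σ.comp (AdjoinRoot.mk _))
    (g := (AdjoinRoot.mk _).comp (compRingHom (C ζ * X))) (by simp [h1]) (by simp [h2])) G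
  rw [RingHom.comp_apply, hb, RingHom.comp_apply, coe_compRingHom_apply, eq_comm, ← sub_eq_zero,
    ← map_sub] at e
  have k := (degree_lt_iff_coeff_zero _ _).1 hG
  have e2 := c1_zero hl ((degree_lt_iff_coeff_zero _ _).2 fun m hm => by
    rw [coeff_sub, comp_C_mul_X_coeff, k m hm, zero_mul, sub_zero]) e
  refine ⟨G.coeff 0, congrArg (AdjoinRoot.mk _) (eq_C_of_degree_le_zero
    ((degree_le_iff_coeff_zero _ _).2 fun m hm => ?_))⟩
  rcases lt_or_ge m l with c | c
  · have e3 := congrArg (coeff · m) e2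
    simp only [coeff_sub, comp_C_mul_X_coeff, coeff_zero, ← mul_sub_one] at e3
    exact (mul_eq_zero.1 e3).resolve_right (sub_ne_zero.2
      (hζ.pow_ne_one_of_pos_of_lt (Nat.cast_pos.1 hm).ne' c))
  · exact k m c

end Pool.Agent.Lib.MP_d61fbb_ag.SE
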