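import Pool.Agent.Lib.MP_d61fbb_ag.SE.CStmt

/-! Permutation modules. -/

set_option autoImplicit false

noncomputable section

namespace Pool.Agent.Lib.MP_d61fbb_ag.SE

open Polynomial Function

theorem c6_symm {Y : Type} (ρ : Equiv.Perm Y) {l : ℕ} (hl : l ≠ 0) (h : ρ ^ l = 1) {x y : Y}
    (j : ℕ) (e : (ρ ^ j) x = y) : (ρ ^ (j * (l - 1))) y = x := by
  obtain ⟨m, rfl⟩ := Nat.exists_eq_succ_of_ne_zero hl
  rw [← e, ← Equiv.Perm.mul_apply, ← pow_add, Nat.succ_sub_one, ← Nat.mul_succ, mul_comm, pow_mul,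
    h, one_pow, Equiv.Perm.one_apply]

theorem c6_rep {Y : Type} (ρ : Equiv.Perm Y) {l : ℕ} (hl : l ≠ 0) (h : ρ ^ l = 1) :
    ∃ rep : Y → Y, (∀ x, ∃ j : ℕ, (ρ ^ j) x = rep x) ∧ ∀ (j : ℕ) x, rep ((ρ ^ j) x) = rep x := by
  let s : Setoid Y := ⟨fun x y => ∃ j : ℕ, (ρ ^ j) x = y, fun x => ⟨0, rfl⟩,
    fun ⟨j, e⟩ => ⟨_, c6_symm ρ hl h j e⟩,
    fun ⟨i, e⟩ ⟨j, e'⟩ => ⟨j + i, by rw [pow_add, Equiv.Perm.mul_apply, e, e']⟩⟩
  refine ⟨fun x => (Quotient.mk s x).out, fun x => s.symm (Quotient.mk_out x), fun j x => ?_⟩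
  have : Quotient.mk s x = Quotient.mk s ((ρ ^ j) x) := Quotient.sound ⟨j, rfl⟩
  simp only [this]

theorem c6_pow {Y : Type} (ρ : Equiv.Perm Y) (T : AddMonoid.End (Y →₀ ℤ))
    (hT : ∀ x n, T (Finsupp.single x n) = Finsupp.single (ρ x) n) (j : ℕ) (x : Y) (n : ℤ) :
    (T ^ j) (Finsupp.single x n) = Finsupp.single ((ρ ^ j) x) n := by
  induction j with
  | zero => rfl
  | succ j ih =>
    rw [pow_succ', pow_succ', Equiv.Perm.mul_apply, ← hT, ← ih]
    rfl

theorem c6_apply {Y : Type} (ρ : Equiv.Perm Y) (T : AddMonoid.End (Y →₀ ℤ))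
    (hT : ∀ x n, T (Finsupp.single x n) = Finsupp.single (ρ x) n) (D : Y →₀ ℤ) (x : Y) :
    T D (ρ x) = D x := by
  induction D using Finsupp.induction_linear with
  | zero => rw [map_zero]; rfl
  | add f g hf hg => rw [map_add, Finsupp.add_apply, hf, hg, Finsupp.add_apply]
  | single y n => rw [hT, Finsupp.single_apply_left ρ.injective]

theorem c6_sum {Y : Type} (T : AddMonoid.End (Y →₀ ℤ)) (l : ℕ) (D : Y →₀ ℤ) :
    (∑ j ∈ Finset.range l, T ^ j) D = ∑ j ∈ Finset.range l, (T ^ j) D :=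
  AddMonoidHom.finsetSum_apply _ _ _

theorem perm_ker {Y : Type} (ρ : Equiv.Perm Y) {l : ℕ} (hl : l ≠ 0) (h : ρ ^ l = 1)
    (T : AddMonoid.End (Y →₀ ℤ)) (hT : ∀ x n, T (Finsupp.single x n) = Finsupp.single (ρ x) n)
    {D : Y →₀ ℤ} (hD : (∑ j ∈ Finset.range l, T ^ j) D = 0) : ∃ E, D = E - T E := by
  obtain ⟨rep, h1, h2⟩ := c6_rep ρ hl h
  have hA : ∀ D : Y →₀ ℤ, ∃ E, D - D.mapDomain rep = E - T E := fun D => by
    induction D using Finsupp.induction_linear with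
    | zero => exact ⟨0, by simp⟩
    | add f g hf hg =>
      obtain ⟨E, hE⟩ := hf
      obtain ⟨E', hE'⟩ := hg
      refine ⟨E + E', ?_⟩
      rw [Finsupp.mapDomain_add, map_add, add_sub_add_comm, hE, hE', add_sub_add_comm]
    | single x n =>
      obtain ⟨j, hj⟩ := h1 x
      rw [Finsupp.mapDomain_single, ← hj]
      clear hj
      induction j with
      | zero => exact ⟨0, by simp⟩
      | succ j ih =>
        obtain ⟨E, hE⟩ := ih
        refine ⟨E + Finsupp.single ((ρ ^ j) x) n, ?_⟩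
        rw [map_add, hT, add_sub_add_comm, ← hE, pow_succ', Equiv.Perm.mul_apply]
        abel
  have hB : ∀ (j : ℕ) (D : Y →₀ ℤ), ((T ^ j) D).mapDomain rep = D.mapDomain rep := fun j D => by
    induction D using Finsupp.induction_linear with
    | zero => rw [map_zero]
    | add f g hf hg => rw [map_add, Finsupp.mapDomain_add, Finsupp.mapDomain_add, hf, hg]
    | single x n => rw [c6_pow ρ T hT, Finsupp.mapDomain_single, Finsupp.mapDomain_single, h2]
  have hC := congrArg (Finsupp.mapDomain rep) hD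
  rw [c6_sum, Finsupp.mapDomain_finsetSum, Finsupp.mapDomain_zero] at hC
  simp only [hB, Finset.sum_const, Finset.card_range] at hC
  obtain ⟨E, hE⟩ := hA D
  rw [(smul_eq_zero.1 hC).resolve_left hl, sub_zero] at hE
  exact ⟨E, hE⟩

theorem perm_fix {Y : Type} (ρ : Equiv.Perm Y) {l : ℕ} (hl : l.Prime) (h : ρ ^ l = 1)
    (T : AddMonoid.End (Y →₀ ℤ)) (hT : ∀ x n, T (Finsupp.single x n) = Finsupp.single (ρ x) n)
    {D : Y →₀ ℤ} (hD : T D = D) :
    ∃ E F, D = (∑ j ∈ Finset.range l, T ^ j) E + F ∧ ∀ x ∈ F.support, ρ x = x := by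
  classical
  obtain ⟨rep, h1, h2⟩ := c6_rep ρ hl.ne_zero h
  have hD1 : ∀ (j : ℕ) x, D ((ρ ^ j) x) = D x := fun j x => by
    induction j with
    | zero => rfl
    | succ j ih =>
      rw [pow_succ', Equiv.Perm.mul_apply, ← ih, ← c6_apply ρ T hT D ((ρ ^ j) x), hD]
  have hfix : ∀ (j : ℕ) x, ρ ((ρ ^ j) x) = (ρ ^ j) x ↔ ρ x = x := fun j x => by
    rw [← Equiv.Perm.mul_apply, ← pow_succ', pow_succ, Equiv.Perm.mul_apply,
      EmbeddingLike.apply_eq_iff_eq]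
  refine ⟨D.filter fun x => ρ x ≠ x ∧ rep x = x, D.filter fun x => ρ x = x, ?_, fun x hx => ?_⟩
  swap
  · rw [Finsupp.support_filter, Finset.mem_filter] at hx
    exact hx.2
  ext y
  have hE : ∀ j : ℕ, (T ^ j) (D.filter fun x => ρ x ≠ x ∧ rep x = x) y =
      if ρ y ≠ y ∧ (ρ ^ j) (rep y) = y then D y else 0 := fun j => by
    obtain ⟨x, rfl⟩ := (ρ ^ j).surjective y
    rw [c6_apply (ρ ^ j) (T ^ j) (c6_pow ρ T hT j), Finsupp.filter_apply, hD1, h2]
    simp only [Ne, hfix, EmbeddingLike.apply_eq_iff_eq]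
  rw [Finsupp.add_apply, c6_sum, Finsupp.finsetSum_apply, Finsupp.filter_apply]
  simp only [hE]
  by_cases hy : ρ y = y
  · simp [hy]
  obtain ⟨j, hj⟩ := h1 y
  have hk := c6_symm ρ hl.ne_zero h j hj
  rw [pow_eq_pow_mod _ h] at hk
  have hr : ρ (rep y) ≠ rep y := by
    rw [← hj]
    exact fun e => hy ((hfix j y).1 e)
  have : Fact l.Prime := ⟨hl⟩
  have hp : minimalPeriod ρ (rep y) = l := minimalPeriod_eq_prime (by
    rw [IsPeriodicPt, IsFixedPt, Equiv.Perm.iterate_eq_pow, h, Equiv.Perm.one_apply]) hr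
  have hlt : j * (l - 1) % l < l := Nat.mod_lt _ hl.pos
  rw [if_neg hy, add_zero, Finset.sum_eq_single (j * (l - 1) % l), if_pos ⟨hy, hk⟩]
  · intro i hi hne
    refine if_neg fun e => hne ?_
    refine iterate_injOn_Iio_minimalPeriod (f := ρ) (x := rep y) ?_ ?_ ?_
    · rw [hp]
      exact Finset.mem_range.1 hi
    · rw [hp]
      exact hlt
    · simp only [Equiv.Perm.iterate_eq_pow]
      exact e.2.trans hk.symm
  · intro hn
    exact absurd (Finset.mem_range.2 hlt) hn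

end Pool.Agent.Lib.MP_d61fbb_ag.SE
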