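import Pool.Agent.Lib.MP_d61fbb_ag.SE.C1

/-! Theorem 90 and norms from Kummer extensions. -/

set_option autoImplicit false

noncomputable section

namespace Pool.Agent.Lib.MP_d61fbb_ag.SE

open Polynomial Function

theorem c6b_succ {L : Type} [Field L] (τ : L →+* L) (j : ℕ) (c : L) :
    (τ ^ (j + 1)) c = τ ((τ ^ j) c) := by
  rw [pow_succ']
  rfl

theorem c6b_succ' {L : Type} [Field L] (τ : L →+* L) (j : ℕ) (c : L) :
    (τ ^ (j + 1)) c = (τ ^ j) (τ c) := by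
  rw [pow_succ]
  rfl

theorem c6b_iter {L : Type} [Field L] {τ : L →+* L} {w c : L} (hw : τ w = w) (hc : τ c = w * c)
    (j : ℕ) : (τ ^ j) c = w ^ j * c := by
  induction j with
  | zero => simp
  | succ j ih =>
    rw [c6b_succ, ih, map_mul, map_pow, hw, hc]
    ring

theorem c6b_fix {L : Type} [Field L] {τ : L →+* L} {c : L} (hc : τ c = c) (j : ℕ) :
    (τ ^ j) c = c := by
  simpa using c6b_iter (w := 1) (map_one τ) (by rw [hc, one_mul]) j

theorem c6b_h90 {L : Type} [Field L] {l : ℕ} (hl : l ≠ 0) (τ : L →+* L)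
    (hτ : ∀ b, (τ ^ l) b = b) {ζ y : L} (hζ : IsPrimitiveRoot ζ l) (h1 : τ ζ = ζ) (hy : y ≠ 0)
    (hy' : τ y = ζ * y) {b : L} (hb : ∏ j ∈ Finset.range l, (τ ^ j) b = 1) :
    ∃ c, c ≠ 0 ∧ b * τ c = c := by
  have : NeZero l := ⟨hl⟩
  let N : ℕ → L := fun j => ∏ i ∈ Finset.range j, (τ ^ i) b
  have N0 : N 0 = 1 := Finset.prod_range_zero _
  have NS : ∀ j, N (j + 1) = b * τ (N j) := fun j => by
    simp only [N, Finset.prod_range_succ', c6b_succ, map_prod, pow_zero, RingHom.coe_one, id]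
    ring
  have fx : ∀ x, b * τ (∑ j ∈ Finset.range l, N j * (τ ^ j) x) =
      ∑ j ∈ Finset.range l, N j * (τ ^ j) x := fun x => by
    have e := (Finset.sum_range_succ (fun j => N j * (τ ^ j) x) l).symm.trans
      (Finset.sum_range_succ' (fun j => N j * (τ ^ j) x) l)
    rw [N0, hτ, show N l = 1 from hb, pow_zero, RingHom.coe_one, id, add_left_inj] at e
    refine Eq.trans ?_ e.symm
    rw [map_sum, Finset.mul_sum]
    exact Finset.sum_congr rfl fun j _ => by rw [map_mul, ← mul_assoc, ← NS, ← c6b_succ]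
  by_contra! n
  have z : ∀ i, ∑ j ∈ Finset.range l, N j * (ζ ^ j) ^ i = 0 := fun i => by
    have e : ∑ j ∈ Finset.range l, N j * (τ ^ j) (y ^ i) = 0 :=
      by_contra fun k => n _ k (fx _)
    simp only [map_pow, c6b_iter h1 hy', mul_pow, ← mul_assoc, ← Finset.sum_mul] at e
    exact (mul_eq_zero.1 e).resolve_right (pow_ne_zero _ hy)
  have e := Finset.sum_eq_zero (s := Finset.range l) fun i _ => z i
  rw [Finset.sum_comm, Finset.sum_eq_single 0 (fun j hj j0 => by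
    have k := mul_geom_sum (ζ ^ j) l
    rw [← pow_mul, mul_comm j l, pow_mul, hζ.pow_eq_one, one_pow, sub_self] at k
    rw [← Finset.mul_sum, (mul_eq_zero.1 k).resolve_left (sub_ne_zero.2
      (hζ.pow_ne_one_of_pos_of_lt j0 (Finset.mem_range.1 hj))), mul_zero])
    (fun k => absurd (Finset.mem_range.2 (Nat.pos_of_ne_zero hl)) k)] at e
  exact hζ.neZero'.out (by simpa [N0] using e)

theorem hilbert90 {L : Type} [Field L] {l : ℕ} (hl : l ≠ 0) (τ : L ≃+* L)
    (hτ : ∀ b, τ^[l] b = b) {ζ y : L} (hζ : IsPrimitiveRoot ζ l) (h1 : τ ζ = ζ) (hy : y ≠ 0)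
    (hy' : τ y = ζ * y) {b : L} (hb : ∏ j ∈ Finset.range l, τ^[j] b = 1) :
    ∃ c, c ≠ 0 ∧ b * τ c = c := by
  exact c6b_h90 hl (τ : L →+* L) (fun b => by simpa [RingHom.coe_pow] using hτ b) hζ h1 hy hy'
    (by simpa [RingHom.coe_pow] using hb)

/-- Extension of a ring homomorphism to a Kummer extension. -/
def c6bE {L : Type} [Field L] {l : ℕ} {a : L} (φ : L →+* L) (hφ : φ a = a) (w : L)
    (hw : w ^ l = 1) : AdjoinRoot (X ^ l - C a : L[X]) →+* AdjoinRoot (X ^ l - C a : L[X]) :=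
  AdjoinRoot.lift ((AdjoinRoot.of _).comp φ) (AdjoinRoot.of _ w * AdjoinRoot.root _) (by
    rw [eval₂_sub, eval₂_X_pow, eval₂_C, mul_pow, ← map_pow, hw, map_one, one_mul,
      RingHom.comp_apply, hφ, root_X_pow_sub_C_pow, sub_self])

theorem c6b_norm {L : Type} [Field L] {l : ℕ} (hl : l.Prime) (h2 : l ≠ 2) (τ : L →+* L)
    (hτ : ∀ b, (τ ^ l) b = b) {ζ y a : L} (hζ : IsPrimitiveRoot ζ l) (h1 : τ ζ = ζ) (hy : y ≠ 0)
    (hy' : τ y = ζ * y) (ha : a ≠ 0) (ha' : τ a = a) {ι : Type} [Fintype ι] (ρ : ι → L)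
    (hρ : ∀ i, τ (ρ i) = ρ i) (h : y ^ l = ∏ i, (a - ρ i ^ l)) (hc : ∀ c, c ^ l ≠ a) :
    ∃ γ, ∏ j ∈ Finset.range l, (τ ^ j) γ = a := by
  have : Fact (Irreducible (X ^ l - C a : L[X])) := ⟨X_pow_sub_C_irreducible_of_prime hl hc⟩
  set o := AdjoinRoot.of (X ^ l - C a : L[X]) with ho
  set s := AdjoinRoot.root (X ^ l - C a : L[X]) with hs
  have sl : s ^ l = o a := root_X_pow_sub_C_pow l a
  have s0 : s ≠ 0 := fun e => by
    rw [e, zero_pow hl.ne_zero, eq_comm, map_eq_zero] at sl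
    exact ha sl
  obtain ⟨σ, σo, σs⟩ : ∃ σ : AdjoinRoot (X ^ l - C a : L[X]) →+* AdjoinRoot (X ^ l - C a : L[X]),
      (∀ c, σ (o c) = o c) ∧ σ s = o ζ * s :=
    ⟨c6bE (RingHom.id L) rfl ζ hζ.pow_eq_one, fun c => AdjoinRoot.lift_of _,
      AdjoinRoot.lift_root _⟩
  obtain ⟨t, tq, ts⟩ : ∃ t : AdjoinRoot (X ^ l - C a : L[X]) →+* AdjoinRoot (X ^ l - C a : L[X]),
      (∀ c, t (o c) = o (τ c)) ∧ t s = s :=
    ⟨c6bE τ ha' 1 (one_pow l), fun c => AdjoinRoot.lift_of _,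
      (AdjoinRoot.lift_root _).trans (by rw [map_one, one_mul])⟩
  have hζ' := hζ.map_of_injective o.injective
  have tq' : ∀ j c, (t ^ j) (o c) = o ((τ ^ j) c) := fun j c => by
    induction j with
    | zero => rfl
    | succ j ih => rw [c6b_succ, ih, tq, c6b_succ]
  have σl : σ ^ l = 1 := AdjoinRoot.ringHom_ext (RingHom.ext fun c => c6b_fix (σo c) l)
    ((c6b_iter (σo ζ) σs l).trans (by rw [hζ'.pow_eq_one, one_mul]; rfl))
  have tl : t ^ l = 1 := AdjoinRoot.ringHom_ext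
    (RingHom.ext fun c => (tq' l c).trans (by rw [hτ]; rfl)) (c6b_fix ts l)
  have cm : σ.comp t = t.comp σ := AdjoinRoot.ringHom_ext
    (RingHom.ext fun c => by
      change σ (t (o c)) = t (σ (o c))
      rw [tq, σo, σo, tq])
    (by
      change σ (t s) = t (σ s)
      rw [ts, σs, map_mul, tq, ts, h1])
  have y0 : o y ≠ 0 := (map_ne_zero o).2 hy
  have z0 : o ζ ≠ 0 := hζ'.ne_zero hl.ne_zero
  have pr : ∀ r, ∏ j ∈ Finset.range l, (o ζ ^ j * s - r) = o a - r ^ l := fun r => by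
    have e := congrArg (Polynomial.eval r) (X_pow_sub_C_eq_prod hζ' hl.pos sl)
    simp only [eval_sub, eval_pow, eval_X, eval_C, eval_prod] at e
    have q := Finset.prod_neg (s := Finset.range l) fun j => r - o ζ ^ j * s
    rw [Finset.card_range, (hl.odd_of_ne_two h2).neg_one_pow, ← e] at q
    simpa using q
  obtain ⟨θ, θ0, hθ⟩ := c6b_h90 hl.ne_zero σ (fun b => by rw [σl]; rfl) hζ' (σo ζ) s0 σs
    (b := (∏ i, (s - o (ρ i))) / o y) (by
      simp only [map_div₀, map_prod, map_sub, c6b_fix (σo _), c6b_iter (σo ζ) σs]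
      rw [Finset.prod_div_distrib, Finset.prod_comm, Finset.prod_const, Finset.card_range,
        ← map_pow, h, map_prod, div_eq_one_iff_eq (by
          rw [← map_prod, ← h, map_pow]
          exact pow_ne_zero _ y0)]
      exact Finset.prod_congr rfl fun i _ => by rw [pr, map_sub, map_pow])
  have tβ : t (∏ i, (s - o (ρ i))) = ∏ i, (s - o (ρ i)) := by
    simp only [map_prod, map_sub, ts, tq, hρ]
  generalize ∏ i, (s - o (ρ i)) = β at hθ tβ
  have β0 : β ≠ 0 := fun e => θ0 (by rw [← hθ, e, zero_div, zero_mul])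
  have k := congrArg t hθ
  rw [map_mul, map_div₀, tβ, tq, hy', map_mul,
    ← show σ (t θ) = t (σ θ) from DFunLike.congr_fun cm θ] at k
  obtain ⟨g, hg⟩ := fix_root hl.ne_zero hζ σ σo σs (b := t θ / (s * θ)) (by
    have q : ∀ {u v w : AdjoinRoot (X ^ l - C a : L[X])}, u ≠ 0 → β / u * v = w →
        v = u / β * w := fun u0 e => by
      rw [← e]
      field_simp
    have e1 := q y0 hθ
    have e2 := q (mul_ne_zero z0 y0) k
    rw [map_div₀, map_mul, σs, e1, e2]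
    field_simp)
  rw [← ho, div_eq_iff (mul_ne_zero s0 θ0)] at hg
  have it : ∀ j, (t ^ j) θ = o (∏ i ∈ Finset.range j, (τ ^ i) g) * s ^ j * θ := fun j => by
    induction j with
    | zero => simp
    | succ j ih =>
      rw [c6b_succ', hg, map_mul, map_mul, tq', c6b_fix ts, ih, Finset.prod_range_succ, map_mul]
      ring
  have fin := it l
  rw [tl, sl, ← map_mul, RingHom.coe_one, id, eq_comm, mul_eq_right₀ θ0, map_eq_one_iff _
    o.injective] at fin
  refine ⟨g⁻¹, ?_⟩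
  simp only [map_inv₀, Finset.prod_inv_distrib]
  exact inv_eq_of_mul_eq_one_right fin

theorem exists_norm {L : Type} [Field L] {l : ℕ} (hl : l.Prime) (h2 : l ≠ 2) (τ : L ≃+* L)
    (hτ : ∀ b, τ^[l] b = b) {ζ y a : L} (hζ : IsPrimitiveRoot ζ l) (h1 : τ ζ = ζ) (hy : y ≠ 0)
    (hy' : τ y = ζ * y) (ha : a ≠ 0) (ha' : τ a = a) {ι : Type} [Fintype ι] (ρ : ι → L)
    (hρ : ∀ i, τ (ρ i) = ρ i) (h : y ^ l = ∏ i, (a - ρ i ^ l)) :
    ∃ γ, ∏ j ∈ Finset.range l, τ^[j] γ = a := by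
  have : NeZero l := ⟨hl.ne_zero⟩
  suffices ∃ γ, ∏ j ∈ Finset.range l, ((τ : L →+* L) ^ j) γ = a by
    simpa [RingHom.coe_pow] using this
  have hτ' : ∀ b, ((τ : L →+* L) ^ l) b = b := fun b => by simpa [RingHom.coe_pow] using hτ b
  by_cases hc : ∃ c, c ^ l = a
  · obtain ⟨c, rfl⟩ := hc
    have c0 : c ≠ 0 := fun e => ha (by rw [e, zero_pow hl.ne_zero])
    obtain ⟨j, -, hj⟩ := hζ.eq_pow_of_pow_eq_one (ξ := τ c / c)
      (by rw [div_pow, ← map_pow, ha', div_self ha])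
    obtain ⟨m, hm⟩ := hl.odd_of_ne_two h2
    have e : ∑ i ∈ Finset.range l, i = l * m := by
      have := Finset.sum_range_id_mul_two l
      rw [show l - 1 = m * 2 by omega, ← mul_assoc] at this
      omega
    refine ⟨c, ?_⟩
    rw [Finset.prod_congr rfl fun i _ => c6b_iter (τ := (τ : L →+* L)) (w := ζ ^ j) (c := c)
      (by rw [map_pow, RingHom.coe_coe, h1]) (by rw [hj, div_mul_cancel₀ _ c0]; rfl) i,
      Finset.prod_mul_distrib, Finset.prod_pow_eq_pow_sum, e, Finset.prod_const,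
      Finset.card_range, ← pow_mul, mul_left_comm, pow_mul, hζ.pow_eq_one, one_pow, one_mul]
  · exact c6b_norm hl h2 _ hτ' hζ h1 hy hy' ha ha' ρ hρ h (not_exists.1 hc)

end Pool.Agent.Lib.MP_d61fbb_ag.SE
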