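import Pool.Agent.Lib.MP_d61fbb_ag.SE.C4
import Pool.Agent.Lib.MP_d61fbb_ag.SE.C6
import Pool.Agent.Lib.MP_d61fbb_ag.SE.C6b

/-! The class group as a module over the cyclotomic ring. -/

set_option autoImplicit false

noncomputable section

namespace Pool.Agent.Lib.MP_d61fbb_ag.SE

open Polynomial Function

variable {k : Type} [Field k] [IsAlgClosed k] {l d : ℕ} {f : k[X]} [Sm l f]
  {r : Fin (d + 1) → k} {z : k}

theorem c7_sum {M : Type} [AddCommGroup M] (n : ℕ) (T : AddMonoid.End M) (x : M) :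
    (∑ j ∈ Finset.range n, T ^ j) x = ∑ j ∈ Finset.range n, (T ^ j) x :=
  map_sum (AddMonoidHom.eval x) _ _

theorem j_norm (hz : IsPrimitiveRoot z l) : ∑ j ∈ Finset.range l, zt f hz ^ j = 0 := by
  refine DFunLike.ext _ _ fun x => ?_
  obtain ⟨D, rfl⟩ := cl_surj x
  have h1 := cl_nmD hz D
  rw [nmD, c7_sum, map_sum] at h1
  rw [c7_sum, zt_eq]
  simp only [← cl_au_pow]
  exact h1

theorem c7_pt (h : Hyp l d f r) (hz : IsPrimitiveRoot z l) (P : Pt l f) :
    ∃ y, y - zt f hz y = cl (Finsupp.single P 1) := by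
  choose s hs using fun i => IsAlgClosed.exists_pow_nat_eq (r i - P.x) h.prime.pos
  have ha : pl l f (X - C P.x) ≠ 0 := (map_ne_zero_iff _ pl_inj).2 (X_sub_C_ne_zero _)
  obtain ⟨γ, hγ⟩ := exists_norm h.prime h.odd (rt f hz).L (rt_L_iter hz)
    ((hz.map_of_injective C_injective).map_of_injective pl_inj) (rt_L_pl hz _) yl_ne
    (rt f hz).L_yl ha (rt_L_pl hz _) (fun i => pl l f (C (s i))) (fun _ => rt_L_pl hz _) (by
      simp only [← map_pow, hs, ← map_sub, ← map_prod]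
      rw [yl_pow]
      refine congrArg _ (h.fac.trans (Finset.prod_congr rfl fun i _ => ?_))
      rw [C_sub]
      ring)
  have h0 : γ ≠ 0 := fun e => ha (by
    rw [← hγ, e]
    exact Finset.prod_eq_zero (Finset.mem_range.2 h.prime.pos) rfl)
  obtain ⟨E, hE⟩ := perm_ker (rt f hz).P h.prime.ne_zero (rt_P_order hz) (rt f hz).D
    (rt f hz).D_single (D := Finsupp.single P 1 - dv γ) (by
      change nmD hz _ = 0
      rw [map_sub, nmD_single, ← dv_nrm hz h0, nrm, hγ, sub_self])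
  refine ⟨cl E, ?_⟩
  rw [zt_eq, ← cl_au, ← map_sub, ← hE, map_sub, cl_dv, sub_zero]

theorem j_surj (h : Hyp l d f r) (hz : IsPrimitiveRoot z l) (x : Jac k l f) :
    ∃ y, y - zt f hz y = x := by
  obtain ⟨D, rfl⟩ := cl_surj x
  induction D using Finsupp.induction_linear with
  | zero => exact ⟨0, by simp⟩
  | add D E h1 h2 =>
    obtain ⟨a, ha⟩ := h1
    obtain ⟨b, hb⟩ := h2
    exact ⟨a + b, by rw [map_add, map_add, ← ha, ← hb]; abel⟩
  | single P n =>
    obtain ⟨a, ha⟩ := c7_pt h hz P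
    exact ⟨n • a, by rw [map_zsmul, ← smul_sub, ha, ← map_zsmul, Finsupp.smul_single_one]⟩

end Pool.Agent.Lib.MP_d61fbb_ag.SE
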