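import Pool.Agent.Lib.MP_d61fbb_ag.SE.C4
import Pool.Agent.Lib.MP_d61fbb_ag.SE.C5
import Pool.Agent.Lib.MP_d61fbb_ag.SE.C6
import Pool.Agent.Lib.MP_d61fbb_ag.SE.C6b

/-! The classes fixed by the rotation. -/

set_option autoImplicit false

noncomputable section

namespace Pool.Agent.Lib.MP_d61fbb_ag.SE

open Polynomial Function

variable {k : Type} [Field k] [IsAlgClosed k] {l d : ℕ} {f : k[X]} [Sm l f]
  {r : Fin (d + 1) → k} {z : k}

omit [IsAlgClosed k] [Sm l f] in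
theorem c8_pt_inj (h : Hyp l d f r) : Injective h.pt := fun _ _ e =>
  h.inj (congrArg Pt.x e)

omit [IsAlgClosed k] [Sm l f] in
theorem c8_exists_pt (h : Hyp l d f r) {P : Pt l f} (hP : P.y = 0) : ∃ i, P = h.pt i := by
  have e := P.eq
  rw [hP, zero_pow h.prime.ne_zero] at e
  obtain ⟨i, hi⟩ := (h.eval_eq_zero _).1 e.symm
  exact ⟨i, Pt.ext hi hP⟩

omit [IsAlgClosed k] [Sm l f] in
theorem c8_sum_pt (h : Hyp l d f r) (a : Fin (d + 1) → ℤ) (j : Fin (d + 1)) :
    (∑ i, a i • Finsupp.single (h.pt i) (1 : ℤ) : Dv l f) (h.pt j) = a j := by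
  rw [Finsupp.finsetSum_apply, Finset.sum_eq_single j]
  · simp
  · intro i _ hi
    have : h.pt j ≠ h.pt i := fun e => hi (c8_pt_inj h e).symm
    rw [Finsupp.smul_apply, Finsupp.single_eq_of_ne this, smul_zero]
  · intro hj
    exact absurd (Finset.mem_univ j) hj

omit [IsAlgClosed k] [Sm l f] in
theorem c8_sum_ne (h : Hyp l d f r) (a : Fin (d + 1) → ℤ) {P : Pt l f} (hP : P.y ≠ 0) :
    (∑ i, a i • Finsupp.single (h.pt i) (1 : ℤ) : Dv l f) P = 0 := by
  rw [Finsupp.finsetSum_apply]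
  refine Finset.sum_eq_zero fun i _ => ?_
  have : P ≠ h.pt i := fun e => hP (by rw [e]; rfl)
  rw [Finsupp.smul_apply, Finsupp.single_eq_of_ne this, smul_zero]

omit [IsAlgClosed k] [Sm l f] in
theorem c8_eq_sum (h : Hyp l d f r) {F : Dv l f} (hF : ∀ P, P.y ≠ 0 → F P = 0) :
    F = ∑ i, F (h.pt i) • Finsupp.single (h.pt i) (1 : ℤ) := by
  ext P
  by_cases hP : P.y = 0
  · obtain ⟨j, rfl⟩ := c8_exists_pt h hP
    rw [c8_sum_pt h (fun i => F (h.pt i)) j]
  · rw [c8_sum_ne h _ hP, hF P hP]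

theorem c8_cl_sum (h : Hyp l d f r) (a : Fin (d + 1) → ℤ) :
    cl (∑ i, a i • Finsupp.single (h.pt i) (1 : ℤ) : Dv l f) =
      ∑ i, a i • cl (Finsupp.single (h.pt i) 1) := by
  rw [map_sum]
  exact Finset.sum_congr rfl fun i _ => map_zsmul _ _ _

omit [IsAlgClosed k] in
theorem c8_D_sum (h : Hyp l d f r) (hz : IsPrimitiveRoot z l) (a : Fin (d + 1) → ℤ) :
    (rt f hz).D (∑ i, a i • Finsupp.single (h.pt i) (1 : ℤ)) =
      ∑ i, a i • Finsupp.single (h.pt i) (1 : ℤ) := by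
  rw [map_sum]
  refine Finset.sum_congr rfl fun i _ => ?_
  rw [map_zsmul, Au.D_single, (rt_P_fix hz _).2 rfl]

theorem c8_dv_y_pt (h : Hyp l d f r) (i : Fin (d + 1)) : dv (yl l f) (h.pt i) = 1 := by
  rw [dv_y]
  exact if_pos rfl

theorem c8_sum_cl (h : Hyp l d f r) : ∑ i, cl (Finsupp.single (h.pt i) (1 : ℤ)) = 0 := by
  have e := c8_eq_sum h (F := dv (yl l f)) fun P hP => by rw [dv_y, if_neg hP]
  have e' := cl_dv (yl l f)
  rw [e, c8_cl_sum h fun i => dv (yl l f) (h.pt i)] at e'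
  simpa only [c8_dv_y_pt, one_smul] using e'

theorem c8_l_cl (hz : IsPrimitiveRoot z l) {P : Pt l f} (hP : P.y = 0) :
    (l : ℤ) • cl (Finsupp.single P (1 : ℤ)) = 0 := by
  have e : nmD hz (Finsupp.single P (1 : ℤ)) = (l : ℤ) • Finsupp.single P (1 : ℤ) := by
    have e1 : nmD hz (Finsupp.single P (1 : ℤ)) =
        ∑ j ∈ Finset.range l, ((rt f hz).D ^ j) (Finsupp.single P (1 : ℤ)) :=
      AddMonoidHom.finsetSum_apply _ _ _
    rw [e1, Finset.sum_congr rfl (g := fun _ => Finsupp.single P (1 : ℤ)), Finset.sum_const,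
      Finset.card_range, natCast_zsmul]
    intro j _
    rw [rt_D_pow, Equiv.Perm.pow_apply_eq_self_of_apply_eq_self ((rt_P_fix hz P).2 hP)]
  rw [← map_zsmul, ← e, cl_nmD]

omit [IsAlgClosed k] in
theorem c8_plC_inj : Injective ((pl l f).comp C) := pl_inj.comp C_injective

omit [IsAlgClosed k] in
theorem c8_plC_ne {c : k} (hc : c ≠ 0) : pl l f (C c) ≠ 0 := fun e =>
  hc (c8_plC_inj (l := l) (f := f) (e.trans (map_zero _).symm))

/-- A function with invariant divisor is an eigenvector of the rotation. -/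
theorem c8_eigen (hz : IsPrimitiveRoot z l) {b : Fn l f} (hb : b ≠ 0)
    (e : (rt f hz).D (dv b) = dv b) :
    ∃ m : ℕ, (rt f hz).L (b / yl l f ^ m) = b / yl l f ^ m := by
  have hl : l.Prime := Sm.prime f
  have : NeZero l := ⟨hl.ne_zero⟩
  have hLb : (rt f hz).L b ≠ 0 := (map_ne_zero_iff _ (rt f hz).L.injective).2 hb
  obtain ⟨c, hc⟩ := unit_const (div_ne_zero hLb hb) (by rw [dv_div hLb hb, dv_au, e, sub_self])
  have h1 : (rt f hz).L b = pl l f (C c) * b := by rw [← hc, div_mul_cancel₀ _ hb]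
  have h2 : ∀ n : ℕ, (rt f hz).L^[n] b = pl l f (C c) ^ n * b := by
    intro n
    induction n with
    | zero => simp
    | succ n ih =>
      rw [iterate_succ_apply', ih, map_mul, map_pow, rt_L_pl, h1, pow_succ, mul_assoc]
  have h3 : c ^ l = 1 := by
    have h4 := h2 l
    rw [rt_L_iter] at h4
    have h5 : pl l f (C c) ^ l = 1 := mul_right_cancel₀ hb (h4.symm.trans (one_mul b).symm)
    apply c8_plC_inj (l := l) (f := f)
    rw [map_pow, map_one]
    exact h5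
  obtain ⟨m, -, rfl⟩ := hz.eq_pow_of_pow_eq_one h3
  refine ⟨m, ?_⟩
  have hz0 : pl l f (C z) ≠ 0 := c8_plC_ne (hz.ne_zero hl.ne_zero)
  rw [map_div₀, map_pow, h1, Au.L_yl, rt_w, C_pow, map_pow, mul_pow,
    mul_div_mul_left _ _ (pow_ne_zero m hz0)]

theorem j_rel (h : Hyp l d f r) (hz : IsPrimitiveRoot z l) (a : Fin (d + 1) → ℤ) :
    ∑ i, a i • cl (Finsupp.single (h.pt i) 1) = 0 ↔ ∀ i j, (l : ℤ) ∣ a i - a j := by
  constructor
  · intro h0
    rw [← c8_cl_sum h a] at h0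
    obtain ⟨b, hb, e⟩ := cl_eq_zero.1 h0
    obtain ⟨m, hm⟩ := c8_eigen hz hb (by rw [← e, c8_D_sum])
    obtain ⟨g, g', hg', e'⟩ := fix_rat hz hm
    have hy : yl l f ^ m ≠ 0 := pow_ne_zero m yl_ne
    have hp : pl l f g' ≠ 0 := (map_ne_zero_iff _ pl_inj).2 hg'
    have e1 := congrArg dv e'
    rw [dv_mul (div_ne_zero hb hy) hp, dv_div hb hy, dv_pow, ← e] at e1
    have key : ∀ i, (l : ℤ) ∣ a i - m := by
      intro i
      have e2 := DFunLike.congr_fun e1 (h.pt i)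
      rw [Finsupp.add_apply, Finsupp.sub_apply, c8_sum_pt, Finsupp.smul_apply, c8_dv_y_pt,
        nsmul_eq_mul, mul_one] at e2
      rw [eq_sub_of_add_eq e2]
      exact dvd_sub (dvd_dv_pl (P := h.pt i) rfl g) (dvd_dv_pl (P := h.pt i) rfl g')
    intro i j
    have := dvd_sub (key i) (key j)
    rwa [sub_sub_sub_cancel_right] at this
  · intro hd
    have e : ∀ i, a i • cl (Finsupp.single (h.pt i) (1 : ℤ)) =
        a 0 • cl (Finsupp.single (h.pt i) (1 : ℤ)) := by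
      intro i
      obtain ⟨c, hc⟩ := hd i 0
      rw [eq_add_of_sub_eq hc, add_smul, mul_comm, mul_smul, c8_l_cl hz rfl, smul_zero, zero_add]
    rw [Finset.sum_congr rfl fun i _ => e i, ← Finset.smul_sum, c8_sum_cl, smul_zero]

theorem j_ker (h : Hyp l d f r) (hz : IsPrimitiveRoot z l) (x : Jac k l f) :
    zt f hz x = x ↔ ∃ a : Fin (d + 1) → ℤ, x = ∑ i, a i • cl (Finsupp.single (h.pt i) 1) := by
  have hl : l.Prime := h.prime
  constructor
  · intro hx
    obtain ⟨D, rfl⟩ := cl_surj x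
    rw [zt_eq, ← cl_au] at hx
    obtain ⟨b, hb, e⟩ := (cl_eq_zero (D := D - (rt f hz).D D)).1 (by rw [map_sub, hx, sub_self])
    obtain ⟨c0, hc0⟩ := unit_const (nrm_ne hz hb)
      (by rw [dv_nrm hz hb, ← e, map_sub, nmD_rt, sub_self])
    obtain ⟨c, rfl⟩ := IsAlgClosed.exists_pow_nat_eq c0 hl.pos
    rw [C_pow, map_pow] at hc0
    have hc : pl l f (C c) ≠ 0 := fun e0 => nrm_ne hz hb (by rw [hc0, e0, zero_pow hl.ne_zero])
    have hn : nrm hz (b / pl l f (C c)) = 1 := by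
      have e1 := nrm_mul hz (b / pl l f (C c)) (pl l f (C c))
      rw [div_mul_cancel₀ _ hc, nrm_pl, hc0] at e1
      exact mul_right_cancel₀ (pow_ne_zero l hc) (e1.symm.trans (one_mul _).symm)
    obtain ⟨u, hu, eu⟩ := hilbert90 hl.ne_zero (rt f hz).L (rt_L_iter hz)
      (hz.map_of_injective (f := (pl l f).comp C) c8_plC_inj) (rt_L_pl hz _) yl_ne
      (Au.L_yl _) hn
    have hLu : (rt f hz).L u ≠ 0 := (map_ne_zero_iff _ (rt f hz).L.injective).2 hu
    have e2 := congrArg dv eu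
    rw [dv_mul (div_ne_zero hb hc) hLu, dv_div hb hc, dv_const, sub_zero, dv_au, ← e] at e2
    have e3 : (rt f hz).D (D - dv u) = D - dv u := by
      rw [map_sub, sub_eq_sub_iff_add_eq_add]
      calc (rt f hz).D D + dv u
          = (rt f hz).D D + (D - (rt f hz).D D + (rt f hz).D (dv u)) := by rw [e2]
        _ = D + (rt f hz).D (dv u) := by abel
    obtain ⟨E, F, e4, hF⟩ := perm_fix (rt f hz).P hl (rt_P_order hz) (rt f hz).D
      (Au.D_single _) e3
    have e5 : cl D = cl F := by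
      have e6 := congrArg cl e4
      have e7 : cl ((∑ j ∈ Finset.range l, (rt f hz).D ^ j) E) = 0 := cl_nmD hz E
      rwa [map_sub, cl_dv, sub_zero, map_add, e7, zero_add] at e6
    refine ⟨fun i => F (h.pt i), ?_⟩
    rw [e5, ← c8_cl_sum h fun i => F (h.pt i), ← c8_eq_sum h]
    intro P hP
    by_contra h0
    exact hP ((rt_P_fix hz P).1 (hF P (Finsupp.mem_support_iff.2 h0)))
  · rintro ⟨a, rfl⟩
    rw [← c8_cl_sum h a, zt_eq, ← cl_au, c8_D_sum]

end Pool.Agent.Lib.MP_d61fbb_ag.SE
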