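import Pool.Agent.Lib.MP_d61fbb_ag.SE.Defs

/-! Interface statements between the geometric, arithmetic and algebraic parts. -/

set_option autoImplicit false

noncomputable section

namespace Pool.Agent.Lib.MP_d61fbb_ag.SE

open Polynomial Matrix IsLocalRing

/-- Standing hypotheses on the curve. -/
structure Hyp {k : Type} [Field k] (l d : ℕ) (f : k[X]) (r : Fin (d + 1) → k) : Prop where
  prime : l.Prime
  odd : l ≠ 2
  ne : (l : k) ≠ 0
  nd : ¬ l ∣ d + 1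
  inj : Function.Injective r
  fac : f = ∏ i, (X - C (r i))

/-- What is used about the class group as a module over the cyclotomic ring. -/
structure JData {A : Type} [AddCommGroup A] (l d : ℕ) (zt : AddMonoid.End A)
    (P : Fin (d + 1) → A) : Prop where
  norm : ∑ j ∈ Finset.range l, zt ^ j = 0
  surj : ∀ x, ∃ y, y - zt y = x
  ker : ∀ x, zt x = x ↔ ∃ a : Fin (d + 1) → ℤ, x = ∑ i, a i • P i
  rel : ∀ a : Fin (d + 1) → ℤ, ∑ i, a i • P i = 0 ↔ ∀ i j, (l : ℤ) ∣ a i - a j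

/-- The action of `y ↦ z y`. -/
def zt {k : Type} [Field k] {l : ℕ} (f : k[X]) {z : k} (hz : IsPrimitiveRoot z l) :
    AddMonoid.End (Jac k l f) :=
  pic (tw (RingHom.id k) z Polynomial.map_id hz.pow_eq_one)

/-- The action of a field automorphism fixing `f`. -/
def sg {k : Type} [Field k] (l : ℕ) {f : k[X]} (σ : k ≃+* k) (hσ : f.map σ.toRingHom = f) :
    AddMonoid.End (Jac k l f) :=
  pic (tw σ.toRingHom 1 hσ (one_pow l))

open Classical in
/-- The residue map, extended by zero. -/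
def rs {k : Type} [Field k] (R : ValuationSubring k) (x : k) : ResidueField R :=
  if h : x ∈ R then residue R ⟨x, h⟩ else 0

/-- `φ` is a Frobenius automorphism at `R`. -/
def FrobAt {k : Type} [Field k] (R : ValuationSubring k) (p : ℕ) (φ : k ≃+* k) : Prop :=
  (∀ x, φ x ∈ R ↔ x ∈ R) ∧ ∀ x ∈ R, R.valuation (φ x - x ^ p) < 1

/-- The value at `x` of the monic polynomial of degree `j` with lower coefficients `a`. -/
def gv {κ : Type} [Field κ] {p j : ℕ} (a : Fin j → Fin p) (x : κ) : κ :=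
  x ^ j + ∑ i, ((a i : ℕ) : κ) * x ^ (i : ℕ)

open Classical in
/-- The sum of `X ^ ind g` over the monic `g` of degree `j` over the prime field. -/
def cpoly {κ : Type} [Field κ] {n : ℕ} (p l : ℕ) (rb : Fin n → κ) (w : κ) (j : ℕ) : ℤ[X] :=
  ∑ a : Fin j → Fin p, ∑ t ∈ Finset.range l,
    if (∏ i, gv a (rb i)) ^ ((p - 1) / l) = w ^ t then X ^ t else 0

/-- C: structure of the class group. -/
def CurveStmt : Prop :=
  ∀ (k : Type) [Field k] [IsAlgClosed k] (l d : ℕ) (f : k[X]) (r : Fin (d + 1) → k),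
    Hyp l d f r → ∀ (z : k) (hz : IsPrimitiveRoot z l),
    ∃ P : Fin (d + 1) → Jac k l f, JData l d (zt f hz) P ∧
      ∀ (σ : k ≃+* k) (hσ : f.map σ.toRingHom = f) (π : Equiv.Perm (Fin (d + 1))),
        (∀ i, σ (r i) = r (π i)) → ∀ i, sg l σ hσ (P i) = P (π i)

/-- Every class is fixed by the automorphisms fixing some finite set. -/
def ContStmt : Prop :=
  ∀ (k : Type) [Field k] [IsAlgClosed k] (l d : ℕ) (f : k[X]) (r : Fin (d + 1) → k),
    Hyp l d f r → ∀ x : Jac k l f, ∃ F : Finset k,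
      ∀ (σ : k ≃+* k) (hσ : f.map σ.toRingHom = f), (∀ a ∈ F, σ a = a) → sg l σ hσ x = x

/-- S and A: the polynomial satisfied by a Frobenius automorphism. -/
def RelStmt : Prop :=
  ∀ (k : Type) [Field k] [IsAlgClosed k] (l d : ℕ) (f : k[X]) (r : Fin (d + 1) → k),
    Hyp l d f r → ∀ (z : k) (hz : IsPrimitiveRoot z l) (R : ValuationSubring k) (p : ℕ),
    p.Prime → (p : ResidueField R) = 0 → l ∣ p - 1 → (∀ i, r i ∈ R) →
    Function.Injective (fun i => rs R (r i)) →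
    ∀ (φ : k ≃+* k) (hφ : f.map φ.toRingHom = f), FrobAt R p φ → φ z = z →
    ∃ w : ResidueField R, IsPrimitiveRoot w l ∧ ∀ (x : Jac k l f) (N : ℕ), l ^ N • x = 0 →
      ((1 - zt f hz) * ∑ i ∈ Finset.range (d + 1),
        aeval (zt f hz) (cpoly p l (fun i => rs R (r i)) w (d - i)) * sg l φ hφ ^ i) x = 0

/-- F: the density theorem of Frobenius. -/
def FrobStmt : Prop :=
  ∀ (K : Type) [Field K] [NumberField K] (F : Finset (AlgebraicClosure K))
    (s : AlgebraicClosure K ≃ₐ[K] AlgebraicClosure K) (Bd : ℕ),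
    ∃ (R : ValuationSubring (AlgebraicClosure K)) (p : ℕ)
      (φ : AlgebraicClosure K ≃ₐ[K] AlgebraicClosure K) (a b : ℕ),
      p.Prime ∧ Bd < p ∧ (p : ResidueField R) = 0 ∧ FrobAt R p φ.toRingEquiv ∧
      (∀ x ∈ F, x ≠ 0 → R.valuation x = 1) ∧ (∀ x ∈ F, φ x = (s ^ a) x) ∧
      ∀ x ∈ F, s x = (φ ^ b) x

/-- The value of `c j` at `ζ ^ a`. -/
def cv {Ω : Type} [Field Ω] {l : ℕ} (ζ : Ω) (c : ℕ → ℤ[X]) (a : (ZMod l)ˣ) (j : ℕ) : Ω :=
  aeval (ζ ^ (a : ZMod l).val) (c j)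

/-- The arithmetic of the coefficients of the Frobenius polynomials. -/
structure AP {Ω : Type} [Field Ω] (l : ℕ) [Fact l.Prime] (ζ : Ω) (d p : ℕ) (c : ℕ → ℤ[X]) :
    Prop where
  zero : ∀ a : (ZMod l)ˣ, cv ζ c a 0 = 1
  fe : ∀ (a : (ZMod l)ˣ) (j : ℕ), j ≤ d →
    cv ζ c a j * (p : Ω) ^ (d - j) = cv ζ c a d * cv ζ c (-a) (d - j)
  v1 : ∀ a b : (ZMod l)ˣ, a ≠ b → cv ζ c b 1 ^ d * cv ζ c a d ≠ cv ζ c a 1 ^ d * cv ζ c b d
  v3 : ∀ (a : (ZMod l)ˣ) (N : ℕ) (y : Ω), 0 < N →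
    ∃ α : Ω, ∑ i ∈ Finset.range (d + 1), cv ζ c a (d - i) * α ^ i = 0 ∧ α ^ N ≠ y
  v4 : ∀ (m : (ZMod l)ˣ → ℤ) (m0 : ℤ),
    (∏ a, ((-1) ^ d * cv ζ c a d) ^ m a) * (p : Ω) ^ m0 = 1 → ∀ a, m a = m (-a)

/-- E, N, V: functional equation, Stickelberger and their consequences. -/
def ArithStmt : Prop :=
  ∀ (κ : Type) [Field κ] (p l d : ℕ) [Fact l.Prime] (rb : Fin (d + 1) → κ) (w : κ)
    (π : Equiv.Perm (Fin (d + 1))),
    p.Prime → (p : κ) = 0 → l ≠ 2 → ¬ l ∣ d + 1 → 4 ≤ d → l ∣ p - 1 → d ^ (l - 1) < p →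
    Function.Injective rb → (∀ i, rb i ^ p = rb (π i)) → (∀ i, π i ≠ i) → IsPrimitiveRoot w l →
    ∀ (Ω : Type) [Field Ω] [CharZero Ω] [IsAlgClosed Ω] (ζ : Ω), IsPrimitiveRoot ζ l →
      AP l ζ d p (cpoly p l rb w)

end Pool.Agent.Lib.MP_d61fbb_ag.SE
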