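import Mathlib

/-! Superelliptic curves, their class groups, Tate coordinates and Zariski closures. -/

set_option autoImplicit false

noncomputable section

namespace Pool.Agent.Lib.MP_d61fbb_ag.SE

open Polynomial Matrix

/-- The coordinate ring `k[x,y]/(y^l - f(x))` of the affine curve `y^l = f(x)`. -/
abbrev Crv (k : Type) [Field k] (l : ℕ) (f : k[X]) : Type :=
  AdjoinRoot (X ^ l - C f : k[X][X])

/-- The Picard group of the affine curve, written additively. -/
abbrev Jac (k : Type) [Field k] (l : ℕ) (f : k[X]) : Type :=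
  Additive (CommRing.Pic (Crv k l f))

/-- The ring endomorphism acting by `σ` on constants, fixing `x` and sending `y` to `z y`. -/
def tw {k : Type} [Field k] {l : ℕ} {f : k[X]} (σ : k →+* k) (z : k) (hσ : f.map σ = f)
    (hz : z ^ l = 1) : Crv k l f →+* Crv k l f :=
  AdjoinRoot.lift ((AdjoinRoot.of _).comp (mapRingHom σ))
    (AdjoinRoot.of _ (C z) * AdjoinRoot.root _) (by
      have h := AdjoinRoot.eval₂_root (X ^ l - C f : k[X][X])
      rw [eval₂_sub, eval₂_X_pow, eval₂_C] at h ⊢
      rw [mul_pow, ← map_pow, ← C_pow, hz, C_1, map_one, one_mul, RingHom.comp_apply,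
        coe_mapRingHom, hσ, h])

/-- The endomorphism of the Picard group induced by a ring endomorphism. -/
def pic {B : Type} [CommRing B] (θ : B →+* B) : AddMonoid.End (Additive (CommRing.Pic B)) :=
  MonoidHom.toAdditive (CommRing.Pic.mapRingHom θ)

variable {K : Type} [Field K]

/-- A polynomial over `K` viewed over the algebraic closure. -/
abbrev bar (f : K[X]) : (AlgebraicClosure K)[X] := f.map (algebraMap K _)

/-- The action of a Galois automorphism on the class group. -/
def gal (l : ℕ) (f : K[X]) (γ : AlgebraicClosure K ≃ₐ[K] AlgebraicClosure K) :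
    AddMonoid.End (Jac (AlgebraicClosure K) l (bar f)) :=
  pic (tw γ.toRingEquiv.toRingHom 1 (by
    rw [Polynomial.map_map]
    congr 1
    ext a
    exact γ.commutes a) (one_pow l))

/-- The action of the automorphism `y ↦ z y` on the class group. -/
def rot {l : ℕ} (f : K[X]) {z : K} (hz : IsPrimitiveRoot z l) :
    AddMonoid.End (Jac (AlgebraicClosure K) l (bar f)) :=
  pic (tw (RingHom.id _) (algebraMap K _ z) Polynomial.map_id (by
    rw [← map_pow, hz.pow_eq_one, map_one]))

variable {l : ℕ} [Fact l.Prime] {ι A : Type} [Fintype ι] [AddCommGroup A]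

/-- `e` identifies `Q_l^ι / Z_l^ι` with the `l`-power torsion of `A`. -/
def IsTate (e : (ι → ℚ_[l]) →+ A) : Prop :=
  (∀ v, e v = 0 ↔ ∀ i, ‖v i‖ ≤ 1) ∧ ∀ x, (∃ v, e v = x) ↔ ∃ k : ℕ, l ^ k • x = 0

/-- The matrix `M` describes the endomorphism `θ` in the coordinates `e`. -/
def Rep (e : (ι → ℚ_[l]) →+ A) (θ : AddMonoid.End A) (M : Matrix ι ι ℚ_[l]) : Prop :=
  ∀ v, e (M *ᵥ v) = θ (e v)

/-- `g` lies in the Zariski closure of `S`: every polynomial over `Q_l` in the matrix entries
that vanishes on `S` vanishes at `g`. -/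
def Zar (S : Set (Matrix ι ι ℚ_[l])) (g : Matrix ι ι (PadicAlgCl l)) : Prop :=
  ∀ p : MvPolynomial (ι × ι) ℚ_[l], (∀ s ∈ S, MvPolynomial.eval (fun ij => s ij.1 ij.2) p = 0) →
    MvPolynomial.aeval (fun ij : ι × ι => g ij.1 ij.2) p = 0

end Pool.Agent.Lib.MP_d61fbb_ag.SE
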