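import Pool.Agent.Lib.MP_d61fbb_ag.SE.EDef

/-! The polynomials and the character sums. -/

set_option autoImplicit false

noncomputable section

namespace Pool.Agent.Lib.MP_d61fbb_ag.SE

open Polynomial Module Pool.Agent.Lib.MP_696deb_nt.B2
open scoped NNReal

variable {κ : Type} [Field κ] {p l d : ℕ} [Fact p.Prime] {rb : Fin (d + 1) → κ} {w : κ}
  {π : Equiv.Perm (Fin (d + 1))}

open Classical in
theorem ecp_sum (hw : IsPrimitiveRoot w l) (hl : 0 < l) {y : κ} (hy : y ^ l = 1) :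
    ∃ t, y = w ^ t ∧ ∑ t ∈ Finset.range l, (if y = w ^ t then (X : ℤ[X]) ^ t else 0) = X ^ t := by
  have : NeZero l := ⟨hl.ne'⟩
  obtain ⟨t, ht, rfl⟩ := hw.eq_pow_of_pow_eq_one hy
  refine ⟨t, rfl, ?_⟩
  rw [Finset.sum_eq_single t, if_pos rfl]
  · intro u hu hut
    exact if_neg fun e => hut (hw.pow_inj (Finset.mem_range.1 hu) ht e.symm)
  · exact fun h => absurd (Finset.mem_range.2 ht) h

theorem ecp_root (hp : (p : κ) = 0) (hl : l ∣ p - 1) (hπ : ∀ i, rb i ^ p = rb (π i)) {j : ℕ}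
    (a : Fin j → Fin p) (h0 : ∏ i, gv a (rb i) ≠ 0) :
    ((∏ i, gv a (rb i)) ^ ((p - 1) / l)) ^ l = 1 := by
  have hpp := (Fact.out : p.Prime)
  have : CharP κ p := (CharP.charP_iff_prime_eq_zero hpp).2 hp
  have h1 : ∀ i, frobenius κ p (gv a (rb i)) = gv a (rb (π i)) := fun i => by
    simp only [gv, map_add, map_sum, map_mul, map_pow, map_natCast]
    simp only [frobenius_def, hπ]
  have h2 : (∏ i, gv a (rb i)) ^ p = ∏ i, gv a (rb i) := by
    rw [← frobenius_def, map_prod]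
    simp only [h1]
    exact Equiv.prod_comp π fun i => gv a (rb i)
  rw [← pow_mul, Nat.div_mul_cancel hl]
  apply mul_right_cancel₀ h0
  rw [← pow_succ, Nat.sub_add_cancel hpp.one_lt.le, h2, one_mul]

omit [Fact p.Prime] in
theorem cpoly_zero (hw : IsPrimitiveRoot w l) (hl : 0 < l) : cpoly p l rb w 0 = 1 := by
  classical
  rw [cpoly, Fintype.sum_unique, Finset.sum_eq_single 0]
  · simp [gv]
  · intro u hu hu0
    refine if_neg fun e => hu0 (hw.pow_inj (Finset.mem_range.1 hu) hl ?_)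
    rw [← e]
    simp [gv]
  · exact fun h => absurd (Finset.mem_range.2 hl) h

theorem cpoly_one (hp : (p : κ) = 0) (hl : l ∣ p - 1) (hw : IsPrimitiveRoot w l)
    (hinj : Function.Injective rb) (hπ : ∀ i, rb i ^ p = rb (π i)) (hne : ∀ i, π i ≠ i) :
    (cpoly p l rb w 1).eval 1 = p := by
  have hpp := (Fact.out : p.Prime)
  have : CharP κ p := (CharP.charP_iff_prime_eq_zero hpp).2 hp
  have hl0 : 0 < l := Nat.pos_of_dvd_of_pos hl (Nat.sub_pos_of_lt hpp.one_lt)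
  rw [cpoly, eval_finsetSum, Finset.sum_congr rfl (g := fun _ => 1)]
  · simp
  intro a _
  have h0 : ∏ i, gv a (rb i) ≠ 0 := by
    refine Finset.prod_ne_zero_iff.2 fun i _ e => hne i (hinj ?_)
    have e1 : rb i = -((a 0 : ℕ) : κ) := by
      rw [eq_neg_iff_add_eq_zero]
      simpa [gv] using e
    rw [← hπ, ← frobenius_def, e1, map_neg, map_natCast]
  obtain ⟨t, -, ht⟩ := ecp_sum hw hl0 (ecp_root hp hl hπ a h0)
  rw [ht]
  simp

theorem cpoly_ms (hl : l ∣ p - 1) (hw : IsPrimitiveRoot w l) (hπ : ∀ i, rb i ^ p = rb (π i))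
    {A R : Type} [CommRing A] [Algebra (ZMod p) A] [Field R]
    {b : Basis (Fin (d + 1)) (ZMod p) A} {x : A} {σ : Fin (d + 1) → A →+* κ} (h : EMdl rb b x σ)
    (Ψ : MulChar κ R) {s : ℕ} (hs : s ≠ 0) {χ : MulChar A R}
    (hχ : ∀ u, χ u = ∏ i, Ψ (σ i u) ^ ((p - 1) / l * s)) (j : ℕ) :
    aeval (Ψ w ^ s) (cpoly p l rb w j) = ms p χ x j := by
  have hpp := (Fact.out : p.Prime)
  have hl0 : 0 < l := Nat.pos_of_dvd_of_pos hl (Nat.sub_pos_of_lt hpp.one_lt)
  have hm : (p - 1) / l ≠ 0 :=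
    (Nat.div_pos (Nat.le_of_dvd (Nat.sub_pos_of_lt hpp.one_lt) hl) hl0).ne'
  have hp : (p : κ) = 0 := by
    rw [← map_natCast (σ 0), ← map_natCast (algebraMap (ZMod p) A), ZMod.natCast_self, map_zero,
      map_zero]
  let e : Fin p ≃ ZMod p :=
    ⟨fun a => ((a : ℕ) : ZMod p), fun z => ⟨z.val, ZMod.val_lt z⟩,
      fun a => Fin.ext (ZMod.val_cast_of_lt a.2), fun z => ZMod.natCast_zmod_val z⟩
  rw [cpoly, map_sum, ms]
  refine Fintype.sum_equiv (Equiv.piCongrRight fun _ => e) _ _ fun a => ?_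
  have h1 : ∀ i, σ i (x ^ j + ∑ k, (Equiv.piCongrRight fun _ => e) a k • x ^ (k : ℕ)) =
      gv a (rb i) := fun i => by
    have h2 : ∀ k, (Equiv.piCongrRight fun _ => e) a k • x ^ (k : ℕ) =
        ((a k : ℕ) : A) * x ^ (k : ℕ) := fun k => by
      rw [← nsmul_eq_mul, ← Nat.cast_smul_eq_nsmul (ZMod p)]
      rfl
    simp only [h2, gv, map_add, map_sum, map_mul, map_pow, map_natCast, h.ev]
  rw [hχ]
  simp only [h1]
  rw [Finset.prod_pow, ← map_prod]
  by_cases h0 : ∏ i, gv a (rb i) = 0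
  · rw [h0, Ψ.map_zero, zero_pow (mul_ne_zero hm hs), zero_pow hm, Finset.sum_eq_zero, map_zero]
    exact fun t _ => if_neg (pow_ne_zero t (hw.ne_zero hl0.ne')).symm
  · obtain ⟨t, h3, ht⟩ := ecp_sum hw hl0 (ecp_root hp hl hπ a h0)
    rw [ht, pow_mul, ← map_pow Ψ (∏ i, gv a (rb i)), h3, map_pow, map_pow, aeval_X, ← pow_mul,
      ← pow_mul, mul_comm]

end Pool.Agent.Lib.MP_d61fbb_ag.SE
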