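import Pool.Agent.Lib.MP_d61fbb_ag.SE.EDef

/-! Elementary properties of the Hodge numbers. -/

set_option autoImplicit false

noncomputable section

namespace Pool.Agent.Lib.MP_d61fbb_ag.SE

open Polynomial Module Pool.Agent.Lib.MP_696deb_nt.B2
open scoped NNReal

variable {l d : ℕ} [Fact l.Prime]

theorem nn1_pos (a : (ZMod l)ˣ) : 0 < (a : ZMod l).val :=
  Nat.pos_of_ne_zero fun h => a.ne_zero ((ZMod.val_eq_zero _).1 h)

theorem nn1_lt (a : (ZMod l)ˣ) : (a : ZMod l).val < l := ZMod.val_lt _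

theorem nn1_neg (a : (ZMod l)ˣ) : ((-a : (ZMod l)ˣ) : ZMod l).val = l - (a : ZMod l).val := by
  rw [Units.val_neg, ZMod.neg_val, if_neg a.ne_zero]

theorem nn1_mod (hd : ¬ l ∣ d + 1) (a : (ZMod l)ˣ) : 0 < (d + 1) * (a : ZMod l).val % l := by
  refine Nat.pos_of_ne_zero fun h => ?_
  rcases (Fact.out : l.Prime).dvd_mul.1 (Nat.dvd_of_mod_eq_zero h) with h | h
  · exact hd h
  · exact absurd (Nat.le_of_dvd (nn1_pos a) h) (nn1_lt a).not_ge

theorem nn1_ex {s : ℕ} (h0 : 0 < s) (h1 : s < l) : ∃ a : (ZMod l)ˣ, (a : ZMod l).val = s := by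
  have hv : ((s : ZMod l)).val = s := ZMod.val_cast_of_lt h1
  refine ⟨Units.mk0 (s : ZMod l) fun h => ?_, hv⟩
  rw [h, ZMod.val_zero] at hv
  omega

theorem nn1_one {a : (ZMod l)ˣ} (h : (a : ZMod l).val = 1) : a = 1 :=
  Units.ext (ZMod.val_injective l (h.trans (ZMod.val_one l).symm))

theorem nn_add (hd : ¬ l ∣ d + 1) (a : (ZMod l)ˣ) : nn l d a + nn l d (-a) = d := by
  have h1 := nn1_mod hd a
  have h2 := nn1_lt a
  have hl : 0 < l := by omega
  have h3 := Nat.mod_lt ((d + 1) * (a : ZMod l).val) hl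
  have h4 := Nat.div_add_mod ((d + 1) * (a : ZMod l).val) l
  unfold nn
  rw [nn1_neg]
  generalize (a : ZMod l).val = s at *
  generalize (d + 1) * s / l = q at *
  generalize (d + 1) * s % l = r at *
  obtain ⟨t, rfl⟩ := Nat.exists_eq_add_of_le h2.le
  have hq : q ≤ d := by
    by_contra hq
    have : d + 1 ≤ q := by omega
    nlinarith
  obtain ⟨u, rfl⟩ := Nat.exists_eq_add_of_le hq
  rw [Nat.add_sub_cancel_left, Nat.add_left_cancel_iff]
  apply Nat.div_eq_of_lt_le <;> nlinarith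

theorem nn_eq (hd : ¬ l ∣ d + 1) (a : (ZMod l)ˣ) :
    l * (nn l d a + 1) =
      (d + 1) * (a : ZMod l).val + (-(((d + 1 : ℕ) : ZMod l) * a)).val := by
  have h1 := nn1_mod hd a
  have h2 := nn1_lt a
  have hl : 0 < l := by omega
  have h3 := Nat.mod_lt ((d + 1) * (a : ZMod l).val) hl
  have h4 := Nat.div_add_mod ((d + 1) * (a : ZMod l).val) l
  have h5 : (((d + 1 : ℕ) : ZMod l) * a).val = (d + 1) * (a : ZMod l).val % l := by
    rw [ZMod.val_mul, ZMod.val_natCast, Nat.mod_mul_mod]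
  have h6 : ((d + 1 : ℕ) : ZMod l) * a ≠ 0 := fun h => by
    rw [h, ZMod.val_zero] at h5
    omega
  rw [ZMod.neg_val, if_neg h6, h5, nn, mul_add]
  omega

theorem nn_mid (hl : l ≠ 2) (hd : ¬ l ∣ d + 1) (h4 : 4 ≤ d) :
    ∃ a : (ZMod l)ˣ, 0 < nn l d a ∧ 0 < nn l d (-a) := by
  obtain ⟨m, hm⟩ := (Fact.out : l.Prime).odd_of_ne_two hl
  have h2 := (Fact.out : l.Prime).two_le
  obtain ⟨a, ha⟩ := nn1_ex (l := l) (s := m) (by omega) (by omega)
  have h3 : l - m = m + 1 := by omega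
  have h5 : 1 ≤ m := by omega
  refine ⟨a, ?_, ?_⟩
  · rw [nn, ha]
    exact Nat.div_pos (by nlinarith) (by omega)
  · rw [nn, nn1_neg, ha, h3]
    exact Nat.div_pos (by nlinarith) (by omega)

theorem nn_card (hl : l ≠ 2) (hd : ¬ l ∣ d + 1) (h4 : 4 ≤ d) :
    l + 1 ≤ 2 * (Finset.univ.filter fun a : (ZMod l)ˣ => 0 < nn l d a).card := by
  obtain ⟨a0, h1, h2⟩ := nn_mid hl hd h4
  obtain ⟨m, hm⟩ := (Fact.out : l.Prime).odd_of_ne_two hl
  have hne : a0 ≠ -a0 := fun h => by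
    have := nn1_neg a0
    rw [← h] at this
    have := nn1_lt a0
    omega
  have e1 : ∑ a : (ZMod l)ˣ, (if 0 < nn l d (-a) then 1 else 0) =
      ∑ a : (ZMod l)ˣ, if 0 < nn l d a then 1 else 0 :=
    Equiv.sum_comp (Equiv.neg _) fun a : (ZMod l)ˣ => if 0 < nn l d a then 1 else 0
  have e2 : ∑ a : (ZMod l)ˣ, (1 + (if a = a0 then 1 else 0) + (if a = -a0 then 1 else 0)) ≤
      ∑ a : (ZMod l)ˣ, ((if 0 < nn l d a then 1 else 0) + (if 0 < nn l d (-a) then 1 else 0)) := by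
    refine Finset.sum_le_sum fun a _ => ?_
    by_cases k1 : a = a0
    · rw [k1, if_pos rfl, if_neg hne, if_pos h1, if_pos h2]
    by_cases k2 : a = -a0
    · rw [if_neg k1, if_pos k2, k2, neg_neg, if_pos h1, if_pos h2]
    have := nn_add hd a
    rw [if_neg k1, if_neg k2]
    split_ifs <;> omega
  rw [Finset.sum_add_distrib, Finset.sum_add_distrib, Finset.sum_add_distrib, e1,
    Finset.sum_ite_eq', Finset.sum_ite_eq', if_pos (Finset.mem_univ _),
    if_pos (Finset.mem_univ _), Finset.sum_const, Finset.card_univ, ZMod.card_units, smul_eq_mul]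
    at e2
  rw [Finset.card_filter]
  omega

theorem nn_inj (hl : l ≠ 2) (hd : ¬ l ∣ d + 1) (h4 : 4 ≤ d) {e : (ZMod l)ˣ}
    (h : ∀ a, nn l d (e * a) ≡ nn l d a [MOD d]) : e = 1 := by
  have hp : l.Prime := Fact.out
  have h2 := hp.two_le
  have hv1 : ((1 : (ZMod l)ˣ) : ZMod l).val = 1 := ZMod.val_one l
  rcases lt_trichotomy l (d + 1) with hn | hn | hn
  · have k1 : ∀ a : (ZMod l)ˣ, 0 < nn l d a := fun a =>
      Nat.div_pos (by have := nn1_pos a; nlinarith) (by omega)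
    have k2 : ∀ a : (ZMod l)ˣ, nn l d a < d := fun a => by
      have := nn_add hd a
      have := k1 (-a)
      omega
    have k3 := Nat.ModEq.eq_of_lt_of_lt (h 1) (k2 _) (k2 _)
    rw [mul_one, nn, nn, hv1, mul_one] at k3
    apply nn1_one
    by_contra hc
    have k4 : 2 ≤ (e : ZMod l).val := by
      have := nn1_pos e
      omega
    have k5 : (d + 1 + l) / l ≤ (d + 1) * (e : ZMod l).val / l :=
      Nat.div_le_div_right (by nlinarith)
    rw [Nat.add_div_right _ (by omega)] at k5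
    omega
  · exact absurd (hn ▸ dvd_rfl) hd
  obtain ⟨r, hr⟩ : ∃ r, r = (l - 1) / (d + 1) := ⟨_, rfl⟩
  have r0 : ∀ s, (d + 1) * s < l ↔ s ≤ r := fun s => by
    rw [hr, Nat.le_div_iff_mul_le (by omega), mul_comm]
    omega
  have r1 : 1 ≤ r := (r0 1).1 (by omega)
  have r2 : (d + 1) * r < l := (r0 r).2 le_rfl
  have r3 : 5 * r < l := by nlinarith
  have z0 : ∀ a : (ZMod l)ˣ, nn l d a = 0 ↔ (a : ZMod l).val ≤ r := fun a => by
    rw [nn, Nat.div_eq_zero_iff_lt (by omega), r0]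
  have z1 : ∀ a : (ZMod l)ˣ, d ∣ nn l d a ↔
      (a : ZMod l).val ≤ r ∨ l - (a : ZMod l).val ≤ r := fun a => by
    rw [← nn1_neg, ← z0, ← z0]
    have := nn_add hd a
    constructor
    · intro hh
      rcases Nat.eq_zero_or_pos (nn l d a) with h0 | h0
      · exact Or.inl h0
      · have := Nat.le_of_dvd h0 hh
        omega
    · rintro (h0 | h0)
      · rw [h0]
        exact dvd_zero d
      · rw [h0, add_zero] at this
        rw [this]
  have z2 : ∀ a, d ∣ nn l d (e * a) ↔ d ∣ nn l d a := fun a => (h a).dvd_iff dvd_rfl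
  have key : ∀ e' : (ZMod l)ˣ, (∀ a, d ∣ nn l d (e' * a) ↔ d ∣ nn l d a) →
      (e' : ZMod l).val ≤ r → e' = 1 := fun e' he ht => by
    apply nn1_one
    by_contra hc
    have t0 := nn1_pos e'
    generalize hte : (e' : ZMod l).val = t at *
    have t1 : r / t ≤ r / 2 := Nat.div_le_div_left (by omega) (by omega)
    have t2 := Nat.div_add_mod r t
    have t3 := Nat.mod_lt r t0
    obtain ⟨a, ha⟩ := nn1_ex (l := l) (s := r / t + 1) (Nat.succ_pos _) (by omega)
    have t4 : t * (r / t + 1) = t * (r / t) + t := by ring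
    have t5 : ((e' * a : (ZMod l)ˣ) : ZMod l).val = t * (r / t) + t := by
      rw [Units.val_mul, ZMod.val_mul, hte, ha, t4, Nat.mod_eq_of_lt (by omega)]
    have t6 := (z1 _).1 ((he a).2 ((z1 a).2 (Or.inl (by omega))))
    omega
  rcases (z1 _).1 ((z2 1).2 ((z1 1).2 (Or.inl (by omega)))) with k | k
  · rw [mul_one] at k
    exact key e z2 k
  rw [mul_one, ← nn1_neg] at k
  have k1 : -e = 1 := key (-e) (fun a => by
    have := nn1_lt (e * a)
    rw [← z2 a, z1, z1, neg_mul, nn1_neg]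
    omega) k
  obtain ⟨a, ha⟩ := nn1_ex (l := l) (s := r + 1) (by omega) (by omega)
  have k2 : nn l d a = 1 := by
    have := (r0 (r + 1)).not.2 (by omega)
    rw [nn, ha]
    apply Nat.div_eq_of_lt_le <;> nlinarith
  have k3 := nn_add hd a
  have k4 := h a
  rw [neg_eq_iff_eq_neg.1 k1, neg_mul, one_mul] at k4
  have k5 := Nat.ModEq.eq_of_lt_of_lt k4 (by omega) (by omega)
  omega

end Pool.Agent.Lib.MP_d61fbb_ag.SE
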