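import Pool.Agent.Lib.MP_d61fbb_ag.SE.EMod
import Pool.Agent.Lib.MP_d61fbb_ag.SE.EPoi
import Pool.Agent.Lib.MP_d61fbb_ag.SE.ESti
import Pool.Agent.Lib.MP_d61fbb_ag.SE.EPrim
import Pool.Agent.Lib.MP_d61fbb_ag.SE.ECp
import Pool.Agent.Lib.MP_d61fbb_ag.SE.NN1

/-! The functional equation and the valuation of the last coefficient. -/

set_option autoImplicit false

noncomputable section

namespace Pool.Agent.Lib.MP_d61fbb_ag.SE

open Polynomial Module Pool.Agent.Lib.MP_696deb_nt.B2 Pool.Agent.Lib.MP_3d78c5_nt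
open scoped NNReal

theorem eDat_val {l : ℕ} [hl : Fact l.Prime] (a : (ZMod l)ˣ) :
    (a : ZMod l).val ≠ 0 ∧ (a : ZMod l).val < l ∧
      (a : ZMod l).val + ((-a : (ZMod l)ˣ) : ZMod l).val = l := by
  have h1 := ZMod.val_lt (a : ZMod l)
  refine ⟨by rw [Ne, ZMod.val_eq_zero]; exact a.ne_zero, h1, ?_⟩
  rw [Units.val_neg, ZMod.neg_val, if_neg a.ne_zero]
  omega

theorem eDat_eq {x u v : ℝ≥0} {a b : ℕ} (hx : x ≠ 0) (hu : x ^ a ≤ u) (hv : x ^ b ≤ v)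
    (h : u * v = x ^ (a + b)) : u = x ^ a := by
  refine le_antisymm (not_lt.1 fun h1 => ?_) hu
  have h2 := mul_lt_mul_of_lt_of_le_of_pos_of_nonneg h1 hv (pow_pos (pos_iff_ne_zero.2 hx) _) zero_le
  rw [h, pow_add] at h2
  exact lt_irrefl _ h2

theorem exists_edata {κ : Type} [Field κ] [Fintype κ] {p l d : ℕ} [hl : Fact l.Prime]
    {rb : Fin (d + 1) → κ} {w : κ} {π : Equiv.Perm (Fin (d + 1))} (hpp : p.Prime)
    (hp : (p : κ) = 0) (hd : ¬ l ∣ d + 1) (hlp : l ∣ p - 1) (hinj : Function.Injective rb)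
    (hπ : ∀ i, rb i ^ p = rb (π i)) (hne : ∀ i, π i ≠ i) (hw : IsPrimitiveRoot w l) :
    ∃ (P : Plc) (ζ : Qbar), P.p = p ∧ EData l ζ P d (cpoly p l rb w) := by
  classical
  obtain ⟨P, Ψ, rfl, hT⟩ := exists_tei κ hpp hp
  have := Fact.mk hpp
  obtain ⟨A, _, _, _, b, x, σ, hM⟩ := exists_mdl hp hinj hπ
  have := hM.isReduced
  obtain ⟨z, hz⟩ := exists_zt P.p
  let ψ : AddChar (ZMod P.p) Qbar := AddChar.zmodChar P.p hz.pow_eq_one
  have hψ : ψ.IsPrimitive := AddChar.zmodChar_primitive_of_primitive_root _ hz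
  obtain ⟨m, hm⟩ := hlp
  have hp1 : 0 < P.p - 1 := Nat.sub_pos_of_lt hpp.one_lt
  have hm0 : m ≠ 0 := by rintro rfl; omega
  have hmd : (P.p - 1) / l = m := by rw [hm, Nat.mul_div_cancel_left _ hl.out.pos]
  have hex : ∀ a : (ZMod l)ˣ, ∃ χ : MulChar A Qbar,
      ∀ u, χ u = ∏ i, Ψ (σ i u) ^ (m * (a : ZMod l).val) := fun a =>
    hM.exists_chi Ψ (mul_ne_zero hm0 (eDat_val a).1)
  choose χ hχ using hex
  have hcv : ∀ a j, cv (Ψ w) (cpoly P.p l rb w) a j = ms P.p (χ a) x j := fun a j =>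
    cpoly_ms ⟨m, hm⟩ hw hπ hM Ψ (eDat_val a).1 (by rw [hmd]; exact hχ a) j
  have hinv : ∀ a, (χ a)⁻¹ = χ (-a) := fun a => by
    refine inv_eq_of_mul_eq_one_right (MulChar.ext fun u => ?_)
    rw [MulChar.mul_apply, MulChar.one_apply_coe, hχ, hχ, ← Finset.prod_mul_distrib]
    simp only [← pow_add, ← mul_add, (eDat_val a).2.2]
    have h1 : (∏ i, σ i u) ^ P.p = ∏ i, σ i u := by
      rw [← Finset.prod_pow]
      simp only [hM.frob hπ]
      exact Equiv.prod_comp π fun i => σ i u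
    have h2 : ∏ i, σ i u ≠ 0 :=
      Finset.prod_ne_zero_iff.2 fun i _ => (hM.isUnit_iff _).1 u.isUnit i
    have h3 : (∏ i, σ i u) ^ (P.p - 1) = 1 := by
      refine mul_right_cancel₀ h2 ?_
      rw [← pow_succ, Nat.sub_add_cancel hpp.one_le, h1, one_mul]
    rw [Finset.prod_pow, ← map_prod, ← map_pow, mul_comm m, ← hm, h3, map_one]
  let s : ZMod P.p →+* κ := (σ 0).comp (algebraMap _ A)
  have hs : ∀ i t, σ i (algebraMap (ZMod P.p) A t) = s t := fun i t =>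
    RingHom.congr_fun (RingHom.ext_zmod ((σ i).comp (algebraMap _ A)) s) t
  let r : (ZMod l)ˣ → ℕ := fun a => (-(((d + 1 : ℕ) : ZMod l) * a)).val
  have hr0 : ∀ a, r a ≠ 0 := fun a => by
    simp only [r, Ne, ZMod.val_eq_zero, neg_eq_zero, mul_eq_zero, ZMod.natCast_eq_zero_iff, not_or]
    exact ⟨hd, a.ne_zero⟩
  have hone : pull Ψ s ^ (m * l) = 1 := by
    rw [mul_comm, ← hm, ← ZMod.card_units]
    exact MulChar.pow_card_eq_one _
  have hχ' : ∀ a t, (pull Ψ s ^ (m * r a)) t = (χ a)⁻¹ (algebraMap (ZMod P.p) A t) := by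
    intro a t
    have h1 : pull Ψ s ^ (m * r a) =
        pull Ψ s ^ (m * ((d + 1) * ((-a : (ZMod l)ˣ) : ZMod l).val)) := by
      refine pow_eq_pow_of_modEq (Nat.ModEq.mul_left' m ?_) hone
      rw [← ZMod.natCast_eq_natCast_iff]
      simp [r]
    rw [h1, hinv, hχ, MulChar.pow_apply' _
      (mul_ne_zero hm0 (mul_ne_zero d.add_one_ne_zero (eDat_val _).1)), pull_apply]
    simp only [hs, Finset.prod_const, Finset.card_univ, Fintype.card_fin, ← pow_mul]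
    congr 1
    ring
  have hlt : ∀ k < l, m * k < P.p - 1 := fun k hk => by
    rw [hm, mul_comm l]
    exact Nat.mul_lt_mul_of_pos_left hk (Nat.pos_of_ne_zero hm0)
  have hP : ∀ a, ∀ j ≤ d, cv (Ψ w) (cpoly P.p l rb w) a j * (P.p : Qbar) ^ (d + 1 - j) =
      gaussSum (χ a) (tch b ψ) * gaussSum (pull Ψ s ^ (m * r a)) ψ⁻¹ *
        cv (Ψ w) (cpoly P.p l rb w) (-a) (d - j) := fun a j hj => by
    rw [hcv, hcv, ← hinv]
    refine poisson hM.pow hψ (χ a) (fun v hv => ?_) (hχ' a) (pull_pow_ne_one hT.inj s ?_) hj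
    · simpa only [hχ] using hM.prim hinj hT.inj (mul_ne_zero hm0 (eDat_val a).1)
        (hlt _ (eDat_val a).2.1) v hv
    · rw [ZMod.card]
      exact Nat.not_dvd_of_pos_of_lt (Nat.pos_of_ne_zero (mul_ne_zero hm0 (hr0 a)))
        (hlt _ (ZMod.val_lt _))
  have h0 : cpoly P.p l rb w 0 = 1 := cpoly_zero hw hl.out.pos
  have hc0 : ∀ a : (ZMod l)ˣ, cv (Ψ w) (cpoly P.p l rb w) a 0 = 1 := fun a => by
    rw [cv, h0, map_one]
  have hd' : ∀ a, cv (Ψ w) (cpoly P.p l rb w) a d * (P.p : Qbar) =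
      gaussSum (χ a) (tch b ψ) * gaussSum (pull Ψ s ^ (m * r a)) ψ⁻¹ := fun a => by
    have h1 := hP a d le_rfl
    rwa [Nat.sub_self, hc0, mul_one, Nat.add_sub_cancel_left, pow_one] at h1
  have hp0 : (P.p : Qbar) ≠ 0 := Nat.cast_ne_zero.2 hpp.ne_zero
  have hfe : ∀ (a : (ZMod l)ˣ) (j : ℕ), j ≤ d →
      cv (Ψ w) (cpoly P.p l rb w) a j * (P.p : Qbar) ^ (d - j) =
        cv (Ψ w) (cpoly P.p l rb w) a d * cv (Ψ w) (cpoly P.p l rb w) (-a) (d - j) := by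
    intro a j hj
    refine mul_right_cancel₀ hp0 ?_
    rw [mul_assoc, ← pow_succ, ← Nat.sub_add_comm hj, hP a j hj, ← hd']
    ring
  have hx0 : (P.p : ℝ≥0)⁻¹ ≠ 0 := inv_ne_zero (Nat.cast_ne_zero.2 hpp.ne_zero)
  have hlow : ∀ a, (P.p : ℝ≥0)⁻¹ ^ nn l d a ≤ P.V (cv (Ψ w) (cpoly P.p l rb w) a d) := fun a => by
    have h1 := hT.alg hz σ (m * (a : ZMod l).val) (χ := χ a) (fun u _ => hχ a u)
      (tch_prim hM.pow hψ)
    have h2 := hT.alg hz (ι := Unit) (fun _ => s) (m * r a) (χ := pull Ψ s ^ (m * r a))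
      (E := ψ⁻¹) (fun u _ => by
        rw [MulChar.pow_apply' _ (mul_ne_zero hm0 (hr0 a)), pull_apply]
        simp) (AddChar.IsPrimitive.of_ne_one (inv_ne_one.2 (by simpa using hψ one_ne_zero)))
    have h3 := mul_le_mul' h1 h2
    have h4 : Fintype.card (Fin (d + 1)) * (m * (a : ZMod l).val) + Fintype.card Unit * (m * r a) =
        (P.p - 1) * (nn l d a + 1) := by
      rw [hm, mul_comm l, mul_assoc, nn_eq hd a, Fintype.card_fin, Fintype.card_unit]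
      ring
    rw [← map_mul, ← hd', ← pow_add, h4, pow_mul, ← Gs.val_prime P.V hpp hz, map_mul, P.hV,
      pow_succ] at h3
    exact le_of_mul_le_mul_right h3 (pos_iff_ne_zero.2 hx0)
  refine ⟨P, Ψ w, rfl, ?_, ⟨m, hm⟩, h0, cpoly_one hp ⟨m, hm⟩ hw hinj hπ hne, hfe, fun a => ?_⟩
  · exact hw.map_of_injective (f := Ψ) hT.inj
  · refine eDat_eq hx0 (hlow a) (hlow (-a)) ?_
    have h1 := hfe a 0 d.zero_le
    rw [hc0, one_mul, Nat.sub_zero] at h1
    rw [← map_mul, ← h1, map_pow, P.hV, nn_add hd]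

end Pool.Agent.Lib.MP_d61fbb_ag.SE
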