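import Pool.Agent.Lib.MP_d61fbb_ag.SE.CStmt
import Pool.Agent.Lib.MP_696deb_nt.B2.D0

/-! Definitions for the arithmetic of the Frobenius polynomials. -/

set_option autoImplicit false

noncomputable section

namespace Pool.Agent.Lib.MP_d61fbb_ag.SE

open Polynomial Module Pool.Agent.Lib.MP_696deb_nt.B2
open scoped NNReal

/-- The Hodge numbers. -/
def nn (l d : ℕ) (a : (ZMod l)ˣ) : ℕ := (d + 1) * (a : ZMod l).val / l

/-- The data in the field of algebraic numbers, at a place. -/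
structure EData (l : ℕ) [Fact l.Prime] (ζ : Qbar) (P : Plc) (d : ℕ) (c : ℕ → ℤ[X]) : Prop where
  prim : IsPrimitiveRoot ζ l
  dvd : l ∣ P.p - 1
  zero : c 0 = 1
  one : (c 1).eval 1 = P.p
  fe : ∀ (a : (ZMod l)ˣ) (j : ℕ), j ≤ d →
    cv ζ c a j * (P.p : Qbar) ^ (d - j) = cv ζ c a d * cv ζ c (-a) (d - j)
  val : ∀ a : (ZMod l)ˣ, P.V (cv ζ c a d) = (P.p : ℝ≥0)⁻¹ ^ nn l d a

/-- `Ψ` is the inverse of the Teichmueller character at `P`. -/
structure Tei {κ : Type} [Field κ] (P : Plc) (Ψ : MulChar κ Qbar) : Prop where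
  chr : (P.p : κ) = 0
  inj : Function.Injective Ψ
  red : ∀ (ι : Type) (s : Finset ι) (c : ι → ℤ) (x : ι → κ),
    ∑ i ∈ s, (c i : κ) * (x i)⁻¹ = 0 → P.V (∑ i ∈ s, (c i : Qbar) * Ψ (x i)) < 1

/-- A model of the quotient of the polynomial ring by the polynomial with roots `rb`. -/
structure EMdl {κ A : Type} [Field κ] [CommRing A] {p d : ℕ} [Algebra (ZMod p) A]
    (rb : Fin (d + 1) → κ) (b : Basis (Fin (d + 1)) (ZMod p) A) (x : A)
    (σ : Fin (d + 1) → A →+* κ) : Prop where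
  pow : ∀ i, b i = x ^ (i : ℕ)
  ev : ∀ i, σ i x = rb i
  inj : ∀ u, (∀ i, σ i u = 0) → u = 0

/-- The sum of a character over the monic polynomials of degree `j`. -/
def ms (p : ℕ) [NeZero p] {A R : Type} [CommRing A] [Algebra (ZMod p) A] [CommRing R]
    (χ : MulChar A R) (x : A) (j : ℕ) : R :=
  ∑ a : Fin j → ZMod p, χ (x ^ j + ∑ i, a i • x ^ (i : ℕ))

/-- The additive character given by the last coordinate. -/
def tch {A R : Type} [CommRing A] [CommRing R] {p d : ℕ} [Algebra (ZMod p) A]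
    (b : Basis (Fin (d + 1)) (ZMod p) A) (ψ : AddChar (ZMod p) R) : AddChar A R :=
  ψ.compAddMonoidHom (b.coord (Fin.last d)).toAddMonoidHom

/-- Pull back of a character along an embedding of fields. -/
def pull {K κ R : Type} [Field K] [Field κ] [CommRing R] (Ψ : MulChar κ R) (s : K →+* κ) :
    MulChar K R where
  toFun y := Ψ (s y)
  map_one' := by simp
  map_mul' := by simp
  map_nonunit' y hy := by
    rw [isUnit_iff_ne_zero, not_not] at hy
    rw [hy, s.map_zero, Ψ.map_zero]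

theorem pull_apply {K κ R : Type} [Field K] [Field κ] [CommRing R] (Ψ : MulChar κ R)
    (s : K →+* κ) (y : K) : pull Ψ s y = Ψ (s y) := rfl

end Pool.Agent.Lib.MP_d61fbb_ag.SE
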