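import Pool.Agent.Lib.MP_d61fbb_ag.SE.EDef
import Pool.Agent.Lib.MP_3d78c5_nt.D1

/-! Cyclotomic integers at a split place, and their conjugates. -/

set_option autoImplicit false

noncomputable section

namespace Pool.Agent.Lib.MP_d61fbb_ag.SE

open Polynomial Module Pool.Agent.Lib.MP_696deb_nt.B2
open scoped NNReal

variable {l : ℕ} [Fact l.Prime]

theorem eInt_one (P : Plc) {ζ : Zbar} (h : ζ ^ P.p = ζ) : ∃ t : ℤ, P.V ((ζ : Qbar) - t) < 1 := by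
  have := Fact.mk P.prime
  let _ := Ideal.Quotient.field (b2aP P)
  have : CharP (Zbar ⧸ b2aP P) P.p := (CharP.charP_iff_prime_eq_zero P.prime).2 (by
    rw [← map_natCast (Ideal.Quotient.mk (b2aP P)), Ideal.Quotient.eq_zero_iff_mem]
    exact b2a_p_mem P)
  obtain ⟨t, ht⟩ := (mem_bot_iff_intCast P.p _).1 ((Subfield.mem_bot_iff_pow_eq_self _ P.p).2
    (show Ideal.Quotient.mk (b2aP P) ζ ^ P.p = Ideal.Quotient.mk (b2aP P) ζ by rw [← map_pow, h]))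
  rw [← map_intCast (Ideal.Quotient.mk (b2aP P)), eq_comm, Ideal.Quotient.eq] at ht
  exact ⟨t, by simpa using b2a_mem.1 ht⟩

theorem eInt_lim (P : Plc) {ζ : Zbar} (h : ζ ^ P.p = ζ) {ε : ℝ≥0} (hε : 0 < ε) :
    ∃ t : ℤ, P.V ((ζ : Qbar) - t) < ε := by
  obtain ⟨t0, h0⟩ := eInt_one P h
  set ρ := max (P.V ((ζ : Qbar) - t0)) (P.V P.p) with hρ
  have h1 : ρ < 1 := max_lt h0 (b2a_p_lt P)
  have key : ∀ n : ℕ, ∃ t : ℤ, P.V ((ζ : Qbar) - t) ≤ ρ ^ (n + 1) := fun n => by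
    induction n with
    | zero => exact ⟨t0, by rw [zero_add, pow_one]; exact le_max_left _ _⟩
    | succ n ih =>
      obtain ⟨t, ht⟩ := ih
      obtain ⟨r, hr⟩ := exists_add_pow_prime_eq P.prime (t : Zbar) (ζ - t)
      rw [add_sub_cancel, h] at hr
      have h2 : (ζ : Qbar) - (t ^ P.p : ℤ) =
          ((ζ : Qbar) - t) * (((ζ : Qbar) - t) ^ (P.p - 1) + P.p * (t * r)) := by
        have h3 := congrArg (fun y : Zbar => (y : Qbar)) hr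
        push_cast at h3 ⊢
        rw [mul_add, ← pow_succ', Nat.sub_add_cancel P.prime.one_le]
        linear_combination h3
      refine ⟨t ^ P.p, ?_⟩
      rw [h2, map_mul, pow_succ]
      refine mul_le_mul' ht (P.V.map_add_le ?_ ?_)
      · have h4 : P.V ((ζ : Qbar) - t) ≤ ρ := ht.trans (pow_le_of_le_one zero_le h1.le (by omega))
        rw [map_pow]
        exact (pow_le_of_le_one zero_le (h4.trans h1.le)
          (Nat.sub_pos_of_lt P.prime.one_lt).ne').trans h4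
      · rw [map_mul]
        exact (mul_le_of_le_one_right' (b2a_mul_le P (P.V_int_le t)
          (P.V_le_one_of_isIntegral r.2))).trans (le_max_right _ _)
  obtain ⟨n, hn⟩ := NNReal.exists_pow_lt_of_lt_one hε h1
  obtain ⟨t, ht⟩ := key n
  exact ⟨t, (ht.trans (pow_le_pow_of_le_one zero_le h1.le n.le_succ)).trans_lt hn⟩

theorem val_int (P : Plc) (hl : l ∣ P.p - 1) {ζ : Qbar} (hζ : ζ ^ l = 1) (Q : ℤ[X])
    (h0 : aeval ζ Q ≠ 0) : ∃ k : ℕ, P.V (aeval ζ Q) = (P.p : ℝ≥0)⁻¹ ^ k := by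
  have hi : IsIntegral ℤ ζ :=
    IsIntegral.of_pow (Fact.out : l.Prime).pos (by rw [hζ]; exact isIntegral_one)
  obtain ⟨m, hm⟩ := hl
  obtain ⟨t, ht⟩ := eInt_lim P (ζ := ⟨ζ, hi⟩) (Subtype.ext (show ζ ^ P.p = ζ by
    rw [← Nat.sub_add_cancel P.prime.one_le, hm, pow_succ, pow_mul, hζ, one_pow, one_mul]))
    (pos_iff_ne_zero.2 ((Valuation.ne_zero_iff P.V).2 h0))
  obtain ⟨R, hR⟩ := X_sub_C_dvd_sub_C_eval (p := Q) (a := t)
  have h1 := congrArg (aeval ζ) hR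
  simp only [map_sub, map_mul, aeval_X, eq_intCast, map_intCast] at h1
  have h2 : P.V (aeval ζ R) ≤ 1 :=
    P.V_le_one_of_isIntegral (adjoin_le_integralClosure hi (aeval_mem_adjoin_singleton ℤ ζ))
  have h3 : P.V (((Q.eval t : ℤ) : Qbar)) = P.V (aeval ζ Q) := by
    refine P.V.map_eq_of_sub_lt ?_
    rw [P.V.map_sub_swap, h1, map_mul]
    exact (mul_le_of_le_one_right' h2).trans_lt ht
  have h4 : Q.eval t ≠ 0 := fun h => h0 (by
    rw [h, Int.cast_zero, map_zero, eq_comm] at h3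
    exact (Valuation.zero_iff _).1 h3)
  exact ⟨_, by rw [← h3, b2a_V_int P h4, inv_pow]⟩

omit [Fact l.Prime] in
theorem pow_dvd_of_val (P : Plc) {M : ℤ} {k : ℕ} (h : P.V (M : Qbar) ≤ (P.p : ℝ≥0)⁻¹ ^ k) :
    (P.p : ℤ) ^ k ∣ M := by
  have := Fact.mk P.prime
  rw [padicValInt_dvd_iff, or_iff_not_imp_left]
  intro hM
  rw [b2a_V_int P hM, inv_pow, inv_le_inv₀ (pow_pos (zero_lt_one.trans (b2a_one_lt P)) _)
    (pow_pos (zero_lt_one.trans (b2a_one_lt P)) _)] at h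
  exact (pow_le_pow_iff_right₀ (b2a_one_lt P)).1 h

open Pool.Agent.Lib.MP_3d78c5_nt

theorem exists_emb {Ω : Type} [Field Ω] [CharZero Ω] [IsAlgClosed Ω] {ζ0 : Qbar} {ζ : Ω}
    (h0 : IsPrimitiveRoot ζ0 l) (h : IsPrimitiveRoot ζ l) : ∃ j : Qbar →+* Ω, j ζ0 = ζ := by
  let j : Qbar →+* Ω := (IsAlgClosed.lift : Qbar →ₐ[ℚ] Ω).toRingHom
  have h1 := h0.map_of_injective j.injective
  obtain ⟨i, hi, hc, rfl⟩ := (h1.isPrimitiveRoot_iff).1 h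
  obtain ⟨g, hg⟩ := cl_surj (m := l) (ZMod.unitOfCoprime i hc)
  refine ⟨j.comp g.toRingEquiv.toRingHom, ?_⟩
  rw [← map_pow, RingHom.comp_apply]
  congr 1
  refine (cl_spec g h0.pow_eq_one).trans ?_
  rw [hg, ZMod.coe_unitOfCoprime, ZMod.val_cast_of_lt hi]

theorem map_cv {Ω Ω' : Type} [Field Ω] [Field Ω'] (j : Ω →+* Ω') (ζ : Ω) (c : ℕ → ℤ[X])
    (a : (ZMod l)ˣ) (i : ℕ) : j (cv ζ c a i) = cv (j ζ) c a i := by
  rw [cv, cv, ← map_pow]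
  exact (aeval_algHom_apply j.toIntAlgHom _ _).symm

theorem cv_pow {Ω : Type} [Field Ω] {ζ : Ω} (h : ζ ^ l = 1) (c : ℕ → ℤ[X]) (a e : (ZMod l)ˣ)
    (i : ℕ) : cv (ζ ^ (e : ZMod l).val) c a i = cv ζ c (a * e) i := by
  rw [cv, cv, ← pow_mul, Units.val_mul, ZMod.val_mul, ← pow_eq_pow_mod _ h, mul_comm]

theorem eInt_gam {ζ : Qbar} (h : ζ ^ l = 1) (g : Gam) (c : ℕ → ℤ[X]) (a : (ZMod l)ˣ) (i : ℕ) :
    g (cv ζ c a i) = cv ζ c (a * cl l g) i := by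
  rw [← cv_pow h, ← cl_spec g h]
  exact map_cv g.toRingEquiv.toRingHom ζ c a i

theorem exists_conj {ζ : Qbar} (h : IsPrimitiveRoot ζ l) (e : (ZMod l)ˣ) :
    ∃ φ : Qbar ≃+* Qbar, ∀ (c : ℕ → ℤ[X]) (a : (ZMod l)ˣ) (i : ℕ),
      φ (cv ζ c a i) = cv ζ c (a * e) i := by
  obtain ⟨g, rfl⟩ := cl_surj (m := l) e
  exact ⟨g.toRingEquiv, eInt_gam h.pow_eq_one g⟩

theorem conj_cv {ζ : Qbar} (h : ζ ^ l = 1) (c : ℕ → ℤ[X]) (a : (ZMod l)ˣ) (i : ℕ) :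
    starRingEnd ℂ (jC (cv ζ c a i)) = jC (cv ζ c (-a) i) := by
  rw [← jC_cc, eInt_gam h, cl_cc, mul_neg_one]

theorem prod_cv_int {ζ : Qbar} (h : IsPrimitiveRoot ζ l) (c : ℕ → ℤ[X]) (i : ℕ) :
    ∃ M : ℤ, ∏ a : (ZMod l)ˣ, cv ζ c a i = M := by
  obtain ⟨q, hq⟩ := (InfiniteGalois.mem_range_algebraMap_iff_fixed (k := ℚ)
    (∏ a : (ZMod l)ˣ, cv ζ c a i)).2 fun g => by
      rw [map_prod]
      simp only [eInt_gam h.pow_eq_one]
      exact Equiv.prod_comp (Equiv.mulRight (cl l g)) fun a => cv ζ c a i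
  have hi := h.isIntegral (Fact.out : l.Prime).pos
  have h1 : IsIntegral ℤ (∏ a : (ZMod l)ˣ, cv ζ c a i) := IsIntegral.prod _ fun a _ =>
    adjoin_le_integralClosure (hi.pow _) (aeval_mem_adjoin_singleton ℤ _)
  rw [← hq, isIntegral_algebraMap_iff (algebraMap ℚ Qbar).injective] at h1
  obtain ⟨M, rfl⟩ := IsIntegrallyClosed.isIntegral_iff.1 h1
  exact ⟨M, by rw [← hq]; simp⟩

theorem EData.ord {ζ : Qbar} {P : Plc} {d : ℕ} {c : ℕ → ℤ[X]} (h : EData l ζ P d c)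
    (a : (ZMod l)ˣ) : cv ζ c a 1 ≠ 0 ∧ ∃ k : ℕ, P.V (cv ζ c a 1) = (P.p : ℝ≥0)⁻¹ ^ k := by
  have hl : l.Prime := Fact.out
  have h1 := h.prim.pow_of_coprime _ (ZMod.val_coe_unit_coprime a)
  have h2 : cv ζ c a 1 ≠ 0 := fun h0 => by
    have h3 := minpoly.isIntegrallyClosed_dvd (h1.isIntegral hl.pos) h0
    rw [← cyclotomic_eq_minpoly h1 hl.pos] at h3
    have h4 := eval_dvd (x := 1) h3
    rw [eval_one_cyclotomic_prime, h.one, Int.natCast_dvd_natCast] at h4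
    have h5 := (Nat.dvd_sub_iff_right P.prime.one_le h4).1 h.dvd
    exact hl.one_lt.ne' (Nat.dvd_one.1 h5)
  exact ⟨h2, val_int P h.dvd h1.pow_eq_one _ h2⟩

end Pool.Agent.Lib.MP_d61fbb_ag.SE
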