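import Pool.Agent.Lib.MP_d61fbb_ag.SE.EDef

/-! The finite model. -/

set_option autoImplicit false

noncomputable section

namespace Pool.Agent.Lib.MP_d61fbb_ag.SE

open Polynomial Module Pool.Agent.Lib.MP_696deb_nt.B2
open scoped NNReal

theorem exists_mdl {κ : Type} [Field κ] {p d : ℕ} [Fact p.Prime] (hp : (p : κ) = 0)
    {rb : Fin (d + 1) → κ} {π : Equiv.Perm (Fin (d + 1))} (hinj : Function.Injective rb)
    (hπ : ∀ i, rb i ^ p = rb (π i)) :
    ∃ (A : Type) (_ : CommRing A) (_ : Algebra (ZMod p) A) (_ : Fintype A)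
      (b : Basis (Fin (d + 1)) (ZMod p) A) (x : A) (σ : Fin (d + 1) → A →+* κ),
      EMdl rb b x σ := by
  have : CharP κ p := (CharP.charP_iff_prime_eq_zero Fact.out).2 hp
  let _ : Algebra (ZMod p) κ := ZMod.algebra κ p
  have hm : (∏ i, (X - C (rb i))).Monic := monic_prod_of_monic _ _ fun _ _ => monic_X_sub_C _
  have hfr : (∏ i, (X - C (rb i))).map (frobenius κ p) = ∏ i, (X - C (rb i)) := by
    rw [Polynomial.map_prod, ← Equiv.prod_comp π fun i => X - C (rb i)]
    simp [frobenius_def, hπ]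
  obtain ⟨f, hf, hd, hf1⟩ := lifts_and_natDegree_eq_and_monic (f := algebraMap (ZMod p) κ)
    ((lifts_iff_coeff_lifts _).2 fun n => by
      have e := congrArg (coeff · n) hfr
      simp only [coeff_map, frobenius_def] at e
      obtain ⟨m, hm⟩ := (mem_bot_iff_intCast p κ).1
        ((Subfield.mem_bot_iff_pow_eq_self κ p).2 e)
      exact ⟨m, (map_intCast _ m).trans hm⟩) hm
  rw [natDegree_prod_of_monic _ _ fun _ _ => monic_X_sub_C _] at hd
  replace hd : (AdjoinRoot.powerBasis' hf1).dim = d + 1 := by simpa using hd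
  have hr : ∀ i, f.eval₂ (algebraMap (ZMod p) κ) (rb i) = 0 := fun i => by
    rw [eval₂_eq_eval_map, hf, eval_prod]
    exact Finset.prod_eq_zero (Finset.mem_univ i) (by simp)
  let b := (AdjoinRoot.powerBasis' hf1).basis.reindex (finCongr hd)
  have hb : ∀ i, b i = AdjoinRoot.root f ^ (i : ℕ) := fun i => by simp [b]
  refine ⟨AdjoinRoot f, inferInstance, inferInstance, Module.fintypeOfFintype b, b,
    AdjoinRoot.root f, fun i => AdjoinRoot.lift _ _ (hr i), hb, fun i => AdjoinRoot.lift_root _,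
    fun u hu => ?_⟩
  have e := Matrix.eq_zero_of_forall_index_sum_mul_pow_eq_zero
    (v := fun j => algebraMap (ZMod p) κ (b.repr u j)) hinj fun i => by
      have := hu i
      rw [← b.sum_repr u] at this
      simpa [hb, Algebra.smul_def] using this
  exact b.ext_elem fun j => by simpa using congrFun e j

theorem exists_fin {κ : Type} [Field κ] {p n : ℕ} (hpp : p.Prime) (hp : (p : κ) = 0)
    {rb : Fin n → κ} {π : Equiv.Perm (Fin n)} (hπ : ∀ i, rb i ^ p = rb (π i)) {w : κ}
    (hw : w ^ p = w) :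
    ∃ (K : Type) (_ : Field K) (_ : Fintype K) (s : K →+* κ) (r : Fin n → K) (v : K),
      (∀ i, s (r i) = rb i) ∧ s v = w := by
  have : Fact p.Prime := ⟨hpp⟩
  have : CharP κ p := (CharP.charP_iff_prime_eq_zero hpp).2 hp
  have h1 : ∀ k i, rb i ^ p ^ k = rb ((π ^ k) i) := fun k i => by
    induction k with
    | zero => simp
    | succ k ih => rw [pow_succ, pow_mul, ih, hπ, pow_succ', Equiv.Perm.mul_apply]
  have h2 : ∀ k, w ^ p ^ k = w := fun k => by
    induction k with
    | zero => simp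
    | succ k ih => rw [pow_succ, pow_mul, ih, hw]
  let K := (iterateFrobenius κ p (orderOf π)).eqLocusField (RingHom.id κ)
  have hK : (K : Set κ).Finite := by
    refine (rootSet_finite (X ^ p ^ orderOf π - X : κ[X]) κ).subset fun y hy => ?_
    rw [mem_rootSet]
    refine ⟨FiniteField.X_pow_card_pow_sub_X_ne_zero κ (orderOf_pos π).ne' hpp.one_lt, ?_⟩
    rw [map_sub, map_pow, aeval_X, sub_eq_zero]
    exact hy
  refine ⟨K, inferInstance, hK.fintype, K.subtype, fun i => ⟨rb i, ?_⟩, ⟨w, h2 _⟩,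
    fun _ => rfl, rfl⟩
  exact (h1 _ i).trans (by rw [pow_orderOf_eq_one]; rfl)

theorem cpoly_map {K κ : Type} [Field K] [Field κ] (s : K →+* κ) {n : ℕ} (p l : ℕ)
    (r : Fin n → K) (v : K) : cpoly p l (fun i => s (r i)) (s v) = cpoly p l r v := by
  classical
  funext j
  have h : ∀ (a : Fin j → Fin p) (y : K), gv a (s y) = s (gv a y) := fun a y => by simp [gv]
  refine Finset.sum_congr rfl fun a _ => Finset.sum_congr rfl fun t _ => ?_
  rw [Finset.prod_congr rfl fun i _ => h a (r i), ← map_prod, ← map_pow, ← map_pow]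
  simp only [s.injective.eq_iff]

end Pool.Agent.Lib.MP_d61fbb_ag.SE
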