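import Pool.Agent.Lib.MP_d61fbb_ag.SE.EDef
import Pool.Agent.Lib.MP_0d42ed_ag.Fermat.Par

/-! Nondegeneracy of the Hodge numbers. -/

set_option autoImplicit false

noncomputable section

namespace Pool.Agent.Lib.MP_d61fbb_ag.SE

open Polynomial Module Pool.Agent.Lib.MP_696deb_nt.B2
open scoped NNReal

theorem nn3_b {l : ℕ} [hl : Fact l.Prime] {χ : DirichletCharacter ℂ l} (ho : χ.Odd) :
    ∑ s : (ZMod l)ˣ, χ s * ((s : ZMod l).val : ℂ) ≠ 0 := by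
  have hp : χ.IsPrimitive := by
    refine ((Nat.dvd_prime hl.out).1 χ.conductor_dvd_level).resolve_left fun e => ?_
    have h1 : χ (-1) = -1 := ho
    rw [χ.eq_one_iff_conductor_eq_one.2 e, MulChar.one_apply isUnit_one.neg] at h1
    norm_num at h1
  rw [Fintype.sum_of_injective Units.val Units.val_injective _
    (fun a : ZMod l => χ a * (a.val : ℂ)) (fun a ha => ?_) fun _ => rfl]
  · exact MP_0d42ed_ag.Fer.b1Stmt l χ hp ho
  · rw [χ.map_nonunit fun h => ha ⟨h.unit, h.unit_spec⟩, zero_mul]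

theorem nn3_n {l d : ℕ} [hl : Fact l.Prime] (hd : ¬ l ∣ d + 1) (h1 : 1 ≤ d)
    {χ : DirichletCharacter ℂ l} (ho : χ.Odd) : ∑ s : (ZMod l)ˣ, χ s * (nn l d s : ℂ) ≠ 0 := by
  intro h
  let u : (ZMod l)ˣ := Units.mk0 ((d + 1 : ℕ) : ZMod l) fun e =>
    hd ((ZMod.natCast_eq_zero_iff _ _).1 e)
  have e1 : ∀ s : (ZMod l)ˣ, (l : ℂ) * nn l d s + (((u * s : (ZMod l)ˣ) : ZMod l).val : ℂ) =
      (d + 1 : ℕ) * ((s : ZMod l).val : ℂ) := fun s => by
    rw [Units.val_mul, ZMod.val_mul, Units.val_mk0, ZMod.val_natCast, Nat.mod_mul_mod, nn]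
    exact_mod_cast Nat.div_add_mod _ _
  have e2 := Equiv.sum_comp (Equiv.mulLeft u) fun s : (ZMod l)ˣ => χ s * ((s : ZMod l).val : ℂ)
  have e3 : (χ u * (d + 1 : ℕ) - 1) * ∑ s : (ZMod l)ˣ, χ s * ((s : ZMod l).val : ℂ) =
      χ u * l * ∑ s : (ZMod l)ˣ, χ s * (nn l d s : ℂ) := by
    rw [sub_mul, one_mul]
    nth_rw 2 [← e2]
    rw [Finset.mul_sum, Finset.mul_sum, ← Finset.sum_sub_distrib]
    refine Finset.sum_congr rfl fun s _ => ?_
    have e4 := e1 s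
    rw [Equiv.coe_mulLeft, Units.val_mul, map_mul]
    rw [Units.val_mul] at e4
    linear_combination (-χ u * χ s) * e4
  rw [h, mul_zero, mul_eq_zero, sub_eq_zero] at e3
  have e5 := congrArg norm (e3.resolve_right (nn3_b ho))
  rw [norm_mul, χ.unit_norm_eq_one, one_mul, Complex.norm_natCast, norm_one, Nat.cast_eq_one] at e5
  omega

theorem nn3_f {l d : ℕ} [Fact l.Prime] (hd : ¬ l ∣ d + 1) (h1 : 1 ≤ d) (m : (ZMod l)ˣ → ℤ)
    (m0 : ℤ) (h : ∀ e : (ZMod l)ˣ, ∑ a, m a * (nn l d (a * e) : ℤ) = m0)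
    {χ : DirichletCharacter ℂ l} (ho : χ.Odd) : ∑ a, (m a : ℂ) * χ (a : ZMod l)⁻¹ = 0 := by
  have e1 : ∑ e : (ZMod l)ˣ, χ e = 0 := by
    have e2 := Equiv.sum_comp (Equiv.neg (ZMod l)ˣ) fun e : (ZMod l)ˣ => χ e
    simp only [Equiv.neg_apply, Units.val_neg, ho.eval_neg, Finset.sum_neg_distrib] at e2
    linear_combination (-1 / 2) * e2
  refine (mul_eq_zero.1 ?_).resolve_right (nn3_n hd h1 ho)
  have e3 : ∀ e : (ZMod l)ˣ, ∑ a, (m a : ℂ) * (nn l d (a * e) : ℂ) = m0 := fun e => by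
    exact_mod_cast h e
  have e5 : ∑ e : (ZMod l)ˣ, ∑ a, χ e * ((m a : ℂ) * (nn l d (a * e) : ℂ)) = 0 := by
    simp only [← Finset.mul_sum, e3]
    rw [← Finset.sum_mul, e1, zero_mul]
  rw [Finset.sum_comm] at e5
  refine Eq.trans ?_ e5
  rw [Finset.sum_mul]
  simp only [Finset.mul_sum]
  refine Finset.sum_congr rfl fun a _ => ?_
  rw [← Equiv.sum_comp (Equiv.mulLeft a)]
  refine Finset.sum_congr rfl fun e _ => ?_
  have e4 : χ (a : ZMod l)⁻¹ * χ a = 1 := by rw [← map_mul, inv_mul_cancel₀ a.ne_zero, map_one]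
  rw [Equiv.coe_mulLeft, Units.val_mul, map_mul]
  linear_combination ((m a : ℂ) * χ e * (nn l d (a * e) : ℂ)) * e4

theorem nn_odd {l d : ℕ} [Fact l.Prime] (hd : ¬ l ∣ d + 1) (h1 : 1 ≤ d) (m : (ZMod l)ˣ → ℤ)
    (m0 : ℤ) (h : ∀ e : (ZMod l)ˣ, ∑ a, m a * (nn l d (a * e) : ℤ) = m0) (a : (ZMod l)ˣ) :
    m a = m (-a) := by
  classical
  have e1 : ∀ χ : DirichletCharacter ℂ l,
      ∑ b : (ZMod l)ˣ, ((m b : ℂ) - m (-b)) * χ (b : ZMod l)⁻¹ = 0 := fun χ => by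
    have e2 := Equiv.sum_comp (Equiv.neg (ZMod l)ˣ) fun b : (ZMod l)ˣ => (m b : ℂ) * χ (b : ZMod l)⁻¹
    simp only [Equiv.neg_apply, Units.val_neg, inv_neg] at e2
    simp only [sub_mul, Finset.sum_sub_distrib]
    rcases χ.even_or_odd with he | ho
    · simp only [he.eval_neg] at e2
      rw [e2, sub_self]
    · simp only [ho.eval_neg, mul_neg, Finset.sum_neg_distrib, nn3_f hd h1 m m0 h ho,
        neg_eq_zero] at e2
      rw [e2, nn3_f hd h1 m m0 h ho, sub_self]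
  have e3 : ∑ χ : DirichletCharacter ℂ l,
      (∑ b : (ZMod l)ˣ, ((m b : ℂ) - m (-b)) * χ (b : ZMod l)⁻¹) * χ a = 0 := by
    simp only [e1, zero_mul, Finset.sum_const_zero]
  simp only [Finset.sum_mul, mul_assoc] at e3
  rw [Finset.sum_comm] at e3
  simp only [← Finset.mul_sum, DirichletCharacter.sum_char_inv_mul_char_eq ℂ (Units.isUnit _),
    Units.val_inj, mul_ite, mul_zero, Finset.sum_ite_eq', Finset.mem_univ, if_true] at e3
  have e4 := (mul_eq_zero.1 e3).resolve_right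
    (Nat.cast_ne_zero.2 (Nat.totient_pos.2 (Fact.out : l.Prime).pos).ne')
  exact_mod_cast sub_eq_zero.1 e4

end Pool.Agent.Lib.MP_d61fbb_ag.SE
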