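import Pool.Agent.Lib.MP_d61fbb_ag.SE.EInt
import Pool.Agent.Lib.MP_d61fbb_ag.SE.NN1
import Pool.Agent.Lib.MP_d61fbb_ag.SE.NN3

/-! Multiplicative relations between the coefficients. -/

set_option autoImplicit false

noncomputable section

namespace Pool.Agent.Lib.MP_d61fbb_ag.SE

open Polynomial Module Pool.Agent.Lib.MP_696deb_nt.B2
open scoped NNReal

variable {l d : ℕ} [Fact l.Prime] {ζ : Qbar} {P : Plc} {c : ℕ → ℤ[X]}

theorem vv1_pos (P : Plc) : (0 : ℝ≥0) < (P.p : ℝ≥0)⁻¹ :=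
  inv_pos.2 (Nat.cast_pos.2 P.prime.pos)

theorem vv1_ne_one (P : Plc) : (P.p : ℝ≥0)⁻¹ ≠ 1 := by
  intro h
  rw [inv_eq_one] at h
  exact P.prime.one_lt.ne' (by exact_mod_cast h)

theorem EData.v1 (h : EData l ζ P d c) (hl : l ≠ 2) (hd : ¬ l ∣ d + 1) (h4 : 4 ≤ d)
    (a b : (ZMod l)ˣ) (hab : a ≠ b) :
    cv ζ c b 1 ^ d * cv ζ c a d ≠ cv ζ c a 1 ^ d * cv ζ c b d := by
  intro heq
  have key : ∀ e : (ZMod l)ˣ, nn l d (b * e) ≡ nn l d (a * e) [MOD d] := by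
    intro e
    obtain ⟨φ, hφ⟩ := exists_conj h.prim e
    have h1 := congrArg (fun z => P.V (φ z)) heq
    simp only [map_mul, map_pow, hφ] at h1
    obtain ⟨-, k, hk⟩ := h.ord (a * e)
    obtain ⟨-, k', hk'⟩ := h.ord (b * e)
    rw [hk, hk', h.val, h.val, ← pow_mul, ← pow_mul, ← pow_add, ← pow_add] at h1
    have h2 := pow_right_injective₀ (vv1_pos P) (vv1_ne_one P) h1
    have h3 : (k * d + nn l d (b * e)) % d = (k' * d + nn l d (a * e)) % d := by rw [h2]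
    rwa [Nat.mul_add_mod_self_right, Nat.mul_add_mod_self_right] at h3
  have h5 : b * a⁻¹ = 1 := by
    refine nn_inj hl hd h4 fun a' => ?_
    have h6 := key (a⁻¹ * a')
    rwa [← mul_assoc, mul_inv_cancel_left] at h6
  exact hab (mul_inv_eq_one.1 h5).symm

theorem EData.v4 (h : EData l ζ P d c) (hd : ¬ l ∣ d + 1) (h4 : 4 ≤ d)
    (m : (ZMod l)ˣ → ℤ) (m0 : ℤ)
    (hm : (∏ a, ((-1) ^ d * cv ζ c a d) ^ m a) * (P.p : Qbar) ^ m0 = 1) (a : (ZMod l)ˣ) :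
    m a = m (-a) := by
  refine nn_odd hd (by omega) m (-m0) (fun e => ?_) a
  obtain ⟨φ, hφ⟩ := exists_conj h.prim e
  have h1 := congrArg (fun z => P.V (φ z)) hm
  simp only [map_mul, map_prod, map_zpow₀, map_pow, map_neg, map_one, map_natCast, hφ,
    Valuation.map_neg, one_pow, one_mul, h.val, P.hV] at h1
  have hx := (vv1_pos P).ne'
  have h2 : ∀ s : Finset (ZMod l)ˣ, ∏ a ∈ s, ((P.p : ℝ≥0)⁻¹ ^ nn l d (a * e)) ^ m a =
      (P.p : ℝ≥0)⁻¹ ^ (∑ a ∈ s, m a * (nn l d (a * e) : ℤ)) := by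
    intro s
    induction s using Finset.induction_on with
    | empty => simp
    | insert i s hi ih =>
      rw [Finset.prod_insert hi, Finset.sum_insert hi, ih, zpow_add₀ hx, ← zpow_natCast,
        ← zpow_mul, mul_comm (m i)]
  rw [h2, ← zpow_add₀ hx, ← zpow_zero ((P.p : ℝ≥0)⁻¹)] at h1
  have h3 := zpow_right_injective₀ (vv1_pos P) (vv1_ne_one P) h1
  exact eq_neg_of_add_eq_zero_left h3

end Pool.Agent.Lib.MP_d61fbb_ag.SE
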