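import Pool.Agent.Lib.MP_d61fbb_ag.SE.EInt
import Pool.Agent.Lib.MP_d61fbb_ag.SE.NN1

/-! The roots do not all have the same power. -/

set_option autoImplicit false

noncomputable section

namespace Pool.Agent.Lib.MP_d61fbb_ag.SE

open Polynomial Module Pool.Agent.Lib.MP_696deb_nt.B2
open scoped NNReal

theorem vv3_roots {K : Type} [Field K] [IsAlgClosed K] {u : ℕ → K} (h0 : u 0 = 1) {d : ℕ}
    (hd : d ≠ 0) : ∃ s : Multiset K, s.card = d ∧ s.sum = -u 1 ∧ u d = (-1) ^ d * s.prod ∧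
      ∀ α ∈ s, ∑ i ∈ Finset.range (d + 1), u (d - i) * α ^ i = 0 := by
  let F : K[X] := ∑ i ∈ Finset.range (d + 1), monomial i (u (d - i))
  have h1 : ∀ i, F.coeff i = if i < d + 1 then u (d - i) else 0 := fun i => by
    simp only [F, finsetSum_coeff, coeff_monomial, Finset.sum_ite_eq', Finset.mem_range]
  have h2 : F.natDegree ≤ d := natDegree_le_iff_coeff_eq_zero.2 fun i hi => by
    rw [h1, if_neg (by omega)]
  have h3 : F.coeff d = 1 := by rw [h1, if_pos (by omega), Nat.sub_self, h0]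
  have h4 : F.Monic := monic_of_natDegree_le_of_coeff_eq_one d h2 h3
  have h5 : F.natDegree = d := natDegree_eq_of_le_of_coeff_ne_zero h2 (h3 ▸ one_ne_zero)
  have h6 := IsAlgClosed.splits F
  refine ⟨F.roots, h6.natDegree_eq_card_roots.symm.trans h5, ?_, ?_, fun α hα => ?_⟩
  · have := h6.nextCoeff_eq_neg_sum_roots_of_monic h4
    rw [nextCoeff, h5, if_neg hd, h1, if_pos (by omega), show d - (d - 1) = 1 by omega] at this
    rw [this, neg_neg]
  · have := h6.coeff_zero_eq_prod_roots_of_monic h4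
    rwa [h1, if_pos (by omega), h5, Nat.sub_zero] at this
  · have := (mem_roots h4.ne_zero).1 hα
    simpa only [F, IsRoot.def, eval_finsetSum, eval_monomial] using this

theorem vv3_abs {K : Type} [Field K] (v : K →*₀ ℝ≥0) {s : Multiset K} {N : ℕ} (hN : N ≠ 0) {y : K}
    (h : ∀ α ∈ s, α ^ N = y) {α : K} (hα : α ∈ s) (d : ℕ) :
    v α ^ s.card = v ((-1) ^ d * s.prod) := by
  have h1 : s.map v = Multiset.replicate s.card (v α) := by
    refine Multiset.eq_replicate.2 ⟨Multiset.card_map _ _, fun b hb => ?_⟩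
    obtain ⟨β, hβ, rfl⟩ := Multiset.mem_map.1 hb
    refine pow_left_injective hN ?_
    simp only [← map_pow, h β hβ, h α hα]
  have h2 : v (-1) = 1 := pow_left_injective two_ne_zero (by simp [← map_pow])
  rw [map_mul, map_pow, h2, one_pow, one_mul, map_multiset_prod, h1, Multiset.prod_replicate]

theorem EData.v3 {l d : ℕ} [Fact l.Prime] {ζ : Qbar} {P : Plc} {c : ℕ → ℤ[X]}
    (h : EData l ζ P d c) (hl : l ≠ 2) (hd : ¬ l ∣ d + 1) (h4 : 4 ≤ d) (hp : d ^ (l - 1) < P.p)
    (a : (ZMod l)ˣ) (N : ℕ) (y : Qbar) (hN : 0 < N) :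
    ∃ α : Qbar, ∑ i ∈ Finset.range (d + 1), cv ζ c a (d - i) * α ^ i = 0 ∧ α ^ N ≠ y := by
  by_contra H
  push Not at H
  have hd0 : d ≠ 0 := by omega
  have hz := h.prim.pow_eq_one
  have hp1 : (1 : ℝ≥0) < P.p := by exact_mod_cast P.prime.one_lt
  have hp2 : (P.p : ℝ≥0)⁻¹ < 1 := inv_lt_one_of_one_lt₀ hp1
  have key : ∀ b : (ZMod l)ˣ, ‖jC (cv ζ c b 1)‖₊ ≤ d * NNReal.sqrt P.p ∧
      P.V (cv ζ c b 1) ≤ (P.p : ℝ≥0)⁻¹ ^ (if 0 < nn l d b then 1 else 0) := fun b => by
    have h0 : cv ζ c b 0 = 1 := by rw [cv, h.zero, map_one]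
    obtain ⟨s, s1, s2, s3, s4⟩ := vv3_roots (u := cv ζ c b) h0 hd0
    obtain ⟨φ, hφ⟩ := exists_conj h.prim (a⁻¹ * b)
    have s5 : ∀ α ∈ s, α ^ N = φ y := fun α hα => by
      rw [← H (φ.symm α) (φ.injective ?_), map_pow, φ.apply_symm_apply]
      simp only [map_sum, map_mul, map_pow, hφ, φ.apply_symm_apply, mul_inv_cancel_left, map_zero]
      exact s4 α hα
    constructor
    · have e1 : ‖jC (cv ζ c b d)‖₊ ^ 2 = (P.p : ℝ≥0) ^ d := by
        have e := congrArg (fun z => ‖jC z‖₊) (h.fe b 0 (Nat.zero_le d))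
        simp only [h0, one_mul, Nat.sub_zero, map_mul, map_pow, map_natCast, ← conj_cv hz,
          nnnorm_mul, nnnorm_pow, Complex.nnnorm_natCast, RCLike.nnnorm_conj] at e
        rw [e, sq]
      have e2 : ∀ α ∈ s, ‖jC α‖₊ = NNReal.sqrt P.p := fun α hα => by
        have e := vv3_abs (nnnormHom.comp jC.toMonoidWithZeroHom) hN.ne' s5 hα d
        rw [s1, ← s3] at e
        have e' : ‖jC α‖₊ ^ d = ‖jC (cv ζ c b d)‖₊ := e
        rw [← e', ← pow_mul, mul_comm, pow_mul] at e1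
        rw [← pow_left_injective hd0 e1, NNReal.sqrt_sq]
      rw [← nnnorm_neg, ← map_neg, ← s2, map_multiset_sum]
      refine (nnnorm_multiset_sum_le _).trans ?_
      refine (Multiset.sum_le_card_nsmul _ (NNReal.sqrt P.p) fun x hx => ?_).trans_eq ?_
      · rw [Multiset.map_map] at hx
        obtain ⟨α, hα, rfl⟩ := Multiset.mem_map.1 hx
        exact (e2 α hα).le
      · rw [Multiset.card_map, Multiset.card_map, s1, nsmul_eq_mul]
    · obtain ⟨-, k, hk⟩ := h.ord b
      rw [hk]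
      refine pow_le_pow_of_le_one zero_le hp2.le ?_
      split_ifs with hb
      · have e1 : ∀ α ∈ s, P.V α < 1 := fun α hα => by
          have e := vv3_abs P.V.toMonoidWithZeroHom hN.ne' s5 hα d
          rw [s1, ← s3] at e
          have e' : P.V α ^ d = P.V (cv ζ c b d) := e
          rw [h.val] at e'
          exact lt_of_pow_lt_pow_left₀ d zero_le
            (by rw [e', one_pow]; exact pow_lt_one₀ zero_le hp2 hb.ne')
        have e2 : P.V s.sum < 1 := Multiset.sum_induction (fun x => P.V x < 1) s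
          (fun _ _ => P.V.map_add_lt) (by simp) e1
        rw [s2, Valuation.map_neg, hk] at e2
        refine Nat.pos_of_ne_zero fun e => ?_
        rw [e, pow_zero] at e2
        exact lt_irrefl _ e2
      · exact Nat.zero_le k
  obtain ⟨M, hM⟩ := prod_cv_int h.prim c 1
  have m0 : M ≠ 0 := fun e => by
    rw [e, Int.cast_zero] at hM
    exact Finset.prod_ne_zero_iff.2 (fun b _ => (h.ord b).1) hM
  have m1 := nn_card hl hd h4
  rw [Finset.card_filter] at m1
  have m2 := pow_dvd_of_val P (M := M) (by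
    rw [← hM, map_prod, ← Finset.prod_pow_eq_pow_sum]
    exact Finset.prod_le_prod' fun b _ => (key b).2)
  generalize (∑ b : (ZMod l)ˣ, if 0 < nn l d b then 1 else 0) = K at m1 m2
  have m3 : P.p ^ K ≤ M.natAbs := by
    refine Nat.le_of_dvd (Int.natAbs_pos.2 m0) ?_
    rw [← Int.natCast_dvd, Nat.cast_pow]
    exact m2
  have m4 : (M.natAbs : ℝ≥0) ≤ (d * NNReal.sqrt P.p) ^ (l - 1) := by
    rw [NNReal.natCast_natAbs, ← Complex.nnnorm_intCast, ← map_intCast jC, ← hM, map_prod,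
      nnnorm_prod, ← ZMod.card_units l, ← Finset.card_univ, ← Finset.prod_const]
    exact Finset.prod_le_prod' fun b _ => (key b).1
  have m5 : M.natAbs ^ 2 ≤ (d ^ (l - 1)) ^ 2 * P.p ^ (l - 1) := by
    have := pow_le_pow_left₀ zero_le m4 2
    rw [← pow_mul, mul_comm (l - 1), pow_mul, mul_pow, NNReal.sq_sqrt, mul_pow, ← pow_mul,
      mul_comm 2, pow_mul] at this
    exact_mod_cast this
  have m6 : P.p ^ 2 * P.p ^ (l - 1) ≤ M.natAbs ^ 2 := by
    refine le_trans ?_ (Nat.pow_le_pow_left m3 2)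
    rw [← pow_add, ← pow_mul]
    have := (Fact.out : l.Prime).one_le
    exact Nat.pow_le_pow_right P.prime.pos (by omega)
  have m7 := Nat.le_of_mul_le_mul_right (m6.trans m5) (pow_pos P.prime.pos _)
  exact absurd (Nat.pow_lt_pow_left hp two_ne_zero) (not_lt.2 m7)

end Pool.Agent.Lib.MP_d61fbb_ag.SE
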