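import Pool.Agent.Lib.MP_d61fbb_ag.SE.EDat
import Pool.Agent.Lib.MP_d61fbb_ag.SE.VV1
import Pool.Agent.Lib.MP_d61fbb_ag.SE.VV3

/-! The arithmetic of the Frobenius polynomials. -/

set_option autoImplicit false

noncomputable section

namespace Pool.Agent.Lib.MP_d61fbb_ag.SE

open Polynomial Module Pool.Agent.Lib.MP_696deb_nt.B2
open scoped NNReal

theorem EData.ap {l d : ℕ} [Fact l.Prime] {ζ0 : Qbar} {P : Plc} {c : ℕ → ℤ[X]}
    (h : EData l ζ0 P d c) (hl : l ≠ 2) (hd : ¬ l ∣ d + 1) (h4 : 4 ≤ d) (hp : d ^ (l - 1) < P.p)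
    {Ω : Type} [Field Ω] [CharZero Ω] [IsAlgClosed Ω] {ζ : Ω} (hζ : IsPrimitiveRoot ζ l) :
    AP l ζ d P.p c := by
  obtain ⟨j, rfl⟩ := exists_emb h.prim hζ
  refine ⟨fun a => by rw [cv, h.zero, map_one], fun a i hi => ?_, fun a b hab k => ?_,
    fun a N y hN => ?_, fun m m0 hm => h.v4 hd h4 m m0 (j.injective ?_)⟩
  · simpa only [map_mul, map_pow, map_natCast, map_cv] using congrArg j (h.fe a i hi)
  · refine h.v1 hl hd h4 a b hab (j.injective ?_)
    simpa only [map_mul, map_pow, map_cv] using k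
  · have key : ∀ y0 : Qbar, ∃ α : Qbar,
        ∑ i ∈ Finset.range (d + 1), cv (j ζ0) c a (d - i) * j α ^ i = 0 ∧ α ^ N ≠ y0 := fun y0 => by
      obtain ⟨α, h1, h2⟩ := h.v3 hl hd h4 hp a N y0 hN
      exact ⟨α, by simpa only [map_sum, map_mul, map_pow, map_cv, map_zero] using congrArg j h1, h2⟩
    by_cases hy : ∃ y0, j y0 = y
    · obtain ⟨y0, rfl⟩ := hy
      obtain ⟨α, h1, h2⟩ := key y0
      exact ⟨j α, h1, fun k => h2 (j.injective (by rw [map_pow, k]))⟩
    · obtain ⟨α, h1, -⟩ := key 0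
      exact ⟨j α, h1, fun k => hy ⟨α ^ N, by rw [map_pow, k]⟩⟩
  · simpa only [map_mul, map_prod, map_zpow₀, map_pow, map_neg, map_one, map_natCast, map_cv]
      using hm

theorem arithStmt : ArithStmt := by
  intro κ _ p l d _ rb w π hpp hp hl hd h4 hlp hdp hinj hπ hne hw Ω _ _ _ ζ hζ
  have hwp : w ^ p = w := by
    obtain ⟨m, hm⟩ := hlp
    rw [← Nat.sub_add_cancel hpp.one_le, hm, pow_succ, pow_mul, hw.pow_eq_one, one_pow, one_mul]
  obtain ⟨K, _, _, s, r, v, hr, rfl⟩ := exists_fin hpp hp hπ hwp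
  obtain rfl : (fun i => s (r i)) = rb := funext hr
  rw [cpoly_map]
  obtain ⟨P, ζ0, rfl, h⟩ := exists_edata (rb := r) (w := v) (π := π) hpp
    (s.injective (by rw [map_natCast, hp, map_zero])) hd hlp
    (fun i k e => hinj (congrArg s e)) (fun i => s.injective (by rw [map_pow]; exact hπ i)) hne
    (hw.of_map_of_injective s.injective)
  exact h.ap hl hd h4 hdp hζ

end Pool.Agent.Lib.MP_d61fbb_ag.SE
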