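import Pool.Agent.Lib.MP_696deb_nt.B2.CH2

/-! The density theorem of Frobenius for the field of algebraic numbers. -/

set_option autoImplicit false

open scoped NNReal Classical
open Filter Topology Finset NumberField Asymptotics

namespace Pool.Agent.Lib.MP_d61fbb_ag.SE

open Pool.Agent.Lib.MP_696deb_nt.B2
open Pool.Agent.Lib.MP_aed2da_nt.QC (pw w_nonneg pw_nonneg pw_le summable_pw P_bigO w_le_half)

theorem f1_congr {f g : ℕ → ℝ} {x : ℝ} (h : HasSum f x) (e : ∀ p, g p = f p) : HasSum g x :=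
  (funext e : g = f) ▸ h

section Group

variable {G : Type} [Group G] [Fintype G] {a : ℕ → G} {ok : ℕ → Prop}

/-- The classes of the elements `a p` are equidistributed for the test function `c`. -/
def Den (a : ℕ → G) (ok : ℕ → Prop) (c : G → ℝ) : Prop :=
  ∃ F : ℝ → ℝ, (∀ t, 1 < t → HasSum
    (fun p : ℕ => if ok p then (∑ x, c (x⁻¹ * a p * x)) * (p : ℝ) ^ (-t) else 0) (F t)) ∧
    (fun t => F t + (∑ g, c g) * Real.log (t - 1)) =O[𝓝[>] 1] fun _ => (1 : ℝ)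

theorem Den.sub {c d : G → ℝ} (h : Den a ok c) (k : Den a ok d) :
    Den a ok fun g => c g - d g := by
  obtain ⟨F, h1, h2⟩ := h
  obtain ⟨F', k1, k2⟩ := k
  refine ⟨fun t => F t - F' t, fun t ht => ?_, (h2.sub k2).congr_left fun t => ?_⟩
  · refine f1_congr ((h1 t ht).sub (k1 t ht)) fun p => ?_
    rw [sum_sub_distrib]
    split_ifs <;> ring
  · rw [sum_sub_distrib]
    ring

theorem Den.sum {ι : Type} (s : Finset ι) {c : ι → G → ℝ} (h : ∀ i ∈ s, Den a ok (c i)) :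
    Den a ok fun g => ∑ i ∈ s, c i g := by
  choose! F h1 h2 using h
  refine ⟨fun t => ∑ i ∈ s, F i t, fun t ht => ?_, (IsBigO.sum h2).congr_left fun t => ?_⟩
  · convert hasSum_sum fun i hi => h1 i hi t ht using 2 with p
    split_ifs
    · rw [sum_comm, sum_mul]
    · simp
  · rw [Finset.sum_apply, sum_add_distrib, ← sum_mul, sum_comm]

theorem den_gen (h : ∀ J : Subgroup G, Den a ok fun g => if g ∈ J then 1 else 0) (J : Subgroup G) :
    Den a ok fun g => if Subgroup.zpowers g = J then 1 else 0 := by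
  induction J using WellFoundedLT.induction with
  | ind J ih =>
    have := Fintype.ofFinite (Subgroup G)
    convert (h J).sub (Den.sum (univ.filter (· < J)) fun C hC => ih C (mem_filter.1 hC).2)
      using 2 with g
    rw [sum_ite_eq]
    simp only [mem_filter, mem_univ, true_and, ← Subgroup.zpowers_le, le_iff_lt_or_eq]
    by_cases e : Subgroup.zpowers g = J
    · simp [e]
    · simp [e]

theorem den_exists (h : ∀ J : Subgroup G, Den a ok fun g => if g ∈ J then 1 else 0) (s : G) :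
    ∃ p x, ok p ∧ Subgroup.zpowers (x⁻¹ * a p * x) = Subgroup.zpowers s := by
  by_contra hc
  obtain ⟨F, h1, h2⟩ := den_gen h (Subgroup.zpowers s)
  have h3 : (0 : ℝ) < ∑ g : G, if Subgroup.zpowers g = Subgroup.zpowers s then 1 else 0 :=
    sum_pos' (fun g _ => by positivity) ⟨s, mem_univ _, by simp⟩
  refine ch1_log ((isBigO_const_mul_left_iff h3.ne').1 (h2.congr' ?_ EventuallyEq.rfl))
  filter_upwards [self_mem_nhdsWithin] with t ht
  rw [(h1 t ht).unique (a₂ := 0) ?_, zero_add]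
  convert hasSum_zero with p
  split_ifs with k
  · rw [sum_eq_zero fun x _ => if_neg fun e => hc ⟨p, x, k, e⟩, zero_mul]
  · rfl

end Group

section Field

variable {L : Type} [Field L] [NumberField L]

/-- The weight of the primes of degree one with norm outside of `S`. -/
noncomputable def f1w (S : Finset ℕ) (t : ℝ) (Q : Ideal (𝓞 L)) : ℝ :=
  if (Ideal.absNorm Q).Prime ∧ Ideal.absNorm Q ∉ S then pw t Q else 0

theorem f1w_le (S : Finset ℕ) (t : ℝ) (Q : Ideal (𝓞 L)) : 0 ≤ f1w S t Q ∧ f1w S t Q ≤ pw t Q := by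
  unfold f1w
  split_ifs
  exacts [⟨pw_nonneg _ _, le_rfl⟩, ⟨le_rfl, pw_nonneg _ _⟩]

theorem f1_summable (S : Finset ℕ) {t : ℝ} (ht : 1 < t) : Summable (f1w (L := L) S t) :=
  (summable_pw ht).of_nonneg_of_le (fun Q => (f1w_le S t Q).1) fun Q => (f1w_le S t Q).2

theorem f1_bigO (L : Type) [Field L] [NumberField L] (S : Finset ℕ) :
    (fun t : ℝ => ∑' Q : Ideal (𝓞 L), f1w S t Q + Real.log (t - 1)) =O[𝓝[>] 1]
      fun _ => (1 : ℝ) := by
  have hfin : {Q : Ideal (𝓞 L) | Ideal.absNorm Q ∈ S}.Finite :=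
    (S.finite_toSet.biUnion fun n _ => Ideal.finite_setOfPred_absNorm_eq (S := 𝓞 L) n).subset
      fun Q hQ => Set.mem_biUnion hQ rfl
  have h1 : (fun t : ℝ => ∑' Q : Ideal (𝓞 L), (pw t Q - f1w S t Q)) =O[𝓝[>] 1]
      fun _ => (1 : ℝ) := by
    refine IsBigO.of_bound (hfin.toFinset.card +
      Module.finrank ℤ (𝓞 L) * ∑' p : ℕ, 1 / (p : ℝ) ^ 2) ?_
    filter_upwards [self_mem_nhdsWithin] with t ht
    have ht : 1 < t := ht
    rw [norm_one, mul_one, Real.norm_of_nonneg (tsum_nonneg fun Q => sub_nonneg.2 (f1w_le S t Q).2)]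
    refine ((summable_pw ht).sub (f1_summable S ht)).tsum_le_of_sum_le fun u => ?_
    have h2 : ∀ Q ∈ u, pw t Q - f1w S t Q ≤ (if Q ∈ hfin.toFinset then 1 else 0) +
        if Q.IsMaximal ∧ ¬ (Ideal.absNorm Q).Prime then MP_aed2da_nt.QC.w t Q else 0 := by
      intro Q _
      have k0 := w_nonneg t Q
      have k1 : (0 : ℝ) ≤ if Q ∈ hfin.toFinset then 1 else 0 := by positivity
      have k2 : 0 ≤ if Q.IsMaximal ∧ ¬ (Ideal.absNorm Q).Prime then MP_aed2da_nt.QC.w t Q else 0 := by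
        positivity
      have k3 := (f1w_le S t Q).1
      by_cases hm : Q.IsMaximal
      · by_cases hp : (Ideal.absNorm Q).Prime
        · by_cases hB : Ideal.absNorm Q ∈ S
          · rw [if_pos (hfin.mem_toFinset.2 hB)]
            linarith [w_le_half ht.le hm, pw_le t Q]
          · rw [f1w, if_pos ⟨hp, hB⟩]
            linarith
        · rw [if_pos (⟨hm, hp⟩ : Q.IsMaximal ∧ ¬ (Ideal.absNorm Q).Prime)]
          linarith [pw_le t Q]
      · have k5 : pw t Q = 0 := if_neg hm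
        linarith
    refine (sum_le_sum h2).trans ?_
    rw [sum_add_distrib, ← sum_filter, ← sum_filter]
    refine add_le_add ?_ (ch1_high ht _ fun Q hQ => (mem_filter.1 hQ).2)
    rw [sum_const, nsmul_eq_mul, mul_one]
    exact Nat.cast_le.2 (card_le_card fun Q hQ => (mem_filter.1 hQ).2)
  refine ((P_bigO L).sub h1).congr' ?_ EventuallyEq.rfl
  filter_upwards [self_mem_nhdsWithin] with t ht
  rw [(summable_pw ht).tsum_sub (f1_summable S ht)]
  ring

/-- The maximal ideals of norm `p`. -/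
noncomputable def f1T (L : Type) [Field L] [NumberField L] (p : ℕ) : Finset (Ideal (𝓞 L)) :=
  (Ideal.finite_setOfPred_absNorm_eq (S := 𝓞 L) p).toFinset.filter Ideal.IsMaximal

theorem mem_f1T {p : ℕ} {Q : Ideal (𝓞 L)} : Q ∈ f1T L p ↔ Ideal.absNorm Q = p ∧ Q.IsMaximal := by
  simp [f1T]

theorem f1_fiber (L : Type) [Field L] [NumberField L] (S : Finset ℕ) {t : ℝ} (ht : 1 < t) :
    HasSum (fun p : ℕ => if p.Prime ∧ p ∉ S then ((f1T L p).card : ℝ) * (p : ℝ) ^ (-t) else 0)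
      (∑' Q : Ideal (𝓞 L), f1w S t Q) := by
  refine f1_congr ((f1_summable (L := L) S ht).hasSum.tsum_fiberwise Ideal.absNorm) fun p => ?_
  rw [tsum_subtype (Ideal.absNorm ⁻¹' {p}) (f1w S t), tsum_eq_sum (s := f1T L p) fun Q hQ => ?_]
  · rw [sum_congr rfl (g := fun _ => if p.Prime ∧ p ∉ S then (p : ℝ) ^ (-t) else 0) fun Q hQ => ?_]
    · split_ifs <;> simp
    · obtain ⟨h1, h2⟩ := mem_f1T.1 hQ
      rw [Set.indicator_of_mem (show Q ∈ Ideal.absNorm ⁻¹' {p} from h1), f1w, pw, if_pos h2,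
        MP_aed2da_nt.QC.w, h1]
  · refine Set.indicator_apply_eq_zero.2 fun h => ?_
    rw [f1w, pw, if_neg fun k => hQ (mem_f1T.2 ⟨h, k⟩), ite_self]

/-- The prime below a place whose Frobenius element fixes the field. -/
theorem f1_res (j : L →+* Qbar) {v : Plc} {φ : Gam} (hφ : IsFrob v v.p φ)
    (h : ∀ x, φ (j x) = j x) : ch2I v j ∈ f1T L v.p ∧ ∀ x : 𝓞 L, ∃ n : ℤ, x - n ∈ ch2I v j := by
  have : Fact v.p.Prime := ⟨v.prime⟩
  have h1 : (v.p : 𝓞 L) ∈ ch2I v j := by simpa [ch2_mem] using b2a_p_lt v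
  have hm : (ch2I v j).IsMaximal := (ch2_prime v j).isMaximal fun e => by
    rw [e, Ideal.mem_bot, Nat.cast_eq_zero] at h1
    exact v.prime.ne_zero h1
  let _ := Ideal.Quotient.field (ch2I v j)
  have : CharP (𝓞 L ⧸ ch2I v j) v.p := (CharP.charP_iff_prime_eq_zero v.prime).2 (by
    simpa using Ideal.Quotient.eq_zero_iff_mem.2 h1)
  have h2 : ∀ x : 𝓞 L, ∃ n : ℤ, (n : 𝓞 L ⧸ ch2I v j) = Ideal.Quotient.mk _ x := fun x => by
    refine (mem_bot_iff_intCast v.p _).1 ((Subfield.mem_bot_iff_pow_eq_self _ v.p).2 ?_)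
    have h3 := hφ.2 _ (ch2_le v j x)
    rw [h] at h3
    rw [← map_pow, eq_comm, Ideal.Quotient.eq, ch2_mem]
    simpa using h3
  refine ⟨mem_f1T.2 ⟨?_, hm⟩, fun x => ?_⟩
  · rw [Ideal.absNorm_apply, Submodule.cardQuot_apply]
    refine (Nat.card_eq_of_bijective (ZMod.castHom (dvd_refl v.p) (𝓞 L ⧸ ch2I v j))
      ⟨RingHom.injective _, fun y => ?_⟩).symm.trans (Nat.card_zmod _)
    obtain ⟨x, rfl⟩ := Ideal.Quotient.mk_surjective y
    obtain ⟨n, hn⟩ := h2 x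
    exact ⟨n, by rw [map_intCast, hn]⟩
  · obtain ⟨n, hn⟩ := h2 x
    rw [← map_intCast (Ideal.Quotient.mk (ch2I v j)), eq_comm, Ideal.Quotient.eq] at hn
    exact ⟨n, hn⟩

theorem f1_sep (j : L →+* Qbar) : ∃ S : Finset ℕ, ∀ (v : Plc) (g : Gam), v.p ∉ S →
    (∀ x : 𝓞 L, v.V (g (j x) - j x) < 1) → ∀ x, g (j x) = j x := by
  choose S hS using fun i => ch2_sep (j (RingOfIntegers.basis L i))
  refine ⟨univ.biUnion S, fun v g hv h x => ?_⟩
  have h2 : (g.toAlgHom.comp j.toRatAlgHom).toLinearMap = j.toRatAlgHom.toLinearMap :=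
    (integralBasis L).ext fun i => by
      rw [integralBasis_apply]
      exact hS i v (fun k => hv (mem_biUnion.2 ⟨i, mem_univ _, k⟩)) g (h _)
  exact LinearMap.congr_fun h2 x

theorem f1_mem {w : Plc} {g : Gam} {j : L →+* Qbar} {x : 𝓞 L} :
    x ∈ ch2I (g⁻¹ • w) j ↔ w.V (g (j x)) < 1 := by rw [ch2_mem, smul_V, inv_inv]

/-- The primes of degree one in terms of a Frobenius element. -/
theorem f1_count {H : Subgroup Gam} (hH : Op H) (j : L →+* Qbar)
    (hj : ∀ x, Fx H x ↔ ∃ y, j y = x) : ∃ S : Finset ℕ, ∀ (w : Plc) (φ : Gam), w.p ∉ S →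
      IsFrob w w.p φ → (∀ g : Gam, g⁻¹ * φ * g ∈ H ↔ ch2I (g⁻¹ • w) j ∈ f1T L w.p) ∧
      (∀ P ∈ f1T L w.p, ∃ g : Gam, ch2I (g⁻¹ • w) j = P) ∧
      ∀ g k : Gam, g⁻¹ * φ * g ∈ H → (ch2I (k⁻¹ • w) j = ch2I (g⁻¹ • w) j ↔ g⁻¹ * k ∈ H) := by
  obtain ⟨S, hS⟩ := ch2_fix j
  obtain ⟨T, hT⟩ := f1_sep j
  have hm : ∀ g : Gam, g ∈ H ↔ ∀ y, g (j y) = j y := fun g =>
    ⟨fun h y => (hj _).2 ⟨y, rfl⟩ g h, fun h => mem_of_fx hH.closed fun x hx => by
      obtain ⟨y, rfl⟩ := (hj x).1 hx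
      exact h y⟩
  refine ⟨S ∪ T, fun w φ hw hφ => ?_⟩
  rw [mem_union, not_or] at hw
  have hf : ∀ g : Gam, IsFrob (g⁻¹ • w) w.p (g⁻¹ * φ * g) := fun g => by
    simpa using hφ.smul g⁻¹
  refine ⟨fun g => ⟨fun h => (f1_res j (v := g⁻¹ • w) (hf g) ((hm _).1 h)).1, fun h => (hm _).2
    (hS (g⁻¹ • w) _ hw.1 (mem_f1T.1 h).2 (mem_f1T.1 h).1.symm (hf g))⟩, fun P hP => ?_,
    fun g k h => ⟨fun e => (hm _).2 (hT (g⁻¹ • w) _ hw.2 fun x => ?_), fun e => ?_⟩⟩
  · obtain ⟨h1, h2⟩ := mem_f1T.1 hP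
    obtain ⟨v, hv, rfl⟩ := ch2_plc j h2 (h1 ▸ w.prime)
    obtain ⟨g, rfl⟩ := plc_conj (w := w) (v := v) (h1.symm.trans hv.symm)
    exact ⟨g⁻¹, by rw [inv_inv]⟩
  · obtain ⟨n, k1⟩ := (f1_res j (v := g⁻¹ • w) (hf g) ((hm _).1 h)).2 x
    have k2 := f1_mem.1 (e ▸ k1)
    have k3 := w.V.map_sub_lt k2 (f1_mem.1 k1)
    rw [smul_V, inv_inv, map_sub, ← AlgEquiv.mul_apply, mul_inv_cancel_left]
    simpa using k3
  · ext x
    rw [f1_mem, f1_mem, ← (hm _).1 e x, ← AlgEquiv.mul_apply g, mul_inv_cancel_left,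
      (hm _).1 e x]

end Field

/-- The density theorem of Frobenius. -/
theorem frob_gen {U : Subgroup Gam} (hU : Op U) [U.Normal] (s : Gam) (B : Finset ℕ) :
    ∃ (w : Plc) (φ : Gam), w.p ∉ B ∧ IsFrob w w.p φ ∧
      Subgroup.zpowers (φ : Gam ⧸ U) = Subgroup.zpowers (s : Gam ⧸ U) := by
  have : Finite (Gam ⧸ U) := U.quotient_finite_of_isOpen hU
  have := Fintype.ofFinite (Gam ⧸ U)
  have := Fintype.ofFinite (Subgroup (Gam ⧸ U))
  have h1 : ∀ p : ℕ, p.Prime → ∃ a : Gam, ∃ w : Plc, w.p = p ∧ IsFrob w w.p a := fun p hp => by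
    obtain ⟨w, hw⟩ := exists_plc hp
    obtain ⟨φ, hφ⟩ := exists_frob w
    exact ⟨φ, w, hw, hφ⟩
  choose! a ha using h1
  have h2 : ∀ J : Subgroup (Gam ⧸ U), ∃ S : Finset ℕ, ∀ T : Finset ℕ, S ⊆ T →
      Den (fun p => (a p : Gam ⧸ U)) (fun p => p.Prime ∧ p ∉ T) fun g => if g ∈ J then 1 else 0 := by
    intro J
    have hH : Op (J.comap (QuotientGroup.mk' U)) := Subgroup.isOpen_mono (fun g hg => by
      rw [Subgroup.mem_comap, QuotientGroup.mk'_apply, (QuotientGroup.eq_one_iff g).2 hg]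
      exact one_mem J) hU
    obtain ⟨L, _, _, j, hj⟩ := ch2_field hH
    obtain ⟨S, hS⟩ := f1_count hH j hj
    refine ⟨S, fun T hT => ⟨fun t => (∑ g : Gam ⧸ U, if g ∈ J then 1 else 0) *
      ∑' Q : Ideal (𝓞 L), f1w T t Q, fun t ht => ?_,
      ((f1_bigO L T).const_mul_left _).congr_left fun t => mul_add _ _ _⟩⟩
    refine f1_congr ((f1_fiber L T ht).mul_left _) fun p => ?_
    split_ifs with hp
    swap
    · rw [mul_zero]
    obtain ⟨w, rfl, hw⟩ := ha p hp.1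
    obtain ⟨k1, k2, k3⟩ := hS w _ (fun k => hp.2 (hT k)) hw
    have k4 : ∀ x : Gam ⧸ U, x⁻¹ * a w.p * x ∈ J ↔ ch2I (x.out⁻¹ • w) j ∈ f1T L w.p := fun x => by
      rw [← k1, Subgroup.mem_comap]
      simp
    rw [← mul_assoc, sum_boole, sum_boole, card_eq_sum_card_fiberwise
      (f := fun x : Gam ⧸ U => ch2I (x.out⁻¹ • w) j) (t := f1T L w.p)
      (fun x hx => (k4 x).1 (mem_filter.1 hx).2), sum_congr rfl
      (g := fun _ => (univ.filter (· ∈ J)).card) fun P hP => ?_]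
    · simp [mul_comm]
    obtain ⟨g, rfl⟩ := k2 P hP
    refine card_equiv (Equiv.mulLeft ((g : Gam ⧸ U)⁻¹)) fun x => ?_
    have k5 := k3 g x.out ((k1 g).2 hP)
    rw [Subgroup.mem_comap] at k5
    simp only [mem_filter, mem_univ, true_and, Equiv.coe_mulLeft, k4]
    rw [and_iff_right_of_imp fun e => e ▸ hP, k5]
    simp
  choose S hS using h2
  obtain ⟨p, x, ⟨h3, h4⟩, h5⟩ := den_exists (fun J => hS J (B ∪ univ.biUnion S)
    ((subset_biUnion_of_mem S (mem_univ J)).trans subset_union_right)) (s : Gam ⧸ U)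
  obtain ⟨w, rfl, hw⟩ := ha p h3
  refine ⟨x.out⁻¹ • w, _, fun k => h4 (mem_union_left _ k), hw.smul x.out⁻¹, ?_⟩
  simpa using h5

end Pool.Agent.Lib.MP_d61fbb_ag.SE
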