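import Pool.Agent.Lib.MP_d61fbb_ag.SE.CStmt
import Pool.Agent.Lib.MP_d61fbb_ag.SE.F1

/-! The density theorem of Frobenius over a number field. -/

set_option autoImplicit false

open scoped NNReal Classical
open Finset IsLocalRing

namespace Pool.Agent.Lib.MP_d61fbb_ag.SE

open Pool.Agent.Lib.MP_696deb_nt.B2

/-- The density theorem tested on finitely many algebraic numbers. -/
theorem frob_fin {ι : Type} [Finite ι] (x : ι → Qbar) (s : Gam) (B : Finset ℕ) :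
    ∃ (w : Plc) (φ : Gam) (a b : ℕ), w.p ∉ B ∧ IsFrob w w.p φ ∧
      (∀ i, φ (x i) = (s ^ a) (x i)) ∧ ∀ i, s (x i) = (φ ^ b) (x i) := by
  obtain ⟨U, hU, hN, h⟩ := Sm.pi (H := ⊤) fun i => sm_apply (x i)
  have : Finite (Gam ⧸ U) := U.quotient_finite_of_isOpen hU
  obtain ⟨w, φ, h1, h2, h3⟩ := frob_gen hU s B
  have h4 : ∀ g k : Gam, (g : Gam ⧸ U) ∈ Subgroup.zpowers (k : Gam ⧸ U) →
      ∃ a : ℕ, ∀ i, g (x i) = (k ^ a) (x i) := fun g k e => by
    obtain ⟨a, ha⟩ := mem_powers_iff_mem_zpowers.2 e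
    exact ⟨a, congrFun (h g trivial _ trivial (QuotientGroup.eq.1 (by
      rw [QuotientGroup.mk_pow]; exact ha.symm)))⟩
  obtain ⟨a, ha⟩ := h4 φ s (h3 ▸ Subgroup.mem_zpowers _)
  obtain ⟨b, hb⟩ := h4 s φ (h3 ▸ Subgroup.mem_zpowers _)
  exact ⟨w, φ, a, b, h1, h2, ha, hb⟩

theorem ftop_pow {A B : Type} [Field A] [Field B] {R S : Type} [Field R] [Field S] [Algebra R A]
    [Algebra S B] (e : A ≃+* B) {g : A ≃ₐ[R] A} {k : B ≃ₐ[S] B} (h : ∀ x, e (g x) = k (e x))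
    (n : ℕ) (x : A) : e ((g ^ n) x) = (k ^ n) (e x) := by
  induction n with
  | zero => rfl
  | succ n ih => rw [pow_succ', pow_succ', AlgEquiv.mul_apply, AlgEquiv.mul_apply, h, ih]

theorem frobStmt : FrobStmt := by
  intro K _ _ F s Bd
  have : IsAlgClosure ℚ (AlgebraicClosure K) :=
    ⟨inferInstance, Algebra.IsAlgebraic.trans ℚ K (AlgebraicClosure K)⟩
  obtain ⟨e⟩ : Nonempty (AlgebraicClosure K ≃+* Qbar) :=
    ⟨(IsAlgClosure.equiv ℚ (AlgebraicClosure K) Qbar).toRingEquiv⟩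
  obtain ⟨s', hs⟩ : ∃ s' : Gam, ∀ x, e (s x) = s' (e x) :=
    ⟨AlgEquiv.ofRingEquiv (f := (e.symm.trans s.toRingEquiv).trans e) fun q => by simp,
      fun x => by simp⟩
  let β := Module.finBasis ℚ K
  let j : K →+* Qbar := e.toRingHom.comp (algebraMap K (AlgebraicClosure K))
  have h0 : ∀ x : AlgebraicClosure K, ∃ S : Finset ℕ, x ≠ 0 → ∀ w : Plc, w.p ∉ S →
      w.V (e x) = 1 := fun x => by
    by_cases hx : x = 0
    · exact ⟨∅, fun h => absurd hx h⟩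
    · obtain ⟨S, hS⟩ := finite_supp ((map_ne_zero e).2 hx)
      exact ⟨S, fun _ => hS⟩
  choose S hS using h0
  obtain ⟨w, ψ, a, b, h1, h2, h3, h4⟩ := frob_fin (Sum.elim (fun x : F => e x) fun i => j (β i)) s'
    (range (Bd + 1) ∪ F.biUnion S)
  rw [mem_union, not_or, mem_range] at h1
  have h5 : ∀ y, ψ (j y) = j y := fun y => by
    have k : (ψ.toAlgHom.comp j.toRatAlgHom).toLinearMap = j.toRatAlgHom.toLinearMap :=
      β.ext fun i => (h3 (.inr i)).trans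
        ((ftop_pow e hs a _).symm.trans (congrArg e ((s ^ a).commutes _)))
    exact LinearMap.congr_fun k y
  obtain ⟨φ, hφ⟩ : ∃ φ : AlgebraicClosure K ≃ₐ[K] AlgebraicClosure K, ∀ x, e (φ x) = ψ (e x) :=
    ⟨AlgEquiv.ofRingEquiv (f := (e.trans ψ.toRingEquiv).trans e.symm) fun y =>
      e.symm_apply_eq.2 (h5 y), fun x => by simp⟩
  obtain ⟨v, hv⟩ : ∃ v : Valuation (AlgebraicClosure K) ℝ≥0, ∀ x, v x = w.V (e x) :=
    ⟨w.V.comap e.toRingHom, fun _ => rfl⟩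
  have hq := v.isEquiv_valuation_valuationSubring
  refine ⟨v.valuationSubring, w.p, φ, a, b, w.prime, by omega, ?_, ⟨fun x => ?_, fun x hx => ?_⟩,
    fun x hx x0 => ?_, fun x hx => e.injective ?_, fun x hx => e.injective ?_⟩
  · rw [← map_natCast (residue v.valuationSubring), residue_eq_zero_iff,
      ValuationSubring.valuation_lt_one_iff, ← hq.lt_one_iff_lt_one, hv]
    simpa using b2a_p_lt w
  · rw [Valuation.mem_valuationSubring_iff, Valuation.mem_valuationSubring_iff, hv, hv]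
    change w.V (e (φ x)) ≤ 1 ↔ _
    rw [hφ, mem_Dec.1 h2.1]
  · rw [Valuation.mem_valuationSubring_iff, hv] at hx
    rw [← hq.lt_one_iff_lt_one, hv, map_sub, map_pow]
    change w.V (e (φ x) - _) < 1
    rw [hφ]
    exact h2.2 _ hx
  · rw [← hq.eq_one_iff_eq_one, hv]
    exact hS x x0 w fun k => h1.2 (mem_biUnion.2 ⟨x, hx, k⟩)
  · rw [hφ, ftop_pow e hs]
    exact h3 (.inl ⟨x, hx⟩)
  · rw [hs, ftop_pow e hφ]
    exact h4 (.inl ⟨x, hx⟩)

end Pool.Agent.Lib.MP_d61fbb_ag.SE
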