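import Pool.Agent.Lib.MP_d61fbb_ag.SE.G0

/-! Spanning sets of the skew and the self-adjoint operators. -/

set_option autoImplicit false

noncomputable section

namespace Pool.Agent.Lib.MP_d61fbb_ag.SE

open Matrix Equiv

variable {κ : Type} [Field κ] {d : ℕ} {W : Submodule κ (Mat d κ)}

/-- The building blocks of the rank one operators. -/
def g1bM (κ : Type) [Field κ] (x y : Fin (d + 1)) : Mat d κ :=
  vecMulVec (qv κ x) fun j => if y = j.castSucc then 1 else 0

theorem g1b_Eo (a b c e : Fin (d + 1)) :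
    Eo κ a b c e = g1bM κ a c - g1bM κ a e - g1bM κ b c + g1bM κ b e := by
  ext i j
  simp only [Eo, g1bM, pv, fv, vecMulVec_apply, Pi.sub_apply, Matrix.sub_apply, Matrix.add_apply]
  ring

theorem g1b_new (hd : 4 ≤ d) (a b c e : Fin (d + 1)) : ∃ g, g ≠ a ∧ g ≠ b ∧ g ≠ c ∧ g ≠ e := by
  obtain ⟨g, -, hg⟩ := Finset.exists_mem_notMem_of_card_lt_card (s := {a, b, c, e})
    (t := Finset.univ) (Finset.card_le_four.trans_lt (by simp; omega))
  exact ⟨g, by simpa using hg⟩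

theorem g1b_half (h2 : (2 : κ) ≠ 0) {X : Mat d κ} (h : X + X ∈ W) : X ∈ W := by
  rwa [← two_smul κ, W.smul_mem_iff h2] at h

theorem g1b_swap (hn : (d : κ) + 1 ≠ 0) (X : Mat d κ) (o : Fin (d + 1)) :
    X = ∑ x, ∑ y, en X y x • Eo κ y o x o := (en_expand hn X o).trans Finset.sum_comm

theorem so_le_of (h2 : (2 : κ) ≠ 0) (hn : (d : κ) + 1 ≠ 0) (hd : 4 ≤ d)
    (h : ∀ a b c e, Dis a b c e → Eo κ a b c e - Eo κ c e a b ∈ W) : so κ d ≤ W := by
  have key : ∀ o x y : Fin (d + 1), Eo κ x o y o - Eo κ y o x o ∈ W := fun o x y => by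
    by_cases h1 : x = y ∨ x = o ∨ y = o
    · rw [show Eo κ x o y o - Eo κ y o x o = 0 by
        rcases h1 with rfl | rfl | rfl <;> simp only [g1b_Eo] <;> abel]
      exact W.zero_mem
    obtain ⟨g, g1, g2, g3, -⟩ := g1b_new hd o x y y
    simp only [not_or] at h1
    obtain ⟨k1, k2, k3⟩ := h1
    have k := add_mem (add_mem (h x o y g ⟨k2, k1, g2.symm, Ne.symm k3, g1.symm, g3.symm⟩)
      (h o g x y ⟨g1.symm, Ne.symm k2, Ne.symm k3, g2, g3, k1⟩))
      (h y o g x ⟨k3, g3.symm, Ne.symm k1, g1.symm, Ne.symm k2, g2⟩)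
    refine g1b_half h2 (W.mem_carrier.1 (Set.mem_of_eq_of_mem ?_ k))
    simp only [g1b_Eo]
    abel
  intro X hX
  have e : X + X = ∑ x, ∑ y, en X x y • (Eo κ x 0 y 0 - Eo κ y 0 x 0) := by
    refine (congrArg₂ (· + ·) (en_expand hn X 0) (g1b_swap hn X 0)).trans ?_
    simp only [← Finset.sum_add_distrib]
    refine Finset.sum_congr rfl fun x _ => Finset.sum_congr rfl fun y _ => ?_
    rw [(mem_so_iff hn X).1 hX y x, smul_sub, neg_smul, sub_eq_add_neg]
  exact g1b_half h2 (e ▸ sum_mem fun x _ => sum_mem fun y _ => W.smul_mem _ (key 0 x y))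

theorem sym_le_of (h2 : (2 : κ) ≠ 0) (hn : (d : κ) + 1 ≠ 0) (hd : 4 ≤ d)
    (h : ∀ a b c e, Dis a b c e → Eo κ a b a b - Eo κ c e c e ∈ W) : sym κ d ⊓ sl κ d ≤ W := by
  have k1 : ∀ x y z : Fin (d + 1), x ≠ y → x ≠ z → Eo κ x y x y - Eo κ x z x z ∈ W := by
    intro x y z hy hz
    obtain ⟨g, g1, g2, g3, -⟩ := g1b_new hd x y z z
    obtain ⟨p, p1, p2, p3, p4⟩ := g1b_new hd x y z g
    have := sub_mem (h x y g p ⟨hy, g1.symm, p1.symm, g2.symm, p2.symm, p4.symm⟩)
      (h x z g p ⟨hz, g1.symm, p1.symm, g3.symm, p3.symm, p4.symm⟩)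
    rwa [sub_sub_sub_cancel_right] at this
  obtain ⟨p, hp, -⟩ := g1b_new hd 0 0 0 0
  have k2 : ∀ x y : Fin (d + 1), x ≠ y → Eo κ x y x y - Eo κ p 0 p 0 ∈ W := fun x y hy => by
    by_cases hx : x = p
    · exact hx ▸ k1 x y 0 hy (hx ▸ hp)
    have := add_mem (k1 x y p hy hx) (k1 p x 0 (Ne.symm hx) hp)
    refine W.mem_carrier.1 (Set.mem_of_eq_of_mem ?_ this)
    simp only [g1b_Eo]
    abel
  have k3 : ∀ x y : Fin (d + 1), Eo κ x y x y ∈ W.comap
      ((2 : κ) • LinearMap.id - (traceLinearMap (Fin d) κ κ).smulRight (Eo κ p 0 p 0)) := by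
    intro x y
    by_cases hy : x = y
    · rw [show Eo κ x y x y = 0 by simp only [hy, g1b_Eo]; abel]
      exact zero_mem _
    have := W.smul_mem 2 (k2 x y hy)
    have e : (Eo κ x y x y).trace = 2 := by
      rw [trace_Eo, pv, dotProduct_sub, fv_dot_qv, fv_dot_qv]
      simp only [if_neg hy, if_neg (Ne.symm hy), if_true]
      ring
    simpa [e, smul_sub] using this
  rintro X ⟨hX, h0⟩
  have e : X + X = -∑ x, ∑ y, en X x y • Eo κ x y x y := by
    have e1 : ∑ x, ∑ y, en X x y • Eo κ x 0 x 0 = 0 := by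
      simp only [← Finset.sum_smul, en_row, zero_smul, Finset.sum_const_zero]
    have e2 : ∑ x, ∑ y, en X x y • Eo κ y 0 y 0 = 0 := by
      rw [Finset.sum_comm]
      simp only [← Finset.sum_smul, en_col hn, zero_smul, Finset.sum_const_zero]
    refine (congrArg₂ (· + ·) (en_expand hn X 0) (g1b_swap hn X 0)).trans
      (Eq.trans ?_ ((congrArg (· - _) ((congrArg₂ (· + ·) e1 e2).trans (add_zero 0))).trans
        (zero_sub _)))
    simp only [← Finset.sum_add_distrib, ← Finset.sum_sub_distrib]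
    refine Finset.sum_congr rfl fun x _ => Finset.sum_congr rfl fun y _ => ?_
    rw [(mem_sym_iff hn X).1 hX y x, ← smul_add, ← smul_add, ← smul_sub]
    congr 1
    simp only [g1b_Eo]
    abel
  have k4 := g1b_half h2 (e ▸ neg_mem (sum_mem fun x _ => sum_mem fun y _ =>
    Submodule.smul_mem _ (en X x y) (k3 x y)))
  have h1 : X.trace = 0 := h0
  simpa [h1, W.smul_mem_iff h2] using k4

end Pool.Agent.Lib.MP_d61fbb_ag.SE
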