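import Pool.Agent.Lib.MP_d61fbb_ag.SE.G1a
import Pool.Agent.Lib.MP_d61fbb_ag.SE.G1b
import Pool.Agent.Lib.MP_d61fbb_ag.SE.G3

/-! Lie subalgebras stable under a big permutation group. -/

set_option autoImplicit false

noncomputable section

namespace Pool.Agent.Lib.MP_d61fbb_ag.SE

open Matrix Equiv

variable {κ : Type} [Field κ] {d : ℕ} {G : Subgroup (Perm (Fin (d + 1)))}
  {W : Submodule κ (Mat d κ)}

theorem g1_dot (a b c e : Fin (d + 1)) : fv κ a b ⬝ᵥ pv κ c e =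
    ((if a = c then 1 else 0) - (if b = c then 1 else 0)) -
      ((if a = e then 1 else 0) - (if b = e then 1 else 0)) := by
  rw [pv, dotProduct_sub, fv_dot_qv, fv_dot_qv]

theorem g1_mul (a b c e a' b' c' e' : Fin (d + 1)) :
    Eo κ a b c e * Eo κ a' b' c' e' = (fv κ c e ⬝ᵥ pv κ a' b') • Eo κ a b c' e' := by
  simpa using Eo_mul a b c e a' b' c' e' (1 : Mat d κ)

theorem g1_sec (a b c e a' b' c' e' : Fin (d + 1)) :
    fv κ a' b' ⬝ᵥ Eo κ a b c e *ᵥ pv κ c' e' =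
      (fv κ a' b' ⬝ᵥ pv κ a b) * (fv κ c e ⬝ᵥ pv κ c' e') := by
  simp [Eo, vecMulVec_mulVec, mul_comm]

theorem g1_move (hG : Big G) (hW : ∀ π ∈ G, ∀ X ∈ W, Hm κ π * X * Hm κ π⁻¹ ∈ W) {β γ : κ}
    {a b c e : Fin (d + 1)} (h : Dis a b c e) (k : β • Eo κ a b c e + γ • Eo κ c e a b ∈ W)
    (a' b' c' e' : Fin (d + 1)) (h' : Dis a' b' c' e') :
    β • Eo κ a' b' c' e' + γ • Eo κ c' e' a' b' ∈ W := by
  obtain ⟨π, hπ, rfl, rfl, rfl, rfl⟩ := hG.move h h'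
  have := hW π hπ _ k
  rwa [mul_add, add_mul, Matrix.mul_smul, Matrix.mul_smul, smul_mul, smul_mul, Eo_conj,
    Eo_conj] at this

theorem g1_swap {a b c e : Fin (d + 1)} (h : Dis a b c e) : Dis c e a b :=
  ⟨h.2.2.2.2.2, h.2.1.symm, h.2.2.2.1.symm, h.2.2.1.symm, h.2.2.2.2.1.symm, h.1⟩

theorem g1_key (h2 : (2 : κ) ≠ 0) (hn : (d : κ) + 1 ≠ 0) (hG : Big G)
    (hW : ∀ π ∈ G, ∀ X ∈ W, Hm κ π * X * Hm κ π⁻¹ ∈ W) (hbr : Br W) {X : Mat d κ} (hX : X ∈ W)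
    (h1 : X ∉ κ ∙ (1 : Mat d κ)) : ∃ β γ : κ, β ≠ 0 ∧ (X ∈ sym κ d → γ = β) ∧
      ∀ a b c e, Dis a b c e → β • Eo κ a b c e + γ • Eo κ c e a b ∈ W := by
  by_cases h0 : ∀ a b c e, Dis a b c e → fv κ a b ⬝ᵥ X *ᵥ pv κ c e = 0
  · have k := fun a b c e (h : Dis a b c e) => diag_case h2 hn hG hW hbr hX h0
      (fun t e => h1 (Submodule.mem_span_singleton.2 ⟨t, e.symm⟩)) h
    exact ⟨1, 1, one_ne_zero, fun _ => rfl, fun a b c e h =>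
      add_mem (W.smul_mem _ (k _ _ _ _ h)) (W.smul_mem _ (k _ _ _ _ (g1_swap h)))⟩
  · push Not at h0
    obtain ⟨a, b, c, e, h, k⟩ := h0
    refine ⟨_, _, k, fun hs => ?_, g1_move hG hW h (second_mem hn hG hW hX h)⟩
    have := (mem_sym_iff hn X).1 hs
    rw [en_second, en_second, this c a, this c b, this e a, this e b]
    ring

/-- The self-adjoint operators generate the skew ones. -/
theorem g1_minus (h2 : (2 : κ) ≠ 0) (hn : (d : κ) + 1 ≠ 0) (hG : Big G)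
    (hW : ∀ π ∈ G, ∀ X ∈ W, Hm κ π * X * Hm κ π⁻¹ ∈ W) (hbr : Br W)
    (h : ∀ a b c e, Dis a b c e → Eo κ a b c e + Eo κ c e a b ∈ W) :
    ∀ a b c e, Dis a b c e → Eo κ a b c e - Eo κ c e a b ∈ W := by
  have hd := hG.le
  obtain ⟨a, b, c, e, g, ⟨ab, ac, ae, bc, be, ce⟩, ag, bg, cg, eg⟩ :
      ∃ a b c e g : Fin (d + 1), Dis a b c e ∧ a ≠ g ∧ b ≠ g ∧ c ≠ g ∧ e ≠ g :=
    ⟨⟨0, by omega⟩, ⟨1, by omega⟩, ⟨2, by omega⟩, ⟨3, by omega⟩, ⟨4, by omega⟩, by simp [Dis]⟩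
  have h1 := hbr _ (h a b c e ⟨ab, ac, ae, bc, be, ce⟩) _
    (h a g c e ⟨ag, ac, ae, cg.symm, eg.symm, ce⟩)
  have e1 : (Eo κ a b c e + Eo κ c e a b) * (Eo κ a g c e + Eo κ c e a g) -
      (Eo κ a g c e + Eo κ c e a g) * (Eo κ a b c e + Eo κ c e a b) =
      (2 : κ) • (Eo κ a b a g - Eo κ a g a b) := by
    simp only [mul_add, add_mul, g1_mul, g1_dot]
    simp [ab, ac, ae, bc, be, ce, ag, bg, cg, eg, ab.symm, ac.symm, ae.symm, bc.symm, be.symm,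
      ce.symm, ag.symm, bg.symm, cg.symm, eg.symm]
    module
  rw [e1, W.smul_mem_iff h2] at h1
  have hD : Dis a c b e := ⟨ac, ab, ae, bc.symm, ce, be⟩
  have h3 := second_mem hn hG hW h1 hD
  intro a' b' c' e' h'
  have h4 := g1_move hG hW hD h3 a' b' c' e' h'
  simp only [sub_mulVec, dotProduct_sub, g1_sec, g1_dot] at h4
  simpa [ab, ac, ae, bc, be, ce, ag, bg, cg, eg, ab.symm, ac.symm, ae.symm, bc.symm, be.symm,
    ce.symm, ag.symm, bg.symm, cg.symm, eg.symm, ← sub_eq_add_neg] using h4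

theorem g1_split (h2 : (2 : κ) ≠ 0) (hn : (d : κ) + 1 ≠ 0) (X : Mat d κ) :
    ∃ Y ∈ so κ d, X - Y ∈ sym κ d := by
  obtain ⟨Y, hY, Z, hZ, rfl⟩ := Submodule.mem_sup.1
    ((so_sym_compl h2 hn).sup_eq_top.ge (Submodule.mem_top (x := X)))
  exact ⟨Y, hY, by rwa [add_sub_cancel_left]⟩

theorem g1_sl (h2 : (2 : κ) ≠ 0) (hn : (d : κ) + 1 ≠ 0) (hd : 4 ≤ d) (hbr : Br W)
    (h : ∀ a b c e, Dis a b c e → Eo κ a b c e + Eo κ c e a b ∈ W)
    (h' : ∀ a b c e, Dis a b c e → Eo κ a b c e - Eo κ c e a b ∈ W) : sl κ d ≤ W := by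
  have k : ∀ a b c e, Dis a b c e → Eo κ a b c e ∈ W := fun a b c e hD => by
    have := add_mem (h a b c e hD) (h' a b c e hD)
    rwa [add_add_sub_cancel, ← two_smul κ, W.smul_mem_iff h2] at this
  have k1 := sym_le_of (W := W) h2 hn hd fun a b c e hD => by
    have h1 := hbr _ (k _ _ _ _ hD) _ (k _ _ _ _ (g1_swap hD))
    have e1 : ∀ x y : Fin (d + 1), x ≠ y → fv κ x y ⬝ᵥ pv κ x y = 2 := fun x y hx => by
      simp [g1_dot, hx, hx.symm, one_add_one_eq_two]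
    rwa [g1_mul, g1_mul, e1 _ _ hD.1, e1 _ _ hD.2.2.2.2.2, ← smul_sub, W.smul_mem_iff h2] at h1
  intro X hX
  obtain ⟨Y, hY, hZ⟩ := g1_split h2 hn X
  have := add_mem (k1 ⟨hZ, sub_mem hX (so_le_sl h2 hn hY)⟩) (so_le_of h2 hn hd h' hY)
  rwa [sub_add_cancel] at this

theorem classify (h2 : (2 : κ) ≠ 0) (hn : (d : κ) + 1 ≠ 0) (hG : Big G)
    (hW : ∀ π ∈ G, ∀ X ∈ W, Hm κ π * X * Hm κ π⁻¹ ∈ W) (hbr : Br W) (h1 : (1 : Mat d κ) ∈ W) :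
    W = κ ∙ (1 : Mat d κ) ∨ W = so κ d ⊔ κ ∙ (1 : Mat d κ) ∨ sl κ d ≤ W := by
  have h3 : κ ∙ (1 : Mat d κ) ≤ W := (Submodule.span_singleton_le_iff_mem _ _).2 h1
  by_cases h4 : W ≤ κ ∙ (1 : Mat d κ)
  · exact Or.inl (h4.antisymm h3)
  obtain ⟨X, hX, hX'⟩ := SetLike.not_le_iff_exists.1 h4
  have h5 : ∀ a b c e, Dis a b c e → Eo κ a b c e - Eo κ c e a b ∈ W := by
    obtain ⟨β, γ, b0, -, k⟩ := g1_key h2 hn hG hW hbr hX hX'
    by_cases e0 : β + γ = 0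
    · intro a b c e hD
      have := k a b c e hD
      rwa [eq_neg_of_add_eq_zero_right e0, neg_smul, ← sub_eq_add_neg, ← smul_sub,
        W.smul_mem_iff b0] at this
    · refine g1_minus h2 hn hG hW hbr fun a b c e hD => (W.smul_mem_iff e0).1 ?_
      have := add_mem (k a b c e hD) (k c e a b (g1_swap hD))
      rwa [show (β + γ) • (Eo κ a b c e + Eo κ c e a b) = β • Eo κ a b c e + γ • Eo κ c e a b +
        (β • Eo κ c e a b + γ • Eo κ a b c e) by module]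
  have h6 := so_le_of h2 hn hG.le h5
  by_cases h7 : W ≤ so κ d ⊔ κ ∙ (1 : Mat d κ)
  · exact Or.inr (Or.inl (h7.antisymm (sup_le h6 h3)))
  obtain ⟨Z, hZ, hZ'⟩ := SetLike.not_le_iff_exists.1 h7
  obtain ⟨Y, hY, hs⟩ := g1_split h2 hn Z
  obtain ⟨β, γ, b0, e0, k⟩ := g1_key h2 hn hG hW hbr (sub_mem hZ (h6 hY)) fun e => hZ' (by
    have := Submodule.add_mem_sup hY e
    rwa [add_sub_cancel] at this)
  refine Or.inr (Or.inr (g1_sl h2 hn hG.le hbr (fun a b c e hD => ?_) h5))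
  have := k a b c e hD
  rwa [e0 hs, ← smul_add, W.smul_mem_iff b0] at this

end Pool.Agent.Lib.MP_d61fbb_ag.SE
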