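import Pool.Agent.Lib.MP_d61fbb_ag.SE.AD

/-! Good permutations: trace and cyclic vector. -/

set_option autoImplicit false

noncomputable section

namespace Pool.Agent.Lib.MP_d61fbb_ag.SE

open Matrix Equiv

variable {d : ℕ} {π σ : Perm (Fin (d + 1))}

theorem Good.congr (h : Good π) (e : Subgroup.zpowers π = Subgroup.zpowers σ) : Good σ := by
  refine ⟨fun i hi => ?_, e ▸ h.2⟩
  obtain ⟨k, hk⟩ := Subgroup.mem_zpowers_iff.1 (e ▸ Subgroup.mem_zpowers π)
  exact h.1 i (hk ▸ Perm.zpow_apply_eq_self_of_apply_eq_self hi k)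

theorem Good.inv (h : Good π) : Good π⁻¹ := h.congr (Subgroup.zpowers_inv).symm

theorem trace_Hm (R : Type) [CommRing R] (h : ∀ i, π i ≠ i) : (Hm R π).trace = -1 := by
  have h1 : ∑ x : Fin (d + 1), (if π x = Fin.last d then (1 : R) else 0) = 1 := by
    rw [Equiv.sum_comp π fun y => if y = Fin.last d then (1 : R) else 0]
    simp
  rw [Fin.sum_univ_castSucc, if_neg (h _), add_zero] at h1
  simp only [trace, diag_apply, Hm_apply, qv, if_neg (h _), zero_sub, Finset.sum_neg_distrib, h1]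

theorem g6_pow {κ : Type} [Field κ] (M : Mat d κ) (v : Fin d → κ) (k : ℕ) :
    M ^ k *ᵥ v ∈ Submodule.span κ (Set.range fun i : Fin d => M ^ (i : ℕ) *ᵥ v) := by
  rcases Nat.eq_zero_or_pos d with rfl | hd
  · rw [Subsingleton.elim (M ^ k *ᵥ v) 0]
    exact zero_mem _
  have h1 : M.charpoly.natDegree = d := by rw [charpoly_natDegree_eq_dim, Fintype.card_fin]
  have h2 : (Polynomial.X ^ k %ₘ M.charpoly).natDegree < d := by
    refine (Polynomial.natDegree_modByMonic_lt _ M.charpoly_monic fun e => ?_).trans_eq h1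
    rw [e, Polynomial.natDegree_one] at h1
    omega
  rw [pow_eq_aeval_mod_charpoly, Polynomial.aeval_eq_sum_range' h2, sum_mulVec]
  refine Submodule.sum_mem _ fun i hi => ?_
  rw [smul_mulVec]
  exact Submodule.smul_mem _ _ (Submodule.subset_span ⟨⟨i, Finset.mem_range.1 hi⟩, rfl⟩)

theorem g6_orb {i x : Fin (d + 1)} (h : x ∈ MulAction.orbit (Subgroup.zpowers π) i) :
    ∃ k : ℕ, (π ^ k) i = x := by
  obtain ⟨⟨g, hg⟩, rfl⟩ := h
  obtain ⟨k, rfl⟩ := (Submonoid.mem_powers_iff _ _).1 (mem_powers_iff_mem_zpowers.2 hg)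
  exact ⟨k, rfl⟩

theorem g6_mod {i : Fin (d + 1)} {k s : ℕ}
    (h : k ≡ s [MOD Nat.card (MulAction.orbit (Subgroup.zpowers π) i)]) : (π ^ k) i = (π ^ s) i := by
  have := Fintype.ofFinite (MulAction.orbit (Subgroup.zpowers π) i)
  rw [Nat.card_eq_fintype_card, ← MulAction.minimalPeriod_eq_card] at h
  have h1 := MulAction.pow_smul_mod_minimalPeriod π i k
  have h2 := MulAction.pow_smul_mod_minimalPeriod π i s
  rw [h] at h1
  exact h1.symm.trans h2

theorem g6_li {κ : Type} [Field κ] (v : Fin d → κ)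
    (h : ∀ W : Submodule κ (Fin d → κ), (∀ k : ℕ, Hm κ (π ^ k) *ᵥ v ∈ W) → ∀ x, qv κ x ∈ W) :
    LinearIndependent κ fun i : Fin d => Hm κ π ^ (i : ℕ) *ᵥ v := by
  refine linearIndependent_of_top_le_span_of_card_eq_finrank (fun w _ => ?_) (by simp)
  rw [pi_eq_sum_univ' w]
  refine Submodule.sum_mem _ fun j _ => Submodule.smul_mem _ _ ?_
  have h1 := h _ (fun k => by rw [map_pow]; exact g6_pow _ v k) j.castSucc
  rwa [qv_castSucc] at h1

theorem Good.cyclic {κ : Type} [Field κ] (hn : (d : κ) + 1 ≠ 0) (h : Good π) :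
    ∃ v : Fin d → κ, LinearIndependent κ fun i : Fin d => Hm κ π ^ (i : ℕ) *ᵥ v := by
  obtain ⟨-, i, j, h1, h2 | h2⟩ := h
  · refine ⟨qv κ i, g6_li _ fun W hW x => ?_⟩
    have h3 : x ∈ MulAction.orbit (Subgroup.zpowers π) i :=
      (h1 x).elim id fun hx => MulAction.orbit_eq_iff.2 h2 ▸ hx
    obtain ⟨k, rfl⟩ := g6_orb h3
    rw [← Hm_qv]
    exact hW k
  · refine ⟨qv κ i - qv κ j, g6_li _ fun W hW => ?_⟩
    have h3 : ∀ s t : ℕ, qv κ ((π ^ s) i) - qv κ ((π ^ t) j) ∈ W := fun s t => by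
      obtain ⟨k, k1, k2⟩ := Nat.chineseRemainder h2 s t
      have h4 := hW k
      rwa [mulVec_sub, Hm_qv, Hm_qv, g6_mod k1, g6_mod k2] at h4
    have h4 : ∀ x, qv κ x - qv κ j ∈ W := fun x => by
      rcases h1 x with hx | hx
      · obtain ⟨s, rfl⟩ := g6_orb hx
        exact h3 s 0
      · obtain ⟨t, rfl⟩ := g6_orb hx
        have h5 := W.sub_mem (h3 0 0) (h3 0 t)
        rwa [sub_sub_sub_cancel_left] at h5
    have h5 : qv κ j ∈ W := by
      have h6 := W.sum_mem fun x (_ : x ∈ Finset.univ) => h4 x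
      rw [Finset.sum_sub_distrib, sum_qv, zero_sub, Finset.sum_const, Finset.card_univ,
        Fintype.card_fin, neg_mem_iff, ← Nat.cast_smul_eq_nsmul κ, Nat.cast_succ] at h6
      exact (W.smul_mem_iff hn).1 h6
    intro x
    have h6 := W.add_mem (h4 x) h5
    rwa [sub_add_cancel] at h6

end Pool.Agent.Lib.MP_d61fbb_ag.SE
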