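import Pool.Agent.Lib.MP_d61fbb_ag.SE.AD

/-! Good permutations: existence. -/

set_option autoImplicit false

noncomputable section

namespace Pool.Agent.Lib.MP_d61fbb_ag.SE

open Matrix Equiv

variable {d : ℕ}

theorem g7_mem {α : Type} (π : Perm α) (i x : α) :
    x ∈ MulAction.orbit (Subgroup.zpowers π) i ↔ ∃ k : ℤ, (π ^ k) i = x := by
  constructor
  · rintro ⟨⟨_, k, rfl⟩, h⟩
    exact ⟨k, h⟩
  · rintro ⟨k, h⟩
    exact ⟨⟨π ^ k, k, rfl⟩, h⟩

theorem g7_ne {n : ℕ} (hn : 2 ≤ n) (x : Fin n) : finRotate n x ≠ x := by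
  rw [← Perm.mem_support, support_finRotate_of_le hn]
  exact Finset.mem_univ x

theorem g7_same {n : ℕ} (hn : 2 ≤ n) (x y : Fin n) : ∃ k : ℤ, (finRotate n ^ k) x = y :=
  (isCycle_finRotate_of_le hn).sameCycle (g7_ne hn x) (g7_ne hn y)

theorem g7_one (hd : 1 ≤ d) : Good (finRotate (d + 1)) := by
  have hn : 2 ≤ d + 1 := by omega
  exact ⟨g7_ne hn, 0, 0, fun x => Or.inl ((g7_mem _ _ _).2 (g7_same hn 0 x)),
    Or.inl ((g7_mem _ _ _).2 (g7_same hn 0 0))⟩

theorem g7_zpow {α β γ : Type} (e : α ⊕ β ≃ γ) (σ : Perm α) (τ : Perm β) (k : ℤ) :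
    (e.permCongr (Perm.sumCongr σ τ)) ^ k = e.permCongr (Perm.sumCongr (σ ^ k) (τ ^ k)) := by
  have h1 := map_zpow e.permCongrHom (Perm.sumCongr σ τ) k
  have h2 := map_zpow (Perm.sumCongrHom α β) (σ, τ) k
  exact h1.symm.trans (congrArg e.permCongr h2.symm)

theorem g7_two {a b : ℕ} (ha : 2 ≤ a) (hb : 2 ≤ b) (hab : a + b = d + 1) (hc : a.Coprime b) :
    ∃ π : Perm (Fin (d + 1)), Good π ∧ Perm.sign π = (-1) ^ (d - 1) := by
  let e : Fin a ⊕ Fin b ≃ Fin (d + 1) := finSumFinEquiv.trans (finCongr hab)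
  let i : Fin a := ⟨0, by omega⟩
  let j : Fin b := ⟨0, by omega⟩
  have hi : MulAction.orbit (Subgroup.zpowers
      (e.permCongr (Perm.sumCongr (finRotate a) (finRotate b)))) (e (Sum.inl i)) =
      Set.range fun x => e (Sum.inl x) := by
    ext x
    rw [g7_mem]
    constructor
    · rintro ⟨k, rfl⟩
      exact ⟨(finRotate a ^ k) i, by simp [g7_zpow]⟩
    · rintro ⟨y, rfl⟩
      obtain ⟨k, hk⟩ := g7_same ha i y
      exact ⟨k, by simp [g7_zpow, hk]⟩
  have hj : MulAction.orbit (Subgroup.zpowers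
      (e.permCongr (Perm.sumCongr (finRotate a) (finRotate b)))) (e (Sum.inr j)) =
      Set.range fun x => e (Sum.inr x) := by
    ext x
    rw [g7_mem]
    constructor
    · rintro ⟨k, rfl⟩
      exact ⟨(finRotate b ^ k) j, by simp [g7_zpow]⟩
    · rintro ⟨y, rfl⟩
      obtain ⟨k, hk⟩ := g7_same hb j y
      exact ⟨k, by simp [g7_zpow, hk]⟩
  refine ⟨e.permCongr (Perm.sumCongr (finRotate a) (finRotate b)),
    ⟨fun x => ?_, e (Sum.inl i), e (Sum.inr j), fun x => ?_, Or.inr ?_⟩, ?_⟩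
  · obtain ⟨y, rfl⟩ := e.surjective x
    rcases y with y | y
    · simpa using g7_ne ha y
    · simpa using g7_ne hb y
  · obtain ⟨y, rfl⟩ := e.surjective x
    rw [hi, hj]
    rcases y with y | y
    · exact Or.inl ⟨y, rfl⟩
    · exact Or.inr ⟨y, rfl⟩
  · rw [hi, hj, Nat.card_range_of_injective (f := fun x => e (Sum.inl x))
      (e.injective.comp Sum.inl_injective), Nat.card_range_of_injective
      (f := fun x => e (Sum.inr x)) (e.injective.comp Sum.inr_injective)]
    simpa using hc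
  · rw [Perm.sign_permCongr, Perm.sign_sumCongr, sign_finRotate, sign_finRotate, ← pow_add]
    congr 1
    omega

theorem exists_good_even (hd : 7 ≤ d) :
    ∃ π : Perm (Fin (d + 1)), Good π ∧ π ∈ alternatingGroup (Fin (d + 1)) := by
  rcases Nat.even_or_odd d with h | ⟨m, hm⟩
  · refine ⟨_, g7_one (by omega), ?_⟩
    rw [Perm.mem_alternatingGroup, sign_finRotate, Nat.add_sub_cancel, h.neg_one_pow]
  · have he : Even (d - 1) := ⟨m, by omega⟩
    have : ∃ π : Perm (Fin (d + 1)), Good π ∧ Perm.sign π = (-1) ^ (d - 1) := by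
      rcases Nat.even_or_odd m with ⟨k, hk⟩ | ho
      · have ho : Odd (m - 1) := ⟨k - 1, by omega⟩
        refine g7_two (a := m - 1) (b := m - 1 + 2 ^ 2) (by omega) (by omega) (by omega) ?_
        rw [Nat.coprime_self_add_right]
        exact (Nat.coprime_two_right.2 ho).pow_right 2
      · refine g7_two (a := m) (b := m + 2) (by omega) (by omega) (by omega) ?_
        rw [Nat.coprime_self_add_right]
        exact Nat.coprime_two_right.2 ho
    obtain ⟨π, h1, h2⟩ := this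
    exact ⟨π, h1, by rw [Perm.mem_alternatingGroup, h2, he.neg_one_pow]⟩

theorem exists_good_odd (hd : 4 ≤ d) :
    ∃ π : Perm (Fin (d + 1)), Good π ∧ π ∉ alternatingGroup (Fin (d + 1)) := by
  rcases Nat.even_or_odd d with ⟨m, hm⟩ | h
  · have ho : Odd (d - 1) := ⟨m - 1, by omega⟩
    obtain ⟨π, h1, h2⟩ := g7_two (d := d) (a := 2) (b := d - 1) le_rfl (by omega) (by omega)
      (Nat.coprime_two_left.2 ho)
    refine ⟨π, h1, ?_⟩
    rw [Perm.mem_alternatingGroup, h2, ho.neg_one_pow]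
    decide
  · refine ⟨_, g7_one (by omega), ?_⟩
    rw [Perm.mem_alternatingGroup, sign_finRotate, Nat.add_sub_cancel, h.neg_one_pow]
    decide

theorem Big.exists_good {G : Subgroup (Perm (Fin (d + 1)))} (hG : Big G) : ∃ π ∈ G, Good π := by
  rcases hG with ⟨hd, h⟩ | ⟨hd, rfl⟩
  · obtain ⟨π, h1, h2⟩ := exists_good_even hd
    exact ⟨π, h h2, h1⟩
  · obtain ⟨π, h1, -⟩ := exists_good_odd hd
    exact ⟨π, trivial, h1⟩

theorem hom_trivial {Γ M : Type} [Group Γ] [CommGroup M] (pm : Γ →* Perm (Fin (d + 1)))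
    (hG : Big pm.range) (χ : Γ →* M) (h : ∀ s, Good (pm s) → χ s = 1) (s : Γ) : χ s = 1 := by
  have hd := hG.le
  obtain ⟨_, ⟨s0, rfl⟩, h0⟩ := hG.exists_good
  have hk : ∀ g, pm g = 1 → χ g = 1 := fun g hg => by
    have := h (s0 * g) (by rwa [map_mul, hg, mul_one])
    rwa [map_mul, h s0 h0, one_mul] at this
  have hA : alternatingGroup (Fin (d + 1)) ≤ χ.ker.map pm := by
    rw [← commutator_alternatingGroup_eq_self (by simp; omega), Subgroup.commutator_le]
    intro x hx y hy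
    obtain ⟨a, rfl⟩ := hG.alt hx
    obtain ⟨b, rfl⟩ := hG.alt hy
    refine ⟨a * b * a⁻¹ * b⁻¹, ?_, by simp [commutatorElement_def]⟩
    change χ (a * b * a⁻¹ * b⁻¹) = 1
    simp
  by_cases hs : pm s ∈ alternatingGroup (Fin (d + 1))
  · obtain ⟨t, ht, e⟩ := hA hs
    have h1 := hk (t⁻¹ * s) (by rw [map_mul, map_inv, e, inv_mul_cancel])
    have h2 : χ t = 1 := ht
    rwa [map_mul, map_inv, h2, inv_one, one_mul] at h1
  · obtain ⟨π, h1, h2⟩ := exists_good_odd hd
    have h3 : π * (pm s)⁻¹ ∈ alternatingGroup (Fin (d + 1)) := by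
      rw [Perm.mem_alternatingGroup] at hs h2 ⊢
      rw [map_mul, map_inv, (Int.units_eq_one_or _).resolve_left hs,
        (Int.units_eq_one_or _).resolve_left h2]
      decide
    obtain ⟨t, ht, e⟩ := hA h3
    have h4 : χ t = 1 := ht
    have h5 := h (t * s) (by rwa [map_mul, e, inv_mul_cancel_right])
    rwa [map_mul, h4, one_mul] at h5

end Pool.Agent.Lib.MP_d61fbb_ag.SE
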