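import Pool.Agent.Lib.MP_d61fbb_ag.SE.U0

/-! Automorphisms of the Lie algebra of traceless matrices. -/

set_option autoImplicit false

noncomputable section

namespace Pool.Agent.Lib.MP_d61fbb_ag.SE

open Matrix

variable {Ω : Type} [Field Ω] [CharZero Ω] [IsAlgClosed Ω] {d : ℕ} {θ : Mat d Ω →ₗ[Ω] Mat d Ω}

/-- The map `Y ↦ A Y B`. -/
def u1m (A B : Mat d Ω) : Mat d Ω →ₗ[Ω] Mat d Ω :=
  LinearMap.mulLeft Ω A ∘ₗ LinearMap.mulRight Ω B

omit [CharZero Ω] [IsAlgClosed Ω] in
theorem u1m_trace (A B : Mat d Ω) : LinearMap.trace Ω _ (u1m A B) = A.trace * B.trace := by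
  rw [LinearMap.trace_eq_matrix_trace Ω (stdBasis Ω (Fin d) (Fin d)), trace, trace, trace,
    Finset.sum_mul_sum, Fintype.sum_prod_type]
  refine Finset.sum_congr rfl fun i _ => Finset.sum_congr rfl fun j _ => ?_
  have : ∀ M : Mat d Ω, (stdBasis Ω (Fin d) (Fin d)).repr M (i, j) = M i j := fun M => by
    simp [stdBasis]
  rw [diag_apply, LinearMap.toMatrix_apply, stdBasis_eq_single, this]
  change (A * ((single i j 1 : Mat d Ω) * B) : Mat d Ω) i j = _
  rw [mul_apply, Finset.sum_eq_single i (fun k _ e => by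
    rw [single_mul_apply_of_ne _ _ _ _ _ e, mul_zero]) (by simp)]
  simp

/-- Automorphisms of the Lie algebra of all matrices. -/
structure U1G (Θ : Mat d Ω ≃ₗ[Ω] Mat d Ω) : Prop where
  one : Θ 1 = 1
  tr : ∀ X, (Θ X).trace = X.trace
  br : ∀ X Y, Θ (X * Y - Y * X) = Θ X * Θ Y - Θ Y * Θ X

omit [IsAlgClosed Ω] in
theorem u1_ext (hd : 0 < d) (h : LieIso θ) :
    ∃ Θ : Mat d Ω ≃ₗ[Ω] Mat d Ω, U1G Θ ∧ ∀ X ∈ sl Ω d, Θ X = θ X := by
  have d0 : (d : Ω) ≠ 0 := Nat.cast_ne_zero.2 hd.ne'
  let τ : Mat d Ω →ₗ[Ω] Mat d Ω := ((d : Ω)⁻¹ • traceLinearMap (Fin d) Ω Ω).smulRight 1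
  let f := θ ∘ₗ (LinearMap.id - τ) + τ
  have hf : ∀ X, f X = θ (X - ((d : Ω)⁻¹ * X.trace) • 1) + ((d : Ω)⁻¹ * X.trace) • 1 :=
    fun X => rfl
  have t : ∀ c : Ω, (((d : Ω)⁻¹ * c) • (1 : Mat d Ω)).trace = c := fun c => by
    rw [trace_smul, trace_one, Fintype.card_fin, smul_eq_mul]
    field_simp
  have m : ∀ X : Mat d Ω, X - ((d : Ω)⁻¹ * X.trace) • 1 ∈ sl Ω d := fun X => by
    rw [mem_sl, trace_sub, t, sub_self]
  have tr : ∀ X, (f X).trace = X.trace := fun X => by
    rw [hf, trace_add, mem_sl.1 (h.mem _ (m X)), zero_add, t]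
  have e : ∀ X ∈ sl Ω d, f X = θ X := fun X hX => by simp [hf, mem_sl.1 hX]
  have inj : Function.Injective f := (injective_iff_map_eq_zero f).2 fun X hX => by
    have k : X ∈ sl Ω d := by rw [mem_sl, ← tr, hX, trace_zero]
    exact h.inj X k (e X k ▸ hX)
  refine ⟨LinearEquiv.ofInjectiveEndo f inj, ⟨?_, tr, fun X Y => ?_⟩, e⟩
  · change f 1 = 1
    simp [hf, d0]
  · change f _ = f X * f Y - f Y * f X
    have k := h.br _ (m X) _ (m Y)
    rw [e _ (by rw [mem_sl, trace_sub, trace_mul_comm, sub_self]), hf, hf]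
    simp only [add_mul, mul_add, smul_mul_assoc, mul_smul_comm, one_mul, mul_one]
    rw [show X * Y - Y * X = (X - ((d : Ω)⁻¹ * X.trace) • 1) * (Y - ((d : Ω)⁻¹ * Y.trace) • 1) -
      (Y - ((d : Ω)⁻¹ * Y.trace) • 1) * (X - ((d : Ω)⁻¹ * X.trace) • 1) by
        simp only [sub_mul, mul_sub, smul_mul_assoc, mul_smul_comm, one_mul, mul_one]
        module, k]
    module

omit [IsAlgClosed Ω] in
/-- The trace form is invariant. -/
theorem U1G.kill {Θ : Mat d Ω ≃ₗ[Ω] Mat d Ω} (h : U1G Θ) (hd : 0 < d) (X Y : Mat d Ω) :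
    (Θ X * Θ Y).trace = (X * Y).trace := by
  have d0 : (2 * d : Ω) ≠ 0 := mul_ne_zero two_ne_zero (Nat.cast_ne_zero.2 hd.ne')
  let F : Mat d Ω → Mat d Ω → Mat d Ω →ₗ[Ω] Mat d Ω := fun X Y =>
    u1m (X * Y) 1 - u1m X Y - u1m Y X + u1m 1 (Y * X)
  have a : ∀ X Y Z, F X Y Z = X * (Y * Z - Z * Y) - (Y * Z - Z * Y) * X := fun X Y Z => by
    change X * Y * (Z * 1) - X * (Z * Y) - Y * (Z * X) + 1 * (Z * (Y * X)) = _
    noncomm_ring
  have t : ∀ X Y, LinearMap.trace Ω _ (F X Y) = 2 * d * (X * Y).trace - 2 * X.trace * Y.trace :=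
    fun X Y => by
      simp only [F, map_add, map_sub, u1m_trace, trace_one, Fintype.card_fin, trace_mul_comm Y X]
      ring
  have c : Θ.conj (F X Y) = F (Θ X) (Θ Y) := LinearMap.ext fun Z => by
    rw [LinearEquiv.conj_apply_apply, a, a, h.br, h.br, Θ.apply_symm_apply]
  have k := LinearMap.trace_conj' (F X Y) Θ
  rw [c, t, t, h.tr, h.tr] at k
  exact mul_left_cancel₀ d0 (by linear_combination k)

omit [CharZero Ω] [IsAlgClosed Ω] in
theorem u1_two {A B : Mat d Ω} (h : ∀ Z, A * Z * B = 0) : A = 0 ∨ B = 0 := by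
  refine or_iff_not_imp_left.2 fun k => ?_
  obtain ⟨i, j, e⟩ : ∃ i j, A i j ≠ 0 := by
    by_contra! n
    exact k (Matrix.ext n)
  ext a b
  have := congrFun (congrFun (h (single j a 1)) i) b
  rw [mul_apply, Finset.sum_eq_single a (fun c _ n => by
    rw [mul_single_apply_of_ne _ _ _ _ _ n, zero_mul]) (by simp)] at this
  simpa [e] using this

/-- If the cube of the adjoint map is the adjoint map, the matrix is essentially idempotent. -/
theorem u1_cube (hd : 0 < d) {K : Mat d Ω} (h : ∀ Y, K * (K * (K * Y - Y * K) -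
      (K * Y - Y * K) * K) - (K * (K * Y - Y * K) - (K * Y - Y * K) * K) * K = K * Y - Y * K) :
    ∃ (μ ε : Ω) (e : Mat d Ω), (ε = 1 ∨ ε = -1) ∧ e * e = e ∧ K = μ • 1 + ε • e := by
  have : Nonempty (Fin d) := ⟨⟨0, hd⟩⟩
  obtain ⟨μ, hμ⟩ := Module.End.exists_eigenvalue (Matrix.toLin' K)
  obtain ⟨v, hv⟩ := hμ.exists_hasEigenvector
  obtain ⟨M, rfl⟩ : ∃ M, K = μ • 1 + M := ⟨K - μ • 1, by simp⟩
  have a : ∀ Y, (μ • 1 + M) * Y - Y * (μ • 1 + M) = M * Y - Y * M := fun Y => by
    simp [add_mul, mul_add]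
  simp only [a] at h
  have b : M *ᵥ v = 0 := by simpa [add_mulVec, smul_mulVec] using hv.apply_eq_smul
  have c : M * vecMulVec v v = 0 ∧ vecMulVec v v ≠ 0 :=
    ⟨by rw [mul_vecMulVec, b, zero_vecMulVec], by simp [hv.2]⟩
  have m3 : M * M * M = M := sub_eq_zero.1 <| (u1_two fun Z => by
    have k := h (vecMulVec v v * Z)
    simp only [← mul_assoc, c.1, zero_mul, zero_sub, mul_neg, neg_mul, neg_zero, neg_neg] at k
    rw [mul_sub, ← mul_assoc, ← mul_assoc, neg_inj.1 k, sub_self]).resolve_left c.2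
  have p : M * (M * M + M) = M * M + M := by rw [mul_add, ← mul_assoc, m3, add_comm]
  have n : (M * M - M) * M = -(M * M - M) := by rw [sub_mul, m3, neg_sub]
  rcases u1_two (A := M * M + M) (B := M * M - M) (fun Z => by
    generalize hY : (M * M + M) * Z * (M * M - M) = Y
    have l : M * Y = Y := by rw [← hY, ← mul_assoc, ← mul_assoc, p]
    have r : Y * M = -Y := by rw [← hY, mul_assoc, n, mul_neg]
    have k := h Y
    simp only [mul_sub, sub_mul, mul_neg, neg_mul, l, r] at k
    have : (6 : Ω) • Y = 0 := by linear_combination (norm := module) k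
    exact (smul_eq_zero.1 this).resolve_left (by norm_num)) with e | e
  · exact ⟨μ, -1, -M, .inr rfl, by rw [neg_mul_neg, eq_neg_iff_add_eq_zero, e], by simp⟩
  · exact ⟨μ, 1, M, .inl rfl, sub_eq_zero.1 e, by simp⟩

omit [CharZero Ω] [IsAlgClosed Ω] in
theorem u1_h (i : Fin d) : (d : Ω) • single i i 1 - 1 ∈ sl Ω d := by
  simp [mem_sl]

theorem LieIso.idem (hd : 4 ≤ d) (h : LieIso θ) (i : Fin d) :
    ∃ (e : Mat d Ω) (ε : Ω), (ε = 1 ∨ ε = -1) ∧ e * e = e ∧ e.trace = 1 ∧
      θ ((d : Ω) • single i i 1 - 1) = ε • ((d : Ω) • e - 1) := by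
  have d0 : (d : Ω) ≠ 0 := Nat.cast_ne_zero.2 (by omega)
  obtain ⟨Θ, g, e⟩ := u1_ext (by omega) h
  have EE : (single i i 1 : Mat d Ω) * single i i 1 = single i i 1 := by simp
  have tE : (single i i 1 : Mat d Ω).trace = 1 := by simp
  rw [← e _ (u1_h i), map_sub, map_smul, g.one]
  obtain ⟨μ, ε, f, hε, ff, k⟩ := u1_cube (K := Θ (single i i 1)) (by omega) fun Y => by
    obtain ⟨Y, rfl⟩ := Θ.surjective Y
    simp only [← g.br]
    congr 1
    simp only [mul_sub, sub_mul, ← mul_assoc, EE]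
    simp only [mul_assoc, EE]
    abel
  have ε2 : ε * ε = 1 := by rcases hε with rfl | rfl <;> simp
  have t1 := g.tr (single i i 1)
  have t2 := g.kill (by omega) (single i i 1) (single i i 1)
  rw [EE] at t2
  rw [tE, k] at t1 t2
  simp only [add_mul, mul_add, smul_mul_assoc, mul_smul_comm, one_mul, mul_one, ff, trace_add,
    trace_smul, trace_one, Fintype.card_fin, smul_eq_mul] at t1 t2
  have q : (1 - f.trace) * (1 + f.trace - d) = 0 := by
    linear_combination d * t2 - (d * μ + ε * f.trace + 1) * t1 +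
      (f.trace ^ 2 - d * f.trace) * ε2
  rw [k]
  rcases mul_eq_zero.1 q with q | q
  · have p : f.trace = 1 := by linear_combination -q
    refine ⟨f, ε, hε, ff, p, ?_⟩
    have : (d : Ω) * μ = 1 - ε := by linear_combination t1 - ε * p
    rw [smul_add, smul_smul, this]
    module
  · refine ⟨1 - f, -ε, by rcases hε with rfl | rfl <;> simp, by simp [mul_sub, sub_mul, ff], ?_, ?_⟩
    · rw [trace_sub, trace_one, Fintype.card_fin]
      linear_combination -q
    · have : (d : Ω) * μ = 1 - ε * (d - 1) := by linear_combination t1 - ε * q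
      rw [smul_add, smul_smul, this]
      module

theorem LieIso.of_fix (hd : 4 ≤ d) (h : LieIso θ)
    (hf : ∀ i, θ ((d : Ω) • single i i 1 - 1) = (d : Ω) • single i i 1 - 1) :
    ∃ S : Mat d Ω, S.det ≠ 0 ∧ ∀ X ∈ sl Ω d, θ X * S = S * X := by
  have d0 : (d : Ω) ≠ 0 := Nat.cast_ne_zero.2 (by omega)
  obtain ⟨Θ, g, e⟩ := u1_ext (by omega) h
  have f : ∀ i, Θ (single i i 1) = single i i 1 := fun i => by
    have k := hf i
    rw [← e _ (u1_h i), map_sub, map_smul, g.one, sub_left_inj] at k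
    exact smul_right_injective _ d0 k
  let c : Fin d → Fin d → Ω := fun i j => Θ (single i j 1) i j
  have hc : ∀ i j, Θ (single i j 1) = single i j (c i j) := fun i j => by
    rcases eq_or_ne i j with rfl | n
    · simp [c, f]
    have k1 := g.br (single i i 1) (single i j 1)
    have k2 := g.br (single i j 1) (single j j 1)
    rw [single_mul_single_same, single_mul_single_of_ne _ _ _ _ n.symm, mul_one, sub_zero,
      f] at k1 k2
    ext a b
    have l1 := congrFun (congrFun k1 a) b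
    have l2 := congrFun (congrFun k2 a) b
    rw [Matrix.sub_apply] at l1 l2
    by_cases ha : a = i
    · by_cases hb : b = j
      · simp [ha, hb, c]
      · rw [mul_single_apply_of_ne _ _ _ _ _ hb, single_mul_apply_of_ne _ _ _ _ _ (ha ▸ n)] at l2
        rw [l2, single_apply_of_col_ne _ _ (Ne.symm hb), sub_zero]
    · rw [single_apply_of_row_ne (Ne.symm ha)]
      rw [single_mul_apply_of_ne _ _ _ _ _ ha] at l1
      by_cases hb : b = i
      · subst hb
        rw [mul_single_apply_same] at l1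
        linear_combination l1 / 2
      · rwa [mul_single_apply_of_ne _ _ _ _ _ hb, sub_zero] at l1
  have c1 : ∀ i, c i i = 1 := fun i => by simp [c, f]
  have cc : ∀ i j k, c i j * c j k = c i k := fun i j k => by
    rcases eq_or_ne i j with rfl | n
    · rw [c1, one_mul]
    have l := congrFun (congrFun (g.br (single i j 1) (single j k 1)) i) k
    rw [map_sub, hc i j, hc j k, single_mul_single_same, single_mul_single_same, mul_one, hc i k,
      Matrix.sub_apply, Matrix.sub_apply, single_mul_apply_of_ne _ _ _ _ _ n] at l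
    rcases eq_or_ne k i with rfl | n'
    · rw [single_mul_single_same, mul_one, f, single_apply_of_row_ne n.symm] at l
      simpa using l.symm
    · rw [single_mul_single_of_ne _ _ _ _ n', map_zero] at l
      simpa using l.symm
  have o : Fin d := ⟨0, by omega⟩
  refine ⟨diagonal fun i => c i o, ?_, fun X hX => ?_⟩
  · rw [det_diagonal]
    exact Finset.prod_ne_zero_iff.2 fun i _ => left_ne_zero_of_mul_eq_one ((cc i o i).trans (c1 i))
  · rw [← e X hX, matrix_eq_sum_single X]
    simp only [map_sum, Finset.sum_mul, Finset.mul_sum]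
    refine Finset.sum_congr rfl fun i _ => Finset.sum_congr rfl fun j _ => ?_
    rw [show single i j (X i j) = X i j • (single i j 1 : Mat d Ω) by simp, map_smul, hc,
      smul_mul_assoc, mul_smul_comm]
    congr 1
    ext a b
    rw [mul_diagonal, diagonal_mul, single_apply, single_apply]
    split_ifs with k
    · rw [← k.1, ← k.2, cc, mul_one]
    · simp

omit [IsAlgClosed Ω] in
theorem u1_nat {e : Mat d Ω} (h : e * e = e) : ∃ r : ℕ, e.trace = r ∧ (r = 0 → e = 0) := by
  have i : IsIdempotentElem (Matrix.toLin' e) := by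
    rw [IsIdempotentElem, Module.End.mul_eq_comp, ← Matrix.toLin'_mul, h]
  have t := (LinearMap.IsIdempotentElem.isProj_range _ i).trace
  refine ⟨_, (Matrix.trace_toLin'_eq e).symm.trans t, fun k => ?_⟩
  rw [k, Nat.cast_zero] at t
  simpa using LinearMap.IsIdempotentElem.eq_zero_of_trace_eq_zero i t

theorem u1_pos (hd : 4 ≤ d) (h : LieIso θ) {e : Fin d → Mat d Ω} (ee : ∀ i, e i * e i = e i)
    (te : ∀ i, (e i).trace = 1) (eo : ∀ i j, i ≠ j → e i * e j = 0)
    (k : ∀ i, θ ((d : Ω) • single i i 1 - 1) = (d : Ω) • e i - 1) :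
    ∃ S : Mat d Ω, S.det ≠ 0 ∧ ∀ X ∈ sl Ω d, θ X * S = S * X := by
  have hv : ∀ i, ∃ a b, e i a b ≠ 0 := fun i => by
    by_contra! n
    have := te i
    rw [show e i = 0 from Matrix.ext n, trace_zero] at this
    exact zero_ne_one this
  choose a b hb using hv
  let P : Mat d Ω := fun x i => e i x (b i)
  have eP : ∀ j, e j * P = P * single j j 1 := fun j => by
    ext x i
    change (e j * e i) x (b i) = _
    rcases eq_or_ne i j with rfl | n
    · rw [ee, mul_single_apply_same, mul_one]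
    · rw [eo j i n.symm, mul_single_apply_of_ne _ _ _ _ _ n]
      rfl
  have dP : P.det ≠ 0 := fun z => by
    obtain ⟨v, v0, hv⟩ := exists_mulVec_eq_zero_iff.2 z
    refine v0 (funext fun j => ?_)
    have := congrFun (congrArg (· *ᵥ v) (eP j)) (a j)
    simp only [← mulVec_mulVec, hv, mulVec_zero, single_mulVec] at this
    have q : P (a j) j * v j = 0 := by
      simpa [mulVec, dotProduct, Function.update_apply] using this.symm
    exact (mul_eq_zero.1 q).resolve_left (hb j)
  have u := isUnit_iff_ne_zero.2 dP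
  have l := nonsing_inv_mul P u
  have r := mul_nonsing_inv P u
  have ap : ∀ X, (u1m P⁻¹ P ∘ₗ θ) X = P⁻¹ * (θ X * P) := fun X => rfl
  have bk : ∀ X : Mat d Ω, P * (P⁻¹ * X) = X := fun X => by rw [← mul_assoc, r, one_mul]
  obtain ⟨S, hS, f⟩ := LieIso.of_fix (θ := u1m P⁻¹ P ∘ₗ θ) hd ⟨fun X hX => by
      rw [ap, mem_sl, trace_mul_comm, mul_assoc, r, mul_one, mem_sl.1 (h.mem X hX)],
    fun X hX z => h.inj X hX (by
      have := congrArg (fun Y => P * Y * P⁻¹) z
      simpa only [ap, bk, mul_assoc, r, mul_one, mul_zero, zero_mul] using this),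
    fun X hX Y hY => by simp only [ap, h.br X hX Y hY, mul_sub, sub_mul, mul_assoc, bk]⟩
    fun i => by
      rw [ap, k, sub_mul, smul_mul_assoc, eP, one_mul, mul_sub, mul_smul_comm, ← mul_assoc, l,
        one_mul]
  refine ⟨P * S, by rw [det_mul]; exact mul_ne_zero dP hS, fun X hX => ?_⟩
  rw [mul_assoc, ← f X hX, ap, mul_assoc, bk, mul_assoc]

theorem LieIso.cases (hd : 4 ≤ d) (h : LieIso θ) :
    ∃ S : Mat d Ω, S.det ≠ 0 ∧
      ((∀ X ∈ sl Ω d, θ X * S = S * X) ∨ ∀ X ∈ sl Ω d, θ X * S = -(S * Xᵀ)) := by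
  have d0 : (d : Ω) ≠ 0 := Nat.cast_ne_zero.2 (by omega)
  choose e ε hε ee te k using h.idem hd
  obtain ⟨Θ, g, eq⟩ := u1_ext (by omega) h
  have key : ∀ i j, i ≠ j → ε i = ε j ∧ e i * e j = 0 := fun i j n => by
    have z : ∀ {a b : Fin d}, a ≠ b → (single a a 1 : Mat d Ω) * single b b 1 = 0 := fun m =>
      single_mul_single_of_ne _ _ _ _ m _
    have k1 := h.br _ (u1_h i) _ (u1_h j)
    have k2 := g.kill (by omega) ((d : Ω) • single i i 1 - 1) ((d : Ω) • single j j 1 - 1)
    rw [eq _ (u1_h i), eq _ (u1_h j)] at k2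
    rw [k, k] at k1 k2
    simp only [mul_sub, sub_mul, smul_mul_assoc, mul_smul_comm, mul_one, one_mul, z n, z n.symm,
      trace_sub, trace_smul, te, trace_one, Fintype.card_fin, smul_eq_mul, trace_zero,
      trace_single_eq_same, smul_zero] at k1 k2
    rw [show ∀ A B : Mat d Ω, (d : Ω) • (0 - A) - ((d : Ω) • B - 1) -
      ((d : Ω) • (0 - B) - ((d : Ω) • A - 1)) = 0 from fun A B => by module, map_zero] at k1
    have e0 : ∀ a, ε a ≠ 0 := fun a => by rcases hε a with q | q <;> simp [q]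
    have cm : e i * e j = e j * e i := by
      have : (ε i * ε j * d * d) • (e i * e j - e j * e i) = 0 := by
        linear_combination (norm := module) -k1
      exact sub_eq_zero.1 ((smul_eq_zero.1 this).resolve_left (by simp [e0, d0]))
    have id : e i * e j * (e i * e j) = e i * e j := by
      rw [mul_assoc, ← mul_assoc (e j), ← cm, mul_assoc, ee, ← mul_assoc, ee]
    obtain ⟨r, hr, r0⟩ := u1_nat id
    rw [hr] at k2
    have k3 : ε i * ε j * (d * r - 1) = -1 := mul_left_cancel₀ d0 (by linear_combination k2)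
    have pos : ε i * ε j = 1 → e i * e j = 0 := fun q => r0 (by
      rw [q] at k3
      have : (d : Ω) * r = 0 := by linear_combination k3
      simpa [d0] using this)
    have neg : ε i * ε j ≠ -1 := fun q => by
      rw [q] at k3
      have : d * r = 2 := by exact_mod_cast (show (d : Ω) * r = 2 by linear_combination -k3)
      have := Nat.le_of_dvd two_pos (Dvd.intro _ this)
      omega
    rcases hε i with a | a <;> rcases hε j with b | b <;> rw [a, b] at pos neg ⊢
    · exact ⟨rfl, pos (by simp)⟩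
    · exact absurd (by simp) neg
    · exact absurd (by simp) neg
    · exact ⟨rfl, pos (by simp)⟩
  have o : Fin d := ⟨0, by omega⟩
  have all : ∀ i, ε i = ε o := fun i => by
    rcases eq_or_ne i o with rfl | n
    · rfl
    · exact (key i o n).1
  rcases hε o with a | a
  · obtain ⟨S, hS, f⟩ := u1_pos hd h ee te (fun i j n => (key i j n).2) fun i => by
      rw [k, all, a, one_smul]
    exact ⟨S, hS, .inl f⟩
  · have tm : ∀ X ∈ sl Ω d, -Xᵀ ∈ sl Ω d := fun X hX => by
      rw [mem_sl, trace_neg, trace_transpose, mem_sl.1 hX, neg_zero]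
    let θ' : Mat d Ω →ₗ[Ω] Mat d Ω := θ ∘ₗ (-(transposeLinearEquiv (Fin d) (Fin d) Ω Ω).toLinearMap)
    have ap : ∀ X, θ' X = θ (-Xᵀ) := fun X => rfl
    have h' : LieIso θ' := ⟨fun X hX => h.mem _ (tm X hX),
      fun X hX q => by simpa using h.inj _ (tm X hX) q, fun X hX Y hY => by
        rw [ap, ap, ap, ← h.br _ (tm X hX) _ (tm Y hY)]
        simp⟩
    obtain ⟨S, hS, f⟩ := u1_pos hd h' ee te (fun i j n => (key i j n).2) fun i => by
      rw [ap, map_neg, transpose_sub, transpose_smul, transpose_single, transpose_one, k, all, a]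
      simp
    refine ⟨S, hS, .inr fun X hX => ?_⟩
    simpa [ap] using f _ (tm X hX)

end Pool.Agent.Lib.MP_d61fbb_ag.SE
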