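import Pool.Agent.Lib.MP_d61fbb_ag.SE.L1b
import Pool.Agent.Lib.MP_d61fbb_ag.SE.G3
import Pool.Agent.Lib.MP_d61fbb_ag.SE.U1
import Pool.Agent.Lib.MP_d61fbb_ag.SE.U2

/-! The orthogonal case gives a self-duality. -/

set_option autoImplicit false

noncomputable section

namespace Pool.Agent.Lib.MP_d61fbb_ag.SE

open Matrix Equiv IsLocalRing

variable {Ω : Type} [Field Ω] [CharZero Ω] {O : ValuationSubring Ω} {d : ℕ} {Γ : Type} [Group Γ]
  {R : Γ →* Mat d Ω} {pm : Γ →* Perm (Fin (d + 1))} {W V U : Submodule Ω (Mat d Ω)}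

theorem l1c_central (hR : Rp O R pm) (h : Split O R V U) {S : Mat d Ω} (hS : S ∈ V)
    (hc : ∀ X ∈ V, X * S = S * X) : S = 0 := by
  by_contra h0
  obtain ⟨c, -, N, hN, hl⟩ := exists_prim (O := O) h0
  have h1 : N ∈ so _ d := h.redV ▸ ⟨_, V.smul_mem c hS, hl⟩
  have h2 : ∀ Y ∈ so _ d, Y * N = N * Y := fun Y hY => by
    obtain ⟨X, hX, k⟩ := h.redV ▸ hY
    exact (k.mul hl).unique (by
      rw [Matrix.mul_smul, hc X hX, ← Matrix.smul_mul]
      exact hl.mul k)
  refine hN ((so_sym_compl hR.two hR.dim).disjoint.le_bot ⟨h1, (perp_so hR.two hR.dim N).1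
    fun Z hZ => ?_⟩)
  rw [← der_so hR.two hR.dim hR.big.le] at hZ
  induction hZ using Submodule.span_induction with
  | mem _ k =>
    obtain ⟨X, hX, Y, -, rfl⟩ := k
    rw [sub_mul, trace_sub, mul_assoc Y, h2 X hX, ← mul_assoc, trace_mul_comm _ X, mul_assoc,
      sub_self]
  | zero => rw [zero_mul, trace_zero]
  | add _ _ _ _ k k' => rw [add_mul, trace_add, k, k', add_zero]
  | smul _ _ _ k => rw [Matrix.smul_mul, trace_smul, k, smul_zero]

theorem Split.dual [IsAlgClosed Ω] (hR : Rp O R pm) (h : Split O R V U) : Dual R R := by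
  obtain ⟨θ, hθ⟩ : ∃ θ : Mat d Ω →ₗ[Ω] Mat d Ω, ∀ v ∈ V, ∀ u ∈ U, θ (v + u) = v - u :=
    ⟨LinearMap.ofIsCompl h.compl V.subtype (-U.subtype), fun v hv u hu => by
      rw [map_add, LinearMap.ofIsCompl_apply_left h.compl ⟨v, hv⟩,
        LinearMap.ofIsCompl_apply_right h.compl ⟨u, hu⟩, sub_eq_add_neg]
      rfl⟩
  have dec : ∀ X, ∃ v ∈ V, ∃ u ∈ U, v + u = X := fun X =>
    Submodule.mem_sup.1 (h.compl.sup_eq_top ▸ Submodule.mem_top)
  have fix : ∀ v ∈ V, ∀ u ∈ U, θ (v + u) = v + u → u = 0 := fun v hv u hu e => by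
    rw [hθ v hv u hu, sub_eq_add_neg, add_right_inj, neg_eq_iff_add_eq_zero, ← two_smul Ω] at e
    exact (smul_eq_zero.1 e).resolve_left two_ne_zero
  have hd := hR.big.le
  obtain ⟨S, hS, k | k⟩ := LieIso.cases (θ := θ) hd ⟨fun X hX => by
    obtain ⟨v, hv, u, hu, rfl⟩ := dec X
    rw [hθ v hv u hu]
    exact sub_mem (h.le hv) ((Submodule.add_mem_iff_right _ (h.le hv)).1 hX), fun X _ e => by
    obtain ⟨v, hv, u, hu, rfl⟩ := dec X
    rw [hθ v hv u hu, sub_eq_zero] at e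
    have : u = 0 := h.compl.disjoint.le_bot ⟨e ▸ hv, hu⟩
    rw [e, this, add_zero], fun X _ Y _ => by
    obtain ⟨v, hv, u, hu, rfl⟩ := dec X
    obtain ⟨v', hv', u', hu', rfl⟩ := dec Y
    rw [hθ v hv u hu, hθ v' hv' u' hu', show (v + u) * (v' + u') - (v' + u') * (v + u) =
      v * v' - v' * v + (u * u' - u' * u) + (v * u' - u' * v - (v' * u - u * v')) by noncomm_ring,
      hθ _ (add_mem (h.vv v hv v' hv') (h.uu hR hu hu')) _
        (sub_mem (h.vu v hv u' hu') (h.vu v' hv' u hu))]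
    noncomm_ring⟩
  · exfalso
    have can : ∀ X ∈ sl Ω d, S * X = X * S → θ X = X := fun X hX e =>
      ((isUnit_iff_isUnit_det S).2 hS.isUnit).mul_right_cancel ((k X hX).trans e)
    have d0 : (d : Ω) ≠ 0 := Nat.cast_ne_zero.2 (by omega)
    obtain ⟨v, hv, u, hu, e⟩ := dec (S - (S.trace / d) • 1)
    have h1 := fix v hv u hu (can _ (by simp [e, mem_sl, d0]) (by simp [e, mul_sub, sub_mul]))
    rw [h1, add_zero] at e
    have h2 := l1c_central hR h hv fun X hX => by
      have := k X (h.le hX)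
      rw [← add_zero X, hθ X hX 0 (zero_mem _), add_zero, sub_zero] at this
      simp [e, mul_sub, sub_mul, this]
    rw [h2, eq_comm, sub_eq_zero] at e
    have h3 := LinearMap.finrank_le_finrank_of_injective
      (f := (traceLinearMap (Fin d) Ω Ω).comp U.subtype) ((injective_iff_map_eq_zero _).2
        fun u hu => Subtype.ext (fix 0 (zero_mem _) u u.2 (can _ (by rwa [zero_add]) (by
          rw [e]
          simp))))
    rw [← finrank_red (O := O), h.redU, Module.finrank_self] at h3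
    exact absurd ((two_le_finrank_sym (by omega)).trans h3) (by norm_num)
  · refine dual_of (fun γ X _ => ?_) hS k
    obtain ⟨v, hv, u, hu, rfl⟩ := dec X
    rw [mul_add, add_mul, hθ _ (h.adV γ v hv) _ (h.adU γ u hu), hθ v hv u hu, mul_sub, sub_mul]

end Pool.Agent.Lib.MP_d61fbb_ag.SE
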