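import Pool.Agent.Lib.MP_d61fbb_ag.SE.L1a
import Pool.Agent.Lib.MP_d61fbb_ag.SE.L1c
import Pool.Agent.Lib.MP_d61fbb_ag.SE.G1

/-! The trichotomy in characteristic zero. -/

set_option autoImplicit false

noncomputable section

namespace Pool.Agent.Lib.MP_d61fbb_ag.SE

open Matrix Equiv IsLocalRing

variable {Ω : Type} [Field Ω] [CharZero Ω] {O : ValuationSubring Ω} {d : ℕ} {Γ : Type} [Group Γ]
  {R : Γ →* Mat d Ω} {pm : Γ →* Perm (Fin (d + 1))} {W V U : Submodule Ω (Mat d Ω)}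

theorem trichotomy [IsAlgClosed Ω] (hR : Rp O R pm) (hbr : Br W) (had : Ad R W) :
    (∀ X ∈ W, ∃ c : Ω, X = c • 1) ∨ der W = sl Ω d ∨ Dual R R := by
  have h1 : (1 : Mat d Ω) ∈ W ⊔ Ω ∙ 1 := Submodule.mem_sup_right (Submodule.mem_span_singleton_self _)
  have dec : ∀ X ∈ W ⊔ Ω ∙ (1 : Mat d Ω), ∃ Y ∈ W, ∃ c : Ω, X = Y + c • 1 := fun X hX => by
    obtain ⟨Y, hY, Z, hZ, rfl⟩ := Submodule.mem_sup.1 hX
    obtain ⟨c, rfl⟩ := Submodule.mem_span_singleton.1 hZ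
    exact ⟨Y, hY, c, rfl⟩
  have hd : ∀ X ∈ W ⊔ Ω ∙ (1 : Mat d Ω), ∀ Y ∈ W ⊔ Ω ∙ (1 : Mat d Ω), X * Y - Y * X ∈ der W :=
    fun X hX Y hY => by
      obtain ⟨X, hX', c, rfl⟩ := dec X hX
      obtain ⟨Y, hY', e, rfl⟩ := dec Y hY
      have : (X + c • 1) * (Y + e • 1) - (Y + e • 1) * (X + c • 1) = X * Y - Y * X := by
        simp only [add_mul, mul_add, Matrix.mul_smul, Matrix.smul_mul, mul_one, one_mul]
        module
      exact this ▸ br_mem_der hX' hY'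
  have hb : Br (W ⊔ Ω ∙ (1 : Mat d Ω)) := fun X hX Y hY =>
    Submodule.mem_sup_left (hbr.der_le (hd X hX Y hY))
  have ha : Ad R (W ⊔ Ω ∙ (1 : Mat d Ω)) := fun γ X hX => by
    obtain ⟨X, hX', c, rfl⟩ := dec X hX
    rw [mul_add, add_mul, Matrix.mul_smul, Matrix.smul_mul, mul_one, ← map_mul, mul_inv_cancel,
      map_one]
    exact add_mem (Submodule.mem_sup_left (had γ X hX')) (Submodule.smul_mem _ c h1)
  rcases classify (W := red O (W ⊔ Ω ∙ 1)) hR.two hR.dim hR.big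
    (by
      rintro _ ⟨γ, rfl⟩ X ⟨M, hM, k⟩
      exact ⟨_, ha γ M hM, map_inv pm γ ▸ ((hR.lift γ).mul k).mul (hR.lift γ⁻¹)⟩)
    (fun X ⟨M, hM, k⟩ Y ⟨M', hM', k'⟩ => ⟨_, hb M hM M' hM', (k.mul k').sub (k'.mul k)⟩)
    ⟨1, h1, Lift.one⟩ with h | h | h
  · refine Or.inl fun X hX => ?_
    obtain ⟨c, e⟩ := Submodule.mem_span_singleton.1
      (scalar_case h1 h ▸ Submodule.mem_sup_left hX)
    exact ⟨c, e.symm⟩
  · obtain ⟨V, U, k⟩ := split_exists hR h1 hb ha h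
    exact Or.inr (Or.inr (k.dual hR))
  · refine Or.inr (Or.inl ((le_antisymm ?_ ?_).trans (sl_case hR h)))
    · exact Submodule.span_le.2 fun _ ⟨X, hX, Y, hY, e⟩ =>
        e ▸ br_mem_der (Submodule.mem_sup_left hX) (Submodule.mem_sup_left hY)
    · exact Submodule.span_le.2 fun _ ⟨X, hX, Y, hY, e⟩ => e ▸ hd X hX Y hY

end Pool.Agent.Lib.MP_d61fbb_ag.SE
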