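import Pool.Agent.Lib.MP_d61fbb_ag.SE.AD

/-! Logarithms of an invertible matrix are tangent to the closure of its powers. -/

set_option autoImplicit false

noncomputable section

namespace Pool.Agent.Lib.MP_d61fbb_ag.SE

open Matrix

variable {K n : Type} [Field K] [Fintype n] [DecidableEq n] {S : Set (Matrix n n K)}

/-- Homomorphisms out of the ring of exponential polynomials. -/
def z4hom {B : Type} [CommRing B] [Algebra K B] (t : B) (χ : Kˣ →* B) :
    MonoidAlgebra (Polynomial K) Kˣ →ₐ[K] B :=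
  MonoidAlgebra.liftNCAlgHom (Polynomial.aeval t) χ fun _ _ => Commute.all _ _

theorem z4hom_single {B : Type} [CommRing B] [Algebra K B] (t : B) (χ : Kˣ →* B) (x : Kˣ)
    (p : Polynomial K) : z4hom t χ (MonoidAlgebra.single x p) = Polynomial.aeval t p * χ x :=
  MonoidAlgebra.liftNC_single _ _ _ _

/-- The value at `N`. -/
def z4ev (N : ℕ) : MonoidAlgebra (Polynomial K) Kˣ →ₐ[K] K :=
  z4hom (N : K) ((powMonoidHom N).comp (Units.coeHom K))

theorem z4ev_single (N : ℕ) (x : Kˣ) (p : Polynomial K) :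
    z4ev N (MonoidAlgebra.single x p) = p.eval (N : K) * (x : K) ^ N := by
  rw [z4ev, z4hom_single, Polynomial.coe_aeval_eq_eval]
  rfl

/-- The shift of sequences. -/
def z4sh : Module.End K (ℕ → K) := LinearMap.funLeft K K Nat.succ

theorem z4sh_pow (x : K) (k : ℕ) (f : K → K) :
    ((z4sh - x • 1) ^ k : Module.End K (ℕ → K)) (fun N => f N * x ^ N) =
      fun N : ℕ => (fwdDiff (1 : K))^[k] f N * x ^ (N + k) := by
  induction k with
  | zero => rfl
  | succ k ih =>
    rw [pow_succ', Module.End.mul_apply, ih]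
    ext N
    simp only [z4sh, LinearMap.sub_apply, LinearMap.smul_apply, Module.End.one_apply, Pi.sub_apply,
      Pi.smul_apply, LinearMap.funLeft_apply, smul_eq_mul, Function.iterate_succ_apply', fwdDiff,
      Nat.succ_eq_add_one, Nat.cast_add, Nat.cast_one]
    ring

theorem z4ev_inj [CharZero K] {q : MonoidAlgebra (Polynomial K) Kˣ} (h : ∀ N, z4ev N q = 0) :
    q = 0 := by
  have hi : iSupIndep fun x : Kˣ => (z4sh (K := K)).maxGenEigenspace (x : K) :=
    (Module.End.independent_maxGenEigenspace _).comp Units.val_injective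
  have h1 := (iSupIndep_iff_finsetSum_eq_zero_imp_eq_zero _).1 hi q.coeff.support
    (fun x N => (q.coeff x).eval (N : K) * (x : K) ^ N) (fun x _ => by
      refine (Module.End.mem_maxGenEigenspace _ _ _).2 ⟨(q.coeff x).natDegree + 1, ?_⟩
      rw [z4sh_pow (x : K) _ (q.coeff x).eval,
        Polynomial.fwdDiff_iter_eq_zero_of_degree_lt (Nat.lt_succ_self _)]
      ext N
      simp) (by
      ext N
      have e := h N
      rw [← MonoidAlgebra.sum_coeff_single q, Finsupp.sum, map_sum] at e
      simpa only [z4ev_single, Finset.sum_apply, Pi.zero_apply] using e)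
  rw [← MonoidAlgebra.coeff_eq_zero, ← Finsupp.support_eq_empty, Finset.eq_empty_iff_forall_notMem]
  intro x hx
  refine Finsupp.mem_support_iff.1 hx (Polynomial.eq_zero_of_infinite_isRoot _ ?_)
  refine (Set.infinite_range_of_injective (Nat.cast_injective (R := K))).mono ?_
  rintro _ ⟨N, rfl⟩
  exact (mul_eq_zero.1 (congrFun (h1 x hx) N)).resolve_right (pow_ne_zero _ x.ne_zero)

theorem z4_binom {A : Type} [Ring A] {V : Type} [AddCommGroup V] [Module A V] (m : A) (v : V)
    {k : ℕ} (hk : m ^ k • v = 0) (N : ℕ) :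
    (m + 1) ^ N • v = ∑ j ∈ Finset.range k, N.choose j • m ^ j • v := by
  have h1 : (m + 1) ^ N • v = ∑ j ∈ Finset.range (N + 1), N.choose j • m ^ j • v := by
    rw [(Commute.one_right m).add_pow, Finset.sum_smul]
    refine Finset.sum_congr rfl fun j _ => ?_
    rw [one_pow, mul_one, ← Nat.cast_comm, mul_smul, Nat.cast_smul_eq_nsmul]
  rw [h1, Finset.sum_subset (Finset.range_mono (le_max_left (N + 1) k)),
    Finset.sum_subset (Finset.range_mono (le_max_right (N + 1) k))]
  · intro j _ hj
    obtain ⟨i, rfl⟩ := Nat.exists_eq_add_of_le' (not_lt.1 fun e => hj (Finset.mem_range.2 e))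
    rw [pow_add, mul_smul, hk, smul_zero, smul_zero]
  · intro j _ hj
    rw [Nat.choose_eq_zero_of_lt (not_lt.1 fun e => hj (Finset.mem_range.2 e)), zero_smul]

theorem z4_vec [CharZero K] [IsAlgClosed K] {g : Matrix n n K} (hg : g.det ≠ 0) (v : n → K) :
    ∃ w : n → MonoidAlgebra (Polynomial K) Kˣ, ∀ N i, z4ev N (w i) = (g ^ N *ᵥ v) i := by
  have hv : v ∈ ⨆ x, Module.End.maxGenEigenspace (Matrix.toLin' g) x := by
    rw [Module.End.iSup_maxGenEigenspace_eq_top]
    trivial
  refine Submodule.iSup_induction _ (motive := fun v => ∃ w : n → MonoidAlgebra (Polynomial K) Kˣ,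
    ∀ N i, z4ev N (w i) = (g ^ N *ᵥ v) i) hv (fun x v hv => ?_) ⟨0, fun N i => by simp⟩ ?_
  · obtain ⟨k, hk⟩ := (Module.End.mem_maxGenEigenspace _ _ _).1 hv
    have hk' : (g - x • 1) ^ k *ᵥ v = 0 := by
      rw [← hk, ← Matrix.toLin'_apply, Matrix.toLin'_pow, map_sub, map_smul, Matrix.toLin'_one]
      rfl
    by_cases hx : x = 0
    · rw [hx, zero_smul, sub_zero] at hk'
      rw [Matrix.eq_zero_of_mulVec_eq_zero (by rw [det_pow]; exact pow_ne_zero _ hg) hk']
      exact ⟨0, fun N i => by simp⟩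
    have hm : (x⁻¹ • g - 1) ^ k • v = 0 := by
      rw [show x⁻¹ • g - 1 = x⁻¹ • (g - x • 1) by rw [smul_sub, inv_smul_smul₀ hx], smul_pow,
        Matrix.smul_eq_mulVec, Matrix.smul_mulVec, hk', smul_zero]
    refine ⟨fun i => MonoidAlgebra.single (Units.mk0 x hx) (∑ j ∈ Finset.range k,
      descPochhammer K j * Polynomial.C (((x⁻¹ • g - 1) ^ j • v) i / j.factorial)), fun N i => ?_⟩
    have e := z4_binom _ v hm N
    rw [sub_add_cancel, smul_pow, Matrix.smul_eq_mulVec, Matrix.smul_mulVec, inv_pow,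
      inv_smul_eq_iff₀ (pow_ne_zero _ hx)] at e
    rw [z4ev_single, e, Pi.smul_apply, smul_eq_mul, mul_comm, Units.val_mk0, Polynomial.eval_finsetSum,
      Finset.sum_apply]
    refine congrArg _ (Finset.sum_congr rfl fun j _ => ?_)
    rw [Polynomial.eval_mul, Polynomial.eval_C, Pi.smul_apply, nsmul_eq_mul,
      Nat.cast_choose_eq_descPochhammer_div]
    ring
  · rintro u v ⟨a, ha⟩ ⟨b, hb⟩
    exact ⟨a + b, fun N i => by rw [Pi.add_apply, map_add, ha, hb, mulVec_add, Pi.add_apply]⟩

theorem z4_mat [CharZero K] [IsAlgClosed K] {g : Matrix n n K} (hg : g.det ≠ 0) :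
    ∃ G : Matrix n n (MonoidAlgebra (Polynomial K) Kˣ), ∀ N, G.map (z4ev N) = g ^ N := by
  choose w hw using fun j => z4_vec hg (Pi.single j 1)
  refine ⟨Matrix.of fun i j => w j i, fun N => ?_⟩
  ext i j
  rw [Matrix.map_apply, Matrix.of_apply, hw, mulVec_single_one]
  rfl

/-- The character with values in the dual numbers. -/
def z4chi (L : Additive Kˣ →+ K) : Kˣ →* DualNumber K where
  toFun y := 1 + DualNumber.eps * algebraMap K _ (L (Additive.ofMul y))
  map_one' := by simp
  map_mul' y z := by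
    rw [ofMul_mul, map_add, map_add]
    linear_combination (-algebraMap K (DualNumber K) (L (Additive.ofMul y)) *
      algebraMap K (DualNumber K) (L (Additive.ofMul z))) * DualNumber.eps_mul_eps (R := K)

theorem z4_fst (L : Additive Kˣ →+ K) (q : MonoidAlgebra (Polynomial K) Kˣ) :
    (z4hom 0 (z4chi L) q).fst = z4ev 0 q := by
  induction q using MonoidAlgebra.induction_linear with
  | zero => simp
  | add a b ha hb => rw [map_add, map_add, TrivSqZeroExt.fst_add, ha, hb]
  | single x p =>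
    rw [z4hom_single, z4ev_single, ← Polynomial.coeff_zero_eq_aeval_zero', Nat.cast_zero,
      ← Polynomial.coeff_zero_eq_eval_zero]
    simp [z4chi, TrivSqZeroExt.algebraMap_eq_inl]

theorem tangent_jordan [CharZero K] [IsAlgClosed K] {g : Matrix n n K} (hg : g.det ≠ 0)
    (h : ∀ N : ℕ, g ^ N ∈ S) (L : Additive Kˣ →+ K) :
    ∃ X, Tangent S X ∧ ∀ (x : Kˣ) (v : n → K), g *ᵥ v = (x : K) • v →
      X *ᵥ v = L (Additive.ofMul x) • v := by
  obtain ⟨G, hG⟩ := z4_mat hg
  have e : 1 + (DualNumber.eps : DualNumber K) •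
      (G.map fun q => (z4hom 0 (z4chi L) q).snd).map (algebraMap K _) =
      G.map (z4hom 0 (z4chi L)) := by
    ext i j : 1
    have e1 := congrFun (congrFun (hG 0) i) j
    rw [Matrix.map_apply, ← z4_fst L, pow_zero] at e1
    refine TrivSqZeroExt.ext ?_ ?_
    · rw [Matrix.map_apply, e1]
      simp [Matrix.one_apply, apply_ite TrivSqZeroExt.fst]
    · simp [Matrix.one_apply, apply_ite TrivSqZeroExt.snd, TrivSqZeroExt.algebraMap_eq_inl]
  refine ⟨G.map fun q => (z4hom 0 (z4chi L) q).snd, ?_, fun x v hv => ?_⟩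
  · refine Pt.tangent (by simpa using h 0) _ DualNumber.eps_mul_eps eps_inj fun p hp => ?_
    rw [e, ← aeval_comp_map, z4ev_inj (q := MvPolynomial.aeval _ p) fun N => ?_, map_zero]
    rw [aeval_comp_map, hG, ← hp _ (h N), ← MvPolynomial.coe_aeval_eq_eval]
    rfl
  · have h1 : ∀ N : ℕ, g ^ N *ᵥ v = (x : K) ^ N • v := fun N => by
      induction N with
      | zero => simp
      | succ N ih => rw [pow_succ, ← mulVec_mulVec, hv, mulVec_smul, ih, smul_smul, pow_succ']
    ext i
    have h2 : ∑ j, v j • G i j = v i • MonoidAlgebra.single x 1 := by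
      rw [← sub_eq_zero]
      refine z4ev_inj fun N => ?_
      have h3 := congrFun (h1 N) i
      rw [← hG N] at h3
      simp only [map_sub, map_sum, map_smul, z4ev_single, smul_eq_mul, Polynomial.eval_one, one_mul]
      rw [mul_comm (v i), ← smul_eq_mul ((x : K) ^ N), ← Pi.smul_apply, ← h3, sub_eq_zero]
      exact Finset.sum_congr rfl fun j _ => mul_comm _ _
    have h4 := congrArg (fun q => (z4hom 0 (z4chi L) q).snd) h2
    simp only [map_sum, map_smul, z4hom_single, map_one, one_mul, TrivSqZeroExt.snd_sum,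
      TrivSqZeroExt.snd_smul, smul_eq_mul] at h4
    rw [Pi.smul_apply, smul_eq_mul, mul_comm]
    refine Eq.trans (Finset.sum_congr rfl fun j _ => mul_comm _ _) (h4.trans ?_)
    simp [z4chi, TrivSqZeroExt.algebraMap_eq_inl]

end Pool.Agent.Lib.MP_d61fbb_ag.SE
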