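import Pool.Agent.Lib.MP_d61fbb_ag.SE.K0
import Pool.Agent.Lib.MP_d61fbb_ag.SE.L1
import Pool.Agent.Lib.MP_d61fbb_ag.SE.Z1
import Pool.Agent.Lib.MP_d61fbb_ag.SE.Z4

/-! Every block of the derived algebra is full. -/

set_option autoImplicit false

noncomputable section

namespace Pool.Agent.Lib.MP_d61fbb_ag.SE

open Matrix Equiv IsLocalRing

variable {Ω : Type} [Field Ω] [CharZero Ω] [IsAlgClosed Ω] {O : ValuationSubring Ω} {l d : ℕ}
  [Fact l.Prime] {Γ : Type} [Group Γ] {R : (ZMod l)ˣ → Γ →* Mat d Ω}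
  {pm : Γ →* Perm (Fin (d + 1))} {nu : Γ →* Ω}

theorem SS_mul (H : Subgroup Γ) : ∀ a ∈ SS R H, ∀ b ∈ SS R H, a * b ∈ SS R H := by
  rintro _ ⟨γ, hγ, rfl⟩ _ ⟨δ, hδ, rfl⟩
  exact ⟨γ * δ, H.mul_mem hγ hδ, by simp only [map_mul, blockDiagonal_mul]⟩

theorem SS_one (H : Subgroup Γ) : 1 ∈ SS R H :=
  ⟨1, H.one_mem, by simp only [map_one]; exact blockDiagonal_one.symm⟩

theorem gg_br (H : Subgroup Γ) : Br (gg R H) := fun X hX Y hY => by
  have h := Tangent.bracket (SS_mul H) (SS_one H) (mem_gg.1 hX) (mem_gg.1 hY)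
  rw [← blockDiagonal_mul, ← blockDiagonal_mul, ← blockDiagonal_sub] at h
  exact h

theorem gg_ad (H : Subgroup Γ) [H.Normal] (γ : Γ) {X : (ZMod l)ˣ → Mat d Ω} (hX : X ∈ gg R H) :
    (fun a => R a γ * X a * R a γ⁻¹) ∈ gg R H := by
  have h := tangent_norm (SS_one H) (s := blockDiagonal fun a => R a γ)
    (t := blockDiagonal fun a => R a γ⁻¹) (by
      simp only [← blockDiagonal_mul, ← map_mul, mul_inv_cancel, map_one]
      exact blockDiagonal_one) (by
      rintro _ ⟨δ, hδ, rfl⟩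
      exact ⟨γ * δ * γ⁻¹, Subgroup.Normal.conj_mem inferInstance δ hδ γ, by
        simp only [map_mul, blockDiagonal_mul]⟩) (mem_gg.1 hX)
  rw [← blockDiagonal_mul, ← blockDiagonal_mul] at h
  exact h

theorem der_gg_ad (H : Subgroup Γ) [H.Normal] (γ : Γ) {X : (ZMod l)ˣ → Mat d Ω}
    (hX : X ∈ der (gg R H)) : (fun a => R a γ * X a * R a γ⁻¹) ∈ der (gg R H) := by
  induction hX using Submodule.span_induction with
  | mem Z hZ =>
    obtain ⟨X, hX, Y, hY, rfl⟩ := hZ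
    have h := br_mem_der (gg_ad H γ hX) (gg_ad H γ hY)
    have e : ∀ (a : (ZMod l)ˣ) (M : Mat d Ω), R a γ⁻¹ * (R a γ * M) = M := fun a M => by
      rw [← mul_assoc, ← map_mul, inv_mul_cancel, map_one, one_mul]
    refine (congrArg (· ∈ der (gg R H)) (funext fun a => ?_)).mp h
    simp only [Pi.sub_apply, Pi.mul_apply, mul_assoc, e, mul_sub, sub_mul]
  | zero =>
    refine (congrArg (· ∈ der (gg R H)) (funext fun a => ?_)).mp (Submodule.zero_mem _)
    simp
  | add X Y _ _ hX hY =>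
    refine (congrArg (· ∈ der (gg R H)) (funext fun a => ?_)).mp (Submodule.add_mem _ hX hY)
    simp [mul_add, add_mul]
  | smul c X _ hX =>
    refine (congrArg (· ∈ der (gg R H)) (funext fun a => ?_)).mp (Submodule.smul_mem _ c hX)
    simp

theorem der_gg_sl (H : Subgroup Γ) {X : (ZMod l)ˣ → Mat d Ω} (hX : X ∈ der (gg R H))
    (a : (ZMod l)ˣ) : X a ∈ sl Ω d := by
  induction hX using Submodule.span_induction with
  | mem Z hZ =>
    obtain ⟨X, -, Y, -, rfl⟩ := hZ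
    rw [mem_sl, Pi.sub_apply, Pi.mul_apply, Pi.mul_apply, trace_sub, trace_mul_comm, sub_self]
  | zero => exact Submodule.zero_mem _
  | add X Y _ _ hX hY => exact Submodule.add_mem _ hX hY
  | smul c X _ hX => exact Submodule.smul_mem _ c hX

omit [CharZero Ω] [IsAlgClosed Ω] in
theorem k1_block {A : Type} [Fintype A] [DecidableEq A] (u : A → Mat d Ω) (a : A) (w : Fin d → Ω) :
    (blockDiagonal u *ᵥ fun p => if p.2 = a then w p.1 else 0) =
      fun p => if p.2 = a then (u a *ᵥ w) p.1 else 0 := by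
  funext ⟨i, b⟩
  simp only [mulVec, dotProduct, blockDiagonal_apply, Fintype.sum_prod_type, mul_ite, mul_zero,
    Finset.sum_ite_eq', Finset.mem_univ, if_true]
  split_ifs with h
  · rw [h]
  · simp

omit [CharZero Ω] [IsAlgClosed Ω] in
theorem k1_eig {M : Mat d Ω} {α : Ω} (h : M.charpoly.IsRoot α) :
    ∃ w, w ≠ 0 ∧ ∀ N : ℕ, (M ^ N) *ᵥ w = α ^ N • w := by
  rw [Polynomial.IsRoot, eval_charpoly, ← exists_mulVec_eq_zero_iff] at h
  obtain ⟨w, h0, h1⟩ := h
  have h2 : M *ᵥ w = α • w := by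
    rw [sub_mulVec, sub_eq_zero, scalar_apply, ← smul_one_eq_diagonal, smul_mulVec,
      one_mulVec] at h1
    exact h1.symm
  refine ⟨w, h0, fun N => ?_⟩
  induction N with
  | zero => simp
  | succ N ih => rw [pow_succ, ← mulVec_mulVec, h2, mulVec_smul, ih, smul_smul, pow_succ']

theorem Core.not_scalar (h : Core O l R pm nu) (a : (ZMod l)ˣ) :
    ¬ ∀ X ∈ gg R pm.ker, ∃ c : Ω, X a = c • 1 := by
  intro hs
  obtain ⟨φ, -, -, hfr, -⟩ := h.fr
  have h0 : 0 < orderOf (pm φ) := orderOf_pos _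
  have hk : φ ^ orderOf (pm φ) ∈ pm.ker := by
    rw [MonoidHom.mem_ker, map_pow, pow_orderOf_eq_one]
  generalize orderOf (pm φ) = n at h0 hk
  have hdet : (blockDiagonal fun b => R b (φ ^ n)).det ≠ 0 :=
    (isUnit_det_of_right_inverse (B := blockDiagonal fun b => R b (φ ^ n)⁻¹) (by
      simp only [← blockDiagonal_mul, ← map_mul, mul_inv_cancel, map_one]
      exact blockDiagonal_one)).ne_zero
  have hpow : ∀ N : ℕ, (blockDiagonal fun b => R b (φ ^ n)) ^ N ∈ SS R pm.ker := fun N => by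
    induction N with
    | zero => exact pow_zero (blockDiagonal fun b => R b (φ ^ n)) ▸ SS_one _
    | succ N ih => exact pow_succ (blockDiagonal fun b => R b (φ ^ n)) N ▸ SS_mul _ _ ih _ ⟨_, hk, rfl⟩
  have hne : ∀ α, (R a φ).charpoly.IsRoot α → α ^ n ≠ 0 := fun α hα e => by
    obtain ⟨w, h1, h2⟩ := k1_eig hα
    have h3 := congrArg (R a (φ ^ n)⁻¹ *ᵥ ·) (h2 n)
    simp only [e, zero_smul, mulVec_zero, mulVec_mulVec, ← map_pow, ← map_mul, inv_mul_cancel,
      map_one, one_mulVec] at h3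
    exact h1 h3
  have key : ∀ L : Additive Ωˣ →+ Ω, ∃ c, ∀ α (hα : (R a φ).charpoly.IsRoot α),
      L (Additive.ofMul (Units.mk0 _ (hne α hα))) = c := fun L => by
    obtain ⟨X, hX, hv⟩ := tangent_jordan hdet hpow L
    have hb := tangent_block (by rintro _ ⟨γ, -, rfl⟩; exact ⟨_, rfl⟩) hX
    obtain ⟨c, hc⟩ := hs X.blockDiag (mem_gg.2 (hb ▸ hX))
    refine ⟨c, fun α hα => ?_⟩
    obtain ⟨w, h1, h2⟩ := k1_eig hα
    have h3 := hv (Units.mk0 _ (hne α hα)) (fun p => if p.2 = a then w p.1 else 0) (by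
      rw [k1_block, map_pow, h2]
      funext p
      simp)
    rw [hb, k1_block, hc] at h3
    obtain ⟨i, hi⟩ := Function.ne_iff.1 h1
    have h4 := congrFun h3 (i, a)
    simp only [if_true, smul_mulVec, one_mulVec, Pi.smul_apply, smul_eq_mul] at h4
    exact (mul_right_cancel₀ hi h4).symm
  obtain ⟨α₀, hα₀, -⟩ := hfr a 1 0 one_pos
  have hex : ∀ α, ∃ N : ℕ, 0 < N ∧ ((R a φ).charpoly.IsRoot α → (α ^ n) ^ N = (α₀ ^ n) ^ N) :=
    fun α => by
    by_cases hα : (R a φ).charpoly.IsRoot α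
    · by_contra! hc
      obtain ⟨L, hL⟩ := exists_log (y := Units.mk0 _ (hne α hα)) (z := Units.mk0 _ (hne α₀ hα₀))
        fun N hN e => (hc N hN).2 (by simpa using congrArg Units.val e)
      obtain ⟨c, hc'⟩ := key L
      exact hL ((hc' α hα).trans (hc' α₀ hα₀).symm)
    · exact ⟨1, one_pos, fun k => (hα k).elim⟩
  choose N hN hN' using hex
  classical
  obtain ⟨α, hα, e⟩ := hfr a (n * ∏ β ∈ (R a φ).charpoly.roots.toFinset, N β)
    (α₀ ^ (n * ∏ β ∈ (R a φ).charpoly.roots.toFinset, N β))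
    (mul_pos h0 (Finset.prod_pos fun β _ => hN β))
  obtain ⟨k, hk'⟩ := Finset.dvd_prod_of_mem N (Multiset.mem_toFinset.2
    ((Polynomial.mem_roots (charpoly_monic _).ne_zero).2 hα))
  exact e (by rw [hk', pow_mul, pow_mul, pow_mul, pow_mul, hN' α hα])

theorem Core.onto (h : Core O l R pm nu) (a : (ZMod l)ˣ) :
    ∀ Y ∈ sl Ω d, ∃ X ∈ der (gg R pm.ker), X a = Y := by
  rcases trichotomy (W := (gg R pm.ker).map (LinearMap.proj a)) (h.rp a)
    (by
      rintro _ ⟨X, hX, rfl⟩ _ ⟨Y, hY, rfl⟩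
      exact ⟨_, gg_br _ X hX Y hY, rfl⟩)
    (by
      rintro γ _ ⟨X, hX, rfl⟩
      exact ⟨_, gg_ad _ γ hX, rfl⟩) with k | k | k
  · exact (h.not_scalar a fun X hX => k _ ⟨X, hX, rfl⟩).elim
  · have h1 : der ((gg R pm.ker).map (LinearMap.proj a)) ≤
        (der (gg R pm.ker)).map (LinearMap.proj a) := Submodule.span_le.2 (by
      rintro _ ⟨_, ⟨X, hX, rfl⟩, _, ⟨Y, hY, rfl⟩, rfl⟩
      exact ⟨_, br_mem_der hX hY, rfl⟩)
    exact fun Y hY => h1 (k ▸ hY)
  · exact (h.neg_ne a (h.dual_eq k).symm).elim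

end Pool.Agent.Lib.MP_d61fbb_ag.SE
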