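import Pool.Agent.Lib.MP_d61fbb_ag.SE.KB

/-! The special unitary group lies in the closure. -/

set_option autoImplicit false

noncomputable section

namespace Pool.Agent.Lib.MP_d61fbb_ag.SE

open Matrix Equiv IsLocalRing

variable {Ω : Type} [Field Ω] [CharZero Ω] [IsAlgClosed Ω] {O : ValuationSubring Ω} {l d : ℕ}
  [Fact l.Prime] {Γ : Type} [Group Γ] {R : (ZMod l)ˣ → Γ →* Mat d Ω}
  {pm : Γ →* Perm (Fin (d + 1))} {nu : Γ →* Ω}

omit [CharZero Ω] [IsAlgClosed Ω] in
theorem ks_cancel {β Z Z' : Mat d Ω} (hβ : β.det ≠ 0) (e : Zᵀ * β = Z'ᵀ * β) : Z = Z' :=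
  transpose_injective (((isUnit_iff_isUnit_det β).2 hβ.isUnit).mul_right_cancel e)

omit [CharZero Ω] [IsAlgClosed Ω] in
theorem ks_one : blockDiagonal (fun _ : (ZMod l)ˣ => (1 : Mat d Ω)) ∈ SS R ⊤ :=
  ⟨1, trivial, by simp only [map_one]⟩

theorem Core.ks_step (h : Core O l R pm nu) (a : (ZMod l)ˣ) {β : Mat d Ω} (hβ : β.det ≠ 0)
    (hb : ∀ γ, (R (-a) γ)ᵀ * β * R a γ = nu γ • β) {X : Mat d Ω} (h2 : X * X = 0)
    (h0 : X.trace = 0) : ∃ u' : Mat d Ω, u'ᵀ * β * (1 + X) = β ∧ Pt (SS R ⊤)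
      (blockDiagonal fun c => if c = a then 1 + X else if c = -a then u' else 1) := by
  obtain ⟨Y, hY, rfl, e⟩ := h.pair a X h0
  have hd : (d : Ω) ≠ 0 := Nat.cast_ne_zero.2 (by have := (h.rp a).big.le; omega)
  have hT : Tangent (SS R pm.ker) (blockDiagonal Y) := mem_gg.1 ((gg_br _).der_le hY)
  obtain ⟨t, ht⟩ := tangent_form (SS_one pm.ker) a (-a) β
    (fun e => by
      have : NeZero d := ⟨fun e => hd (by simp [e])⟩
      exact hβ (e ▸ det_zero))
    (by
      rintro _ ⟨γ, -, rfl⟩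
      exact ⟨nu γ, by rw [blockDiag_blockDiagonal]; exact hb γ⟩) hT
  have t0 : t = 0 := by
    have h1 := congrArg (fun M => (M * β⁻¹).trace) ht
    simp only [add_mul, smul_mul, trace_add, trace_smul] at h1
    rw [mul_nonsing_inv_cancel_right _ _ hβ.isUnit, trace_mul_cycle, nonsing_inv_mul _ hβ.isUnit,
      mul_nonsing_inv _ hβ.isUnit, one_mul, h0, trace_transpose,
      mem_sl.1 (der_gg_sl _ hY (-a)), trace_one, Fintype.card_fin, add_zero, smul_eq_mul] at h1
    exact (mul_eq_zero.1 h1.symm).resolve_right hd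
  rw [t0, zero_smul, add_eq_zero_iff_eq_neg] at ht
  have h3 : Y (-a) * Y (-a) = 0 := ks_cancel hβ (by
    rw [transpose_mul, mul_assoc, ht, mul_neg, ← mul_assoc, ht, neg_mul, mul_assoc, h2]
    simp)
  refine ⟨1 + Y (-a), ?_, ?_⟩
  · rw [transpose_add, transpose_one, add_mul, one_mul, ht, add_mul, mul_add, mul_add, neg_mul,
      neg_mul, mul_assoc β (Y a) (Y a), h2]
    simp
  · have h4 := pt_mono (S := SS R pm.ker) (S' := SS R ⊤) (fun _ ⟨γ, _, e⟩ => ⟨γ, trivial, e⟩)
      (pt_one_add (SS_mul _) (SS_one _) hT (by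
        rw [← blockDiagonal_mul, ← blockDiagonal_zero]
        congr 1
        funext c
        by_cases h5 : c = a
        · rw [h5, h2, Pi.zero_apply]
        by_cases h6 : c = -a
        · rw [h6, h3, Pi.zero_apply]
        · rw [e c h5 h6, mul_zero, Pi.zero_apply]))
    rw [← blockDiagonal_one, ← blockDiagonal_add] at h4
    refine Eq.subst (congrArg blockDiagonal (funext fun c => ?_)) h4
    rw [Pi.add_apply, Pi.one_apply]
    split_ifs with h5 h6
    · rw [h5]
    · rw [h6]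
    · rw [e c h5 h6, add_zero]

theorem Core.su_one (h : Core O l R pm nu) (a : (ZMod l)ˣ) {β : Mat d Ω} (hβ : β.det ≠ 0)
    (hb : ∀ γ, (R (-a) γ)ᵀ * β * R a γ = nu γ • β) {u u' : Mat d Ω} (hu : u.det = 1)
    (hu' : u'ᵀ * β * u = β) :
    Pt (SS R ⊤) (blockDiagonal fun c => if c = a then u else if c = -a then u' else 1) := by
  obtain ⟨v, hv, k⟩ := sl_induction (fun u => ∃ u' : Mat d Ω, u'ᵀ * β * u = β ∧ Pt (SS R ⊤)
      (blockDiagonal fun c => if c = a then u else if c = -a then u' else 1))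
    ⟨1, by simp, by
      simp only [ite_self]
      exact pt_self ks_one⟩
    (fun M N ⟨M', h1, h2⟩ ⟨N', h3, h4⟩ => ⟨M' * N', by
      rw [transpose_mul, mul_assoc N'ᵀ, mul_assoc N'ᵀ, ← mul_assoc _ M, h1, ← mul_assoc, h3], by
      have h5 := h2.mul (SS_mul ⊤) h4
      rw [← blockDiagonal_mul] at h5
      refine Eq.subst (congrArg blockDiagonal (funext fun c => ?_)) h5
      split_ifs <;> simp⟩)
    (fun X h2 h0 => h.ks_step a hβ hb h2 h0) u hu
  have e : v = u' := ks_cancel (β := β * u) (by rwa [det_mul, hu, mul_one])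
    (by rw [← mul_assoc, ← mul_assoc, hv, hu'])
  exact e ▸ k

theorem Core.su (h : Core O l R pm nu) {β : (ZMod l)ˣ → Mat d Ω} (hβ : ∀ a, (β a).det ≠ 0)
    (hb : ∀ a γ, (R (-a) γ)ᵀ * β a * R a γ = nu γ • β a) {u : (ZMod l)ˣ → Mat d Ω}
    (hu : ∀ a : (ZMod l)ˣ, (a : ZMod l).val < ((-a : (ZMod l)ˣ) : ZMod l).val →
      (u a).det = 1 ∧ (u (-a))ᵀ * β a * u a = β a) :
    Pt (SS R ⊤) (blockDiagonal u) := by
  have key : ∀ T : Finset (ZMod l)ˣ,
      (∀ a ∈ T, (a : ZMod l).val < ((-a : (ZMod l)ˣ) : ZMod l).val) →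
      Pt (SS R ⊤) (blockDiagonal fun c => if c ∈ T ∨ -c ∈ T then u c else 1) := fun T => by
    induction T using Finset.induction_on with
    | empty =>
      intro _
      simp only [Finset.notMem_empty, or_self, if_false]
      exact pt_self ks_one
    | insert a T ha ih =>
      intro hT
      have h1 := hT a (Finset.mem_insert_self a T)
      have h2 : -a ∉ T := fun e => by
        have := hT _ (Finset.mem_insert_of_mem e)
        rw [neg_neg] at this
        omega
      have h3 := (h.su_one a (hβ a) (hb a) (hu a h1).1 (hu a h1).2).mul (SS_mul ⊤)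
        (ih fun c hc => hT c (Finset.mem_insert_of_mem hc))
      rw [← blockDiagonal_mul] at h3
      refine Eq.subst (congrArg blockDiagonal (funext fun c => ?_)) h3
      by_cases h4 : c = a
      · simp [h4, ha, h2]
      by_cases h5 : c = -a
      · simp [h5, ha, h2, h.neg_ne a]
      · simp [h4, h5, neg_eq_iff_eq_neg]
  have h1 := key (Finset.univ.filter fun a : (ZMod l)ˣ =>
    (a : ZMod l).val < ((-a : (ZMod l)ˣ) : ZMod l).val) fun a ha => (Finset.mem_filter.1 ha).2
  refine Eq.subst (congrArg blockDiagonal (funext fun c => if_pos ?_)) h1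
  rw [Finset.mem_filter_univ, Finset.mem_filter_univ, neg_neg]
  exact lt_or_gt_of_ne fun e => h.neg_ne c (Units.ext (ZMod.val_injective l e)).symm

end Pool.Agent.Lib.MP_d61fbb_ag.SE
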