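import Pool.Agent.Lib.MP_d61fbb_ag.SE.AD

/-! Reduction of spaces of matrices modulo the maximal ideal. -/

set_option autoImplicit false

noncomputable section

namespace Pool.Agent.Lib.MP_d61fbb_ag.SE

open Matrix Equiv IsLocalRing

variable {Ω : Type} [Field Ω] {O : ValuationSubring Ω} {m n : Type} [Fintype m] [Fintype n]

theorem l0_vec {E : Type} [Fintype E] {c : E → Ω} (h : c ≠ 0) :
    ∃ a : Ω, a ≠ 0 ∧ ∃ c' : E → O, (∀ e, a * c e = c' e) ∧ ∃ e, c' e = 1 := by
  obtain ⟨e₁, h₁⟩ := Function.ne_iff.1 h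
  obtain ⟨e₀, -, h₀⟩ := Finset.exists_max_image Finset.univ (fun e => O.valuation (c e))
    ⟨e₁, Finset.mem_univ _⟩
  have h2 : c e₀ ≠ 0 := fun e => h₁ (by
    have h3 := h₀ e₁ (Finset.mem_univ _)
    rw [e, map_zero, le_zero_iff, map_eq_zero] at h3
    exact h3)
  refine ⟨(c e₀)⁻¹, inv_ne_zero h2, fun e => ⟨(c e₀)⁻¹ * c e, (O.valuation_le_one_iff _).1 ?_⟩,
    fun _ => rfl, e₀, Subtype.ext (inv_mul_cancel₀ h2)⟩
  rw [map_mul, map_inv₀]
  exact inv_mul_le_one_of_le₀ (h₀ e (Finset.mem_univ _)) zero_le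

omit [Fintype m] [Fintype n] in
theorem l0_sum {E : Type} [Fintype E] {B : E → Matrix m n Ω} {b : E → Matrix m n (ResidueField O)}
    (h : ∀ e, Lift O (B e) (b e)) (c : E → O) :
    Lift O (∑ e, (c e : Ω) • B e) (∑ e, residue O (c e) • b e) := by
  classical
  induction (Finset.univ : Finset E) using Finset.induction_on with
  | empty => simpa using Lift.zero
  | insert e s he ih =>
    rw [Finset.sum_insert he, Finset.sum_insert he]
    exact ((h e).smul (c e)).add ih

omit [Fintype m] [Fintype n] in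
theorem l0_ne {E : Type} [Fintype E] {B : E → Matrix m n Ω} {b : E → Matrix m n (ResidueField O)}
    (h : ∀ e, Lift O (B e) (b e)) (hb : LinearIndependent (ResidueField O) b) {c : E → O} {e : E}
    (he : c e = 1) : ¬ Lift O (∑ e, (c e : Ω) • B e) 0 := fun k => by
  have h1 := Fintype.linearIndependent_iff.1 hb _ ((l0_sum h c).unique k) e
  rw [he, map_one] at h1
  exact one_ne_zero h1

theorem exists_prim {M : Matrix m n Ω} (h : M ≠ 0) :
    ∃ c : Ω, c ≠ 0 ∧ ∃ N, N ≠ 0 ∧ Lift O (c • M) N := by
  obtain ⟨a, ha, c, h1, ⟨i, j⟩, h2⟩ := l0_vec (O := O) (c := fun p : m × n => M p.1 p.2)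
    fun e => h (Matrix.ext fun i j => congrFun e (i, j))
  refine ⟨a, ha, _, fun e => ?_, Matrix.of fun i j => c (i, j),
    Matrix.ext fun i j => (h1 (i, j)).symm, rfl⟩
  have h3 : residue O (c (i, j)) = 0 := congrFun (congrFun e i) j
  rw [h2, map_one] at h3
  exact one_ne_zero h3

theorem lift_li {E : Type} [Fintype E] {B : E → Matrix m n Ω} {b : E → Matrix m n (ResidueField O)}
    (h : ∀ e, Lift O (B e) (b e)) (hb : LinearIndependent (ResidueField O) b) :
    LinearIndependent Ω B := by
  refine Fintype.linearIndependent_iff.2 fun c hc => congrFun (by_contra fun h0 : c ≠ 0 => ?_)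
  obtain ⟨a, -, c', h1, e, h2⟩ := l0_vec (O := O) h0
  refine l0_ne h hb h2 ?_
  simp only [← h1, mul_smul, ← Finset.smul_sum, hc, smul_zero]
  exact Lift.zero

theorem lift_coords {E : Type} [Fintype E] {B : E → Matrix m n Ω}
    {b : E → Matrix m n (ResidueField O)} (h : ∀ e, Lift O (B e) (b e))
    (hb : LinearIndependent (ResidueField O) b) {c : E → Ω} {N : Matrix m n (ResidueField O)}
    (hc : Lift O (∑ e, c e • B e) N) :
    ∃ c' : E → O, (∀ e, c e = c' e) ∧ N = ∑ e, residue O (c' e) • b e := by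
  suffices k : ∀ e, c e ∈ O from
    ⟨fun e => ⟨c e, k e⟩, fun _ => rfl, hc.unique (l0_sum h fun e => ⟨c e, k e⟩)⟩
  by_cases h0 : c = 0
  · intro e
    rw [h0]
    exact O.zero_mem
  obtain ⟨a, ha, c', h1, e, h2⟩ := l0_vec (O := O) h0
  by_cases h3 : a⁻¹ ∈ O
  · intro e
    rw [← inv_mul_cancel_left₀ ha (c e), h1]
    exact O.mul_mem _ _ h3 (c' e).2
  · have h4 : a ∈ O := (O.mem_or_inv_mem a).resolve_right h3
    have h5 : residue O ⟨a, h4⟩ = 0 := by
      rw [residue_eq_zero_iff, mem_maximalIdeal, mem_nonunits_iff, isUnit_iff_exists_inv]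
      rintro ⟨x, hx⟩
      exact h3 (eq_inv_of_mul_eq_one_right (congrArg Subtype.val hx) ▸ x.2)
    have h6 := hc.smul ⟨a, h4⟩
    rw [h5, zero_smul] at h6
    refine (l0_ne h hb h2 ?_).elim
    simpa only [← h1, mul_smul, ← Finset.smul_sum] using h6

theorem l0_trace {k : Type} [Field k] (φ : Matrix m n k →ₗ[k] k) :
    ∃ P : Matrix n m k, ∀ N, φ N = (P * N).trace := by
  classical
  refine ⟨Matrix.of fun j i => φ (single i j 1), fun N => ?_⟩
  conv_lhs => rw [matrix_eq_sum_single N]
  simp only [map_sum, Matrix.trace, diag_apply, mul_apply, of_apply]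
  rw [Finset.sum_comm]
  refine Finset.sum_congr rfl fun j _ => Finset.sum_congr rfl fun i _ => ?_
  rw [mul_comm, ← smul_eq_mul, ← map_smul, smul_single, smul_eq_mul, mul_one]

theorem finrank_red (V : Submodule Ω (Matrix m n Ω)) :
    Module.finrank (ResidueField O) (red O V) = Module.finrank Ω V := by
  let β := Module.finBasis (ResidueField O) (red O V)
  refine le_antisymm ?_ ?_
  · choose B hB hl using fun e => (β e).2
    have h1 : LinearIndependent Ω B :=
      lift_li hl (β.linearIndependent.map' (red O V).subtype (Submodule.ker_subtype _))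
    have h2 : LinearIndependent Ω fun e => (⟨B e, hB e⟩ : V) :=
      LinearIndependent.of_comp V.subtype h1
    simpa using h2.fintype_card_le_finrank
  · obtain ⟨g, hg⟩ := (red O V).subtype.exists_leftInverse_of_injective (Submodule.ker_subtype _)
    choose P hP using fun e => l0_trace (β.coord e ∘ₗ g)
    choose Q hQ using fun e => exists_lift (P e)
    let Φ : V →ₗ[Ω] Fin (Module.finrank (ResidueField O) (red O V)) → Ω :=
      { toFun := fun M e => (Q e * M.1).trace
        map_add' := fun M M' => funext fun e => by simp [Matrix.mul_add]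
        map_smul' := fun c M => funext fun e => by simp }
    have h1 : Function.Injective Φ := by
      refine (injective_iff_map_eq_zero Φ).2 fun M hM => Subtype.ext (by_contra fun h0 => ?_)
      obtain ⟨c, -, N, hN, hl⟩ := exists_prim (O := O) h0
      have h2 : N ∈ red O V := ⟨_, V.smul_mem c M.2, hl⟩
      have h3 : g N = ⟨N, h2⟩ := LinearMap.congr_fun hg ⟨N, h2⟩
      refine hN (congrArg Subtype.val (h3.symm.trans (β.forall_coord_eq_zero_iff.1 fun e => ?_)))
      refine (hP e N).trans (((hQ e).mul hl).trace_zero ?_)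
      have h4 : (Q e * M.1).trace = 0 := congrFun hM e
      rw [Matrix.mul_smul, trace_smul, h4, smul_zero]
    simpa using LinearMap.finrank_le_finrank_of_injective h1

theorem span_of_lift {E : Type} [Fintype E] {B : E → Matrix m n Ω}
    {b : E → Matrix m n (ResidueField O)} (h : ∀ e, Lift O (B e) (b e))
    (hb : LinearIndependent (ResidueField O) b) {V : Submodule Ω (Matrix m n Ω)} (hV : ∀ e, B e ∈ V)
    (hs : Submodule.span (ResidueField O) (Set.range b) = red O V) :
    Submodule.span Ω (Set.range B) = V := by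
  refine Submodule.eq_of_le_of_finrank_eq (Submodule.span_le.2 (Set.range_subset_iff.2 hV)) ?_
  rw [finrank_span_eq_card (lift_li h hb), ← finrank_red (O := O), ← hs, finrank_span_eq_card hb]

end Pool.Agent.Lib.MP_d61fbb_ag.SE
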