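import Pool.Agent.Lib.MP_d61fbb_ag.SE.L0
import Pool.Agent.Lib.MP_d61fbb_ag.SE.G3

/-! Lifting the three cases of the classification. -/

set_option autoImplicit false

noncomputable section

namespace Pool.Agent.Lib.MP_d61fbb_ag.SE

open Matrix Equiv IsLocalRing

variable {Ω : Type} [Field Ω] [CharZero Ω] {O : ValuationSubring Ω} {d : ℕ} {Γ : Type} [Group Γ]
  {R : Γ →* Mat d Ω} {pm : Γ →* Perm (Fin (d + 1))} {W V U : Submodule Ω (Mat d Ω)}

omit [CharZero Ω] in
theorem l1a_eq (h : U ≤ V) (k : red O V ≤ red O U) : U = V :=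
  Submodule.eq_of_le_of_finrank_le h (by
    rw [← finrank_red (O := O), ← finrank_red (O := O)]
    exact Submodule.finrank_mono k)

omit [CharZero Ω] in
theorem l1a_mono (h : U ≤ V) : der U ≤ der V :=
  Submodule.span_mono fun _ ⟨X, hX, Y, hY, e⟩ => ⟨X, h hX, Y, h hY, e⟩

omit [CharZero Ω] in
theorem l1a_sl (W : Submodule Ω (Mat d Ω)) : der W ≤ sl Ω d :=
  Submodule.span_le.2 fun _ ⟨X, _, Y, _, e⟩ => by
    rw [e, SetLike.mem_coe, mem_sl, trace_sub, trace_mul_comm, sub_self]

omit [CharZero Ω] in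
theorem l1a_ad (h : Ad R W) : Ad R (der W) := fun γ X hX => by
  induction hX using Submodule.span_induction with
  | mem _ k =>
    obtain ⟨X, hX, Y, hY, rfl⟩ := k
    have key : ∀ X Y : Mat d Ω, R γ * X * R γ⁻¹ * (R γ * Y * R γ⁻¹) = R γ * (X * Y) * R γ⁻¹ :=
      fun X Y => by
        rw [show R γ * X * R γ⁻¹ * (R γ * Y * R γ⁻¹) = R γ * (X * (R γ⁻¹ * R γ) * Y) * R γ⁻¹ by
          simp only [mul_assoc], ← map_mul, inv_mul_cancel, map_one, mul_one]
    rw [mul_sub, sub_mul, ← key, ← key]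
    exact br_mem_der (h γ X hX) (h γ Y hY)
  | zero => rw [mul_zero, zero_mul]; exact zero_mem _
  | add X Y _ _ a b => rw [mul_add, add_mul]; exact add_mem a b
  | smul c X _ a => rw [mul_smul_comm, smul_mul_assoc]; exact Submodule.smul_mem _ c a

/-- The trace form. -/
def l1aB (Ω : Type) [Field Ω] (d : ℕ) : LinearMap.BilinForm Ω (Mat d Ω) :=
  (LinearMap.mul Ω (Mat d Ω)).compr₂ (Matrix.traceLinearMap (Fin d) Ω Ω)

omit [CharZero Ω] in
theorem l1aB_refl : (l1aB Ω d).IsRefl := fun X Y h => (trace_mul_comm Y X).trans h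

omit [CharZero Ω] in
theorem l1aB_nd : (l1aB Ω d).Nondegenerate :=
  (LinearMap.IsRefl.nondegenerate_iff_separatingLeft (B := l1aB Ω d) l1aB_refl).2 fun X h =>
    ext_iff_trace_mul_right.2 fun Y => (h Y).trans (by rw [Matrix.zero_mul, trace_zero])

omit [CharZero Ω] in
theorem der_red_le (W : Submodule Ω (Mat d Ω)) : der (red O W) ≤ red O (der W) :=
  Submodule.span_le.2 fun _ ⟨_, ⟨_, hM, k⟩, _, ⟨_, hM', k'⟩, e⟩ =>
    ⟨_, br_mem_der hM hM', e ▸ (k.mul k').sub (k'.mul k)⟩

omit [CharZero Ω] in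
theorem scalar_case (h1 : (1 : Mat d Ω) ∈ W)
    (h : red O W = ResidueField O ∙ (1 : Mat d (ResidueField O))) : W = Ω ∙ (1 : Mat d Ω) :=
  (l1a_eq (O := O) ((Submodule.span_singleton_le_iff_mem _ _).2 h1) (h.trans_le
    ((Submodule.span_singleton_le_iff_mem _ _).2
      ⟨1, Submodule.mem_span_singleton_self _, Lift.one⟩))).symm

omit [CharZero Ω] in
theorem sl_case (hR : Rp O R pm) (h : sl (ResidueField O) d ≤ red O W) : der W = sl Ω d :=
  l1a_eq (O := O) (l1a_sl W) fun _ ⟨_, hM, k⟩ =>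
    der_red_le W (l1a_mono h ((der_sl hR.two).ge (k.trace_zero hM)))

theorem split_exists (hR : Rp O R pm) (h1 : (1 : Mat d Ω) ∈ W) (hbr : Br W) (had : Ad R W)
    (h : red O W = so _ d ⊔ ResidueField O ∙ (1 : Mat d (ResidueField O))) :
    ∃ V U, Split O R V U := by
  have hd := hR.big.le
  have hc := so_sym_compl (d := d) hR.two hR.dim
  have e1 : red O (der W) = so _ d := by
    refine (Submodule.eq_of_le_of_finrank_le ((der_so hR.two hR.dim hd).ge.trans
      ((l1a_mono (h ▸ le_sup_left)).trans (der_red_le W))) ?_).symm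
    have k1 : der W < W := hbr.der_le.lt_of_ne fun e => by
      have k : (1 : Mat d Ω).trace = 0 := l1a_sl W (e.ge h1)
      rw [trace_one, Fintype.card_fin, Nat.cast_eq_zero] at k
      omega
    have k2 := Submodule.finrank_lt_finrank_of_lt k1
    have k3 := Submodule.finrank_add_le_finrank_add_finrank (so (ResidueField O) d)
      (ResidueField O ∙ (1 : Mat d (ResidueField O)))
    have k4 := finrank_span_le_card (R := ResidueField O) {(1 : Mat d (ResidueField O))}
    rw [Set.toFinset_singleton, Finset.card_singleton] at k4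
    rw [← h, finrank_red] at k3
    rw [finrank_red]
    exact Nat.lt_succ_iff.1 (k2.trans_le (k3.trans (Nat.add_le_add_left k4 _)))
  have e2 : red O ((l1aB Ω d).orthogonal (der W)) = sym _ d := by
    refine Submodule.eq_of_le_of_finrank_le (fun N ⟨M, hM, k⟩ => (perp_so hR.two hR.dim N).1
      fun X hX => ?_) ?_
    · obtain ⟨M', hM', k'⟩ := e1.ge hX
      exact (k'.mul k).trace_zero (hM M' hM')
    · have k1 := Submodule.finrank_add_eq_of_isCompl hc
      rw [finrank_red, LinearMap.BilinForm.finrank_orthogonal l1aB_nd, ← finrank_red (O := O), e1]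
      simp only [Module.finrank_matrix, Module.finrank_self] at k1 ⊢
      exact (Nat.eq_sub_of_add_eq' k1).le
  refine ⟨der W, (l1aB Ω d).orthogonal (der W), ?_, e1, e2, l1a_sl W, hbr.der,
    fun X hX Y hY Z hZ => ?_, l1a_ad had, fun γ Y hY Z hZ => ?_, fun X => ⟨fun hX Y hY => hY X hX,
      fun k => (LinearMap.BilinForm.orthogonal_orthogonal l1aB_nd l1aB_refl _).le fun Y hY =>
        l1aB_refl X Y (k Y hY)⟩⟩
  · refine (LinearMap.BilinForm.isCompl_orthogonal_iff_disjoint l1aB_refl).2 (disjoint_iff.2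
      (l1a_eq (O := O) bot_le fun N hN => ?_).symm)
    have k : N ∈ so (ResidueField O) d ⊓ sym _ d :=
      ⟨e1.le (red_mono inf_le_left hN), e2.le (red_mono inf_le_right hN)⟩
    rw [hc.inf_eq_bot, Submodule.mem_bot] at k
    exact k ▸ zero_mem _
  · have k : ((Z * X - X * Z) * Y).trace = 0 := hY _ (hbr.der Z hZ X hX)
    change (Z * (X * Y - Y * X)).trace = 0
    rw [mul_sub, trace_sub, ← mul_assoc, ← mul_assoc, trace_mul_comm _ X, ← mul_assoc, ← trace_sub,
      ← sub_mul, k]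
  · have k : (R γ⁻¹ * Z * R γ⁻¹⁻¹ * Y).trace = 0 := hY _ (l1a_ad had γ⁻¹ Z hZ)
    change (Z * (R γ * Y * R γ⁻¹)).trace = 0
    rw [← mul_assoc, trace_mul_comm, ← k, inv_inv]
    simp only [mul_assoc]

end Pool.Agent.Lib.MP_d61fbb_ag.SE
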