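import Pool.Agent.Lib.MP_d61fbb_ag.SE.L0
import Pool.Agent.Lib.MP_d61fbb_ag.SE.G5

/-! The invariant alternating form vanishes. -/

set_option autoImplicit false

noncomputable section

namespace Pool.Agent.Lib.MP_d61fbb_ag.SE

open Matrix Equiv IsLocalRing

variable {Ω : Type} [Field Ω] [CharZero Ω] {O : ValuationSubring Ω} {d : ℕ} {Γ : Type} [Group Γ]
  {R : Γ →* Mat d Ω} {pm : Γ →* Perm (Fin (d + 1))} {W V U : Submodule Ω (Mat d Ω)}

/-- The invariant alternating form. -/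
def l1bTau {K : Type} [Field K] (X Y Z : Mat d K) : K := ((X * Y - Y * X) * Z).trace

section tau

variable {K : Type} [Field K]

theorem l1b_cyc (X Y Z : Mat d K) : l1bTau X Y Z = l1bTau Y Z X := by
  unfold l1bTau
  rw [sub_mul, sub_mul, trace_sub, trace_sub, trace_mul_comm (Y * Z) X, trace_mul_comm (Y * X) Z,
    Matrix.mul_assoc X Y Z, Matrix.mul_assoc Z Y X]

theorem l1b_swap (X Y Z : Mat d K) : l1bTau Y X Z = -l1bTau X Y Z := by
  unfold l1bTau
  rw [← trace_neg, ← neg_mul, neg_sub]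

theorem l1b_self (X Z : Mat d K) : l1bTau X X Z = 0 := by
  unfold l1bTau
  rw [sub_self, zero_mul, trace_zero]

theorem l1b_sum3 {E : Type} [Fintype E] (B : E → Mat d K) (z : E → K) (X Y : Mat d K) :
    l1bTau X Y (∑ f, z f • B f) = ∑ f, z f * l1bTau X Y (B f) := by
  unfold l1bTau
  rw [Finset.mul_sum, trace_sum]
  refine Finset.sum_congr rfl fun f _ => ?_
  rw [Matrix.mul_smul, trace_smul, smul_eq_mul]

theorem l1b_sum {E : Type} [Fintype E] (B : E → Mat d K) (x y z : E → K) :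
    l1bTau (∑ f, x f • B f) (∑ f, y f • B f) (∑ f, z f • B f) =
      ∑ f1, ∑ f2, ∑ f3, x f1 * (y f2 * (z f3 * l1bTau (B f1) (B f2) (B f3))) := by
  rw [l1b_cyc, l1b_sum3]
  refine Finset.sum_congr rfl fun f1 _ => ?_
  rw [l1b_cyc, l1b_sum3, Finset.mul_sum]
  refine Finset.sum_congr rfl fun f2 _ => ?_
  rw [l1b_cyc, l1b_sum3, Finset.mul_sum, Finset.mul_sum]

theorem l1b_conj {P Q : Mat d K} (hPQ : Q * P = 1) (X Y Z : Mat d K) :
    l1bTau (P * X * Q) (P * Y * Q) (P * Z * Q) = l1bTau X Y Z := by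
  have e : ∀ A C : Mat d K, P * A * Q * (P * C * Q) = P * (A * C) * Q := fun A C => by
    calc P * A * Q * (P * C * Q) = P * A * (Q * P) * C * Q := by simp only [Matrix.mul_assoc]
      _ = P * (A * C) * Q := by rw [hPQ, Matrix.mul_one, Matrix.mul_assoc P A C]
  unfold l1bTau
  rw [e, e, ← Matrix.sub_mul, ← Matrix.mul_sub, e, trace_mul_comm, ← Matrix.mul_assoc, hPQ,
    Matrix.one_mul]

end tau

omit [CharZero Ω] in
theorem l1b_coords (hR : Rp O R pm) (hU : Ad R U) {E : Type} [Fintype E] [DecidableEq E]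
    {b : E → Mat d (ResidueField O)} {act : Perm (Fin (d + 1)) → E → E} {B : E → Mat d Ω}
    (hb : LinearIndependent (ResidueField O) b)
    (hact : ∀ π e, Hm _ π * b e * Hm _ π⁻¹ = b (act π e)) (hB : ∀ e, Lift O (B e) (b e))
    (hs : Submodule.span Ω (Set.range B) = U) (γ : Γ) (e : E) :
    ∃ c : E → O, R γ * B e * R γ⁻¹ = ∑ f, (c f : Ω) • B f ∧
      ∀ f, residue O (c f) = if f = act (pm γ) e then 1 else 0 := by
  have hm : R γ * B e * R γ⁻¹ ∈ Submodule.span Ω (Set.range B) := by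
    rw [hs]
    exact hU γ _ (hs ▸ Submodule.subset_span ⟨e, rfl⟩)
  obtain ⟨x, hx⟩ := (Submodule.mem_span_range_iff_exists_fun Ω).1 hm
  have hl : Lift O (∑ f, x f • B f) (b (act (pm γ) e)) := by
    rw [hx, ← hact, ← map_inv]
    exact ((hR.lift γ).mul (hB e)).mul (hR.lift γ⁻¹)
  obtain ⟨c, hc, hc'⟩ := lift_coords hB hb hl
  refine ⟨c, ?_, ?_⟩
  · rw [← hx]
    exact Finset.sum_congr rfl fun f _ => by rw [hc]
  · have h0 : ∑ f, (residue O (c f) - if f = act (pm γ) e then 1 else 0) • b f = 0 := by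
      simp only [sub_smul, Finset.sum_sub_distrib, ite_smul, one_smul, zero_smul,
        Finset.sum_ite_eq', Finset.mem_univ, if_true]
      rw [← hc', sub_self]
    intro f
    exact sub_eq_zero.1 (Fintype.linearIndependent_iff.1 hb _ h0 f)

omit [CharZero Ω] in
theorem l1b_basis (hR : Rp O R pm) (hU : Ad R U) {E : Type} [Fintype E]
    {b : E → Mat d (ResidueField O)} {act : Perm (Fin (d + 1)) → E → E} {B : E → Mat d Ω}
    (hb : LinearIndependent (ResidueField O) b)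
    (hact : ∀ π e, Hm _ π * b e * Hm _ π⁻¹ = b (act π e))
    (hsw : ∀ e1 e2 e3, e1 ≠ e2 → e1 ≠ e3 → e2 ≠ e3 → ∃ π ∈ pm.range,
      (act π e1 = e2 ∧ act π e2 = e1 ∧ act π e3 = e3) ∨
      (act π e1 = e3 ∧ act π e3 = e1 ∧ act π e2 = e2) ∨
      (act π e2 = e3 ∧ act π e3 = e2 ∧ act π e1 = e1))
    (hB : ∀ e, Lift O (B e) (b e)) (hs : Submodule.span Ω (Set.range B) = U) (f1 f2 f3 : E) :
    l1bTau (B f1) (B f2) (B f3) = 0 := by
  classical
  obtain ⟨⟨e1, e2, e3⟩, -, hmax⟩ := Finset.exists_max_image (Finset.univ : Finset (E × E × E))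
    (fun p => O.valuation (l1bTau (B p.1) (B p.2.1) (B p.2.2))) ⟨(f1, f2, f3), Finset.mem_univ _⟩
  by_cases hc : l1bTau (B e1) (B e2) (B e3) = 0
  · have := hmax (f1, f2, f3) (Finset.mem_univ _)
    simp only [hc, map_zero, le_zero_iff, map_eq_zero] at this
    exact this
  exfalso
  have ht : ∀ g1 g2 g3, ∃ t : O,
      l1bTau (B g1) (B g2) (B g3) = t * l1bTau (B e1) (B e2) (B e3) := fun g1 g2 g3 => by
    obtain ⟨t, ht⟩ := (O.valuation_le_iff _ _).1 (hmax (g1, g2, g3) (Finset.mem_univ _))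
    exact ⟨t, ht.symm⟩
  choose t ht using ht
  have h12 : e1 ≠ e2 := fun h => hc (by rw [h, l1b_self])
  have h13 : e1 ≠ e3 := fun h => hc (by rw [h, l1b_cyc, l1b_cyc, l1b_self])
  have h23 : e2 ≠ e3 := fun h => hc (by rw [h, l1b_cyc, l1b_self])
  obtain ⟨π, ⟨γ, rfl⟩, hπ⟩ := hsw e1 e2 e3 h12 h13 h23
  choose c hc1 hc2 using l1b_coords hR hU hb hact hB hs γ
  have hQ : R γ⁻¹ * R γ = 1 := by rw [← map_mul, inv_mul_cancel, map_one]
  have hinv := l1b_conj hQ (B e1) (B e2) (B e3)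
  rw [hc1, hc1, hc1, l1b_sum] at hinv
  have h1 : ∑ g1, ∑ g2, ∑ g3, c e1 g1 * (c e2 g2 * (c e3 g3 * t g1 g2 g3)) = 1 := by
    apply Subtype.ext
    apply mul_right_cancel₀ hc
    push_cast
    rw [one_mul]
    refine Eq.trans ?_ hinv
    simp only [Finset.sum_mul]
    refine Finset.sum_congr rfl fun g1 _ => Finset.sum_congr rfl fun g2 _ =>
      Finset.sum_congr rfl fun g3 _ => ?_
    rw [ht g1 g2 g3]
    ring
  have h2 := congrArg (residue O) h1
  simp only [map_sum, map_mul, map_one, hc2, ite_mul, one_mul, zero_mul, mul_ite, mul_zero,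
    Finset.sum_ite_eq', Finset.mem_univ, if_true] at h2
  have h3 : l1bTau (B (act (pm γ) e1)) (B (act (pm γ) e2)) (B (act (pm γ) e3)) =
      -l1bTau (B e1) (B e2) (B e3) := by
    rcases hπ with ⟨a1, a2, a3⟩ | ⟨a1, a2, a3⟩ | ⟨a1, a2, a3⟩
    · rw [a1, a2, a3, l1b_swap]
    · rw [a1, a2, a3, l1b_swap, l1b_cyc (B e1)]
    · rw [a1, a2, a3, l1b_swap, l1b_cyc (B e3)]
  have h4 : t (act (pm γ) e1) (act (pm γ) e2) (act (pm γ) e3) = -1 := by
    apply Subtype.ext
    apply mul_right_cancel₀ hc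
    rw [← ht, h3]
    push_cast
    ring
  rw [h4, map_neg, map_one] at h2
  exact hR.two (by linear_combination -h2)

theorem Split.uu (hR : Rp O R pm) (h : Split O R V U) {X Y : Mat d Ω} (hX : X ∈ U) (hY : Y ∈ U) :
    X * Y - Y * X ∈ V := by
  obtain ⟨E, _, b, act, hb, hsp, hact, hsw⟩ := edge_basis hR.dim hR.big
  have hm : ∀ e, b e ∈ red O U := fun e => by
    rw [h.redU, ← hsp]
    exact Submodule.subset_span ⟨e, rfl⟩
  choose B hBU hB using fun e => mem_red.1 (hm e)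
  have hs := span_of_lift hB hb hBU (hsp.trans h.redU.symm)
  refine (h.perp _).2 fun Z hZ => ?_
  rw [← hs] at hX hY hZ
  obtain ⟨x, rfl⟩ := (Submodule.mem_span_range_iff_exists_fun Ω).1 hX
  obtain ⟨y, rfl⟩ := (Submodule.mem_span_range_iff_exists_fun Ω).1 hY
  obtain ⟨z, rfl⟩ := (Submodule.mem_span_range_iff_exists_fun Ω).1 hZ
  refine (l1b_sum B x y z).trans ?_
  simp only [l1b_basis hR h.adU hb hact hsw hB hs, mul_zero, Finset.sum_const_zero]

end Pool.Agent.Lib.MP_d61fbb_ag.SE
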