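import Pool.Agent.Lib.MP_d61fbb_ag.SE.TD

/-! Formal properties of the Galois action and of Frobenius elements. -/

set_option autoImplicit false

noncomputable section

namespace Pool.Agent.Lib.MP_d61fbb_ag.SE

open Matrix Equiv IsLocalRing Polynomial

section

variable {k : Type} [Field k] {l : ℕ} {f : k[X]}

theorem sg_congr {σ τ : k ≃+* k} (h : σ = τ) (hσ : f.map σ.toRingHom = f)
    (hτ : f.map τ.toRingHom = f) : sg l σ hσ = sg l τ hτ := by
  subst h
  rfl

theorem m1_pic_one {B : Type} [CommRing B] : pic (RingHom.id B) = 1 :=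
  AddMonoidHom.ext fun _ => CommRing.Pic.mapRingHom_id_apply

theorem m1_pic_mul {B : Type} [CommRing B] (θ η : B →+* B) : pic θ * pic η = pic (θ.comp η) :=
  AddMonoidHom.ext fun _ => CommRing.Pic.mapRingHom_mapRingHom

theorem m1_tw_of (σ : k →+* k) (z : k) (hσ : f.map σ = f) (hz : z ^ l = 1) (x : k[X]) :
    tw σ z hσ hz (AdjoinRoot.of _ x) = AdjoinRoot.of _ (x.map σ) := AdjoinRoot.lift_of _

theorem m1_tw_root (σ : k →+* k) (z : k) (hσ : f.map σ = f) (hz : z ^ l = 1) :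
    tw σ z hσ hz (AdjoinRoot.root _) = AdjoinRoot.of _ (C z) * AdjoinRoot.root _ :=
  AdjoinRoot.lift_root _

theorem m1_tw_comp (σ τ ω : k →+* k) (z w u : k) (hσ : f.map σ = f) (hz : z ^ l = 1)
    (hτ : f.map τ = f) (hw : w ^ l = 1) (h : f.map ω = f) (hu : u ^ l = 1) (e : ω = σ.comp τ)
    (e' : u = σ w * z) : (tw σ z hσ hz).comp (tw τ w hτ hw) = tw ω u h hu := by
  refine AdjoinRoot.ringHom_ext (RingHom.ext fun x => ?_) ?_
  · simp only [RingHom.comp_apply, m1_tw_of, Polynomial.map_map, e]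
  · simp only [RingHom.comp_apply, m1_tw_of, m1_tw_root, map_mul, map_C, e', mul_assoc]

theorem sg_one (h : f.map (1 : k ≃+* k).toRingHom = f) : sg l (1 : k ≃+* k) h = 1 := by
  rw [sg, ← m1_pic_one]
  congr 1
  refine AdjoinRoot.ringHom_ext (RingHom.ext fun x => ?_) ?_
  · rw [RingHom.comp_apply, m1_tw_of]
    exact congrArg _ Polynomial.map_id
  · rw [m1_tw_root, C_1, map_one, one_mul, RingHom.id_apply]

theorem sg_mul {σ τ : k ≃+* k} (hσ : f.map σ.toRingHom = f) (hτ : f.map τ.toRingHom = f)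
    (h : f.map (σ * τ).toRingHom = f) : sg l (σ * τ) h = sg l σ hσ * sg l τ hτ := by
  rw [sg, sg, sg, m1_pic_mul, m1_tw_comp _ _ _ _ _ _ _ _ _ _ h (one_pow l) rfl (by simp)]

theorem sg_zt {σ : k ≃+* k} (hσ : f.map σ.toRingHom = f) {z : k} (hz : IsPrimitiveRoot z l)
    (h : σ z = z) : sg l σ hσ * zt f hz = zt f hz * sg l σ hσ := by
  rw [sg, zt, m1_pic_mul, m1_pic_mul,
    m1_tw_comp _ _ _ _ _ _ _ _ _ _ hσ hz.pow_eq_one rfl (by simp [h]),
    m1_tw_comp _ _ _ _ _ _ _ _ _ _ hσ hz.pow_eq_one rfl (by simp)]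

theorem m1_rs {R : ValuationSubring k} {x : k} (hx : x ∈ R) : rs R x = residue R ⟨x, hx⟩ :=
  dif_pos hx

theorem m1_rs_eq {R : ValuationSubring k} {x y : k} (hx : x ∈ R) (hy : y ∈ R) :
    rs R x = rs R y ↔ R.valuation (x - y) < 1 := by
  rw [m1_rs hx, m1_rs hy, ← sub_eq_zero, ← map_sub, residue_eq_zero_iff,
    ValuationSubring.valuation_lt_one_iff]
  rfl

theorem m1_val_root {R : ValuationSubring k} {N : ℕ} (hN : N ≠ 0) {x : k} (hx : x ^ N = 1) :
    R.valuation x = 1 :=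
  (pow_eq_one_iff_of_nonneg zero_le hN).1 (by rw [← map_pow, hx, map_one])

theorem m1_root_inj {R : ValuationSubring k} {N : ℕ} (hN : (N : ResidueField R) ≠ 0) {a b : k}
    (ha : a ^ N = 1) (hb : b ^ N = 1) (h : R.valuation (a - b) < 1) : a = b := by
  have h0 : N ≠ 0 := fun e => hN (by rw [e, Nat.cast_zero])
  have h1 : b ≠ 0 := fun e => by simp [e, h0] at hb
  have h2 : (a / b) ^ N = 1 := by rw [div_pow, ha, hb, div_one]
  have h3 : a / b ∈ R := (R.valuation_le_one_iff _).1 (m1_val_root h0 h2).le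
  have h4 : residue R ⟨a / b, h3⟩ = 1 := by
    rw [← m1_rs h3, ← map_one (residue R), ← show rs R 1 = residue R 1 from m1_rs R.one_mem,
      m1_rs_eq h3 R.one_mem, div_sub_one h1, map_div₀, m1_val_root h0 hb, div_one]
    exact h
  by_contra hne
  have h5 : ∑ i ∈ Finset.range N, (⟨a / b, h3⟩ : R) ^ i = 0 := Subtype.ext (by
    have := mul_geom_sum (a / b) N
    rw [h2, sub_self, mul_eq_zero, sub_eq_zero, div_eq_one_iff_eq h1] at this
    simpa using this.resolve_left hne)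
  have h6 := congrArg (residue R) h5
  simp only [map_sum, map_pow, h4, one_pow, Finset.sum_const, Finset.card_range, nsmul_eq_mul,
    mul_one, map_zero] at h6
  exact hN h6

theorem FrobAt.root {R : ValuationSubring k} {p : ℕ} {φ : k ≃+* k} (h : FrobAt R p φ) {N : ℕ}
    (hN : (N : ResidueField R) ≠ 0) {x : k} (hx : x ^ N = 1) : φ x = x ^ p :=
  m1_root_inj hN (by rw [← map_pow, hx, map_one]) (by rw [← pow_mul, mul_comm, pow_mul, hx, one_pow])
    (h.2 x ((R.valuation_le_one_iff _).1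
      (m1_val_root (fun e => hN (by rw [e, Nat.cast_zero])) hx).le))

theorem FrobAt.rs {R : ValuationSubring k} {p : ℕ} {φ : k ≃+* k} (h : FrobAt R p φ) {x : k}
    (hx : x ∈ R) : rs R (φ x) = rs R x ^ p := by
  rw [(m1_rs_eq ((h.1 x).2 hx) (pow_mem hx p)).2 (h.2 x hx), m1_rs hx, m1_rs (pow_mem hx p),
    ← map_pow]
  rfl

theorem rs_inj {R : ValuationSubring k} {x y : k} (hx : x ∈ R) (hy : y ∈ R)
    (h : R.valuation (x - y) = 1) : rs R x ≠ rs R y := fun e =>
  ((m1_rs_eq hx hy).1 e).ne h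

variable [Fact l.Prime] [IsAlgClosed k] [CharZero k]

theorem m1_cyc {σ : k ≃+* k} {n m : ℕ} {x : k} (hx : IsPrimitiveRoot x (l ^ n))
    (h : σ x = x ^ m) : PadicInt.toZModPow n (cyclotomicCharacter k l σ : ℤ_[l]) = m := by
  have h1 := cyclotomicCharacter.spec l σ x hx.pow_eq_one
  have h2 : NeZero (l ^ n) := ⟨pow_ne_zero _ (Fact.out : l.Prime).ne_zero⟩
  rw [h, (hx.isOfFinOrder h2.1).pow_eq_pow_iff_modEq, ← hx.eq_orderOf,
    ← ZMod.natCast_eq_natCast_iff, ZMod.natCast_zmod_val] at h1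
  exact h1.symm

theorem FrobAt.cyc {R : ValuationSubring k} {p : ℕ} {φ : k ≃+* k} (h : FrobAt R p φ)
    (hl : (l : ResidueField R) ≠ 0) : (cyclotomicCharacter k l φ : ℤ_[l]) = p :=
  PadicInt.ext_of_toZModPow.1 fun n => by
    obtain ⟨x, hx⟩ := HasEnoughRootsOfUnity.exists_primitiveRoot k (l ^ n)
    rw [map_natCast]
    exact m1_cyc hx (h.root (N := l ^ n) (by rw [Nat.cast_pow]; exact pow_ne_zero _ hl)
      hx.pow_eq_one)

theorem cyc_small (j : ℕ) : ∃ x : k, ∀ σ : k ≃+* k, σ x = x →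
    ‖(cyclotomicCharacter k l σ : ℤ_[l]) - 1‖ ≤ ((l : ℝ) ^ j)⁻¹ := by
  obtain ⟨x, hx⟩ := HasEnoughRootsOfUnity.exists_primitiveRoot k (l ^ j)
  refine ⟨x, fun σ h => ?_⟩
  rw [← zpow_natCast, ← _root_.zpow_neg, PadicInt.norm_le_pow_iff_mem_span_pow,
    ← PadicInt.ker_toZModPow, RingHom.mem_ker, map_sub, map_one,
    m1_cyc (m := 1) hx (by rw [h, pow_one]), Nat.cast_one, sub_self]

end

variable {K : Type} [Field K]

/-- The Galois action as a homomorphism. -/
theorem exists_galHom (l : ℕ) (f : K[X]) :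
    ∃ act : (AlgebraicClosure K ≃ₐ[K] AlgebraicClosure K) →*
      AddMonoid.End (Jac (AlgebraicClosure K) l (bar f)), ∀ γ, act γ = gal l f γ :=
  ⟨{ toFun := gal l f
     map_one' := sg_one (l := l) (f := bar f) Polynomial.map_id
     map_mul' := fun γ δ => by
      rw [gal, gal, gal, m1_pic_mul, m1_tw_comp _ _ (γ * δ).toRingEquiv.toRingHom _ _ 1 _ _ _ _ _
        (one_pow l) (RingHom.ext fun _ => rfl) (by rw [map_one, one_mul])] },
    fun _ => rfl⟩

theorem exists_pm {d : ℕ} {f : K[X]} {r : Fin (d + 1) → AlgebraicClosure K}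
    (hr : Function.Injective r) (hf : bar f = ∏ i, (X - C (r i))) :
    ∃ pm : (AlgebraicClosure K ≃ₐ[K] AlgebraicClosure K) →* Perm (Fin (d + 1)),
      ∀ γ i, γ (r i) = r (pm γ i) := by
  have h1 : ∀ x, aeval x f = 0 ↔ ∃ j, x = r j := fun x => by
    rw [← eval_map_algebraMap, show f.map _ = _ from hf, eval_prod, Finset.prod_eq_zero_iff]
    simp [sub_eq_zero]
  have h2 : ∀ (γ : AlgebraicClosure K ≃ₐ[K] AlgebraicClosure K) i, ∃ j, γ (r i) = r j :=
    fun γ i => (h1 _).1 (by rw [aeval_algHom_apply γ, (h1 _).2 ⟨i, rfl⟩, map_zero])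
  choose s hs using h2
  have h3 : ∀ γ, Function.Bijective (s γ) := fun γ => Finite.injective_iff_bijective.1
    fun i j e => hr (γ.injective (by rw [hs, hs, e]))
  refine ⟨MonoidHom.mk' (fun γ => Equiv.ofBijective _ (h3 γ)) fun γ δ => Equiv.ext fun i =>
    hr ?_, hs⟩
  change r (s (γ * δ) i) = r (s γ (s δ i))
  rw [← hs, ← hs, ← hs, AlgEquiv.mul_apply]

end Pool.Agent.Lib.MP_d61fbb_ag.SE
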