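import Pool.Agent.Lib.MP_d61fbb_ag.SE.M3
import Pool.Agent.Lib.MP_d61fbb_ag.SE.KA
import Pool.Agent.Lib.MP_d61fbb_ag.SE.T5
import Pool.Agent.Lib.MP_d61fbb_ag.SE.Z7

/-! The monodromy group from the abstract input. -/

set_option autoImplicit false

noncomputable section

namespace Pool.Agent.Lib.MP_d61fbb_ag.SE

open Matrix Equiv IsLocalRing Polynomial

variable {l d : ℕ} [Fact l.Prime] {Γ A : Type} [Group Γ] [AddCommGroup A] {zt : AddMonoid.End A}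
  {P : Fin (d + 1) → A} {act : Γ →* AddMonoid.End A} {pm : Γ →* Perm (Fin (d + 1))}
  {nu : Γ →* ℤ_[l]ˣ} {e : (Ix l d → ℚ_[l]) →+ A} {ρ : Γ →* Matrix (Ix l d) (Ix l d) ℚ_[l]}
  {ζ : PadicAlgCl l} {R : (ZMod l)ˣ → Γ →* Mat d (PadicAlgCl l)} {nu' : Γ →* PadicAlgCl l}

theorem Geo.main (h : Geo l d zt P act pm nu) :
    ∃ (e : (Ix l d → ℚ_[l]) →+ A) (Z B : Matrix (Ix l d) (Ix l d) ℚ_[l])
      (ρ : Γ →* Matrix (Ix l d) (Ix l d) ℚ_[l]),
      IsTate e ∧ Rep e zt Z ∧ (∀ γ, Rep e (act γ) (ρ γ)) ∧ Bᵀ = -B ∧ B.det ≠ 0 ∧ Zᵀ * B * Z = B ∧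
      (∀ γ, (ρ γ)ᵀ * B * ρ γ = ((nu γ : ℤ_[l]) : ℚ_[l]) • B) ∧
      ∀ g : Matrix (Ix l d) (Ix l d) (PadicAlgCl l), g.det ≠ 0 → (Zar (Set.range ρ) g ↔
        g * Z.map (algebraMap _ _) = Z.map (algebraMap _ _) * g ∧
          ∃ ν : PadicAlgCl l, gᵀ * B.map (algebraMap _ _) * g = ν • B.map (algebraMap _ _)) := by
  obtain ⟨e, ρ, ζ, R, nu', t⟩ := h.tat
  have c := h.core t
  have hd := h.big.le
  choose β0 hβ0 hb0 using c.beta
  let lt : (ZMod l)ˣ → Prop := fun a => (a : ZMod l).val < ((-a : (ZMod l)ˣ) : ZMod l).val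
  have hlt : ∀ a, lt (-a) ↔ ¬ lt a := fun a => by
    have : (a : ZMod l).val ≠ ((-a : (ZMod l)ˣ) : ZMod l).val := fun e =>
      c.neg_ne a (Units.ext (ZMod.val_injective l e).symm)
    simp only [lt, neg_neg]
    omega
  classical
  let β : (ZMod l)ˣ → Mat d (PadicAlgCl l) := fun a => if lt a then β0 a else -(β0 (-a))ᵀ
  have hβ : ∀ a, (β a).det ≠ 0 := fun a => by
    simp only [β]
    split_ifs
    · exact hβ0 a
    · rw [det_neg, det_transpose]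
      exact mul_ne_zero (pow_ne_zero _ (neg_ne_zero.2 one_ne_zero)) (hβ0 _)
  have ha : ∀ a, β (-a) = -(β a)ᵀ := fun a => by
    simp only [β, hlt, neg_neg]
    split_ifs <;> simp
  have hb : ∀ a γ, (R (-a) γ)ᵀ * β a * R a γ = nu' γ • β a := fun a γ => by
    simp only [β]
    split_ifs
    · exact hb0 a γ
    · have := congrArg transpose (hb0 (-a) γ)
      rw [neg_neg, transpose_mul, transpose_mul, transpose_transpose, transpose_smul,
        ← Matrix.mul_assoc] at this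
      rw [Matrix.mul_neg, Matrix.neg_mul, this, smul_neg]
  have hc : ∀ γ, (ρ γ).map (algebraMap ℚ_[l] (PadicAlgCl l)) * Zm _ l d =
      Zm _ l d * (ρ γ).map (algebraMap ℚ_[l] (PadicAlgCl l)) := fun γ => by
    rw [← Zm_map (algebraMap ℚ_[l] (PadicAlgCl l)), ← Matrix.map_mul, t.comm, Matrix.map_mul]
  obtain ⟨B1, hB1, hB1a, hB1Z, hB1g⟩ := form_of_blocks t.prim hβ ha
  obtain ⟨B, hB, hBa, hBj⟩ := descent (F := ℚ_[l]) (fun o : Option Γ => o.elim (Zm _ l d) ρ)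
    (fun o => o.elim 1 fun γ => ((nu γ : ℤ_[l]) : ℚ_[l])) B1 hB1 hB1a (by
      rintro (_ | γ)
      · simpa [Zm_map] using hB1Z
      · refine hB1g _ _ (hc γ) fun a => ?_
        simp only [Option.elim, ← t.hR, ← t.hnu]
        exact hb a γ)
  have hBZ : (Zm ℚ_[l] l d)ᵀ * B * Zm ℚ_[l] l d = B := by simpa using hBj none
  have hBρ : ∀ γ, (ρ γ)ᵀ * B * ρ γ = ((nu γ : ℤ_[l]) : ℚ_[l]) • B := fun γ => hBj (some γ)
  refine ⟨e, Zm _ l d, B, ρ, t.tate, t.rz, t.rep, hBa, hB, hBZ, hBρ, fun g hg =>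
    ⟨fun hz => ⟨hz.comm ?_, hz.sim ?_ ?_⟩, fun ⟨h1, ν, h2⟩ => ?_⟩⟩
  · rintro _ ⟨γ, rfl⟩
    exact t.comm γ
  · rintro rfl
    have : Nonempty (Ix l d) := ⟨(⟨0, by omega⟩, i0 l)⟩
    exact hB det_zero
  · rintro _ ⟨γ, rfl⟩
    exact ⟨_, hBρ γ⟩
  have mp : ∀ {M : Matrix (Ix l d) (Ix l d) ℚ_[l]} {x : ℚ_[l]}, Mᵀ * B * M = x • B →
      (M.map (algebraMap ℚ_[l] (PadicAlgCl l)))ᵀ * B.map (algebraMap _ _) * M.map (algebraMap _ _) =
        algebraMap ℚ_[l] (PadicAlgCl l) x • B.map (algebraMap _ _) := fun {M x} hM => by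
    rw [← transpose_map, ← Matrix.map_mul, ← Matrix.map_mul, hM]
    ext i j
    simp
  rw [Zm_map] at h1
  obtain ⟨β', hβ', hiff⟩ := form_blocks t.prim (B := B.map (algebraMap ℚ_[l] (PadicAlgCl l)))
    (by
      rw [← RingHom.mapMatrix_apply, ← RingHom.map_det]
      exact (_root_.map_ne_zero _).2 hB)
    (by simpa [Zm_map] using mp (hBZ.trans (one_smul _ B).symm))
  have k := c.gu hβ' (fun a γ => by
      rw [t.hR, t.hR, t.hnu]
      exact (hiff _ _ (hc γ)).1 (mp (hBρ γ)) a)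
    (fun a => blk_det t.prim h1 hg a) ((hiff g ν h1).1 h2)
  obtain ⟨T', -, hT⟩ := Tm_inv (d := d) t.prim
  have k2 := zar_of_pt ρ (fun γ => blockDiagonal fun a => R a γ) (Tm ζ l d) T' hT
    (fun γ => by simp only [t.hR]; exact Tm_comm t.prim (hc γ))
    (pt_mono (by rintro _ ⟨γ, -, rfl⟩; exact ⟨γ, rfl⟩) k)
  rwa [Matrix.mul_assoc, ← Tm_comm t.prim h1, ← Matrix.mul_assoc, hT, Matrix.one_mul] at k2

end Pool.Agent.Lib.MP_d61fbb_ag.SE
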