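import Pool.Agent.Lib.MP_d61fbb_ag.SE.C2

/-! Integral models over a valuation ring and specialisation of functions. -/

set_option autoImplicit false
set_option linter.unusedSectionVars false

noncomputable section

namespace Pool.Agent.Lib.MP_d61fbb_ag.SE

open Polynomial Function IsLocalRing

variable {k : Type} [Field k] {R : ValuationSubring k} {l : ℕ} {f : k[X]}
  {fb : (ResidueField R)[X]}

/-- A model of the curve over `R`. -/
structure Mdl (R : ValuationSubring k) (l : ℕ) (f : k[X]) (fb : (ResidueField R)[X]) where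
  g : R[X]
  h1 : g.map R.subtype = f
  h2 : g.map (residue R) = fb
  z : R
  z1 : IsPrimitiveRoot (z : k) l
  z2 : IsPrimitiveRoot (residue R z) l

namespace Mdl

variable (M : Mdl R l f fb)

/-- The map to the generic fibre. -/
def up : Bq l M.g →+* Crv k l f := bmap R.subtype 1 M.h1 (one_pow l)

/-- The map to the special fibre. -/
def dn : Bq l M.g →+* Crv (ResidueField R) l fb := bmap (residue R) 1 M.h2 (one_pow l)

/-- `β` is the reduction of a primitive multiple of `b`. -/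
def Sp (b : Crv k l f) (β : Crv (ResidueField R) l fb) : Prop :=
  β ≠ 0 ∧ ∃ (c : k) (b' : Bq l M.g), c ≠ 0 ∧ M.up b' = po l f (C c) * b ∧ M.dn b' = β

theorem s1_up (g : R[X]) : M.up (po l M.g g) = po l f (g.map R.subtype) := bmap_po ..

theorem s1_dn (g : R[X]) : M.dn (po l M.g g) = po l fb (g.map (residue R)) := bmap_po ..

theorem s1_up_cy : M.up (cy l M.g) = cy l f := by
  rw [up, bmap_cy, C_1, map_one, one_mul]

theorem s1_dn_cy : M.dn (cy l M.g) = cy l fb := by
  rw [dn, bmap_cy, C_1, map_one, one_mul]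

variable [Sm l f] [Sm l fb]

theorem sp_exists {b : Crv k l f} (hb : b ≠ 0) : ∃ β, M.Sp b β := by
  have hl := (Sm.prime f : l.Prime).ne_zero
  obtain ⟨G, hG, rfl⟩ := exists_rep hl b
  have h0 : G ≠ 0 := fun e => hb (by rw [e, map_zero])
  have h1 : (G.support.sigma fun i => (G.coeff i).support).Nonempty :=
    ⟨⟨G.natDegree, G.leadingCoeff.natDegree⟩, Finset.mem_sigma.2
      ⟨natDegree_mem_support_of_nonzero h0,
        natDegree_mem_support_of_nonzero (leadingCoeff_ne_zero.2 h0)⟩⟩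
  obtain ⟨⟨i, j⟩, h2, h3⟩ := Finset.exists_max_image _
    (fun q : (_ : ℕ) × ℕ => R.valuation ((G.coeff q.1).coeff q.2)) h1
  have h4 : (G.coeff i).coeff j ≠ 0 := mem_support_iff.1 (Finset.mem_sigma.1 h2).2
  have h5 : C (C ((G.coeff i).coeff j)⁻¹) * G ∈ lifts (mapRingHom R.subtype) := by
    refine (lifts_iff_coeff_lifts _).2 fun n => (mem_lifts _).1
      ((lifts_iff_coeff_lifts _).2 fun m => ?_)
    rw [coeff_C_mul, coeff_C_mul]
    refine ⟨⟨((G.coeff i).coeff j)⁻¹ * (G.coeff n).coeff m,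
      (R.valuation_le_one_iff _).1 ?_⟩, rfl⟩
    rw [map_mul, map_inv₀]
    by_cases e : (G.coeff n).coeff m = 0
    · simp [e]
    · exact inv_mul_le_one_of_le₀ (h3 ⟨n, m⟩ (Finset.mem_sigma.2 ⟨mem_support_iff.2 fun e' =>
        e (by rw [e', coeff_zero]), mem_support_iff.2 e⟩)) zero_le
  obtain ⟨G', h6⟩ := (mem_lifts _).1 h5
  have h7 : G'.degree < l := by
    rw [← degree_map_eq_of_injective (f := mapRingHom R.subtype)
      (map_injective _ R.subtype_injective), h6, ← smul_eq_C_mul]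
    exact (degree_smul_le _ _).trans_lt hG
  have h8 : (G'.coeff i).coeff j = 1 := by
    have e := congrArg (fun Q => (Q.coeff i).coeff j) h6
    simp only [coeff_map, coe_mapRingHom, coeff_C_mul, inv_mul_cancel₀ h4] at e
    exact Subtype.ext e
  refine ⟨_, fun e => ?_, _, AdjoinRoot.mk _ G', inv_ne_zero h4, ?_, rfl⟩
  · rw [dn, bmap_mk] at e
    have e' := congrArg (fun Q => (Q.coeff i).coeff j)
      (eq_zero_of_mk hl (degree_map_le.trans_lt h7) e)
    simp [h8] at e'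
  · rw [up, bmap_mk, h6, map_mul, AdjoinRoot.mk_C]

variable {M}

theorem Sp.ne {b : Crv k l f} {β : Crv (ResidueField R) l fb} (h : M.Sp b β) : b ≠ 0 := by
  obtain ⟨h0, c, b', -, h1, rfl⟩ := h
  rintro rfl
  rw [mul_zero, up, map_eq_zero_iff _
    (bmap_inj (Sm.prime f : l.Prime).ne_zero R.subtype_injective M.h1)] at h1
  exact h0 (by rw [h1, map_zero])

theorem s1_uni {b : Crv k l f} {c c' : k} {b1 b2 : Bq l M.g} (hc : c ≠ 0) (h : c' / c ∈ R)
    (h1 : M.up b1 = po l f (C c) * b) (h2 : M.up b2 = po l f (C c') * b) (h0 : M.dn b2 ≠ 0) :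
    ∃ a, a ≠ 0 ∧ M.dn b2 = po l fb (C a) * M.dn b1 := by
  have h3 : b2 = po l M.g (C ⟨_, h⟩) * b1 := by
    refine bmap_inj (Sm.prime f : l.Prime).ne_zero R.subtype_injective M.h1 ?_
    change M.up _ = M.up _
    rw [map_mul, s1_up, h1, h2, ← mul_assoc, ← map_mul, map_C, ← map_mul]
    exact congrArg (fun t => po l f (C t) * b) (div_mul_cancel₀ c' hc).symm
  have h4 : M.dn b2 = po l fb (C (residue R ⟨_, h⟩)) * M.dn b1 := by
    rw [h3, map_mul, s1_dn, map_C]
  exact ⟨_, fun e => h0 (by rw [h4, e, map_zero, map_zero, zero_mul]), h4⟩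

theorem Sp.unique {b : Crv k l f} {β β' : Crv (ResidueField R) l fb} (h : M.Sp b β)
    (h' : M.Sp b β') : ∃ c, c ≠ 0 ∧ β' = po l fb (C c) * β := by
  obtain ⟨h0, c, b1, hc, h1, rfl⟩ := h
  obtain ⟨h0', c', b2, hc', h2, rfl⟩ := h'
  rcases R.mem_or_inv_mem (c' / c) with e | e
  · exact s1_uni hc e h1 h2 h0'
  · rw [inv_div] at e
    obtain ⟨a, ha, e'⟩ := s1_uni hc' e h2 h1 h0
    exact ⟨a⁻¹, inv_ne_zero ha, by
      rw [e', ← mul_assoc, ← map_mul, ← map_mul, inv_mul_cancel₀ ha, map_one, map_one, one_mul]⟩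

theorem Sp.mul {b b' : Crv k l f} {β β' : Crv (ResidueField R) l fb} (h : M.Sp b β)
    (h' : M.Sp b' β') : M.Sp (b * b') (β * β') := by
  obtain ⟨h0, c, b1, hc, h1, rfl⟩ := h
  obtain ⟨h0', c', b2, hc', h2, rfl⟩ := h'
  refine ⟨mul_ne_zero h0 h0', c * c', b1 * b2, mul_ne_zero hc hc', ?_, map_mul _ _ _⟩
  rw [map_mul, h1, h2, map_mul, map_mul, mul_mul_mul_comm]

theorem Sp.rt {b : Crv k l f} {β : Crv (ResidueField R) l fb} (h : M.Sp b β) :
    M.Sp ((rt f M.z1).B b) ((rt fb M.z2).B β) := by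
  obtain ⟨h0, c, b1, hc, h1, rfl⟩ := h
  have hz : M.z ^ l = 1 := Subtype.ext M.z1.pow_eq_one
  have e1 : M.up.comp (bmap (RingHom.id R) M.z map_id hz) =
      ((SE.rt f M.z1).B : Crv k l f →+* _).comp M.up :=
    bq_ext (by simp [s1_up]) (by simp [s1_up]) (by simp [s1_up, s1_up_cy])
  have e2 : M.dn.comp (bmap (RingHom.id R) M.z map_id hz) =
      ((SE.rt fb M.z2).B : Crv _ l fb →+* _).comp M.dn :=
    bq_ext (by simp [s1_dn]) (by simp [s1_dn]) (by simp [s1_dn, s1_dn_cy])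
  refine ⟨(map_ne_zero_iff _ (SE.rt fb M.z2).B.injective).2 h0, c,
    bmap (RingHom.id R) M.z map_id hz b1, hc, ?_, DFunLike.congr_fun e2 b1⟩
  refine (DFunLike.congr_fun e1 b1).trans ?_
  change (SE.rt f M.z1).B (M.up b1) = _
  rw [h1, map_mul, Au.B_po, rt_map]

theorem s1_po (g : R[X]) {c : k} (hc : c ≠ 0) {G : k[X]} (h : g.map R.subtype = C c * G)
    (h0 : g.map (residue R) ≠ 0) : M.Sp (po l f G) (po l fb (g.map (residue R))) :=
  ⟨(map_ne_zero_iff _ (po_inj (Sm.prime f : l.Prime).ne_zero)).2 h0, c, po l M.g g, hc,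
    by rw [s1_up, h, map_mul], M.s1_dn g⟩

theorem Sp.nrm {b : Crv k l f} {β : Crv (ResidueField R) l fb} (h : M.Sp b β) :
    M.Sp (∏ j ∈ Finset.range l, (SE.rt f M.z1).B^[j] b)
      (∏ j ∈ Finset.range l, (SE.rt fb M.z2).B^[j] β) := by
  have h1 : ∀ j, M.Sp ((SE.rt f M.z1).B^[j] b) ((SE.rt fb M.z2).B^[j] β) := fun j => by
    induction j with
    | zero => exact h
    | succ j ih =>
      rw [iterate_succ_apply', iterate_succ_apply']
      exact ih.rt
  have h2 : ∀ n, M.Sp (∏ j ∈ Finset.range n, (SE.rt f M.z1).B^[j] b)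
      (∏ j ∈ Finset.range n, (SE.rt fb M.z2).B^[j] β) := fun n => by
    induction n with
    | zero => exact ⟨one_ne_zero, 1, 1, one_ne_zero, by simp, map_one _⟩
    | succ n ih =>
      rw [Finset.prod_range_succ, Finset.prod_range_succ]
      exact ih.mul (h1 n)
  exact h2 l

variable (M)

theorem sp_const {c : k} (hc : c ≠ 0) : M.Sp (po l f (C c)) 1 := by
  simpa using s1_po (M := M) 1 (inv_ne_zero hc) (G := C c)
    (by rw [← map_mul, inv_mul_cancel₀ hc, Polynomial.map_one, C_1]) (by simp)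

theorem sp_int (a : R) : M.Sp (po l f (X - C (a : k))) (po l fb (X - C (residue R a))) := by
  have h := s1_po (M := M) (X - C a) one_ne_zero (G := X - C (a : k)) (by simp)
    (by simpa using X_sub_C_ne_zero _)
  rwa [Polynomial.map_sub, map_X, map_C] at h

theorem sp_not {a : k} (ha : a ∉ R) : M.Sp (po l f (X - C a)) 1 := by
  have h0 : a ≠ 0 := fun e => ha (e ▸ R.zero_mem)
  have h1 : a⁻¹ ∈ R := (R.mem_or_inv_mem a).resolve_left ha
  have h2 : residue R ⟨_, h1⟩ = 0 := by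
    rw [residue_eq_zero_iff, R.valuation_lt_one_iff]
    change R.valuation a⁻¹ < 1
    rw [map_inv₀]
    exact inv_lt_one_of_one_lt₀ (not_le.1 (mt (R.valuation_le_one_iff a).1 ha))
  have h3 : (1 - C ⟨_, h1⟩ * X : R[X]).map R.subtype = C (-a⁻¹) * (X - C a) := by
    rw [mul_sub, ← map_mul, neg_mul, inv_mul_cancel₀ h0]
    simp
    ring
  simpa [h2] using s1_po (M := M) _ (neg_ne_zero.2 (inv_ne_zero h0)) h3 (by simp [h2])

end Mdl

theorem residue_algClosed [IsAlgClosed k] (R : ValuationSubring k) :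
    IsAlgClosed (ResidueField R) := by
  refine IsAlgClosed.of_exists_root _ fun q hq hi => ?_
  obtain ⟨g, rfl, h1, h2⟩ := lifts_and_degree_eq_and_monic
    (map_surjective (residue R) residue_surjective q) hq
  obtain ⟨x, hx⟩ := IsAlgClosed.exists_aeval_eq_zero k g (h1 ▸ (degree_pos_of_irreducible hi).ne')
  obtain ⟨y, rfl⟩ := IsIntegrallyClosed.isIntegral_iff.1 (⟨g, h2, hx⟩ : IsIntegral R x)
  refine ⟨residue R y, ?_⟩
  rw [aeval_algebraMap_apply, map_eq_zero_iff _ (IsFractionRing.injective R k)] at hx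
  rw [eval_map_apply, ← coe_aeval_eq_eval, hx, map_zero]

theorem mem_of_pow_mem {y : k} {n : ℕ} (hn : n ≠ 0) (h : y ^ n ∈ R) : y ∈ R := by
  rw [← R.valuation_le_one_iff] at h ⊢
  rwa [map_pow, pow_le_one_iff_of_nonneg zero_le hn] at h

end Pool.Agent.Lib.MP_d61fbb_ag.SE
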