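import Pool.Agent.Lib.MP_d61fbb_ag.SE.S2

/-! Zeros in a residue disc. -/

set_option autoImplicit false

noncomputable section

namespace Pool.Agent.Lib.MP_d61fbb_ag.SE

open Polynomial Function IsLocalRing

variable {k : Type} [Field k] {R : ValuationSubring k} {l : ℕ} {f : k[X]}
  {fb : (ResidueField R)[X]} [Sm l f] [Sm l fb] [IsAlgClosed k] [IsAlgClosed (ResidueField R)]
  (M : Mdl R l f fb)

omit [IsAlgClosed k] [IsAlgClosed (ResidueField R)] in
theorem s3_ev {u : Bq l M.g} {P : Pt l f} {Q : Pt l fb} (o : Over P Q)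
    (h : Q.ev (M.dn u) ≠ 0) : P.ev (M.up u) ≠ 0 := by
  obtain ⟨x, y, h1, h2, h3, h4⟩ := o
  obtain ⟨e, H⟩ := M.ev_up h1 h2 h3 h4
  rw [(H u).2] at h
  rw [(H u).1]
  intro c
  rw [Subtype.ext (p := fun t => t ∈ R) (a2 := 0) c, map_zero] at h
  exact h rfl

omit [IsAlgClosed k] [IsAlgClosed (ResidueField R)] [Sm l fb] in
theorem s3_up {b : Bq l M.g} (hb : M.dn b ≠ 0) : M.up b ≠ 0 := fun c => hb (by
  have i : Injective M.up := bmap_inj (Sm.prime f).ne_zero Subtype.val_injective M.h1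
  rw [i (c.trans (map_zero _).symm), map_zero])

theorem s3_io {K : Type} [Field K] {g : K[X]} [Sm l g] {b : Crv K l g} (hb : b ≠ 0) :
    io l g b ≠ 0 := fun c => hb (io_inj (c.trans (map_zero _).symm))

theorem s3_dv {K : Type} [Field K] [IsAlgClosed K] {g : K[X]} [Sm l g] {a b : Crv K l g}
    (ha : a ≠ 0) (hb : b ≠ 0) : dv (io l g (a * b)) = dv (io l g a) + dv (io l g b) := by
  rw [map_mul, dv_mul (s3_io ha) (s3_io hb)]

theorem Mdl.red_unit {u : Bq l M.g} {Q : Pt l fb} (h : Q.ev (M.dn u) ≠ 0) :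
    redD fb (dv (io l f (M.up u))) Q = 0 := by
  refine redD_eq_zero fun P o => ?_
  have e := s3_ev M o h
  exact (dv_eq_zero_iff (fun c => e (by rw [c, map_zero])) P).2 e

/-- The function `y - y0` has at most one zero in the disc over a ramification point. -/
theorem s3_ram {Q : Pt l fb} {x y : R} (e : (y : k) ^ l = f.eval (x : k))
    (h3 : Q.x = residue R x) (h4 : Q.y = residue R y) (h0 : Q.y = 0) {u : Bq l M.g}
    (hu : Q.ev (M.dn u) ≠ 0)
    (id : po l M.g (X - C x) * u = cy l M.g ^ l - po l M.g (C y) ^ l) :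
    redD fb (dv (yl l f - pl l f (C (y : k)))) Q ≤ 1 := by
  have hl := (Sm.prime f : l.Prime).pos
  have n1 : pl l f (X - C (x : k)) ≠ 0 := fun c =>
    X_sub_C_ne_zero _ (pl_inj (c.trans (map_zero _).symm))
  have n2 : io l f (M.up u) ≠ 0 := s3_io (s3_up M fun c => hu (by rw [c, map_zero]))
  have e1 : pl l f (X - C (x : k)) * io l f (M.up u) =
      ∏ i ∈ Finset.range l, (yl l f - pl l f (C ((M.z : k) ^ i * y))) := by
    have a := congrArg (fun b => io l f (M.up b)) id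
    have b := congrArg (aeval (yl l f)) (X_pow_sub_C_eq_prod M.z1 (α := (y : k)) hl rfl)
    simp only [map_prod, map_sub, aeval_X, aeval_C, aeval_X_pow, ← pl_C] at b
    simp only [Mdl.up, map_mul, map_sub, map_pow, bmap_po, bmap_cy, map_one, one_mul, map_X,
      map_C] at a
    rw [← b, map_sub, C_pow, map_pow]
    exact a
  have n3 : ∀ i ∈ Finset.range l, yl l f - pl l f (C ((M.z : k) ^ i * y)) ≠ 0 :=
    Finset.prod_ne_zero_iff.1 (e1 ▸ mul_ne_zero n1 n2)
  have e2 := congrArg (fun b => redD fb (dv b) Q) e1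
  simp only [dv_mul n1 n2, dv_prod _ _ n3, map_add, map_sum, Finsupp.add_apply,
    Finsupp.finsetSum_apply, M.red_int, M.red_unit hu, ← h3, dv_x_ram Q h0, add_zero] at e2
  have ge : ∀ i ∈ Finset.range l,
      0 ≤ redD fb (dv (yl l f - pl l f (C ((M.z : k) ^ i * y)))) Q - 1 := fun i hi => by
    let P : Pt l f := ⟨x, (M.z : k) ^ i * y, by
      rw [mul_pow, ← pow_mul, mul_comm i, pow_mul, M.z1.pow_eq_one, one_pow, one_mul, e]⟩
    have o : Over P Q := ⟨x, M.z ^ i * y, rfl, rfl, h3, by rw [map_mul, ← h4, h0, mul_zero]⟩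
    have w : yl l f - pl l f (C ((M.z : k) ^ i * y)) =
        io l f (cy l f - po l f (C ((M.z : k) ^ i * y))) := (map_sub _ _ _).symm
    have n := n3 i hi
    rw [w] at n ⊢
    have p := dv_nonneg (cy l f - po l f (C ((M.z : k) ^ i * y)))
    have q := le_redD p o
    have n' : cy l f - po l f (C ((M.z : k) ^ i * y)) ≠ 0 := fun c => n (by rw [c, map_zero])
    have r := (dv_eq_zero_iff n' P).not.2 (not_not.2 (by
      rw [map_sub, Pt.ev_cy, Pt.ev_po, eval_C, sub_self]))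
    have p' : 0 ≤ dv (io l f (cy l f - po l f (C ((M.z : k) ^ i * y)))) P := p P
    omega
  have z := (Finset.sum_eq_zero_iff_of_nonneg ge).1 (by
    rw [Finset.sum_sub_distrib, ← e2]
    simp) 0 (Finset.mem_range.2 hl)
  rw [pow_zero, one_mul] at z
  omega

/-- A local parameter along the section through `P`. -/
theorem Mdl.exists_par {P : Pt l f} {Q : Pt l fb} (h : Over P Q) :
    ∃ τ u : Bq l M.g, Q.ev (M.dn u) ≠ 0 ∧ redD fb (dv (io l f (M.up τ))) Q ≤ 1 ∧
      dv (io l fb (M.dn τ)) Q = 1 ∧ ∀ b, P.ev (M.up b) = 0 → τ ∣ u * b := by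
  obtain ⟨x, y, h1, h2, h3, h4⟩ := h
  obtain ⟨e, H⟩ := M.ev_up h1 h2 h3 h4
  have K : ∀ b, P.ev (M.up b) = 0 → bev x y e b = 0 := fun b c =>
    Subtype.ext ((H b).1.symm.trans c)
  by_cases h0 : Q.y = 0
  · obtain ⟨u, u1, u2, u3⟩ := par_y e
    have d := Q.deriv_ne h0
    have hu : Q.ev (M.dn u) ≠ 0 := by
      rwa [(H u).2, u1, ← eval_map_apply, ← derivative_map, M.h2, ← h3]
    refine ⟨_, u, hu, ?_, ?_, fun b c => u3 b (K b c)⟩
    · have t := s3_ram M (by rw [← h1, ← h2, P.eq]) h3 h4 h0 hu u2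
      simp only [Mdl.up, map_sub, bmap_po, bmap_cy, map_one, one_mul, map_C]
      exact t
    · have t := dv_par_y Q d
      rw [h4] at t
      simp only [Mdl.dn, map_sub, bmap_po, bmap_cy, map_one, one_mul, map_C]
      exact t
  · obtain ⟨u, u1, u3⟩ := par_x e
    have t := dv_x Q h0
    rw [h3] at t
    refine ⟨_, u, ?_, ?_, ?_, fun b c => u3 b (K b c)⟩
    · rw [(H u).2, u1, map_mul, map_pow, map_natCast, ← h4]
      exact mul_ne_zero (Sm.ne fb) (pow_ne_zero _ h0)
    · have r := M.red_int x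
      rw [← r] at t
      rw [Mdl.up, bmap_po, Polynomial.map_sub, map_X, map_C]
      exact t.le
    · rw [Mdl.dn, bmap_po, Polynomial.map_sub, map_X, map_C]
      exact t

theorem Mdl.red_le {b : Bq l M.g} (hb : M.dn b ≠ 0) :
    redD fb (dv (io l f (M.up b))) ≤ dv (io l fb (M.dn b)) := by
  intro Q
  obtain ⟨n, hn⟩ := Int.eq_ofNat_of_zero_le (dv_nonneg (M.dn b) Q)
  change dv (io l fb (M.dn b)) Q = n at hn
  rw [hn]
  induction n using Nat.strong_induction_on generalizing b with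
  | _ n ih =>
    by_cases h : ∀ P, Over P Q → dv (io l f (M.up b)) P = 0
    · rw [redD_eq_zero h]
      omega
    push Not at h
    obtain ⟨P, o, hP⟩ := h
    obtain ⟨τ, u, hu, t1, t2, t3⟩ := M.exists_par o
    obtain ⟨c, hc⟩ := t3 b (not_not.1 ((dv_eq_zero_iff (s3_up M hb) P).not.1 hP))
    have n1 : M.dn u ≠ 0 := fun z => hu (by rw [z, map_zero])
    have e1 : M.dn u * M.dn b = M.dn τ * M.dn c := by rw [← map_mul, hc, map_mul]
    have e2 : M.up u * M.up b = M.up τ * M.up c := by rw [← map_mul, hc, map_mul]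
    obtain ⟨n2, n3⟩ := mul_ne_zero_iff.1 (e1 ▸ mul_ne_zero n1 hb)
    have a1 := congrArg (fun w => dv (io l fb w) Q) e1
    have a2 := congrArg (fun w => redD fb (dv (io l f w)) Q) e2
    simp only [s3_dv n1 hb, s3_dv n2 n3, Finsupp.add_apply, hn, t2,
      (dv_eq_zero_iff n1 Q).2 hu] at a1
    simp only [s3_dv (s3_up M n1) (s3_up M hb), s3_dv (s3_up M n2) (s3_up M n3), map_add,
      Finsupp.add_apply, M.red_unit hu] at a2
    obtain ⟨m, hm⟩ := Int.eq_ofNat_of_zero_le (dv_nonneg (M.dn c) Q)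
    change dv (io l fb (M.dn c)) Q = m at hm
    have := ih m (by omega) n3 hm
    omega

end Pool.Agent.Lib.MP_d61fbb_ag.SE
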