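import Pool.Agent.Lib.MP_d61fbb_ag.SE.TD

/-! A basis of the torsion of order `l`. -/

set_option autoImplicit false

noncomputable section

namespace Pool.Agent.Lib.MP_d61fbb_ag.SE

open Matrix Equiv IsLocalRing Polynomial

variable {l d : ℕ} [Fact l.Prime] {A : Type} [AddCommGroup A] {zt : AddMonoid.End A}
  {P : Fin (d + 1) → A}

theorem t1_split (f : ℤ[X]) : ∃ g : ℤ[X], f = C (f.eval 1) + g * (1 - X) ∧
    ∀ m : ℕ, f.degree < (m + 1 : ℕ) → g.degree < m := by
  obtain ⟨q, hq⟩ := X_sub_C_dvd_sub_C_eval (p := f) (a := 1)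
  refine ⟨-q, by rw [C_1] at hq; linear_combination hq, fun m hm => ?_⟩
  have h1 : (f - C (f.eval 1)).degree < (m + 1 : ℕ) :=
    (degree_sub_le _ _).trans_lt (max_lt hm (degree_C_le.trans_lt (by exact_mod_cast m.succ_pos)))
  rw [hq, degree_mul, degree_X_sub_C, add_comm, Nat.cast_add, Nat.cast_one] at h1
  rw [degree_neg]
  exact (WithBot.add_lt_add_iff_right WithBot.one_ne_bot).1 h1

theorem t1_poly (l : ℕ) [hl : Fact l.Prime] : ∃ w : ℤ[X],
    (1 - X) ^ (l - 1) - ∑ j ∈ Finset.range l, X ^ j = (-1 + w * (1 - X)) * C (l : ℤ) := by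
  have h1 : C (l : ℤ) ∣ (1 - X) ^ (l - 1) - ∑ j ∈ Finset.range l, X ^ j := by
    have h2 : ((1 - X : ℤ[X]) ^ (l - 1) - ∑ j ∈ Finset.range l, X ^ j).map
        (Int.castRingHom (ZMod l)) = 0 := by
      have h3 : (1 - X : (ZMod l)[X]) ≠ 0 := fun e => by simpa using congrArg (eval 0) e
      refine mul_left_cancel₀ h3 ?_
      simp only [Polynomial.map_sub, Polynomial.map_pow, Polynomial.map_one, map_X,
        Polynomial.map_sum]
      rw [mul_sub, mul_neg_geom_sum, ← pow_succ', Nat.sub_add_cancel hl.out.one_le, sub_pow_char,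
        one_pow, sub_self, mul_zero]
    refine (C_dvd_iff_dvd_coeff _ _).2 fun i => (ZMod.intCast_zmod_eq_zero_iff_dvd _ l).1 ?_
    simpa only [coeff_map, eq_intCast, coeff_zero] using congrArg (fun p => coeff p i) h2
  obtain ⟨u, hu⟩ := h1
  obtain ⟨w, hw, -⟩ := t1_split u
  have h4 : u.eval 1 = -1 := by
    have h5 := congrArg (eval 1) hu
    have h6 : l - 1 ≠ 0 := (Nat.sub_pos_of_lt hl.out.one_lt).ne'
    simp only [eval_sub, eval_pow, eval_one, eval_X, sub_self, zero_pow h6, eval_finsetSum, one_pow,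
      Finset.sum_const, Finset.card_range, nsmul_eq_mul, mul_one, eval_mul, eval_C] at h5
    refine mul_left_cancel₀ (a := (l : ℤ)) (by exact_mod_cast hl.out.ne_zero) ?_
    linarith
  refine ⟨w, ?_⟩
  rw [hu, mul_comm]
  congr 1
  rw [h4] at hw
  simpa using hw

theorem t1_ap (f g : AddMonoid.End A) (x : A) : (f * g) x = f (g x) := rfl

theorem t1_add (f g : AddMonoid.End A) (x : A) : (f + g) x = f x + g x := rfl

theorem t1_C (c : ℤ) (x : A) : aeval zt (C c) x = c • x := by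
  simp

theorem t1_lam : aeval zt (1 - X : ℤ[X]) = 1 - zt := by
  rw [map_sub, map_one, aeval_X]

theorem t1_step (c : ℤ) (g : ℤ[X]) (x : A) :
    aeval zt (C c + g * (1 - X)) x = c • x + aeval zt g ((1 - zt) x) := by
  rw [map_add, t1_add, t1_C, map_mul, t1_lam, t1_ap]

theorem t1_sum {n : ℕ} (c : Fin n → ℤ) (x : A) :
    aeval zt (∑ j, C (c j) * X ^ (j : ℕ)) x = ∑ j, c j • (zt ^ (j : ℕ)) x := by
  rw [map_sum]
  refine (AddMonoidHom.finsetSum_apply _ _ _).trans (Finset.sum_congr rfl fun j _ => ?_)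
  rw [map_mul, map_pow, aeval_X]
  exact t1_C _ _

theorem JData.t1_pow (h : JData l d zt P) : ∃ w : AddMonoid.End A, Commute w (1 - zt) ∧
    ∀ x, ((1 - zt) ^ (l - 1)) x = -(l • x) + (w * (1 - zt)) (l • x) := by
  obtain ⟨w, hw⟩ := t1_poly l
  refine ⟨aeval zt w, ?_, fun x => ?_⟩
  · exact t1_lam (zt := zt) ▸ (Commute.all w (1 - X)).map (aeval zt)
  · have h1 := congrArg (aeval zt) hw
    simp only [map_sub, map_pow, map_one, aeval_X, map_sum, h.norm, sub_zero, map_mul, map_add,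
      map_neg] at h1
    rw [h1, t1_ap, t1_C, natCast_zsmul]
    rfl

theorem JData.t1_surj (h : JData l d zt P) (k : ℕ) (x : A) : ∃ y, ((1 - zt) ^ k) y = x := by
  induction k generalizing x with
  | zero => exact ⟨x, rfl⟩
  | succ k ih =>
    obtain ⟨y, rfl⟩ := ih x
    obtain ⟨z, rfl⟩ := h.surj y
    exact ⟨z, by rw [pow_succ]; rfl⟩

theorem JData.t1_fix (h : JData l d zt P) (i : Fin (d + 1)) : (1 - zt) (P i) = 0 :=
  sub_eq_zero.2 ((h.ker (P i)).2 ⟨Pi.single i 1, by simp [Pi.single_apply]⟩).symm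

theorem JData.t1_rel (h : JData l d zt P) {a : Fin d → ℤ} (e : ∑ i, a i • P i.castSucc = 0)
    (i : Fin d) : (l : ℤ) ∣ a i := by
  simpa using (h.rel (Fin.snoc (α := fun _ => ℤ) a 0)).1
    (by simpa [Fin.sum_univ_castSucc] using e) i.castSucc (Fin.last d)

theorem JData.t1_ker (h : JData l d zt P) {x : A} (e : (1 - zt) x = 0) :
    ∃ a : Fin d → ℤ, x = ∑ i, a i • P i.castSucc := by
  obtain ⟨a, rfl⟩ := (h.ker x).1 (sub_eq_zero.1 e).symm
  have h1 := (h.rel fun _ => a (Fin.last d)).2 fun _ _ => by simp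
  refine ⟨fun i => a i.castSucc - a (Fin.last d), ?_⟩
  rw [← sub_zero (∑ i, a i • P i), ← h1, ← Finset.sum_sub_distrib, Fin.sum_univ_castSucc]
  simp [sub_smul]

theorem t1_mul (a b : ℕ) (x : A) : ((1 - zt) ^ a) (((1 - zt) ^ b) x) = ((1 - zt) ^ (a + b)) x := by
  rw [pow_add]; rfl

theorem t1_comm (a : ℕ) (f : ℤ[X]) (x : A) :
    ((1 - zt) ^ a) (aeval zt f x) = aeval zt f (((1 - zt) ^ a) x) := by
  have h1 := (Commute.all ((1 - X) ^ a) f).map (aeval zt)
  simp only [map_pow, map_sub, map_one, aeval_X] at h1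
  exact DFunLike.congr_fun h1.eq x

theorem JData.t1_ind (h : JData l d zt P) {t : Fin d → A} {n : ℕ}
    (ht : ∀ i, ((1 - zt) ^ n) (t i) = P i.castSucc) (hl : ∀ i, l • t i = 0) (m k : ℕ)
    (e : m + k = n + 1) (f : Fin d → ℤ[X]) (hf : ∀ i, (f i).degree < m)
    (h0 : ∑ i, aeval zt (f i) (((1 - zt) ^ k) (t i)) = 0) (i : Fin d) : C (l : ℤ) ∣ f i := by
  induction m generalizing k f with
  | zero =>
    rw [degree_eq_bot.1 (Nat.WithBot.lt_zero_iff.1 (hf i))]
    exact dvd_zero _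
  | succ m ih =>
    choose g hg hd using fun i => t1_split (f i)
    have h1 : ∀ i, (l : ℤ) ∣ (f i).eval 1 := h.t1_rel (by
      have h2 := congrArg ((1 - zt) ^ m : AddMonoid.End A) h0
      rw [map_sum, map_zero] at h2
      rw [← h2]
      refine Finset.sum_congr rfl fun i _ => ?_
      rw [t1_comm, t1_mul, show m + k = n by omega, ht]
      conv_rhs => rw [hg i, t1_step, h.t1_fix, map_zero, add_zero])
    have h3 := ih (k + 1) (by omega) g (fun i => hd i m (hf i)) (by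
      rw [← h0]
      refine Finset.sum_congr rfl fun i _ => ?_
      obtain ⟨c, hc⟩ := h1 i
      conv_rhs => rw [hg i, t1_step, hc, mul_comm, mul_smul, natCast_zsmul, ← map_nsmul, hl,
        map_zero, smul_zero, zero_add]
      rw [pow_succ']
      rfl)
    rw [hg i]
    exact dvd_add (_root_.map_dvd C (h1 i)) (h3.mul_right _)

theorem JData.t1_span (h : JData l d zt P) {t : Fin d → A} {n : ℕ}
    (ht : ∀ i, ((1 - zt) ^ n) (t i) = P i.castSucc) (m k : ℕ) (e : m + k = n + 1) (y : A)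
    (h0 : ((1 - zt) ^ m) y = 0) : ∃ f : Fin d → ℤ[X], (∀ i, (f i).degree < m) ∧
      y = ∑ i, aeval zt (f i) (((1 - zt) ^ k) (t i)) := by
  induction m generalizing k y with
  | zero => exact ⟨0, fun _ => by simp, by simpa using h0⟩
  | succ m ih =>
    obtain ⟨a, ha⟩ := h.t1_ker (x := ((1 - zt) ^ m) y) (by rw [← h0, pow_succ']; rfl)
    obtain ⟨g, hg, h1⟩ := ih (k + 1) (by omega) (y - ∑ i, a i • ((1 - zt) ^ k) (t i)) (by
      simp only [map_sub, map_sum, map_zsmul, t1_mul, show m + k = n by omega, ht, ha, sub_self])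
    refine ⟨fun i => C (a i) + g i * (1 - X), fun i => ?_, ?_⟩
    · refine (degree_add_le _ _).trans_lt
        (max_lt (degree_C_le.trans_lt (by exact_mod_cast m.succ_pos)) ?_)
      rw [← neg_sub, mul_neg, degree_neg, ← C_1, degree_mul, degree_X_sub_C, Nat.cast_add,
        Nat.cast_one]
      exact (WithBot.add_lt_add_iff_right WithBot.one_ne_bot).2 (hg i)
    · simp only [t1_step, Finset.sum_add_distrib]
      rw [← sub_eq_iff_eq_add', h1, pow_succ']
      rfl

theorem JData.div (h : JData l d zt P) (x : A) : ∃ y, l • y = x := by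
  obtain ⟨w, -, hw⟩ := h.t1_pow
  obtain ⟨y, rfl⟩ := h.t1_surj (l - 1) x
  exact ⟨-y + (w * (1 - zt)) y, by rw [hw, smul_add, smul_neg, map_nsmul]⟩

theorem JData.tors (h : JData l d zt P) (x : A) : l • x = 0 ↔ ((1 - zt) ^ (l - 1)) x = 0 := by
  obtain ⟨w, hc, hw⟩ := h.t1_pow
  refine ⟨fun e => by rw [hw, e, map_zero, neg_zero, add_zero], fun e => ?_⟩
  have h1 : (w * (1 - zt)) (l • x) = l • x := by
    have := hw x
    rw [e] at this
    exact (neg_add_eq_zero.1 this.symm).symm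
  have h2 : ∀ k : ℕ, ((w * (1 - zt)) ^ k) (l • x) = l • x := fun k => by
    induction k with
    | zero => rfl
    | succ k ih => rw [pow_succ, t1_ap, h1, ih]
  rw [← h2 (l - 1), hc.mul_pow, t1_ap, map_nsmul, e, smul_zero, map_zero]

theorem JData.basis (h : JData l d zt P) : ∃ t : Fin d → A,
    (∀ i, ((1 - zt) ^ (l - 2)) (t i) = P i.castSucc) ∧ (∀ i, l • t i = 0) ∧
    (∀ c : Ix l d → ℤ, ∑ x, c x • (zt ^ (x.2 : ℕ)) (t x.1) = 0 → ∀ x, (l : ℤ) ∣ c x) ∧
    ∀ y : A, l • y = 0 → ∃ c : Ix l d → ℤ, y = ∑ x, c x • (zt ^ (x.2 : ℕ)) (t x.1) := by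
  have hl : 2 ≤ l := (Fact.out : l.Prime).two_le
  choose t ht using fun i : Fin d => h.t1_surj (l - 2) (P i.castSucc)
  have h1 : ∀ i, l • t i = 0 := fun i => (h.tors _).2 (by
    rw [show l - 1 = l - 2 + 1 by omega, pow_succ', t1_ap, ht, h.t1_fix])
  refine ⟨t, ht, h1, fun c hc x => ?_, fun y hy => ?_⟩
  · have h2 := h.t1_ind ht h1 (l - 1) 0 (by omega)
      (fun i => ∑ j : Fin (l - 1), C (c (i, j)) * X ^ (j : ℕ)) (fun i => degree_sum_fin_lt _)
      (by rw [← hc, Fintype.sum_prod_type]; simp only [t1_sum]; rfl) x.1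
    have h3 := (C_dvd_iff_dvd_coeff _ _).1 h2 x.2
    simpa [Fin.val_inj] using h3
  · obtain ⟨f, hf, e⟩ := h.t1_span ht (l - 1) 0 (by omega) y ((h.tors y).1 hy)
    refine ⟨fun x => (f x.1).coeff x.2, ?_⟩
    rw [e, Fintype.sum_prod_type]
    refine Finset.sum_congr rfl fun i _ => ?_
    conv_lhs => rw [← (sum_fin (fun j a => C a * X ^ j) (by simp) (hf i)).trans
      (sum_C_mul_X_pow_eq _), t1_sum]
    rfl

end Pool.Agent.Lib.MP_d61fbb_ag.SE
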