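import Pool.Agent.Lib.MP_d61fbb_ag.SE.TD

/-! Block decomposition along the eigenspaces. -/

set_option autoImplicit false

noncomputable section

namespace Pool.Agent.Lib.MP_d61fbb_ag.SE

open Matrix Equiv IsLocalRing Polynomial

variable {Ω : Type} [Field Ω] {l d : ℕ} [Fact l.Prime] {ζ : Ω} {M N : Matrix (Ix l d) (Ix l d) Ω}

theorem Tm_inv (hζ : IsPrimitiveRoot ζ l) :
    ∃ T' : Matrix (Ix l d) (Fin d × (ZMod l)ˣ) Ω, Tm ζ l d * T' = 1 ∧ T' * Tm ζ l d = 1 := by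
  let e : (ZMod l)ˣ ≃ Fin (l - 1) := Fintype.equivFinOfCardEq (ZMod.card_units l)
  have h1 : IsUnit (vandermonde fun k => ζ ^ (e.symm k : ZMod l).val).det := by
    refine (det_vandermonde_ne_zero_iff.2 fun k k' h => e.symm.injective (Units.ext ?_)).isUnit
    exact ZMod.val_injective l (hζ.pow_inj (ZMod.val_lt _) (ZMod.val_lt _) h)
  generalize hV : (vandermonde fun k => ζ ^ (e.symm k : ZMod l).val) = V at h1
  have h2 : Tm ζ l d =
      kroneckerMap (· * ·) (1 : Mat d Ω) (V.submatrix e (Equiv.refl (Fin (l - 1)))) := by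
    ext x y
    simp [Tm, ← hV, kroneckerMap_apply, one_apply, pow_mul]
  refine ⟨kroneckerMap (· * ·) (1 : Mat d Ω) (V⁻¹.submatrix (Equiv.refl (Fin (l - 1))) e), ?_, ?_⟩
  · rw [h2, ← mul_kronecker_mul, submatrix_mul_equiv, mul_nonsing_inv _ h1, submatrix_one_equiv,
      mul_one, one_kronecker_one]
  · rw [h2, ← mul_kronecker_mul, submatrix_mul_equiv, nonsing_inv_mul _ h1, submatrix_one_equiv,
      mul_one, one_kronecker_one]

theorem t3_prim (hζ : IsPrimitiveRoot ζ l) (a : (ZMod l)ˣ) :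
    IsPrimitiveRoot (ζ ^ (a : ZMod l).val) l :=
  hζ.pow_of_coprime _ (ZMod.val_coe_unit_coprime a)

theorem t3_mul {q : Type} (M : Matrix (Ix l d) q Ω) (i : Fin d) (a : (ZMod l)ˣ) (y : q) :
    (Tm ζ l d * M) (i, a) y = ∑ j, M (i, j) y * ζ ^ ((a : ZMod l).val * j) := by
  simp [mul_apply, Tm, Fintype.sum_prod_type, Finset.sum_ite_irrel, mul_comm]

theorem t3_blk (M : Matrix (Ix l d) (Ix l d) Ω) (a : (ZMod l)ˣ) (i i' : Fin d) :
    blk ζ a M i i' = (Tm ζ l d * M) (i, a) (i', i0 l) := (t3_mul M i a _).symm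

theorem t3_TZ (hζ : IsPrimitiveRoot ζ l) : Tm ζ l d * Zm Ω l d =
    (diagonal fun x : Fin d × (ZMod l)ˣ => ζ ^ (x.2 : ZMod l).val) * Tm ζ l d := by
  ext ⟨i, a⟩ ⟨i', j'⟩
  rw [t3_mul, diagonal_mul]
  by_cases hi : i = i'
  · by_cases hj : (j' : ℕ) + 1 < l - 1
    · rw [Finset.sum_eq_single ⟨j' + 1, hj⟩]
      · simp only [Zm, Tm, hi, hj, if_true]
        ring
      · intro b _ hb
        have : (b : ℕ) ≠ j' + 1 := fun h => hb (Fin.ext h)
        simp [Zm, hj, this]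
      · simp
    · have h1 := (t3_prim hζ a).geom_sum_eq_zero (Fact.out : l.Prime).one_lt
      have h2 : l = (j' + 1) + 1 := by have := j'.2; omega
      have h3 : Finset.range l = Finset.range ((j' + 1) + 1) := congrArg _ h2
      have h4 : Finset.range (l - 1) = Finset.range (j' + 1) := congrArg _ (by omega)
      rw [h3, Finset.sum_range_succ, ← h4, Finset.sum_range] at h1
      simp only [Zm, Tm, hi, hj, if_true, if_false, pow_mul, neg_mul, one_mul,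
        Finset.sum_neg_distrib]
      linear_combination -h1
  · simp [Zm, Tm, hi]

omit [Fact l.Prime] in
theorem t3_step {q : Type} (F : Matrix q (Ix l d) Ω) (x : q) (i : Fin d) (j : ℕ)
    (hj : j + 1 < l - 1) :
    (F * Zm Ω l d) x (i, ⟨j, by omega⟩) = F x (i, ⟨j + 1, hj⟩) := by
  rw [mul_apply, Finset.sum_eq_single (i, ⟨j + 1, hj⟩)]
  · simp [Zm, hj]
  · rintro ⟨i', j'⟩ _ hb
    by_cases hi : i' = i
    · have : (j' : ℕ) ≠ j + 1 := fun h => hb (Prod.ext hi (Fin.ext h))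
      simp [Zm, hj, this]
    · simp [Zm, hi]
  · simp

theorem t3_BT (B : (ZMod l)ˣ → Mat d Ω) (i i' : Fin d) (a : (ZMod l)ˣ) (j : Fin (l - 1)) :
    (blockDiagonal B * Tm ζ l d) (i, a) (i', j) = B a i i' * ζ ^ ((a : ZMod l).val * j) := by
  simp [mul_apply, Tm, Fintype.sum_prod_type, blockDiagonal_apply]

theorem Tm_comm (hζ : IsPrimitiveRoot ζ l) (h : M * Zm Ω l d = Zm Ω l d * M) :
    Tm ζ l d * M = (blockDiagonal fun a => blk ζ a M) * Tm ζ l d := by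
  have h1 : Tm ζ l d * M * Zm Ω l d =
      (diagonal fun x : Fin d × (ZMod l)ˣ => ζ ^ (x.2 : ZMod l).val) * (Tm ζ l d * M) := by
    rw [Matrix.mul_assoc, h, ← Matrix.mul_assoc, t3_TZ hζ, Matrix.mul_assoc]
  ext ⟨i, a⟩ ⟨i', j, hj⟩
  rw [t3_BT, t3_blk]
  induction j with
  | zero => simp [i0]
  | succ j ih =>
    rw [← t3_step (Tm ζ l d * M) (i, a) i' j hj, h1, diagonal_mul, ih]
    simp only [mul_add, pow_add, mul_one]
    ring

theorem blk_one (a : (ZMod l)ˣ) : blk ζ a (1 : Matrix (Ix l d) (Ix l d) Ω) = 1 := by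
  ext i i'
  rw [t3_blk, Matrix.mul_one]
  simp [Tm, i0, one_apply]

theorem blk_Zm (hζ : IsPrimitiveRoot ζ l) (a : (ZMod l)ˣ) :
    blk ζ a (Zm Ω l d) = ζ ^ (a : ZMod l).val • 1 := by
  ext i i'
  rw [t3_blk, t3_TZ hζ, diagonal_mul]
  simp [Tm, i0, one_apply]

theorem t3_blk_mul (hζ : IsPrimitiveRoot ζ l) (h : M * Zm Ω l d = Zm Ω l d * M)
    (N : Matrix (Ix l d) (Ix l d) Ω) (a : (ZMod l)ˣ) :
    blk ζ a (M * N) = blk ζ a M * blk ζ a N := by
  ext i i'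
  rw [t3_blk, ← Matrix.mul_assoc, Tm_comm hζ h, Matrix.mul_assoc, mul_apply, mul_apply]
  simp [Fintype.sum_prod_type, blockDiagonal_apply, ← t3_blk]

theorem blk_mul (hζ : IsPrimitiveRoot ζ l) (h : M * Zm Ω l d = Zm Ω l d * M)
    (h' : N * Zm Ω l d = Zm Ω l d * N) (a : (ZMod l)ˣ) :
    blk ζ a (M * N) = blk ζ a M * blk ζ a N :=
  (fun _ => t3_blk_mul hζ h N a) h'

theorem blk_det (hζ : IsPrimitiveRoot ζ l) (h : M * Zm Ω l d = Zm Ω l d * M) (h0 : M.det ≠ 0)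
    (a : (ZMod l)ˣ) : (blk ζ a M).det ≠ 0 := by
  have h1 := t3_blk_mul hζ h M⁻¹ a
  rw [mul_nonsing_inv _ h0.isUnit, blk_one] at h1
  exact (isUnit_det_of_right_inverse h1.symm).ne_zero

theorem t3_pow (hζ : IsPrimitiveRoot ζ l) (h : M * Zm Ω l d = Zm Ω l d * M) (a : (ZMod l)ˣ)
    (n : ℕ) : blk ζ a (M ^ n) = blk ζ a M ^ n := by
  induction n with
  | zero => rw [pow_zero, pow_zero, blk_one]
  | succ n ih => rw [pow_succ', pow_succ', t3_blk_mul hζ h, ih]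

theorem t3_aeval (hζ : IsPrimitiveRoot ζ l) (a : (ZMod l)ˣ) (p : ℤ[X])
    (N : Matrix (Ix l d) (Ix l d) Ω) :
    blk ζ a (aeval (Zm Ω l d) p * N) = aeval (ζ ^ (a : ZMod l).val) p • blk ζ a N := by
  induction p using Polynomial.induction_on' with
  | add p q hp hq => rw [map_add, map_add, add_mul, map_add, hp, hq, add_smul]
  | monomial n c =>
    have h1 : (Zm Ω l d) ^ n * Zm Ω l d = Zm Ω l d * (Zm Ω l d) ^ n := pow_mul_comm' _ n
    rw [aeval_monomial, aeval_monomial, mul_assoc, ← Algebra.smul_def, map_zsmul,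
      t3_blk_mul hζ h1, t3_pow hζ rfl, blk_Zm hζ, _root_.smul_pow, one_pow, smul_mul_assoc,
      one_mul, ← Algebra.smul_def, smul_assoc]

theorem blk_rel (hζ : IsPrimitiveRoot ζ l) (h : M * Zm Ω l d = Zm Ω l d * M) (c : ℕ → ℤ[X])
    (h0 : (1 - Zm Ω l d) * ∑ i ∈ Finset.range (d + 1), aeval (Zm Ω l d) (c (d - i)) * M ^ i = 0)
    (a : (ZMod l)ˣ) : ∑ i ∈ Finset.range (d + 1), cv ζ c a (d - i) • blk ζ a M ^ i = 0 := by
  have h1 := congrArg (blk ζ a) h0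
  rw [sub_mul, one_mul, map_sub, t3_blk_mul hζ rfl, blk_Zm hζ, smul_mul_assoc, one_mul, map_zero,
    sub_eq_zero, map_sum] at h1
  simp only [t3_aeval hζ, t3_pow hζ h] at h1
  have h2 := sub_ne_zero.2 ((t3_prim hζ a).ne_one (Fact.out : l.Prime).one_lt)
  refine (smul_eq_zero_iff_right h2).1 ?_
  rw [sub_smul, one_smul, sub_eq_zero]
  exact h1.symm

end Pool.Agent.Lib.MP_d61fbb_ag.SE
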