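import Pool.Agent.Lib.MP_d61fbb_ag.SE.M2
import Pool.Agent.Lib.MP_d61fbb_ag.SE.M4

/-! The theorem from the five interface statements. -/

set_option autoImplicit false

noncomputable section

namespace Pool.Agent.Lib.MP_d61fbb_ag.SE

open Matrix Equiv Polynomial

theorem top (hC : CurveStmt) (hc : ContStmt) (hR : RelStmt) (hF : FrobStmt) (hA : ArithStmt)
    (K : Type) [Field K] [NumberField K] (l : ℕ) [Fact l.Prime] (hl : l ≠ 2) (z : K)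
    (hz : IsPrimitiveRoot z l) (n : ℕ) (hn : ¬ l ∣ n) (f : K[X])
    (r : Fin n → AlgebraicClosure K) (hr : Function.Injective r)
    (hf : bar f = ∏ i, (X - C (r i)))
    (hG : (8 ≤ n ∧ ∀ π ∈ alternatingGroup (Fin n),
        ∃ γ : AlgebraicClosure K ≃ₐ[K] AlgebraicClosure K, ∀ i, γ (r i) = r (π i)) ∨
      (5 ≤ n ∧ ∀ π : Perm (Fin n),
        ∃ γ : AlgebraicClosure K ≃ₐ[K] AlgebraicClosure K, ∀ i, γ (r i) = r (π i))) :
    ∃ (e : (Fin (n - 1) × Fin (l - 1) → ℚ_[l]) →+ Jac (AlgebraicClosure K) l (bar f))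
      (Z B : Matrix (Fin (n - 1) × Fin (l - 1)) (Fin (n - 1) × Fin (l - 1)) ℚ_[l])
      (ρ : (AlgebraicClosure K ≃ₐ[K] AlgebraicClosure K) →*
        Matrix (Fin (n - 1) × Fin (l - 1)) (Fin (n - 1) × Fin (l - 1)) ℚ_[l]),
      IsTate e ∧ Rep e (rot f hz) Z ∧ (∀ γ, Rep e (gal l f γ) (ρ γ)) ∧
      Bᵀ = -B ∧ B.det ≠ 0 ∧ Zᵀ * B * Z = B ∧
      (∀ γ, (ρ γ)ᵀ * B * ρ γ = ((cyclotomicCharacter _ l γ.toRingEquiv : ℤ_[l]) : ℚ_[l]) • B) ∧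
      ∀ g : Matrix (Fin (n - 1) × Fin (l - 1)) (Fin (n - 1) × Fin (l - 1)) (PadicAlgCl l),
        g.det ≠ 0 → (Zar (Set.range ρ) g ↔
          g * Z.map (algebraMap _ _) = Z.map (algebraMap _ _) * g ∧
          ∃ ν : PadicAlgCl l, gᵀ * B.map (algebraMap _ _) * g = ν • B.map (algebraMap _ _)) := by
  obtain ⟨d, rfl⟩ : ∃ d, n = d + 1 := ⟨n - 1, by omega⟩
  obtain ⟨act, ha⟩ := exists_galHom l f
  obtain ⟨pm, hp⟩ := exists_pm hr hf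
  have hm : ∀ π : Perm (Fin (d + 1)), (∃ γ : AlgebraicClosure K ≃ₐ[K] AlgebraicClosure K,
      ∀ i, γ (r i) = r (π i)) → π ∈ pm.range := fun π ⟨γ, h⟩ =>
    ⟨γ, Equiv.ext fun i => hr ((hp γ i).symm.trans (h i))⟩
  have hB : Big pm.range := hG.imp (fun h => ⟨by omega, fun π hπ => hm π (h.2 π hπ)⟩)
    fun h => ⟨by omega, eq_top_iff.2 fun π _ => hm π (h.2 π)⟩
  let nu : (AlgebraicClosure K ≃ₐ[K] AlgebraicClosure K) →* ℤ_[l]ˣ :=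
    (cyclotomicCharacter _ l).comp (MulSemiringAction.toRingAut _ (AlgebraicClosure K))
  obtain ⟨P, h⟩ := geo_of hC hc hR hF hA hl hz hn hr hf act ha pm hp hB nu fun _ => rfl
  obtain ⟨e, Z, B, ρ, h1, h2, h3, h4⟩ := h.main
  exact ⟨e, Z, B, ρ, h1, h2, fun γ => ha γ ▸ h3 γ, h4⟩

end Pool.Agent.Lib.MP_d61fbb_ag.SE
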