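import Pool.Agent.Lib.MP_d61fbb_ag.SE.G3

/-! Ideals and commutant of the traceless matrices. -/

set_option autoImplicit false

noncomputable section

namespace Pool.Agent.Lib.MP_d61fbb_ag.SE

open Matrix

variable {Ω : Type} [Field Ω] {d : ℕ}

theorem u0_single {i j : Fin d} (h : i ≠ j) (c : Ω) : single i j c ∈ sl Ω d :=
  trace_single_eq_of_ne i j c h

theorem scalar_of_comm {T : Mat d Ω} (h : ∀ X ∈ sl Ω d, X * T = T * X) : ∃ c : Ω, T = c • 1 := by
  obtain ⟨c, hc⟩ := mem_range_scalar_of_commute_single (M := T) fun i j e => h _ (u0_single e 1)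
  exact ⟨c, by rw [← hc, scalar_apply, smul_one_eq_diagonal]⟩

theorem u0_off [CharZero Ω] {I : Submodule Ω (Mat d Ω)}
    (h : ∀ X ∈ sl Ω d, ∀ Y ∈ I, X * Y - Y * X ∈ I) {Y : Mat d Ω} (hY : Y ∈ I) {i j : Fin d}
    (e : i ≠ j) (h0 : Y j i ≠ 0) (c : Ω) : single i j c ∈ I := by
  have h1 := I.smul_mem (c / (-2 * Y j i)) (h _ (u0_single e 1) _ (h _ (u0_single e 1) _ hY))
  have e1 : (single i j 1 : Mat d Ω) * single i j 1 = 0 := single_mul_single_of_ne 1 i j i e.symm 1
  have e2 : (single i j 1 : Mat d Ω) * Y * single i j 1 = single i j (Y j i) := by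
    rw [single_mul_mul_single, one_mul, mul_one]
  rw [mul_sub, sub_mul, ← mul_assoc, ← mul_assoc, mul_assoc Y, e1, e2, zero_mul, mul_zero] at h1
  convert h1 using 1
  rw [zero_sub, sub_zero, ← neg_add', ← two_smul Ω, ← neg_smul, smul_single, smul_single]
  congr 1
  simp only [smul_eq_mul]
  field_simp

theorem u0_diag [CharZero Ω] {I : Submodule Ω (Mat d Ω)}
    (h : ∀ X ∈ sl Ω d, ∀ Y ∈ I, X * Y - Y * X ∈ I) {Y : Mat d Ω} (hY : Y ∈ I) {i j : Fin d}
    (e : i ≠ j) (h0 : Y i i ≠ Y j j) (c : Ω) : single i j c ∈ I :=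
  u0_off h (h _ (u0_single e.symm 1) _ hY) e (by simpa [sub_eq_zero] using h0) c

theorem u0_sub {I : Submodule Ω (Mat d Ω)} (h : ∀ X ∈ sl Ω d, ∀ Y ∈ I, X * Y - Y * X ∈ I)
    {i j : Fin d} (e : i ≠ j) {c : Ω} (hY : single i j c ∈ I) : single j j c - single i i c ∈ I := by
  simpa using h _ (u0_single e.symm 1) _ hY

theorem sl_simple [CharZero Ω] {I : Submodule Ω (Mat d Ω)} (hI : I ≤ sl Ω d)
    (h : ∀ X ∈ sl Ω d, ∀ Y ∈ I, X * Y - Y * X ∈ I) : I = ⊥ ∨ I = sl Ω d := by
  refine or_iff_not_imp_left.2 fun h0 => le_antisymm hI ?_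
  obtain ⟨Y, hY, Y0⟩ := (Submodule.ne_bot_iff I).1 h0
  obtain ⟨i, j, e, hij⟩ : ∃ i j, i ≠ j ∧ single i j (1 : Ω) ∈ I := by
    by_contra hc
    push Not at hc
    have a1 : ∀ i j, i ≠ j → Y i j = 0 := fun i j e => by
      by_contra k
      exact hc j i e.symm (u0_off h hY e.symm k 1)
    have a2 : ∀ i j, Y i i = Y j j := fun i j => by
      by_contra k
      have e : i ≠ j := fun e => k (by rw [e])
      exact hc i j e (u0_diag h hY e k 1)
    refine Y0 (Matrix.ext fun i j => ?_)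
    rcases eq_or_ne i j with rfl | e
    · have t : ∑ k, Y k k = 0 := hI hY
      rw [Finset.sum_congr rfl fun k _ => a2 k i] at t
      simpa [i.pos.ne'] using t
    · exact a1 i j e
  have step : ∀ {i j k l : Fin d}, i ≠ j → single i j (1 : Ω) ∈ I → k ≠ l → k = i ∨ l = i →
      ∀ c : Ω, single k l c ∈ I := by
    intro i j k l e hij e' hk c
    have t : (-1 : Ω) ≠ 1 := by norm_num
    refine u0_diag h (u0_sub h e hij) e' ?_ c
    rcases hk with rfl | rfl
    · by_cases hl : j = l <;> simp [e.symm, e', hl, t, e'.symm]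
    · by_cases hl : j = k <;> simp [e.symm, e', hl, t.symm, e'.symm]
  have all : ∀ k l : Fin d, k ≠ l → ∀ c : Ω, single k l c ∈ I := fun k l e' => by
    rcases eq_or_ne k i with rfl | hk
    · exact step e hij e' (Or.inl rfl)
    · exact step hk (step e hij hk (Or.inr rfl) 1) e' (Or.inl rfl)
  intro X hX
  have t : ∑ k, X k k = 0 := hX
  have e1 : X = ∑ k, ∑ l, (single k l (X k l) - if k = l then single i i (X k l) else 0) := by
    simp only [Finset.sum_sub_distrib, Finset.sum_ite_eq, Finset.mem_univ, if_true]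
    have e2 := map_sum (singleAddMonoidHom (α := Ω) i i) (fun k => X k k) Finset.univ
    simp only [t, map_zero, singleAddMonoidHom_apply] at e2
    rw [← matrix_eq_sum_single, ← e2, sub_zero]
  rw [e1]
  refine I.sum_mem fun k _ => I.sum_mem fun l _ => ?_
  split_ifs with hk
  · subst hk
    rcases eq_or_ne i k with rfl | hi
    · simp
    · exact u0_sub h hi (all i k hi _)
  · simpa using all k l hk _

end Pool.Agent.Lib.MP_d61fbb_ag.SE
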